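import Pool.Agent.Lib.MP_be0860_lc.Sx.Lay

-- part Pool.Agent.Lib.MP_be0860_lc.Sx.Num
section

/-!
Two lemmas on integers.
-/

set_option autoImplicit false

namespace Pool.Agent.Lib.MP_be0860_lc.Sx

open Pool.Agent.Shared.PolyTime Finset

namespace NumAux

theorem mul_mem {M : AddSubmonoid ℤ} {a k : ℤ} (ha : a ∈ M) (hk : 0 ≤ k) : k * a ∈ M := by
  obtain ⟨n, rfl⟩ := Int.eq_ofNat_of_zero_le hk
  simpa using M.nsmul_mem ha n

theorem neg_mem {T : Set ℤ} (hp : ∃ x ∈ T, 0 < x) (hn : ∃ x ∈ T, x < 0) {x : ℤ}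
    (hx : x ∈ AddSubmonoid.closure T) : -x ∈ AddSubmonoid.closure T := by
  obtain ⟨p, hp, hp0⟩ := hp
  obtain ⟨y, hy, hy0⟩ := hn
  induction hx using AddSubmonoid.closure_induction with
  | mem x hx =>
    have h := AddSubmonoid.subset_closure hx
    rcases le_total 0 x with h0 | h0
    · have e : -x = (-y - 1) * x + x * y := by ring
      rw [e]
      exact add_mem (mul_mem h (by omega)) (mul_mem (AddSubmonoid.subset_closure hy) h0)
    · have e : -x = (p - 1) * x + (-x) * p := by ring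
      rw [e]
      exact add_mem (mul_mem h (by omega)) (mul_mem (AddSubmonoid.subset_closure hp) (by omega))
  | zero => simp
  | add x y _ _ hx hy =>
    rw [neg_add]
    exact add_mem hx hy

theorem mem_mon {T : Set ℤ} (hp : ∃ x ∈ T, 0 < x) (hn : ∃ x ∈ T, x < 0) {r : ℤ}
    (hr : r ∈ AddSubgroup.closure T) : r ∈ AddSubmonoid.closure T := by
  induction hr using AddSubgroup.closure_induction with
  | mem x hx => exact AddSubmonoid.subset_closure hx
  | zero => exact zero_mem _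
  | add x y _ _ hx hy => exact add_mem hx hy
  | neg x _ hx => exact neg_mem hp hn hx

theorem exists_pos (e : ℤ) : ∀ xs : List ℤ, 0 < e * xs.sum → ∃ x ∈ xs, 0 < e * x
  | [], h => by simp at h
  | x :: xs, h => by
    by_cases hx : 0 < e * x
    · exact ⟨x, List.mem_cons_self, hx⟩
    · rw [List.sum_cons, mul_add] at h
      obtain ⟨y, hy, h1⟩ := exists_pos e xs (by omega)
      exact ⟨y, List.mem_cons_of_mem _ hy, h1⟩

/-- `r` is reached from `s` in `n` steps. -/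
def Rch (T : Set ℤ) (r s : ℤ) (n : ℕ) : Prop :=
  ∃ xs : List ℤ, (∀ x ∈ xs, x ∈ T) ∧ s + xs.sum = r ∧ xs.length = n

/-- `n` is the least number of steps. -/
def Mn (T : Set ℤ) (r s : ℤ) (n : ℕ) : Prop := Rch T r s n ∧ ∀ m < n, ¬Rch T r s m

theorem step {T : Set ℤ} {L : ℕ} (hT : ∀ x ∈ T, |x| ≤ L) {r s : ℤ} {n : ℕ}
    (h : Mn T r s (n + 1)) (hs : s ∈ Icc (min 0 (r - L)) (max 0 (r + L))) :
    ∃ s' ∈ Icc (min 0 (r - L)) (max 0 (r + L)), Mn T r s' n := by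
  obtain ⟨⟨xs, h1, h2, h3⟩, h4⟩ := h
  have h0 : xs.sum ≠ 0 := fun e => h4 0 (by omega) ⟨[], by simp, by simpa [e] using h2, rfl⟩
  obtain ⟨x, hx, hx0⟩ := exists_pos xs.sum xs (mul_self_pos.2 h0)
  obtain ⟨u, v, rfl⟩ := List.append_of_mem hx
  have hb := abs_le.1 (hT x (h1 x hx))
  refine ⟨s + x, ?_, ⟨u ++ v, fun y hy => h1 y ?_, ?_, ?_⟩, ?_⟩
  · rw [mem_Icc] at hs ⊢
    rcases pos_and_pos_or_neg_and_neg_of_mul_pos hx0 with ⟨h5, h6⟩ | ⟨h5, h6⟩ <;> omega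
  · simp only [List.mem_append, List.mem_cons] at hy ⊢
    tauto
  · simp only [List.sum_append, List.sum_cons] at h2 ⊢
    omega
  · simp only [List.length_append, List.length_cons] at h3 ⊢
    omega
  · rintro m hm ⟨ys, k1, k2, k3⟩
    refine h4 (m + 1) (by omega) ⟨x :: ys, fun y hy => ?_, ?_, by simp [k3]⟩
    · rcases List.mem_cons.1 hy with rfl | hy
      · exact h1 _ hx
      · exact k1 y hy
    · rw [List.sum_cons]
      omega

theorem chain {T : Set ℤ} {L : ℕ} (hT : ∀ x ∈ T, |x| ≤ L) {r : ℤ} (n : ℕ) :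
    ∀ s ∈ Icc (min 0 (r - L)) (max 0 (r + L)), Mn T r s n →
      ∃ F ⊆ Icc (min 0 (r - L)) (max 0 (r + L)), F.card = n + 1 ∧
        ∀ t ∈ F, ∃ m ≤ n, Rch T r t m := by
  induction n with
  | zero =>
    exact fun s hs h => ⟨{s}, singleton_subset_iff.2 hs, rfl, fun t ht =>
      ⟨0, le_rfl, mem_singleton.1 ht ▸ h.1⟩⟩
  | succ n ih =>
    intro s hs h
    obtain ⟨s', hs', h'⟩ := step hT h hs
    obtain ⟨F, h1, h2, h3⟩ := ih s' hs' h'
    have h4 : s ∉ F := fun hF => by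
      obtain ⟨m, hm, h5⟩ := h3 s hF
      exact h.2 m (by omega) h5
    refine ⟨insert s F, insert_subset hs h1, by rw [card_insert_of_notMem h4, h2], fun t ht => ?_⟩
    rcases mem_insert.1 ht with rfl | ht
    · exact ⟨n + 1, le_rfl, h.1⟩
    · obtain ⟨m, hm, h5⟩ := h3 t ht
      exact ⟨m, by omega, h5⟩

end NumAux

/-- Short representations in a group generated by bounded integers of both signs. -/
theorem num_short {T : Set ℤ} {L : ℕ} (hT : ∀ x ∈ T, |x| ≤ L) (hp : ∃ x ∈ T, 0 < x)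
    (hn : ∃ x ∈ T, x < 0) {r : ℤ} (hr : r ∈ AddSubgroup.closure T) :
    ∃ xs : List ℤ, (∀ x ∈ xs, x ∈ T) ∧ xs.sum = r ∧ (xs.length : ℤ) ≤ |r| + 2 * L := by
  classical
  obtain ⟨l, h1, h2⟩ := AddSubmonoid.exists_list_of_mem_closure (NumAux.mem_mon hp hn hr)
  have hex : ∃ n, NumAux.Rch T r 0 n := ⟨_, l, h1, by rw [zero_add, h2], rfl⟩
  obtain ⟨F, h3, h4, -⟩ := NumAux.chain hT (Nat.find hex) 0 (by simp)
    ⟨Nat.find_spec hex, fun m hm => Nat.find_min hex hm⟩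
  obtain ⟨xs, k1, k2, k3⟩ := Nat.find_spec hex
  refine ⟨xs, k1, by rwa [zero_add] at k2, ?_⟩
  have h5 := card_le_card h3
  rw [Int.card_Icc, h4, ← k3] at h5
  have h6 := le_abs_self r
  have h7 := neg_abs_le r
  omega

/-- Two good positions at a given difference of height. -/
theorem first_pass {f : ℕ → ℤ} {p D : ℕ} {r : ℤ} (h0 : f 0 = 0) (hs : ∀ i, f (i + 1) ≤ f i + 1)
    (hr : 0 ≤ r) (hL : r + 2 * D ≤ f p) {U V : Finset ℕ} (hU : #U < D) (hV : #V < D) :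
    ∃ s s', s ≤ s' ∧ s' < p ∧ f s' - f s = r ∧ s ∉ U ∧ s' ∉ V := by
  have key : ∀ y : ℤ, 0 ≤ y → y < f p →
      f (sInf {i | y ≤ f i}) = y ∧ sInf {i | y ≤ f i} < p := fun y hy hp => by
    have h1 : y ≤ f (sInf {i | y ≤ f i}) := Nat.sInf_mem (s := {i | y ≤ f i}) ⟨p, hp.le⟩
    have h2 : sInf {i | y ≤ f i} ≤ p := Nat.sInf_le hp.le
    have h3 : f (sInf {i | y ≤ f i}) = y := by
      rcases Nat.eq_zero_or_eq_succ_pred (sInf {i | y ≤ f i}) with e | e
      · rw [e, h0] at h1 ⊢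
        omega
      · have h4 : ¬y ≤ f (sInf {i | y ≤ f i}).pred :=
          Nat.notMem_of_lt_sInf (s := {i | y ≤ f i}) (by omega)
        have h5 := hs (sInf {i | y ≤ f i}).pred
        rw [← Nat.succ_eq_add_one, ← e] at h5
        omega
    refine ⟨h3, lt_of_le_of_ne h2 fun e => ?_⟩
    rw [e] at h3
    omega
  obtain ⟨y, hy, hb⟩ := exists_mem_notMem_of_card_lt_card
    (s := U.image f ∪ V.image fun i => f i - r) (t := Ico (0 : ℤ) (2 * D)) (by
      have h1 := card_union_le (U.image f) (V.image fun i => f i - r)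
      have h2 := card_image_le (s := U) (f := f)
      have h3 := card_image_le (s := V) (f := fun i => f i - r)
      rw [Int.card_Ico]
      omega)
  rw [mem_Ico] at hy
  obtain ⟨h1, -⟩ := key y hy.1 (by omega)
  obtain ⟨h2, h3⟩ := key (y + r) (by omega) (by omega)
  refine ⟨sInf {i | y ≤ f i}, sInf {i | y + r ≤ f i},
    Nat.sInf_le (show y ≤ f (sInf {i | y + r ≤ f i}) by omega), h3, by omega,
    fun h => hb ?_, fun h => hb ?_⟩
  · exact mem_union_left _ (mem_image.2 ⟨_, h, h1⟩)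
  · exact mem_union_right _ (mem_image.2 ⟨_, h, by omega⟩)

end Pool.Agent.Lib.MP_be0860_lc.Sx
end

-- part Pool.Agent.Lib.MP_be0860_lc.Sx.Sig
section

/-!
Mixtures as tables.
-/

set_option autoImplicit false

namespace Pool.Agent.Lib.MP_be0860_lc.Sx

open Pool.Agent.Shared.PolyTime Finset

variable {N : ℕ}

theorem sig_headD {l : List ℕ} {p : ℕ → Bool} {x : ℕ} (hx : x ∈ l) (hp : p x = true) :
    (l.filter p).headD 0 ∈ l ∧ p ((l.filter p).headD 0) = true := by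
  have h : x ∈ l.filter p := List.mem_filter.2 ⟨hx, hp⟩
  cases e : l.filter p with
  | nil => rw [e] at h; cases h
  | cons y t =>
    have : y ∈ l.filter p := by rw [e]; exact List.mem_cons_self
    exact List.mem_filter.1 this

theorem sig_iter {S : Finset ℕ} {f : ℕ → ℕ} (hf : ∀ a ∈ S, f a ∈ S) {a : ℕ} (ha : a ∈ S) (i : ℕ) :
    ∃ k < S.card, f^[k] a = f^[i] a := by
  have hm : ∀ k, f^[k] a ∈ S := fun k => by
    induction k with
    | zero => exact ha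
    | succ k ih => rw [Function.iterate_succ_apply']; exact hf _ ih
  induction i using Nat.strong_induction_on with
  | _ i ih =>
    rcases lt_or_ge i S.card with h | h
    · exact ⟨i, h, rfl⟩
    have key : ∀ p q, p < q → q ≤ S.card → f^[p] a = f^[q] a → ∃ k < S.card, f^[k] a = f^[i] a := by
      intro p q h1 h2 e
      obtain ⟨k, hk, e'⟩ := ih (i - q + p) (by omega)
      refine ⟨k, hk, ?_⟩
      rw [e', Function.iterate_add_apply, e, ← Function.iterate_add_apply,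
        Nat.sub_add_cancel (h2.trans h)]
    obtain ⟨p, hp, q, hq, hne, e⟩ := Finset.exists_ne_map_eq_of_card_lt_of_maps_to
      (s := range (S.card + 1)) (t := S) (by simp) (f := fun k => f^[k] a) fun k _ => hm k
    rw [mem_range] at hp hq
    rcases lt_or_gt_of_ne hne with h1 | h1
    · exact key p q h1 (by omega) e
    · exact key q p h1 (by omega) e.symm

theorem sig_spec {A : Vs} {B : Finset ℕ} {E : Er} {s : Tb × Tb} (h₁ : PM (fs N A) B E (gt s.1))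
    (h₂ : PM (fs N A) B E (gt s.2)) : ∀ a ∈ fs N A, (sig N A s).getD a 0 ∈ fs N A ∧
      (gt s.1 ((sig N A s).getD a 0)).1 = (gt s.2 a).1 := by
  intro a ha
  obtain ⟨b, hb, e⟩ := h₁.2.surjOn (h₂.2.mapsTo (mem_coe.2 ha))
  have hb' := mem_fs.1 (mem_coe.1 hb)
  have h := sig_headD (l := List.range N)
    (p := fun a' => vs A a' && (gt s.1 a').1 == (gt s.2 a).1) (List.mem_range.2 hb'.1)
    (by simpa [hb'.2] using e)
  have e2 : (sig N A s).getD a 0 = ((List.range N).filter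
      fun a' => vs A a' && (gt s.1 a').1 == (gt s.2 a).1).headD 0 := by
    simp [sig, List.getD_eq_getElem?_getD, (mem_fs.1 ha).1]
  rw [e2]
  simp only [Bool.and_eq_true, beq_iff_eq, List.mem_range] at h
  exact ⟨mem_fs.2 ⟨h.1, h.2.1⟩, h.2.2⟩

theorem baseT_spec {A : Vs} {B : Finset ℕ} {E : Er} {s : Tb × Tb} (hB : B ⊆ range N)
    (h₁ : PM (fs N A) B E (gt s.1)) (h₂ : PM (fs N A) B E (gt s.2)) (j y len : ℕ) :
    ∀ a ∈ fs N A, gt (baseT N (sig N A s) s j y len) a =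
      base (fun x => (sig N A s).getD x 0) (gt s.1) (gt s.2) j y len a := by
  intro a ha
  have k1 : (gt s.1 a).1 ≤ N := (mem_range.1 (hB (h₁.mem ha))).le
  have k2 : (gt s.2 a).1 ≤ N := (mem_range.1 (hB (h₂.mem ha))).le
  have e : (((List.range N).any fun i => Nat.blt (itS (sig N A s) i a) j) ||
      (List.range len).any fun i => itS (sig N A s) i y == a) = true ↔
      (∃ i, (fun x => (sig N A s).getD x 0)^[i] a < j) ∨
        ∃ i < len, (fun x => (sig N A s).getD x 0)^[i] y = a := by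
    simp only [Bool.or_eq_true, List.any_eq_true, List.mem_range, Nat.blt_eq, beq_iff_eq, itS]
    refine or_congr ⟨fun ⟨i, _, h⟩ => ⟨i, h⟩, fun ⟨i, h⟩ => ?_⟩ Iff.rfl
    obtain ⟨k, hk, e⟩ := sig_iter (fun a ha => (sig_spec h₁ h₂ a ha).1) ha i
    exact ⟨k, hk.trans_le (card_fs_le A), e ▸ h⟩
  rw [baseT, base]
  split_ifs with h
  · rw [gt_mkT (mem_fs.1 ha).1 (by rw [e.2 h]; exact k2), e.2 h, cond_true]
  · have h' := Bool.eq_false_iff.2 (mt e.1 h)
    rw [gt_mkT (mem_fs.1 ha).1 (by rw [h']; exact k1), h', cond_false]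

end Pool.Agent.Lib.MP_be0860_lc.Sx
end

-- part Pool.Agent.Lib.MP_be0860_lc.Sx.Cut
section

/-!
The meaning of a cut.
-/

set_option autoImplicit false

namespace Pool.Agent.Lib.MP_be0860_lc.Sx

open Pool.Agent.Shared.PolyTime Finset

variable {N : ℕ}

theorem mem_reachS {R : List (List Bool)} {S : Vs} {v : ℕ} : v ∈ fs N (reachS N R S) ↔
    v ∈ fs N S ∨ (v < N ∧ ∃ u ∈ fs N S, entry R u v = true) := by
  unfold reachS
  rw [mem_fs_mkV]
  simp only [mem_fs, Bool.or_eq_true, List.any_eq_true, List.mem_range, Bool.and_eq_true]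
  constructor
  · rintro ⟨h, h1 | ⟨u, h1, h2, h3⟩⟩
    · exact Or.inl ⟨h, h1⟩
    · exact Or.inr ⟨h, u, ⟨h1, h2⟩, h3⟩
  · rintro (⟨h, h1⟩ | ⟨h, u, ⟨h1, h2⟩, h3⟩)
    · exact ⟨h, Or.inl h1⟩
    · exact ⟨h, Or.inr ⟨u, h1, h2, h3⟩⟩

theorem reach_grow (R : List (List Bool)) {S : Vs} (hS : (fs N S).Nonempty) (i : ℕ) :
    fs N (reachS N R ((reachS N R)^[i] S)) = fs N ((reachS N R)^[i] S) ∨
      i < (fs N ((reachS N R)^[i] S)).card := by
  induction i with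
  | zero => exact Or.inr (card_pos.2 hS)
  | succ i ih =>
    rw [Function.iterate_succ_apply']
    generalize (reachS N R)^[i] S = T at ih
    by_cases h : fs N (reachS N R T) = fs N T
    · left
      ext v
      rw [mem_reachS (S := reachS N R T), h]
      rw [← mem_reachS, h]
    · right
      have h1 : fs N T ⊂ fs N (reachS N R T) :=
        Finset.ssubset_iff_subset_ne.2 ⟨fun v hv => mem_reachS.2 (Or.inl hv), Ne.symm h⟩
      have := card_lt_card h1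
      rcases ih with ih | ih
      · exact absurd ih h
      · omega

theorem reach_spec {R : List (List Bool)} {r : ℕ → ℕ → Prop}
    (h : ∀ u v, r u v ↔ u < N ∧ v < N ∧ entry R u v = true) {a : ℕ} (ha : a < N) :
    fs N (reach N R a) = rch N r a := by
  classical
  have h0 : a ∈ fs N (mkV N fun v => v == a) := mem_fs_mkV.2 ⟨ha, by simp⟩
  have hs : ∀ i, a ∈ fs N ((reachS N R)^[i] (mkV N fun v => v == a)) ∧
      ∀ v ∈ fs N ((reachS N R)^[i] (mkV N fun v => v == a)), Relation.ReflTransGen r a v := by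
    intro i
    induction i with
    | zero =>
      refine ⟨h0, fun v hv => ?_⟩
      have := (mem_fs_mkV.1 hv).2
      rw [beq_iff_eq] at this
      rw [this]
    | succ i ih =>
      rw [Function.iterate_succ_apply']
      refine ⟨mem_reachS.2 (Or.inl ih.1), fun v hv => ?_⟩
      rcases mem_reachS.1 hv with hv | ⟨hv, u, hu, e⟩
      · exact ih.2 v hv
      · exact (ih.2 u hu).tail ((h u v).2 ⟨(mem_fs.1 hu).1, hv, e⟩)
  have hc : fs N (reachS N R (reach N R a)) = fs N (reach N R a) :=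
    (reach_grow R ⟨a, h0⟩ N).resolve_right (not_lt.2 (card_fs_le _))
  ext v
  unfold rch
  rw [mem_filter, mem_range]
  refine ⟨fun hv => ⟨(mem_fs.1 hv).1, (hs N).2 v hv⟩, fun ⟨_, hv⟩ => ?_⟩
  clear * - hv hs hc h
  induction hv with
  | refl => exact (hs N).1
  | tail _ e ih =>
    rw [← hc]
    exact mem_reachS.2 (Or.inr ⟨((h _ _).1 e).2.1, _, ih, ((h _ _).1 e).2.2⟩)

theorem countP_vs (S : Vs) : (List.range N).countP (fun v => vs S v) = (fs N S).card := by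
  unfold fs
  rw [List.countP_eq_length_filter, ← List.toFinset_card_of_nodup (List.nodup_range.filter _)]
  congr 1
  ext v
  simp

theorem clT_spec {R : List (List Bool)} {r : ℕ → ℕ → Prop}
    (h : ∀ u v, r u v ↔ u < N ∧ v < N ∧ entry R u v = true) (A : Vs) (θ : ℕ) :
    fs N (clT N A R θ) = cl N (fs N A) r θ := by
  classical
  ext x
  unfold clT cl
  rw [mem_fs_mkV, mem_filter, mem_range]
  refine and_congr_right fun hx => ?_
  simp only [List.any_eq_true, List.mem_range, Bool.and_eq_true, Nat.blt_eq, countP_vs]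
  constructor
  · rintro ⟨a, ha, ⟨h1, h2⟩, h3⟩
    rw [reach_spec h ha] at h2
    exact ⟨a, mem_fs.2 ⟨ha, h1⟩, h2, reach_spec h ha ▸ mem_fs.2 ⟨hx, h3⟩⟩
  · rintro ⟨a, ha, h2, h3⟩
    obtain ⟨ha, h1⟩ := mem_fs.1 ha
    rw [← reach_spec h ha] at h2 h3
    exact ⟨a, ha, ⟨h1, h2⟩, (mem_fs.1 h3).2⟩

theorem cutX_spec {A : Vs} {H : Es} {H' : Er} {t : Tb} (Z : List ℕ) (θ : ℕ)
    (hH : ∀ u ∈ fs N A, ∀ v ∈ fs N A, ∀ c, er H u ((gt t v).1, c) ↔ H' u ((gt t v).1, c)) :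
    fs N (cutX N A H t Z θ) =
      cl N (fs N A \ Z.toFinset) (arcR (fs N A \ Z.toFinset) H' (gt t)) θ := by
  have e : fs N (mkV N fun a => vs A a && !Z.contains a) = fs N A \ Z.toFinset := by
    ext a
    simp [mem_fs, vs_mkV, and_assoc]
  unfold cutX
  rw [clT_spec (r := arcR (fs N A \ Z.toFinset) H' (gt t)), e]
  intro u v
  unfold arcR arcT entry adj
  rw [← e]
  constructor
  · rintro ⟨hu, hv, c, hc⟩
    have hu' := mem_fs.1 hu
    have hv' := mem_fs.1 hv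
    rw [e] at hu hv
    have := (hH u (mem_sdiff.1 hu).1 v (mem_sdiff.1 hv).1 c).2 hc
    refine ⟨hu'.1, hv'.1, ?_⟩
    rw [getD_tab, if_pos ⟨hu'.1, hv'.1⟩, hu'.2, hv'.2]
    unfold er at this
    cases c <;> simp [this]
  · rintro ⟨hu, hv, hc⟩
    rw [getD_tab, if_pos ⟨hu, hv⟩] at hc
    simp only [Bool.and_eq_true, Bool.or_eq_true] at hc
    have hu' := mem_fs.2 ⟨hu, hc.1.1⟩
    have hv' := mem_fs.2 ⟨hv, hc.1.2⟩
    refine ⟨hu', hv', ?_⟩
    rw [e] at hu' hv'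
    rcases hc.2 with h | h
    · exact ⟨false, (hH u (mem_sdiff.1 hu').1 v (mem_sdiff.1 hv').1 _).1 h⟩
    · exact ⟨true, (hH u (mem_sdiff.1 hu').1 v (mem_sdiff.1 hv').1 _).1 h⟩

theorem er_thrT (E : Es) (R : Cs) (a₀ : ℕ) (x₀ : ℕ × Bool) {a : ℕ} {x : ℕ × Bool} (ha : a < N)
    (hx : x.1 < N) : er (thrT N E R a₀ x₀) a x ↔ thr (er E) (cs R) a₀ x₀ a x := by
  unfold thrT thr
  rw [er_mkE]
  simp [ha, hx, er]

/-- The two instances produced by a cut. -/
theorem cutH_spec (J : Jn) (H : Es) (t : Tb) (keep : Bool) (Z S : Finset ℕ) (θ k₁ k₂ : ℕ) (m : Mt)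
    (hZ : Z ⊆ fs N J.1) (ht : ∀ a ∈ fs N J.1, (gt t a).1 < N) (h₁ : k₁ ≤ N) (h₂ : k₂ ≤ N)
    {X : Finset ℕ} (hX : X = fs N (cutX N J.1 H t Z.toList θ)) (hXA : X ⊆ fs N J.1) {C : Jn × Jn}
    (hC : C = cutH N J H t keep Z.toList θ (S.toList.map fun a => (a, m a)) k₁ k₂) :
    fs N C.1.1 = X \ S ∧ fs N C.1.2.1 = (fs N J.2.1 ∩ img (gt t) (X ∪ Z)) \ img m S ∧
    fs N C.2.1 = (fs N J.1 \ X) \ S ∧ fs N C.2.2.1 = (fs N J.2.1 \ img (gt t) (X ∪ Z)) \ img m S ∧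
    C.1.2.2.2 = k₁ ∧ C.2.2.2.2 = k₂ ∧ C.2.2.2.1 = C.1.2.2.1 ∧
    ∀ a < N, ∀ x : ℕ × Bool, x.1 < N → (er C.1.2.2.1 a x ↔ er (cond keep J.2.2.1 H) a x) := by
  subst hC
  unfold cutH parts
  generalize cutX N J.1 H t Z.toList θ = X' at hX
  have hx : ∀ a < N, (vs X' a = true ↔ a ∈ X) := fun a ha => by simp [hX, mem_fs, ha]
  have f1 : ∀ a, ((S.toList.map fun a => (a, m a)).any fun p => p.1 == a) = true ↔ a ∈ S := by
    simp
  have f2 : ∀ b, ((S.toList.map fun a => (a, m a)).any fun p => p.2.1 == b) = true ↔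
      b ∈ img m S := by
    simp [img]
  have f3 : ∀ b < N, (vs (imgT N t (mkV N fun a => vs X' a || (vs J.1 a && Z.toList.contains a)))
      b = true ↔ b ∈ img (gt t) (X ∪ Z)) := by
    intro b hb
    unfold imgT img
    simp only [vs_mkV, List.any_eq_true, List.mem_range, Bool.and_eq_true, Bool.or_eq_true,
      beq_iff_eq, mem_image, mem_union, List.contains_iff_mem, mem_toList]
    constructor
    · rintro ⟨-, a, ha, ⟨-, h | h⟩, e⟩
      · exact ⟨a, Or.inl ((hx a ha).1 h), e⟩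
      · exact ⟨a, Or.inr h.2, e⟩
    · rintro ⟨a, h | h, e⟩
      · have ha := (mem_fs.1 (hXA h)).1
        exact ⟨hb, a, ha, ⟨ha, Or.inl ((hx a ha).2 h)⟩, e⟩
      · have ha := mem_fs.1 (hZ h)
        exact ⟨hb, a, ha.1, ⟨ha.1, Or.inr ⟨ha.2, h⟩⟩, e⟩
  refine ⟨?_, ?_, ?_, ?_, min_eq_left h₁, min_eq_left h₂, rfl, fun a ha x hx => ?_⟩
  · ext a
    rw [mem_fs_mkV]
    simp only [Bool.and_eq_true, Bool.not_eq_true', ← Bool.not_eq_true, f1, mem_sdiff]
    exact ⟨fun ⟨h, ⟨_, h2⟩, h3⟩ => ⟨(hx a h).1 h2, h3⟩, fun ⟨h, h3⟩ =>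
      ⟨(mem_fs.1 (hXA h)).1, ⟨(mem_fs.1 (hXA h)).2, (hx a (mem_fs.1 (hXA h)).1).2 h⟩, h3⟩⟩
  · ext b
    rw [mem_fs_mkV]
    simp only [Bool.and_eq_true, Bool.not_eq_true', ← Bool.not_eq_true, f2, mem_sdiff,
      mem_inter, mem_fs]
    exact ⟨fun ⟨h, ⟨h1, h2⟩, h3⟩ => ⟨⟨⟨h, h1⟩, (f3 b h).1 h2⟩, h3⟩,
      fun ⟨⟨⟨h, h1⟩, h2⟩, h3⟩ => ⟨h, ⟨h1, (f3 b h).2 h2⟩, h3⟩⟩
  · ext a
    rw [mem_fs_mkV]
    simp only [Bool.and_eq_true, Bool.not_eq_true', ← Bool.not_eq_true, f1, mem_sdiff,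
      mem_fs]
    exact ⟨fun ⟨h, ⟨h1, h2⟩, h3⟩ => ⟨⟨⟨h, h1⟩, fun h4 => h2 ((hx a h).2 h4)⟩, h3⟩,
      fun ⟨⟨⟨h, h1⟩, h2⟩, h3⟩ => ⟨h, ⟨h1, fun h4 => h2 ((hx a h).1 h4)⟩, h3⟩⟩
  · ext b
    rw [mem_fs_mkV]
    simp only [Bool.and_eq_true, Bool.not_eq_true', ← Bool.not_eq_true, f2, mem_sdiff,
      mem_fs]
    exact ⟨fun ⟨h, ⟨h1, h2⟩, h3⟩ => ⟨⟨⟨h, h1⟩, fun h4 => h2 ((f3 b h).2 h4)⟩, h3⟩,
      fun ⟨⟨⟨h, h1⟩, h2⟩, h3⟩ => ⟨h, ⟨h1, fun h4 => h2 ((f3 b h).1 h4)⟩, h3⟩⟩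
  · dsimp only
    rw [er_mkE]
    simp [ha, hx, er]

end Pool.Agent.Lib.MP_be0860_lc.Sx
end

-- part Pool.Agent.Lib.MP_be0860_lc.Sx.Split
section

/-!
Splitting a graph that does not expand.
-/

set_option autoImplicit false

namespace Pool.Agent.Lib.MP_be0860_lc.Sx

open Pool.Agent.Shared.PolyTime Finset

theorem mem_rch {N a v : ℕ} {r : ℕ → ℕ → Prop} :
    v ∈ rch N r a ↔ v < N ∧ Relation.ReflTransGen r a v := by
  classical
  simp only [rch, mem_filter, mem_range]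

theorem mem_cl {N θ x : ℕ} {A : Finset ℕ} {r : ℕ → ℕ → Prop} :
    x ∈ cl N A r θ ↔ x < N ∧ ∃ a ∈ A, (rch N r a).card * N + a < θ ∧ x ∈ rch N r a := by
  classical
  simp only [cl, mem_filter, mem_range]

theorem rtg_closed {X : Finset ℕ} {r : ℕ → ℕ → Prop} (hc : ∀ a ∈ X, ∀ b, r a b → b ∈ X)
    {a b : ℕ} (ha : a ∈ X) (h : Relation.ReflTransGen r a b) : b ∈ X := by
  induction h with
  | refl => exact ha
  | tail _ h2 ih => exact hc _ ih _ h2

theorem card_rch_le (N a : ℕ) (r : ℕ → ℕ → Prop) : (rch N r a).card ≤ N := by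
  classical
  have h : rch N r a ⊆ range N := fun v hv => mem_range.2 (mem_rch.1 hv).1
  simpa using card_le_card h

theorem cl_subset' {N θ : ℕ} {A : Finset ℕ} {r : ℕ → ℕ → Prop} (hr : ∀ a b, r a b → b ∈ A) :
    cl N A r θ ⊆ A := by
  intro x hx
  obtain ⟨_, a, ha, _, hxa⟩ := mem_cl.1 hx
  exact rtg_closed (fun a _ b h => hr a b h) ha (mem_rch.1 hxa).2

theorem cl_top' {N : ℕ} {A : Finset ℕ} (hA : A ⊆ range N) {r : ℕ → ℕ → Prop}
    (hr : ∀ a b, r a b → b ∈ A) : cl N A r ((N + 1) * N) = A := by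
  refine Subset.antisymm (cl_subset' hr) fun x hx => ?_
  have hxN : x < N := mem_range.1 (hA hx)
  refine mem_cl.2 ⟨hxN, x, hx, ?_, mem_rch.2 ⟨hxN, Relation.ReflTransGen.refl⟩⟩
  have h1 : (rch N r x).card * N ≤ N * N := Nat.mul_le_mul_right N (card_rch_le N x r)
  have h2 : (N + 1) * N = N * N + N := by ring
  omega

theorem cl_zero {N : ℕ} {A : Finset ℕ} {r : ℕ → ℕ → Prop} : cl N A r 0 = ∅ := by
  refine eq_empty_of_forall_notMem fun x hx => ?_
  obtain ⟨_, a, _, h, _⟩ := mem_cl.1 hx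
  omega

theorem cl_new {N θ x : ℕ} {A : Finset ℕ} {r : ℕ → ℕ → Prop} (hA : A ⊆ range N)
    (hr : ∀ a b, r a b → b ∈ A) (hx : x ∈ cl N A r (θ + 1)) (hx' : x ∉ cl N A r θ) :
    Relation.ReflTransGen r (θ % N) x ∧ Relation.ReflTransGen r x (θ % N) := by
  have hxA : x ∈ A := cl_subset' hr hx
  obtain ⟨hxN, a, ha, hk, hxa⟩ := mem_cl.1 hx
  have haN : a < N := mem_range.1 (hA ha)
  have hk' : ¬ (rch N r a).card * N + a < θ := fun h => hx' (mem_cl.2 ⟨hxN, a, ha, h, hxa⟩)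
  have hθ : θ = (rch N r a).card * N + a := by omega
  have hm : θ % N = a := by
    rw [hθ, Nat.mul_add_mod_self_right, Nat.mod_eq_of_lt haN]
  rw [hm]
  refine ⟨(mem_rch.1 hxa).2, ?_⟩
  by_contra hn
  have hsub : rch N r x ⊆ rch N r a := fun v hv =>
    mem_rch.2 ⟨(mem_rch.1 hv).1, (mem_rch.1 hxa).2.trans (mem_rch.1 hv).2⟩
  have hss : rch N r x ⊂ rch N r a := by
    refine (ssubset_iff_of_subset hsub).2 ⟨a, mem_rch.2 ⟨haN, Relation.ReflTransGen.refl⟩, ?_⟩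
    exact fun h => hn (mem_rch.1 h).2
  have hlt : (rch N r x).card + 1 ≤ (rch N r a).card := card_lt_card hss
  have h1 : ((rch N r x).card + 1) * N ≤ (rch N r a).card * N := Nat.mul_le_mul_right N hlt
  have h2 : ((rch N r x).card + 1) * N = (rch N r x).card * N + N := by ring
  exact hx' (mem_cl.2 ⟨hxN, x, hxA, by omega, mem_rch.2 ⟨hxN, Relation.ReflTransGen.refl⟩⟩)

theorem cl_subset {N θ : ℕ} {A : Finset ℕ} {H : Er} {m : Mt} : cl N A (arcR A H m) θ ⊆ A := by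
  exact cl_subset' fun _ _ h => h.2.1

theorem cl_top {N : ℕ} {A : Finset ℕ} (hA : A ⊆ range N) {H : Er} {m : Mt} :
    cl N A (arcR A H m) ((N + 1) * N + 0) = A := by
  exact cl_top' hA fun _ _ h => h.2.1

/-- A member of the chain of closed sets is balanced. -/
theorem exists_cl {N u : ℕ} {A X : Finset ℕ} {r : ℕ → ℕ → Prop} (hA : A ⊆ range N)
    (hr : ∀ a b, r a b → b ∈ A) (hX : X ⊆ A) (hc : ∀ a ∈ X, ∀ b, r a b → b ∈ X)
    (h1 : u ≤ #X) (h2 : #X + u ≤ #A) :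
    ∃ θ ≤ (N + 1) * N, u ≤ 2 * #(cl N A r θ) ∧ 2 * #(cl N A r θ) + u ≤ 2 * #A := by
  classical
  have htop : u ≤ 2 * (cl N A r ((N + 1) * N)).card := by
    rw [cl_top' hA hr]
    omega
  have hex : ∃ θ, u ≤ 2 * (cl N A r θ).card := ⟨_, htop⟩
  refine ⟨Nat.find hex, Nat.find_min' hex htop, Nat.find_spec hex, ?_⟩
  rcases hθ : Nat.find hex with _ | θ
  · rw [cl_zero, card_empty]
    omega
  · have hmin : ¬ u ≤ 2 * (cl N A r θ).card := Nat.find_min hex (by omega)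
    have hnew : (cl N A r (θ + 1) \ cl N A r θ).card + u ≤ A.card := by
      by_cases ha : θ % N ∈ X
      · have hs : cl N A r (θ + 1) \ cl N A r θ ⊆ X := fun x hx =>
          rtg_closed hc ha (cl_new hA hr (mem_sdiff.1 hx).1 (mem_sdiff.1 hx).2).1
        have := card_le_card hs
        omega
      · have hs : cl N A r (θ + 1) \ cl N A r θ ⊆ A \ X := fun x hx =>
          mem_sdiff.2 ⟨cl_subset' hr (mem_sdiff.1 hx).1, fun hxX =>
            ha (rtg_closed hc hxX (cl_new hA hr (mem_sdiff.1 hx).1 (mem_sdiff.1 hx).2).2)⟩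
        have h3 := card_le_card hs
        have h4 := card_sdiff_add_card_eq_card hX
        omega
    have h5 := le_card_sdiff (cl N A r θ) (cl N A r (θ + 1))
    omega

end Pool.Agent.Lib.MP_be0860_lc.Sx
end

-- part Pool.Agent.Lib.MP_be0860_lc.Sx.Pack
section

/-!
Packing short cycles, potentials and averaging.
-/

set_option autoImplicit false

namespace Pool.Agent.Lib.MP_be0860_lc.Sx

open Pool.Agent.Shared.PolyTime Finset

/-- Disjoint short cycles with prescribed labels. -/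
theorem pack {A B : Finset ℕ} {H : Er} {M : Mt} (hM : PM A B H M) {L n : ℕ} (xs : List ℤ)
    (hn : xs.length ≤ n)
    (hx : ∀ x ∈ xs, ∀ W : Finset ℕ, #W ≤ n * L → ∃ s l, Ch s l s ∧ (l.map Prod.fst).Nodup ∧
      Wk (A \ W) H M l ∧ l.length ≤ L ∧ gain lc M l = x) :
    ∃ (m : Mt) (U : Finset ℕ), PM A B H m ∧ (lab A m : ℤ) = lab A M + xs.sum ∧
      #U ≤ xs.length * L ∧ ∀ a, a ∉ U → m a = M a := by
  induction xs with
  | nil => exact ⟨M, ∅, hM, by simp, by simp, fun _ _ => rfl⟩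
  | cons x xs ih =>
    have hn' : xs.length + 1 ≤ n := by simpa using hn
    obtain ⟨m, U, hm, hlab, hU, hmU⟩ :=
      ih (by omega) fun y hy => hx y (List.mem_cons_of_mem _ hy)
    have hUn : #U ≤ n * L := hU.trans (Nat.mul_le_mul_right _ (by omega))
    obtain ⟨s, l, hc, hnd, hw, hl, hg⟩ := hx x List.mem_cons_self U hUn
    have e1 : ∀ p ∈ l, m p.1 = M p.1 := fun p hp => hmU _ (mem_sdiff.1 (hw p hp).1).2
    have e2 : ∀ p ∈ l, m p.2.1 = M p.2.1 := fun p hp => hmU _ (mem_sdiff.1 (hw p hp).2.1).2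
    have hw' : Wk A H m l := fun p hp =>
      ⟨(mem_sdiff.1 (hw p hp).1).1, (mem_sdiff.1 (hw p hp).2.1).1, by
        rw [e2 p hp]; exact (hw p hp).2.2⟩
    have hg' : gain lc m l = gain lc M l := by
      unfold gain
      congr 1
      refine List.map_congr_left fun p hp => ?_
      rw [e1 p hp, e2 p hp]
    obtain ⟨m', h1, h2⟩ := exists_rot m hnd
    obtain ⟨hm', hv⟩ := rot_pm hm.2 (fun a ha _ => hm.1 a ha) hc hnd hw' h1 fun a _ h => h2 a h
    refine ⟨m', U ∪ (l.map Prod.fst).toFinset, hm', ?_, ?_, fun a ha => ?_⟩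
    · have := hv lc
      unfold lab at hlab ⊢
      rw [this, hlab, hg', hg, List.sum_cons]
      ring
    · have h3 : ((l.map Prod.fst).toFinset).card ≤ L :=
        (List.toFinset_card_le _).trans (by simpa using hl)
      have h4 := card_union_le U (l.map Prod.fst).toFinset
      rw [List.length_cons, Nat.succ_mul]
      omega
    · rw [mem_union, not_or, List.mem_toFinset] at ha
      rw [h2 a ha.2, hmU a ha.1]

/-- A vertex whose partner is not a forced partner lies outside `U`. -/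
theorem out_of_head {A B U S : Finset ℕ} {E : Er} {M Ms : Mt} (hs : PM A B E Ms)
    (hU' : ∀ a ∈ A, ∀ a' ∈ A, a' ∈ U → (Ms a).1 = (M a').1 → a ∈ S) {x : ℕ} (hx : x ∈ A)
    (hb : (M x).1 ∈ B \ img Ms S) : x ∉ U := by
  intro hxU
  obtain ⟨hb1, hb2⟩ := mem_sdiff.1 hb
  obtain ⟨a, ha, e⟩ := hs.2.surjOn (mem_coe.2 hb1)
  exact hb2 (mem_image.2 ⟨a, hU' a (mem_coe.1 ha) x hx hxU e, e⟩)

theorem lab_cast (A : Finset ℕ) (m : Mt) : (lab A m : ℤ) = ∑ a ∈ A, (lc a (m a) : ℤ) := by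
  unfold lab val
  push_cast
  rfl

/-- If short closed walks have labels divisible by `d`, the label of a matching of the core is
determined modulo `d`. -/
theorem core_mod {A B W U S : Finset ℕ} {E H : Er} {M Ms : Mt} {h L d : ℕ} (hM : PM A B H M)
    (hs : PM A B E Ms) (hWU : W ⊆ U) (hS : S ⊆ A) (hU : ∀ a ∈ A, a ∈ U → a ∈ S)
    (hU' : ∀ a ∈ A, ∀ a' ∈ A, a' ∈ U → (Ms a).1 = (M a').1 → a ∈ S)
    (hp : ∀ a ∈ A, ∀ a' ∈ A, a ∉ U → a' ∉ U →
      ∃ l, Ch a l a' ∧ Wk (A \ W) H M l ∧ l.length ≤ h) (hL : 2 * h + 1 ≤ L)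
    (hd : ∀ s l, Ch s l s → Wk (A \ W) H M l → l.length ≤ L → (d : ℤ) ∣ gain lc M l)
    {m m' : Mt} (hm : PM (A \ S) (B \ img Ms S) H m) (hm' : PM (A \ S) (B \ img Ms S) H m') :
    (d : ℤ) ∣ (lab (A \ S) m : ℤ) - lab (A \ S) m' := by
  rcases (A \ S).eq_empty_or_nonempty with h0 | ⟨r, hr⟩
  · rw [h0]
    simp [lab, val]
  have hout : ∀ a ∈ A \ S, a ∉ U := fun a ha haU =>
    (mem_sdiff.1 ha).2 (hU a (mem_sdiff.1 ha).1 haU)
  have hrA : r ∈ A := (mem_sdiff.1 hr).1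
  have hrU : r ∉ U := hout r hr
  choose! w hw1 hw2 hw3 using hp
  have hτ : ∀ b ∈ B, ∃ a ∈ A, (M a).1 = b := fun b hb => hM.2.surjOn (mem_coe.2 hb)
  choose! τ hτ1 hτ2 using hτ
  have key : ∀ m : Mt, PM (A \ S) (B \ img Ms S) H m → (d : ℤ) ∣ (lab (A \ S) m : ℤ) -
      (∑ a ∈ A \ S, ((lc a (M a) : ℤ) - gain lc M (w r a)) +
        ∑ b ∈ B \ img Ms S, gain lc M (w r (τ b))) := by
    intro m hm
    rw [← hm.sum_head (fun b => gain lc M (w r (τ b))), lab_cast, ← sum_add_distrib,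
      ← sum_sub_distrib]
    refine dvd_sum fun a ha => ?_
    have haA : a ∈ A := (mem_sdiff.1 ha).1
    have haU : a ∉ U := hout a ha
    have hb : (m a).1 ∈ B \ img Ms S := hm.mem ha
    have hbB : (m a).1 ∈ B := (mem_sdiff.1 hb).1
    have h1 : τ (m a).1 ∈ A := hτ1 _ hbB
    have h2 : (M (τ (m a).1)).1 = (m a).1 := hτ2 _ hbB
    have h3 : τ (m a).1 ∉ U := out_of_head hs hU' h1 (by rw [h2]; exact hb)
    generalize τ (m a).1 = a' at h1 h2 h3
    have harc : Wk (A \ W) H M [(a, a', (m a).2)] := by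
      intro p hp
      rw [List.mem_singleton] at hp
      subst hp
      refine ⟨mem_sdiff.2 ⟨haA, fun h => haU (hWU h)⟩, mem_sdiff.2 ⟨h1, fun h => h3 (hWU h)⟩, ?_⟩
      show H a ((M a').1, (m a).2)
      rw [h2]
      exact hm.1 a ha
    have hga : gain lc M [(a, a', (m a).2)] = (lc a (m a) : ℤ) - lc a (M a) := by
      simp [gain, h2]
    have c1 : Ch r (w r a ++ [(a, a', (m a).2)] ++ w a' r) r :=
      ch_append.2 ⟨a', ch_append.2 ⟨a, hw1 r hrA a haA hrU haU, rfl, rfl⟩,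
        hw1 a' h1 r hrA h3 hrU⟩
    have c2 : Ch r (w r a' ++ w a' r) r :=
      ch_append.2 ⟨a', hw1 r hrA a' h1 hrU h3, hw1 a' h1 r hrA h3 hrU⟩
    have l1 := hw3 r hrA a haA hrU haU
    have l2 := hw3 a' h1 r hrA h3 hrU
    have l3 := hw3 r hrA a' h1 hrU h3
    have d1 := hd r _ c1 (((hw2 r hrA a haA hrU haU).append harc).append (hw2 a' h1 r hrA h3 hrU))
      (by simp only [List.length_append, List.length_singleton]; omega)
    have d2 := hd r _ c2 ((hw2 r hrA a' h1 hrU h3).append (hw2 a' h1 r hrA h3 hrU))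
      (by simp only [List.length_append]; omega)
    rw [gain_append, gain_append, hga] at d1
    rw [gain_append] at d2
    have d3 := dvd_sub d1 d2
    have e3 : (lc a (m a) : ℤ) - ((lc a (M a) : ℤ) - gain lc M (w r a) + gain lc M (w r a')) =
        gain lc M (w r a) + ((lc a (m a) : ℤ) - lc a (M a)) + gain lc M (w a' r) -
          (gain lc M (w r a') + gain lc M (w a' r)) := by ring
    rw [e3]
    exact d3
  have := dvd_sub (key m hm) (key m' hm')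
  rwa [sub_sub_sub_cancel_right] at this

/-- If short closed walks have labels of one sign, the label of `M` is nearly extreme. -/
theorem core_sign {A B W U S : Finset ℕ} {E H : Er} {M Ms : Mt} {h L P : ℕ} (e : ℤ)
    (he : e = 1 ∨ e = -1) (hM : PM A B H M)
    (hs : PM A B E Ms) (hWU : W ⊆ U) (hS : S ⊆ A) (hU : ∀ a ∈ A, a ∈ U → a ∈ S)
    (hU' : ∀ a ∈ A, ∀ a' ∈ A, a' ∈ U → (Ms a).1 = (M a').1 → a ∈ S)
    (hp : ∀ a ∈ A, ∀ a' ∈ A, a ∉ U → a' ∉ U →
      ∃ l, Ch a l a' ∧ Wk (A \ W) H M l ∧ l.length ≤ h) (h0 : 0 < h) (hL : h + h * P ≤ L)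
    (hd : ∀ s l, Ch s l s → Wk (A \ W) H M l → l.length ≤ L → 0 ≤ e * gain lc M l)
    {m : Mt} (hm : PM (A \ S) (B \ img Ms S) H m) :
    0 ≤ P * (e * ((lab S Ms : ℤ) + lab (A \ S) m - lab A M)) + #A + P * (h * P * #S) := by
  rcases Nat.eq_zero_or_pos P with hP | hP
  · subst hP
    simp
  obtain ⟨mt, hmt⟩ : ∃ mt : Mt, mt = fun a => if a ∈ S then Ms a else m a := ⟨_, rfl⟩
  have hext : PM A B (fun _ _ => True) mt := by
    rw [hmt]
    exact PM.extend (E := fun _ _ => True) ⟨fun _ _ => trivial, hs.2⟩ hS hm fun _ _ _ => trivial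
  have hlab : (lab A mt : ℤ) = (lab S Ms : ℤ) + lab (A \ S) m := by
    have := val_extend lc hS Ms m
    unfold lab
    rw [hmt, this]
    push_cast
    rfl
  have hmo : ∀ a, a ∉ S → mt a = m a := fun a ha => by rw [hmt]; exact if_neg ha
  obtain ⟨π, hπ, hπ'⟩ := exists_link hM.2 hext.2
  have hit : ∀ a ∈ A, ∀ i, π^[i] a ∈ A := fun a ha i =>
    mem_coe.1 ((hπ.mapsTo.iterate i) (mem_coe.2 ha))
  have hnext : ∀ x ∈ A, x ∉ S → π x ∉ U := fun x hx hxS =>
    out_of_head hs hU' (mem_coe.1 (hπ.mapsTo (mem_coe.2 hx))) (by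
      rw [hπ' x hx, hmo x hxS]
      exact hm.mem (mem_sdiff.2 ⟨hx, hxS⟩))
  obtain ⟨n, hn⟩ : ∃ n, n = h * P := ⟨_, rfl⟩
  have hn0 : 0 < n := hn ▸ Nat.mul_pos h0 hP
  obtain ⟨g, hg⟩ : ∃ g : ℕ → ℤ, g = fun a => e * ((lc a (mt a) : ℤ) - lc a (M a)) := ⟨_, rfl⟩
  obtain ⟨ι, hι⟩ : ∃ ι : ℕ → ℤ, ι = fun a => if a ∈ S then 1 else 0 := ⟨_, rfl⟩
  have hι0 : ∀ a, 0 ≤ ι a := fun a => by
    rw [hι]
    dsimp only
    split_ifs <;> norm_num
  have hg1 : ∀ a, -1 ≤ g a := fun a => by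
    have a1 := lc_le_one a (mt a)
    have a2 := lc_le_one a (M a)
    rw [hg]
    rcases he with rfl | rfl <;> (dsimp only; omega)
  have key : ∀ a ∈ A, 0 ≤ ∑ i ∈ range n, g (π^[i] a) + h + n * ∑ i ∈ range n, ι (π^[i] a) := by
    intro a ha
    have hsum0 : 0 ≤ ∑ i ∈ range n, ι (π^[i] a) := sum_nonneg fun i _ => hι0 _
    by_cases hgood : ∀ i < n, π^[i] a ∉ S
    · have hUi : ∀ i ≤ n, π^[i] a ∉ U := by
        intro i hi
        cases i with
        | zero => exact fun h => hgood 0 hn0 (hU _ ha h)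
        | succ i =>
          rw [Function.iterate_succ_apply']
          exact hnext _ (hit a ha i) (hgood i (by omega))
      have hwk : Wk (A \ W) H M (orb π (fun x => (mt x).2) a n) :=
        wk_orb a n (fun i hi => mem_sdiff.2 ⟨hit a ha i, fun h => hUi i hi (hWU h)⟩) fun i hi =>
          ⟨hπ' _ (hit a ha i), by
            rw [hmo _ (hgood i hi)]
            exact hm.1 _ (mem_sdiff.2 ⟨hit a ha i, hgood i hi⟩)⟩
      have hgo := gain_orb (m := M) (m' := mt) (π := π) lc a n fun i _ => hπ' _ (hit a ha i)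
      obtain ⟨l, c1, w1, l1⟩ := hp _ (hit a ha n) a ha (hUi n le_rfl) (hUi 0 (Nat.zero_le _))
      have c2 : Ch a (orb π (fun x => (mt x).2) a n ++ l) a :=
        ch_append.2 ⟨_, ch_orb _ _ _ _, c1⟩
      have d1 := hd a _ c2 (hwk.append w1) (by
        rw [List.length_append]
        simp only [orb, List.length_map, List.length_range]
        omega)
      rw [gain_append, hgo, mul_add, mul_sum] at d1
      have d2 : e * gain lc M l ≤ h := by
        have a1 := abs_le.1 (abs_gain_lc_le M l)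
        have a2 : (l.length : ℤ) ≤ h := by exact_mod_cast l1
        rcases he with rfl | rfl <;> omega
      have d3 : ∑ i ∈ range n, g (π^[i] a) =
          ∑ i ∈ range n, e * ((lc (π^[i] a) (mt (π^[i] a)) : ℤ) - lc (π^[i] a) (M (π^[i] a))) := by
        rw [hg]
      have d4 : (0 : ℤ) ≤ n * ∑ i ∈ range n, ι (π^[i] a) := by positivity
      rw [d3]
      linarith
    · push Not at hgood
      obtain ⟨i, hi, hiS⟩ := hgood
      have a1 : (1 : ℤ) ≤ ∑ i ∈ range n, ι (π^[i] a) := by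
        have := single_le_sum (f := fun i => ι (π^[i] a)) (fun j _ => hι0 _) (mem_range.2 hi)
        have e1 : ι (π^[i] a) = 1 := by rw [hι]; exact if_pos hiS
        rw [e1] at this
        exact this
      have a2 : -(n : ℤ) ≤ ∑ i ∈ range n, g (π^[i] a) := by
        have := sum_le_sum (s := range n) (f := fun _ => (-1 : ℤ)) (g := fun i => g (π^[i] a))
          fun i _ => hg1 _
        simpa using this
      have a3 : (n : ℤ) * 1 ≤ n * ∑ i ∈ range n, ι (π^[i] a) :=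
        mul_le_mul_of_nonneg_left a1 (by positivity)
      have a4 : (0 : ℤ) ≤ h := by positivity
      linarith
  have tot := sum_nonneg key
  have s1 : ∑ a ∈ A, g a = e * ((lab S Ms : ℤ) + lab (A \ S) m - lab A M) := by
    rw [← hlab, lab_cast, lab_cast, ← sum_sub_distrib, mul_sum, hg]
  have s2 : ∑ a ∈ A, ι a = #S := by
    rw [hι, sum_boole, filter_mem_eq_inter, inter_eq_right.2 hS]
  rw [sum_add_distrib, sum_add_distrib, ← mul_sum, sum_iterate hπ g n, sum_iterate hπ ι n, s1, s2,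
    sum_const, nsmul_eq_mul, hn] at tot
  have hh : (0 : ℤ) < h := by exact_mod_cast h0
  refine nonneg_of_mul_nonneg_right (a := (h : ℤ)) ?_ hh
  push_cast at tot
  linarith

end Pool.Agent.Lib.MP_be0860_lc.Sx
end

-- part Pool.Agent.Lib.MP_be0860_lc.Sx.Sep
section

/-!
Separators.
-/

set_option autoImplicit false

namespace Pool.Agent.Lib.MP_be0860_lc.Sx

open Pool.Agent.Shared.PolyTime Finset

theorem card_pre {A B Y : Finset ℕ} {E : Er} {m : Mt} (hm : PM A B E m) (hY : Y ⊆ B) :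
    #{a ∈ A | (m a).1 ∈ Y} = #Y := by
  rw [← hm.card_img (filter_subset _ _)]
  congr 1
  ext b
  simp only [img, mem_image, mem_filter]
  refine ⟨by rintro ⟨a, ⟨-, h⟩, rfl⟩; exact h, fun h => ?_⟩
  obtain ⟨a, ha, rfl⟩ := hm.2.surjOn (hY h)
  exact ⟨a, ⟨ha, h⟩, rfl⟩

theorem sep_num {P x z a D : ℕ} (hP : 4 ≤ P) (h1 : D ≤ x) (h2 : 3 * x ≤ 2 * a)
    (h3 : P * (x + z) ≤ (P + 1) * x) :
    D ≤ 4 * min x (a - (x + z)) ∧ P * z ≤ 4 * min x (a - (x + z)) := by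
  have h4 : P * z ≤ x := by nlinarith
  have h5 : 4 * z ≤ x := le_trans (Nat.mul_le_mul_right z hP) h4
  omega

/-- A graph that does not expand has a small separator. -/
theorem exists_sep {A B : Finset ℕ} {H : Er} {m : Mt} {P D : ℕ} (hm : PM A B H m) (hP : 4 ≤ P)
    (hE : ¬ Exp A B H P D) : ∃ Z ⊆ A, ∃ X ⊆ A \ Z, ∃ u, D ≤ 4 * u ∧ P * #Z ≤ 4 * u ∧ u ≤ #X ∧
      #X + u ≤ #(A \ Z) ∧ ∀ a ∈ X, ∀ b, arcR (A \ Z) H m a b → b ∈ X := by
  classical
  simp only [Exp, Exp1, not_and_or, not_forall, not_lt] at hE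
  rcases hE with ⟨X, hX, h1, h2, h3⟩ | ⟨Y, hY, h1, h2, h3⟩
  · obtain ⟨Z, hZ⟩ : ∃ Z, Z = {a ∈ A \ X | (m a).1 ∈ nb B (adj H) X} := ⟨_, rfl⟩
    have z1 : Z ⊆ A := fun a ha => (mem_sdiff.1 (mem_filter.1 (hZ ▸ ha)).1).1
    have z2 : Disjoint X Z := disjoint_left.2 fun a ha hb =>
      (mem_sdiff.1 (mem_filter.1 (hZ ▸ hb)).1).2 ha
    have e : #(nb B (adj H) X) = #X + #Z := by
      rw [← card_pre hm (Y := nb B (adj H) X) (by unfold nb; exact filter_subset _ _),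
        ← card_union_of_disjoint z2]
      congr 1
      ext a
      simp only [hZ, mem_union, mem_filter, mem_sdiff]
      refine ⟨fun h => (em (a ∈ X)).imp id fun h' => ⟨⟨h.1, h'⟩, h.2⟩, ?_⟩
      rintro (h | h)
      · refine ⟨hX h, ?_⟩
        simp only [nb, mem_filter]
        exact ⟨hm.mem (hX h), a, h, (m a).2, hm.1 a (hX h)⟩
      · exact ⟨h.1.1, h.2⟩
    rw [e] at h3
    obtain ⟨n1, n2⟩ := sep_num hP h1 h2 h3
    have n3 := card_le_card (union_subset hX z1)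
    rw [card_union_of_disjoint z2] at n3
    refine ⟨Z, z1, X, subset_sdiff.2 ⟨hX, z2⟩, _, n1, n2, min_le_left _ _, ?_, ?_⟩
    · rw [card_sdiff_of_subset z1]
      omega
    · rintro a ha b ⟨-, hb, hab⟩
      by_contra h
      obtain ⟨b1, b2⟩ := mem_sdiff.1 hb
      refine b2 (hZ ▸ mem_filter.2 ⟨mem_sdiff.2 ⟨b1, h⟩, ?_⟩)
      simp only [nb, mem_filter]
      exact ⟨hm.mem b1, a, ha, hab⟩
  · obtain ⟨M, hM⟩ : ∃ M, M = nb A (fun b a => adj H a b) Y := ⟨_, rfl⟩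
    have m0 : ∀ a, a ∈ M ↔ a ∈ A ∧ ∃ b ∈ Y, adj H a b := fun a => by
      simp only [hM, nb, mem_filter]
    have m1 : M ⊆ A := fun a ha => ((m0 a).1 ha).1
    have m2 : {a ∈ A | (m a).1 ∈ Y} ⊆ M := fun a ha => (m0 a).2
      ⟨(mem_filter.1 ha).1, _, (mem_filter.1 ha).2, (m a).2, hm.1 a (mem_filter.1 ha).1⟩
    have m3 := card_le_card m2
    have m4 := card_le_card m1
    have e := card_sdiff_of_subset m2
    rw [card_pre hm hY] at m3 e
    have e' : #M = #Y + #(M \ {a ∈ A | (m a).1 ∈ Y}) := by omega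
    rw [← hM, e'] at h3
    rw [← hm.card_eq] at h2
    obtain ⟨n1, n2⟩ := sep_num hP h1 h2 h3
    have z1 : M \ {a ∈ A | (m a).1 ∈ Y} ⊆ A := sdiff_subset.trans m1
    refine ⟨_, z1, A \ M, sdiff_subset_sdiff Subset.rfl sdiff_subset, _, n1, n2, ?_, ?_, ?_⟩
    · rw [card_sdiff_of_subset m1]
      omega
    · rw [card_sdiff_of_subset m1, card_sdiff_of_subset z1]
      omega
    · rintro a ha b ⟨-, hb, hab⟩
      obtain ⟨b1, b2⟩ := mem_sdiff.1 hb
      refine mem_sdiff.2 ⟨b1, fun h => (mem_sdiff.1 ha).2 ((m0 a).2 ⟨(mem_sdiff.1 ha).1, _, ?_, hab⟩)⟩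
      by_contra h'
      exact b2 (mem_sdiff.2 ⟨h, fun h'' => h' (mem_filter.1 h'').2⟩)

theorem cross_pm {A B S X C : Finset ℕ} {E : Er} {Ms : Mt} (hs : PM A B E Ms) (hS : S ⊆ A)
    (hX : X ⊆ A) (hC : C ⊆ B) (h : ∀ a ∈ A, a ∉ S → (a ∈ X ↔ (Ms a).1 ∈ C)) :
    PM (X \ S) (C \ img Ms S) E Ms := by
  have e : img Ms (X \ S) = C \ img Ms S := by
    ext b
    simp only [img, mem_image, mem_sdiff]
    constructor
    · rintro ⟨a, ⟨h1, h2⟩, rfl⟩
      refine ⟨(h a (hX h1) h2).1 h1, ?_⟩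
      rintro ⟨a', h3, h4⟩
      exact h2 (hs.2.injOn (hS h3) (hX h1) h4 ▸ h3)
    · rintro ⟨h1, h2⟩
      obtain ⟨a, ha, rfl⟩ := hs.2.surjOn (hC h1)
      have h3 : a ∉ S := fun h3 => h2 ⟨a, h3, rfl⟩
      exact ⟨a, ⟨(h a ha h3).2 h1, h3⟩, rfl⟩
  exact e ▸ hs.sub (sdiff_subset.trans hX)

/-- Few edges of a matching with few edges outside `H` cross the cut. -/
theorem cross {N θ : ℕ} {A B Z T : Finset ℕ} {E H : Er} {m Ms : Mt} (hA : A ⊆ range N)
    (hm : PM A B H m) (hs : PM A B E Ms) (hZ : Z ⊆ A) (hT : ∀ a ∈ A, a ∉ T → H a (Ms a))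
    {X : Finset ℕ} (hX : X = cl N (A \ Z) (arcR (A \ Z) H m) θ) :
    ∃ S ⊆ A, #S ≤ #Z + 2 * #T ∧ PM (X \ S) (img m (X ∪ Z) \ img Ms S) E Ms ∧
      PM ((A \ X) \ S) ((B \ img m (X ∪ Z)) \ img Ms S) E Ms := by
  classical
  have x1 : X ⊆ A \ Z := hX ▸ cl_subset
  have x2 : X ⊆ A := x1.trans sdiff_subset
  have x3 : X ∪ Z ⊆ A := union_subset x2 hZ
  have x4 : ∀ a ∈ X, ∀ b, arcR (A \ Z) H m a b → b ∈ X := fun a ha b hab => by
    have hb := hA (mem_sdiff.1 hab.2.1).1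
    simp only [hX, cl, rch, mem_filter] at ha ⊢
    obtain ⟨-, c, c1, c2, -, c3⟩ := ha
    exact ⟨hb, c, c1, c2, hb, c3.tail hab⟩
  obtain ⟨C, hC⟩ : ∃ C, C = img m (X ∪ Z) := ⟨_, rfl⟩
  have c1 : C ⊆ B := fun b hb => by
    obtain ⟨a, ha, rfl⟩ := mem_image.1 (hC ▸ hb)
    exact hm.mem (x3 ha)
  have c2 : #{a ∈ A | (Ms a).1 ∈ C} = #X + #Z := by
    rw [card_pre hs c1, hC, hm.card_img x3, card_union_of_disjoint (subset_sdiff.1 x1).2]
  obtain ⟨K, hK⟩ : ∃ K, K = {a ∈ A | (Ms a).1 ∈ C} := ⟨_, rfl⟩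
  have k0 : ∀ a, a ∈ K ↔ a ∈ A ∧ (Ms a).1 ∈ C := fun a => by rw [hK, mem_filter]
  have k1 : X \ K ⊆ T := fun a ha => by
    obtain ⟨a1, a2⟩ := mem_sdiff.1 ha
    by_contra h
    obtain ⟨b, hb, e⟩ := hm.2.surjOn (hs.mem (x2 a1))
    have e' : (m b).1 = (Ms a).1 := e
    refine a2 ((k0 a).2 ⟨x2 a1, hC ▸ mem_image.2 ⟨b, mem_union.2 ?_, e'⟩⟩)
    refine (em (b ∈ Z)).symm.imp (fun h' => x4 a a1 b ⟨x1 a1, mem_sdiff.2 ⟨hb, h'⟩, (Ms a).2, ?_⟩) id
    rw [e']
    exact hT a (x2 a1) h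
  have s1 : X \ K ∪ K \ X ⊆ A :=
    union_subset (sdiff_subset.trans x2) (sdiff_subset.trans fun a ha => ((k0 a).1 ha).1)
  have s2 : ∀ a ∈ A, a ∉ X \ K ∪ K \ X → (a ∈ X ↔ (Ms a).1 ∈ C) := fun a ha h => by
    simp only [mem_union, mem_sdiff, k0] at h
    tauto
  rw [← hC]
  refine ⟨_, s1, ?_, cross_pm hs s1 x2 c1 s2, cross_pm hs s1 sdiff_subset sdiff_subset
    fun a ha h => ?_⟩
  · have := card_union_le (X \ K) (K \ X)
    have := card_le_card k1
    have := card_sdiff_add_card_inter X K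
    have := card_sdiff_add_card_inter K X
    rw [inter_comm] at this
    rw [← hK] at c2
    omega
  · simp only [mem_sdiff, s2 a ha h, ha, hs.mem ha]

end Pool.Agent.Lib.MP_be0860_lc.Sx
end
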