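import Pool.Agent.Lib.MP_be0860_lc.Sx.Lay
import Pool.Agent.Lib.MP_be0860_lc.Sx.Sep

-- part Pool.Agent.Lib.MP_be0860_lc.Sx.Mc
section

/-!
Correctness of the minimum cost perfect matching algorithm.
-/

set_option autoImplicit false

namespace Pool.Agent.Lib.MP_be0860_lc.Sx

open Pool.Agent.Shared.PolyTime Finset

variable {N : ℕ}

/-- A perfect matching of the complete graph whose cost is within `g` of the minimum. -/
def McGap (N : ℕ) (c : Co) (m : Mt) (g : ℕ) : Prop :=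
  PM (range N) (range N) (fun _ _ => True) m ∧
    ∀ m', PM (range N) (range N) (fun _ _ => True) m' →
      val c (range N) m ≤ val c (range N) m' + g

theorem McGap.improve {W : Cs} {t : Tb} {g : ℕ} (h : McGap N (cs W) (gt t) g) :
    McGap N (cs W) (gt (improve N W t)) (g - 1) := by
  obtain ⟨h1, h2, h3⟩ := improve_spec (W := W) h.1
  refine ⟨h1, fun m' hm' => ?_⟩
  rcases h3 with h3 | h3
  · have := h3.2 m' hm'
    omega
  · have := h.2 m' hm'
    omega

theorem mcGap_mkC (f : Co) {m : Mt} {g : ℕ} :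
    McGap N (cs (mkC N f)) m g ↔ McGap N f m g := by
  constructor
  · rintro ⟨h1, h2⟩
    refine ⟨h1, fun m' hm' => ?_⟩
    have := h2 m' hm'
    rwa [val_mkC f subset_rfl subset_rfl h1, val_mkC f subset_rfl subset_rfl hm'] at this
  · rintro ⟨h1, h2⟩
    refine ⟨h1, fun m' hm' => ?_⟩
    rw [val_mkC f subset_rfl subset_rfl h1, val_mkC f subset_rfl subset_rfl hm']
    exact h2 m' hm'

theorem McGap.block (W : Cs) (i n : ℕ) : ∀ (t : Tb) (g : ℕ),
    McGap N (cs (scaleC N W i)) (gt t) g →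
    McGap N (cs (scaleC N W i))
      (gt ((List.replicate n i).foldl (fun t i => Sx.improve N (scaleC N W i) t) t)) (g - n) := by
  induction n with
  | zero => intro t g h; simpa using h
  | succ n ih =>
    intro t g h
    rw [List.replicate_succ, List.foldl_cons]
    have := ih _ _ h.improve
    rwa [Nat.sub_sub, Nat.add_comm 1 n] at this

theorem McGap.scale (c : Co) (k : ℕ) {m : Mt}
    (h : McGap N (fun a x => c a x / 2 ^ (k + 1)) m 0) :
    McGap N (fun a x => c a x / 2 ^ k) m N := by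
  refine ⟨h.1, fun m' hm' => ?_⟩
  have h0 := h.2 m' hm'
  have e : ∀ y : ℕ, y / 2 ^ (k + 1) = y / 2 ^ k / 2 := fun y => by
    rw [Nat.div_div_eq_div_mul, pow_succ]
  have h1 : val (fun a x => c a x / 2 ^ k) (range N) m ≤
      2 * val (fun a x => c a x / 2 ^ (k + 1)) (range N) m + N := by
    unfold val
    calc ∑ a ∈ range N, c a (m a) / 2 ^ k
        ≤ ∑ a ∈ range N, (2 * (c a (m a) / 2 ^ (k + 1)) + 1) :=
          sum_le_sum fun a _ => by rw [e]; omega
      _ = _ := by rw [sum_add_distrib, ← mul_sum]; simp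
  have h2 : 2 * val (fun a x => c a x / 2 ^ (k + 1)) (range N) m' ≤
      val (fun a x => c a x / 2 ^ k) (range N) m' := by
    unfold val
    rw [mul_sum]
    exact sum_le_sum fun a _ => by beta_reduce; rw [e]; omega
  omega

theorem McGap.scales (W : Cs) (k : ℕ) : ∀ t : Tb,
    McGap N (fun a x => cs W a x / 2 ^ k) (gt t) 0 →
    McGap N (fun a x => cs W a x / 2 ^ 0)
      (gt (((List.range k).reverse.flatMap fun i => List.replicate N i).foldl
        (fun t i => Sx.improve N (scaleC N W i) t) t)) 0 := by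
  induction k with
  | zero => intro t h; simpa using h
  | succ k ih =>
    intro t h
    rw [List.range_succ, List.reverse_append, List.reverse_singleton, List.singleton_append,
      List.flatMap_cons, List.foldl_append]
    apply ih
    have h1 := McGap.block W k N t N ((mcGap_mkC _).2 (McGap.scale (cs W) k h))
    rw [Nat.sub_self] at h1
    exact (mcGap_mkC _).1 h1

theorem mcF_spec (N : ℕ) (W : Cs) :
    MinC (range N) (range N) (fun _ _ => True) (cs W) (gt (mcF N W)) := by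
  have hg : ∀ a < N, gt (mkT N fun a => (a, false)) a = (a, false) := fun a ha =>
    gt_mkT ha (le_of_lt ha)
  have h0 : McGap N (fun a x => cs W a x / 2 ^ Nat.size (tot N W))
      (gt (mkT N fun a => (a, false))) 0 := by
    refine ⟨⟨fun _ _ => trivial, ?_⟩, fun m' _ => ?_⟩
    · refine (Set.bijOn_id _).congr fun a ha => ?_
      have ha' : a < N := by simpa using ha
      simp [hg a ha']
    · have : val (fun a x => cs W a x / 2 ^ Nat.size (tot N W)) (range N)
          (gt (mkT N fun a => (a, false))) = 0 := by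
        unfold val
        refine sum_eq_zero fun a ha => ?_
        have ha' : a < N := mem_range.1 ha
        rw [hg a ha']
        exact Nat.div_eq_of_lt
          (lt_of_le_of_lt (cs_le_tot W ha' ha') (Nat.lt_size_self _))
      omega
  have h1 := McGap.scales W _ _ h0
  refine ⟨h1.1, fun m' hm' => ?_⟩
  have := h1.2 m' hm'
  simpa [mcF, val] using this

/-- The costs of `ext`, as a function. -/
def extF (N : ℕ) (J : Jn) (W : Cs) : Co := fun a x =>
  cond (vs J.1 a) (cond (vs J.2.1 x.1 && ed J.2.2.1 a x) (cs W a x) (bigK N W))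
    (cond (vs J.2.1 x.1) (bigK N W) 0)

theorem exists_ext {J : Jn} {m : Mt} (h : PM (fs N J.1) (fs N J.2.1) (er J.2.2.1) m) (W : Cs) :
    ∃ m', PM (range N) (range N) (fun _ _ => True) m' ∧
      val (extF N J W) (range N) m' = val (cs W) (fs N J.1) m := by
  have hA := fs_subset (N := N) J.1
  have hB := fs_subset (N := N) J.2.1
  have hc : (range N \ fs N J.1).card = (range N \ fs N J.2.1).card := by
    rw [card_sdiff_of_subset hA, card_sdiff_of_subset hB, h.card_eq]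
  obtain ⟨g, hg⟩ : ∃ g : ℕ → ℕ, Set.BijOn g ((range N \ fs N J.1 : Finset ℕ) : Set ℕ)
      ((range N \ fs N J.2.1 : Finset ℕ) : Set ℕ) :=
    (Finset.finite_toSet _).exists_bijOn_of_encard_eq (by
      rw [Set.encard_coe_eq_coe_finsetCard, Set.encard_coe_eq_coe_finsetCard, hc])
  refine ⟨fun a => if a ∈ fs N J.1 then m a else (g a, false), ?_, ?_⟩
  · have p1 : PM (fs N J.1) (fs N J.2.1) (fun _ _ => True)
        fun a => if a ∈ fs N J.1 then m a else (g a, false) :=
      (h.mono fun _ _ _ _ _ => trivial).congr fun a ha => if_pos ha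
    have p2 : PM (range N \ fs N J.1) (range N \ fs N J.2.1) (fun _ _ => True)
        fun a => if a ∈ fs N J.1 then m a else (g a, false) := by
      refine ⟨fun _ _ => trivial, hg.congr fun a ha => ?_⟩
      have : a ∉ fs N J.1 := (mem_sdiff.1 (mem_coe.1 ha)).2
      simp [this]
    have p3 := p1.glue p2 disjoint_sdiff
    rwa [union_sdiff_of_subset hA, union_sdiff_of_subset hB] at p3
  · rw [val_sdiff _ hA]
    have e1 : val (extF N J W) (fs N J.1)
        (fun a => if a ∈ fs N J.1 then m a else (g a, false)) = val (cs W) (fs N J.1) m := by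
      unfold val
      refine sum_congr rfl fun a ha => ?_
      have h1 := (mem_fs.1 ha).2
      have h2 := (mem_fs.1 (h.mem ha)).2
      have h3 : ed J.2.2.1 a (m a) = true := h.1 a ha
      simp [extF, ha, h1, h2, h3]
    have e2 : val (extF N J W) (range N \ fs N J.1)
        (fun a => if a ∈ fs N J.1 then m a else (g a, false)) = 0 := by
      unfold val
      refine sum_eq_zero fun a ha => ?_
      have h0 := mem_sdiff.1 ha
      have h1 : vs J.1 a = false := by
        have := h0.2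
        rw [mem_fs] at this
        simpa [mem_range.1 h0.1] using this
      have h2 := mem_sdiff.1 (mem_coe.1 (hg.mapsTo (mem_coe.2 ha)))
      have h3 : vs J.2.1 (g a) = false := by
        have := h2.2
        rw [mem_fs] at this
        simpa [mem_range.1 h2.1] using this
      simp [extF, h0.2, h1, h3]
    rw [e1, e2, Nat.add_zero]

theorem mc_spec {J : Jn} {m : Mt} (h : PM (fs N J.1) (fs N J.2.1) (er J.2.2.1) m) (W : Cs) :
    MinC (fs N J.1) (fs N J.2.1) (er J.2.2.1) (cs W) (gt (mc N J W)) := by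
  have hA := fs_subset (N := N) J.1
  have hB := fs_subset (N := N) J.2.1
  obtain ⟨p, hp⟩ := mcF_spec N (ext N J W)
  change PM _ _ _ (gt (mc N J W)) at p
  have key : ∀ m', PM (fs N J.1) (fs N J.2.1) (er J.2.2.1) m' →
      val (extF N J W) (range N) (gt (mc N J W)) ≤ val (cs W) (fs N J.1) m' := by
    intro m' hm'
    obtain ⟨m'', q, hq⟩ := exists_ext hm' W
    have := hp m'' q
    change val (cs (mkC N (extF N J W))) _ (gt (mc N J W)) ≤
      val (cs (mkC N (extF N J W))) _ _ at this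
    rwa [val_mkC _ subset_rfl subset_rfl p, val_mkC _ subset_rfl subset_rfl q, hq] at this
  have lt : ∀ a < N, extF N J W a (gt (mc N J W) a) < bigK N W := by
    intro a ha
    have h1 := key m h
    have h2 := val_lt_bigK W hA hB h
    have h3 : extF N J W a (gt (mc N J W) a) ≤ val (extF N J W) (range N) (gt (mc N J W)) :=
      single_le_sum (f := fun a => extF N J W a (gt (mc N J W) a)) (fun _ _ => Nat.zero_le _)
        (mem_range.2 ha)
    omega
  have inA : ∀ a ∈ fs N J.1, vs J.2.1 (gt (mc N J W) a).1 = true ∧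
      ed J.2.2.1 a (gt (mc N J W) a) = true := by
    intro a ha
    have h0 := mem_fs.1 ha
    have h1 := lt a h0.1
    by_contra hn
    have h2 : (vs J.2.1 (gt (mc N J W) a).1 && ed J.2.2.1 a (gt (mc N J W) a)) = false := by
      rw [← Bool.and_eq_true] at hn
      simpa using hn
    simp [extF, h0.2, h2] at h1
  have outA : ∀ a < N, a ∉ fs N J.1 → vs J.2.1 (gt (mc N J W) a).1 = false := by
    intro a ha hn
    have h1 := lt a ha
    have h0 : vs J.1 a = false := by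
      rw [mem_fs] at hn
      simpa [ha] using hn
    by_contra hb
    have h2 : vs J.2.1 (gt (mc N J W) a).1 = true := by simpa using hb
    simp [extF, h0, h2] at h1
  refine ⟨⟨fun a ha => (inA a ha).2, fun a ha => ?_, p.2.injOn.mono (coe_subset.2 hA),
    fun b hb => ?_⟩, fun m' hm' => ?_⟩
  · exact mem_coe.2 (mem_fs.2 ⟨mem_range.1 (p.mem (hA (mem_coe.1 ha))), (inA a ha).1⟩)
  · obtain ⟨a, ha, rfl⟩ := p.2.surjOn (coe_subset.2 hB hb)
    refine ⟨a, ?_, rfl⟩
    by_contra hn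
    have h1 := outA a (mem_range.1 (mem_coe.1 ha)) hn
    have h2 := (mem_fs.1 (mem_coe.1 hb)).2
    simp [h1] at h2
  · have h1 := key m' hm'
    rw [val_sdiff _ hA] at h1
    have e : val (extF N J W) (fs N J.1) (gt (mc N J W)) =
        val (cs W) (fs N J.1) (gt (mc N J W)) := by
      unfold val
      refine sum_congr rfl fun a ha => ?_
      simp [extF, (mem_fs.1 ha).2, (inA a ha).1, (inA a ha).2]
    omega

end Pool.Agent.Lib.MP_be0860_lc.Sx
end

-- part Pool.Agent.Lib.MP_be0860_lc.Sx.Price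
section

/-!
Dual prices and reduced costs.
-/

set_option autoImplicit false

namespace Pool.Agent.Lib.MP_be0860_lc.Sx

open Pool.Agent.Shared.PolyTime Finset

variable {N : ℕ} {W : Cs} {t : Tb}

theorem pv_priceS (P : List Big) {b : ℕ} (hb : b < N) :
    pv (priceS N W t P) b = (pick (fun c d : Big => bblt d.val c.val)
      ((List.range N).flatMap fun u =>
        [⟨pv P (gt t u).1 + cs W u (gt t u) - cs W u (b, false)⟩,
          ⟨pv P (gt t u).1 + cs W u (gt t u) - cs W u (b, true)⟩]) ⟨pv P b⟩).val := by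
  unfold priceS
  conv_lhs => unfold pv
  rw [List.getD_eq_getElem _ _ (by simpa using hb)]
  simp only [List.getElem_map, List.getElem_range]
  rfl

theorem priceS_ge (P : List Big) {b u : ℕ} (hb : b < N) (hu : u < N) (c : Bool) :
    pv P (gt t u).1 + cs W u (gt t u) - cs W u (b, c) ≤ pv (priceS N W t P) b := by
  rw [pv_priceS P hb]
  refine pick_max Big.val _ _ ⟨pv P (gt t u).1 + cs W u (gt t u) - cs W u (b, c)⟩ ?_
  refine List.mem_cons_of_mem _ (List.mem_flatMap.2 ⟨u, List.mem_range.2 hu, ?_⟩)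
  cases c <;> simp

theorem priceS_cases (P : List Big) {b : ℕ} (hb : b < N) :
    pv (priceS N W t P) b = pv P b ∨ ∃ u < N, ∃ c : Bool,
      pv (priceS N W t P) b = pv P (gt t u).1 + cs W u (gt t u) - cs W u (b, c) := by
  rw [pv_priceS P hb]
  have hm := pick_mem (fun c d : Big => bblt d.val c.val)
      ((List.range N).flatMap fun u =>
        [⟨pv P (gt t u).1 + cs W u (gt t u) - cs W u (b, false)⟩,
          ⟨pv P (gt t u).1 + cs W u (gt t u) - cs W u (b, true)⟩]) ⟨pv P b⟩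
  rcases List.mem_cons.1 hm with h1 | h1
  · left
    rw [h1]
  · right
    obtain ⟨u, hu, h2⟩ := List.mem_flatMap.1 h1
    refine ⟨u, List.mem_range.1 hu, ?_⟩
    rcases List.mem_cons.1 h2 with h3 | h3
    · exact ⟨false, by rw [h3]⟩
    · exact ⟨true, by rw [List.mem_singleton.1 h3]⟩

theorem pr_gain_nil (c : Co) (m : Mt) : gain c m [] = 0 := by
  simp [gain]

theorem pr_gain_one (c : Co) (m : Mt) (u v : ℕ) (e : Bool) :
    gain c m [(u, v, e)] = (c u ((m v).1, e) : ℤ) - c u (m u) := by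
  simp [gain]

theorem pr_wk_nil (A : Finset ℕ) (E : Er) (m : Mt) : Wk A E m [] := fun _ hp => absurd hp (by simp)

theorem pr_wk_one (m : Mt) {u v : ℕ} (hu : u < N) (hv : v < N) (e : Bool) :
    Wk (range N) (fun _ _ => True) m [(u, v, e)] := by
  intro p hp
  rw [List.mem_singleton.1 hp]
  exact ⟨mem_range.2 hu, mem_range.2 hv, trivial⟩

theorem price_walk (h : PM (range N) (range N) (fun _ _ => True) (gt t)) (i : ℕ) :
    ∀ v < N, ∃ s l, Ch s l v ∧ Wk (range N) (fun _ _ => True) (gt t) l ∧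
      (pv ((priceS N W t)^[i] []) (gt t v).1 : ℤ) ≤ -gain (cs W) (gt t) l := by
  induction i with
  | zero =>
    intro v _
    exact ⟨v, [], rfl, pr_wk_nil _ _ _, by simp [pv, pr_gain_nil]⟩
  | succ i ih =>
    intro v hv
    have hb : (gt t v).1 < N := mem_range.1 (h.mem (mem_range.2 hv))
    rw [Function.iterate_succ_apply']
    rcases priceS_cases (W := W) (t := t) ((priceS N W t)^[i] []) hb with h1 | ⟨u, hu, c, h1⟩
    · rw [h1]
      exact ih v hv
    · obtain ⟨s, l, h2, h3, h4⟩ := ih u hu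
      by_cases h5 : pv ((priceS N W t)^[i] []) (gt t u).1 + cs W u (gt t u) ≤
          cs W u ((gt t v).1, c)
      · refine ⟨v, [], rfl, pr_wk_nil _ _ _, ?_⟩
        rw [h1, pr_gain_nil, Nat.sub_eq_zero_of_le h5]
        simp
      · refine ⟨s, l ++ [(u, v, c)], ch_append.2 ⟨u, h2, rfl, rfl⟩, h3.append (pr_wk_one _ hu hv c),
          ?_⟩
        rw [h1, gain_append, pr_gain_one]
        omega

theorem walk_price (h : PM (range N) (range N) (fun _ _ => True) (gt t)) (i : ℕ) :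
    ∀ s l v, v < N → Ch s l v → Wk (range N) (fun _ _ => True) (gt t) l → l.length ≤ i →
      -gain (cs W) (gt t) l ≤ (pv ((priceS N W t)^[i] []) (gt t v).1 : ℤ) := by
  induction i with
  | zero =>
    intro s l v _ _ _ hl
    rw [List.length_eq_zero_iff.1 (Nat.le_zero.1 hl), pr_gain_nil]
    simp
  | succ i ih =>
    intro s l v hv hc hw hl
    rcases List.eq_nil_or_concat l with h1 | ⟨l', p, h1⟩
    · rw [h1, pr_gain_nil]
      simp
    · rw [List.concat_eq_append] at h1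
      subst h1
      obtain ⟨u, h2, h3, h4⟩ := ch_append.1 hc
      obtain ⟨p1, p2, c⟩ := p
      have e1 : p1 = u := h3
      have e2 : p2 = v := h4
      subst e1 e2
      have hu : p1 < N := mem_range.1 (hw (p1, p2, c) (by simp)).1
      have hw' : Wk (range N) (fun _ _ => True) (gt t) l' :=
        fun q hq => hw q (List.mem_append_left _ hq)
      have h5 := ih s l' p1 hu h2 hw' (by simpa using hl)
      have hb : (gt t p2).1 < N := mem_range.1 (h.mem (mem_range.2 hv))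
      have h6 := priceS_ge (W := W) (t := t) ((priceS N W t)^[i] []) hb hu c
      rw [Function.iterate_succ_apply', gain_append, pr_gain_one]
      omega

theorem pr_short_walk {A B : Finset ℕ} {E : Er} {c : Co} {m : Mt} (h : MinC A B E c m) {s v : ℕ}
    (n : ℕ) : ∀ l : Arcs, l.length ≤ n → Ch s l v → Wk A E m l →
      ∃ l', Ch s l' v ∧ Wk A E m l' ∧ l'.length ≤ A.card ∧ gain c m l' ≤ gain c m l := by
  induction n with
  | zero =>
    intro l hl hc hw
    exact ⟨l, hc, hw, by omega, le_rfl⟩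
  | succ n ih =>
    intro l hl hc hw
    by_cases hn : (l.map Prod.fst).Nodup
    · exact ⟨l, hc, hw, hw.length_le hn, le_rfl⟩
    · obtain ⟨C, D, u, h1, h2, h3, -, h5⟩ := ch_split hc hn
      have hC : Wk A E m C := fun q hq => hw q (h5.mem_iff.2 (List.mem_append_left _ hq))
      have hD : Wk A E m D := fun q hq => hw q (h5.mem_iff.2 (List.mem_append_right _ hq))
      have hlen := h5.length_eq
      rw [List.length_append] at hlen
      have hpos : 0 < C.length := List.length_pos_iff.2 h3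
      obtain ⟨l', g1, g2, g3, g4⟩ := ih D (by omega) h2 hD
      refine ⟨l', g1, g2, g3, ?_⟩
      have h6 := h.gain_nonneg h1 hC
      rw [gain_perm c m h5, gain_append]
      omega

theorem price_spec (h : MinC (range N) (range N) (fun _ _ => True) (cs W) (gt t)) {a : ℕ}
    {x : ℕ × Bool} (ha : a < N) (hx : x.1 < N) :
    cs W a (gt t a) + pv (price N W t) (gt t a).1 ≤ cs W a x + pv (price N W t) x.1 := by
  obtain ⟨v, hv, e⟩ := h.1.2.2.2 (show x.1 ∈ ((range N : Finset ℕ) : Set ℕ) from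
    mem_coe.2 (mem_range.2 hx))
  have hv' : v < N := mem_range.1 (mem_coe.1 hv)
  have e' : (gt t v).1 = x.1 := e
  obtain ⟨s, l, h1, h2, h3⟩ := price_walk (W := W) h.1 N a ha
  obtain ⟨l', g1, g2, g3, g4⟩ := pr_short_walk h _ (l ++ [(a, v, x.2)]) le_rfl
    (ch_append.2 ⟨a, h1, rfl, rfl⟩) (h2.append (pr_wk_one _ ha hv' x.2))
  have h4 := walk_price (W := W) h.1 N s l' v hv' g1 g2 (by simpa using g3)
  rw [gain_append, pr_gain_one, e'] at g4
  rw [e'] at h4
  have e2 : cs W a (x.1, x.2) = cs W a x := rfl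
  unfold price
  omega

theorem pr_cs_ext {J : Jn} {m : Mt} (h : PM (fs N J.1) (fs N J.2.1) (er J.2.2.1) m) (W : Cs) {a : ℕ}
    (ha : a ∈ fs N J.1) : cs (ext N J W) a (m a) = cs W a (m a) := by
  have h1 := mem_fs.1 ha
  have h2 := mem_fs.1 (h.mem ha)
  have h3 : ed J.2.2.1 a (m a) = true := h.1 a ha
  unfold ext
  rw [cs_mkC _ h1.1 h2.1, h1.2, h2.2, h3]
  rfl

theorem redC_spec {J : Jn} {m : Mt} (h : PM (fs N J.1) (fs N J.2.1) (er J.2.2.1) m) (W : Cs) :
    (∀ a ∈ fs N J.1, cs (redC N J W) a (gt (mc N J W) a) = 0) ∧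
      val (cs W) (fs N J.1) m =
        val (cs (redC N J W)) (fs N J.1) m + val (cs W) (fs N J.1) (gt (mc N J W)) := by
  have hM : MinC (range N) (range N) (fun _ _ => True) (cs (ext N J W)) (gt (mc N J W)) :=
    mcF_spec N (ext N J W)
  have hm := (mc_spec h W).1
  refine ⟨fun a ha => ?_, ?_⟩
  · unfold redC redP
    rw [cs_mkC _ (mem_fs.1 ha).1 (mem_fs.1 (hm.mem ha)).1, Nat.sub_self]
  · have key : ∀ a ∈ fs N J.1, cs W a (m a) + pv (price N (ext N J W) (mc N J W)) (m a).1 =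
        cs (redC N J W) a (m a) + cs W a (gt (mc N J W) a) +
          pv (price N (ext N J W) (mc N J W)) (gt (mc N J W) a).1 := by
      intro a ha
      have h1 := price_spec hM (x := m a) (mem_fs.1 ha).1 (mem_fs.1 (h.mem ha)).1
      unfold redC redP
      rw [cs_mkC _ (mem_fs.1 ha).1 (mem_fs.1 (h.mem ha)).1]
      rw [pr_cs_ext h W ha, pr_cs_ext hm W ha] at h1 ⊢
      omega
    have h2 := sum_congr rfl key
    rw [sum_add_distrib, sum_add_distrib, sum_add_distrib,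
      h.sum_head (pv (price N (ext N J W) (mc N J W))),
      hm.sum_head (pv (price N (ext N J W) (mc N J W)))] at h2
    unfold val
    omega

end Pool.Agent.Lib.MP_be0860_lc.Sx
end

-- part Pool.Agent.Lib.MP_be0860_lc.Sx.Newt
section

/-!
The search for the optimal slope, and mixtures.
-/

set_option autoImplicit false

namespace Pool.Agent.Lib.MP_be0860_lc.Sx

open Pool.Agent.Shared.PolyTime Finset

variable {N : ℕ} {W : Cs} {J : Jn}

theorem newt_val (c : Co) (α p q : ℕ) (A : Finset ℕ) (m : Mt) :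
    val (fun a x => α * c a x + cond x.2 p q) A m =
      α * val c A m + lab A m * p + (A.card - lab A m) * q := by
  have h : val (fun a x => α * c a x + cond x.2 p q) A m + lab A m * q =
      α * val c A m + lab A m * p + A.card * q := by
    simp only [lab, val, mul_sum, sum_mul, card_eq_sum_ones, ← sum_add_distrib]
    refine sum_congr rfl fun a _ => ?_
    simp only [lc]
    cases (m a).2 <;> simp
  have h2 := Nat.mul_le_mul_right q (lab_le A m)
  rw [Nat.sub_mul]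
  omega

theorem val_lagr (s : Tb × Tb) {m : Mt} (h : PM (fs N J.1) (fs N J.2.1) (er J.2.2.1) m) :
    val (cs (lagr N J W s)) (fs N J.1) m =
      (lab (fs N J.1) (gt s.2) - lab (fs N J.1) (gt s.1)) * val (cs W) (fs N J.1) m +
      lab (fs N J.1) m * (val (cs W) (fs N J.1) (gt s.1) - val (cs W) (fs N J.1) (gt s.2)) +
      (#(fs N J.1) - lab (fs N J.1) m) *
        (val (cs W) (fs N J.1) (gt s.2) - val (cs W) (fs N J.1) (gt s.1)) := by
  rw [lagr, val_mkC _ (fs_subset _) (fs_subset _) h, newt_val]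
  simp only [labT_eq, valT_eq]

theorem newt_pen {m : Mt} (h : PM (fs N J.1) (fs N J.2.1) (er J.2.2.1) m) :
    val (cs (pen N W true)) (fs N J.1) m =
      val (cs W) (fs N J.1) m + lab (fs N J.1) m * bigK N W ∧
    val (cs (pen N W false)) (fs N J.1) m + lab (fs N J.1) m * bigK N W =
      val (cs W) (fs N J.1) m + (fs N J.1).card * bigK N W := by
  have h1 := newt_val (cs W) 1 (bigK N W) 0 (fs N J.1) m
  have h2 := newt_val (cs W) 1 0 (bigK N W) (fs N J.1) m
  have h3 := Nat.mul_le_mul_right (bigK N W) (lab_le (fs N J.1) m)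
  have e : ∀ b : Bool, cond (b == false) (bigK N W) 0 = cond b 0 (bigK N W) := fun b => by
    cases b <;> rfl
  rw [Nat.sub_mul] at h2
  simp only [one_mul, mul_zero, add_zero] at h1 h2
  simp only [pen, val_mkC _ (fs_subset _) (fs_subset _) h, beq_true, e]
  omega

/-- The matching lies on a supporting line. -/
def NSup (N : ℕ) (W : Cs) (J : Jn) (t : Mt) : Prop :=
  PM (fs N J.1) (fs N J.2.1) (er J.2.2.1) t ∧ ∃ α β : ℤ, 0 < α ∧
    ∀ m, PM (fs N J.1) (fs N J.2.1) (er J.2.2.1) m →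
      α * val (cs W) (fs N J.1) t - β * lab (fs N J.1) t ≤
        α * val (cs W) (fs N J.1) m - β * lab (fs N J.1) m

theorem newt_lagr (s : Tb × Tb) (hs : lab (fs N J.1) (gt s.1) ≤ lab (fs N J.1) (gt s.2)) :
    ∃ C : ℤ, ∀ m, PM (fs N J.1) (fs N J.2.1) (er J.2.2.1) m →
      (val (cs (lagr N J W s)) (fs N J.1) m : ℤ) =
        ((lab (fs N J.1) (gt s.2) : ℤ) - lab (fs N J.1) (gt s.1)) * val (cs W) (fs N J.1) m -
          ((val (cs W) (fs N J.1) (gt s.2) : ℤ) - val (cs W) (fs N J.1) (gt s.1)) *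
            lab (fs N J.1) m + C := by
  refine ⟨(fs N J.1).card * ((val (cs W) (fs N J.1) (gt s.2) - val (cs W) (fs N J.1) (gt s.1) : ℕ) :
    ℤ), fun m h => ?_⟩
  have e : ((val (cs W) (fs N J.1) (gt s.1) - val (cs W) (fs N J.1) (gt s.2) : ℕ) : ℤ) =
      ((val (cs W) (fs N J.1) (gt s.2) - val (cs W) (fs N J.1) (gt s.1) : ℕ) : ℤ) -
        ((val (cs W) (fs N J.1) (gt s.2) : ℤ) - val (cs W) (fs N J.1) (gt s.1)) := by omega
  rw [val_lagr s h, Nat.cast_add, Nat.cast_add, Nat.cast_mul, Nat.cast_mul, Nat.cast_mul, e,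
    Nat.cast_sub hs, Nat.cast_sub (lab_le _ _)]
  ring

theorem newt_between {α₁ β₁ α₂ β₂ v₁ v₂ v l₁ l₂ l : ℤ} (a1 : 0 < α₁) (a2 : 0 < α₂) (hl : l₁ < l₂)
    (h1 : α₁ * v₁ - β₁ * l₁ ≤ α₁ * v - β₁ * l) (h2 : α₁ * v₁ - β₁ * l₁ ≤ α₁ * v₂ - β₁ * l₂)
    (h3 : α₂ * v₂ - β₂ * l₂ ≤ α₂ * v - β₂ * l) (h4 : α₂ * v₂ - β₂ * l₂ ≤ α₂ * v₁ - β₂ * l₁)
    (h : (l₂ - l₁) * v - (v₂ - v₁) * l < (l₂ - l₁) * v₁ - (v₂ - v₁) * l₁) : l₁ < l ∧ l < l₂ := by
  constructor <;> by_contra! k
  · linarith [mul_lt_mul_of_pos_left h a1, mul_le_mul_of_nonneg_left h1 (sub_pos.2 hl).le,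
      mul_le_mul_of_nonneg_left h2 (sub_nonneg.2 k)]
  · linarith [mul_lt_mul_of_pos_left h a2, mul_le_mul_of_nonneg_left h3 (sub_pos.2 hl).le,
      mul_le_mul_of_nonneg_left h4 (sub_nonneg.2 k)]

/-- The invariant of the search. -/
def NInv (N : ℕ) (W : Cs) (J : Jn) (s : Tb × Tb) : Prop :=
  NSup N W J (gt s.1) ∧ NSup N W J (gt s.2) ∧ lab (fs N J.1) (gt s.1) ≤ J.2.2.2 ∧
    J.2.2.2 < lab (fs N J.1) (gt s.2)

/-- No improvement is possible. -/
def NDone (N : ℕ) (W : Cs) (J : Jn) (s : Tb × Tb) : Prop :=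
  val (cs (lagr N J W s)) (fs N J.1) (gt s.1) ≤
    val (cs (lagr N J W s)) (fs N J.1) (gt (mc N J (lagr N J W s)))

theorem newt_done {s : Tb × Tb} (h : NDone N W J s) : newtS N J W s = s := by
  have e : bblt (valT N (lagr N J W s) J.1 (mc N J (lagr N J W s)))
      (valT N (lagr N J W s) J.1 s.1) = false := by
    rw [← Bool.not_eq_true, bblt_eq, valT_eq, valT_eq]
    exact not_lt.2 h
  rw [newtS, newtU, e, cond_false]

theorem newt_step {s : Tb × Tb} (hs : NInv N W J s) (h : ¬ NDone N W J s) :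
    NInv N W J (newtS N J W s) ∧
      lab (fs N J.1) (gt (newtS N J W s).2) + lab (fs N J.1) (gt s.1) <
        lab (fs N J.1) (gt (newtS N J W s).1) + lab (fs N J.1) (gt s.2) := by
  obtain ⟨s1, s2, k1, k2⟩ := hs
  have hl := k1.trans_lt k2
  obtain ⟨C, hC⟩ := newt_lagr (W := W) s hl.le
  obtain ⟨p, hm⟩ := mc_spec s1.1 (lagr N J W s)
  have h' := not_le.1 h
  have e : bblt (valT N (lagr N J W s) J.1 (mc N J (lagr N J W s)))
      (valT N (lagr N J W s) J.1 s.1) = true := by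
    rw [bblt_eq, valT_eq, valT_eq]
    exact h'
  have hl' : (lab (fs N J.1) (gt s.1) : ℤ) < lab (fs N J.1) (gt s.2) := by exact_mod_cast hl
  have s3 : NSup N W J (gt (mc N J (lagr N J W s))) :=
    ⟨p, _, (val (cs W) (fs N J.1) (gt s.2) : ℤ) - val (cs W) (fs N J.1) (gt s.1), sub_pos.2 hl',
      fun m q => by linarith [hC _ p, hC _ q, Int.ofNat_le.2 (hm m q)]⟩
  obtain ⟨α₁, β₁, a1, b1⟩ := s1.2
  obtain ⟨α₂, β₂, a2, b2⟩ := s2.2
  obtain ⟨c1, c2⟩ := newt_between a1 a2 hl' (b1 _ p) (b1 _ s2.1) (b2 _ p) (b2 _ s1.1)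
    (by linarith [hC _ p, hC _ s1.1, Int.ofNat_lt.2 h'])
  rw [newtS, newtU, e, cond_true, labT_eq]
  cases hb : Nat.ble (lab (fs N J.1) (gt (mc N J (lagr N J W s)))) J.2.2.2
  · refine ⟨⟨s1, s3, k1, not_le.1 fun k => ?_⟩, by simp only [cond_false]; omega⟩
    exact absurd ((Nat.ble_eq_true_of_le k).symm.trans hb) (by decide)
  · exact ⟨⟨s3, s2, Nat.le_of_ble_eq_true hb, k2⟩, by simp only [cond_true]; omega⟩

theorem newt_iter {s : Tb × Tb} (hs : NInv N W J s) (i : ℕ) :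
    NInv N W J ((newtS N J W)^[i] s) ∧ (NDone N W J ((newtS N J W)^[i] s) ∨
      lab (fs N J.1) (gt ((newtS N J W)^[i] s).2) + i ≤
        lab (fs N J.1) (gt ((newtS N J W)^[i] s).1) + N) := by
  induction i with
  | zero =>
    exact ⟨hs, Or.inr (((lab_le _ _).trans (card_fs_le _)).trans (Nat.le_add_left _ _))⟩
  | succ i ih =>
    rw [Function.iterate_succ_apply']
    by_cases h : NDone N W J ((newtS N J W)^[i] s)
    · rw [newt_done h]
      exact ⟨ih.1, Or.inl h⟩
    · have h1 := newt_step ih.1 h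
      have h2 := ih.2.resolve_left h
      exact ⟨h1.1, Or.inr (by omega)⟩

theorem newt_keep {s : Tb × Tb} (hs : PM (fs N J.1) (fs N J.2.1) (er J.2.2.1) (gt s.1))
    (h : ∀ m, PM (fs N J.1) (fs N J.2.1) (er J.2.2.1) m → lab (fs N J.1) m ≤ J.2.2.2) (i : ℕ) :
    PM (fs N J.1) (fs N J.2.1) (er J.2.2.1) (gt ((newtS N J W)^[i] s).1) ∧
      ((newtS N J W)^[i] s).2 = s.2 := by
  induction i with
  | zero => exact ⟨hs, rfl⟩
  | succ i ih =>
    have p := (mc_spec hs (lagr N J W ((newtS N J W)^[i] s))).1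
    rw [Function.iterate_succ_apply', newtS, newtU, labT_eq, Nat.ble_eq_true_of_le (h _ p), cond_true]
    cases bblt _ _
    · exact ih
    · exact ⟨p, ih.2⟩

theorem newt_spec {m : Mt} (h : PM (fs N J.1) (fs N J.2.1) (er J.2.2.1) m)
    (hk : lab (fs N J.1) m = J.2.2.2) :
    PM (fs N J.1) (fs N J.2.1) (er J.2.2.1) (gt (newt N J W).1) ∧
    PM (fs N J.1) (fs N J.2.1) (er J.2.2.1) (gt (newt N J W).2) ∧
    (Opt (fs N J.1) (fs N J.2.1) (er J.2.2.1) J.2.2.2 (cs W) (gt (newt N J W).2) ∨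
      (lab (fs N J.1) (gt (newt N J W).1) ≤ J.2.2.2 ∧
        J.2.2.2 < lab (fs N J.1) (gt (newt N J W).2) ∧
        MinC (fs N J.1) (fs N J.2.1) (er J.2.2.1) (cs (lagr N J W (newt N J W)))
          (gt (newt N J W).1) ∧
        MinC (fs N J.1) (fs N J.2.1) (er J.2.2.1) (cs (lagr N J W (newt N J W)))
          (gt (newt N J W).2))) := by
  obtain ⟨p1, m1⟩ := mc_spec h (pen N W true)
  obtain ⟨p2, m2⟩ := mc_spec h (pen N W false)
  have big := fun m (q : PM (fs N J.1) (fs N J.2.1) (er J.2.2.1) m) =>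
    val_lt_bigK W (fs_subset (N := N) _) (fs_subset _) q
  have s1 : NSup N W J (gt (mc N J (pen N W true))) := ⟨p1, 1, -bigK N W, one_pos, fun m q => by
    have := m1 m q
    rw [(newt_pen p1).1, (newt_pen q).1] at this
    zify at this
    linarith⟩
  have s2 : NSup N W J (gt (mc N J (pen N W false))) := ⟨p2, 1, bigK N W, one_pos, fun m q => by
    have := m2 m q
    have a := (newt_pen (W := W) p2).2
    have b := (newt_pen (W := W) q).2
    zify at this a b
    linarith⟩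
  have k1 : lab (fs N J.1) (gt (mc N J (pen N W true))) ≤ J.2.2.2 := not_lt.1 fun k => by
    have := m1 m h
    have a := big m h
    have b := Nat.mul_le_mul_right (bigK N W) (Nat.succ_le_of_lt k)
    rw [(newt_pen p1).1, (newt_pen h).1, hk] at this
    rw [Nat.succ_mul] at b
    omega
  have k2 : ∀ m, PM (fs N J.1) (fs N J.2.1) (er J.2.2.1) m →
      lab (fs N J.1) m ≤ lab (fs N J.1) (gt (mc N J (pen N W false))) := fun m q =>
    not_lt.1 fun k => by
      have := m2 m q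
      have a := (newt_pen (W := W) p2).2
      have b := (newt_pen (W := W) q).2
      have c := Nat.mul_le_mul_right (bigK N W) (Nat.succ_le_of_lt k)
      have d := big m q
      rw [Nat.succ_mul] at c
      omega
  rcases (hk ▸ k2 m h).eq_or_lt with k | k
  · obtain ⟨a, b⟩ := newt_keep (W := W) (s := (mc N J (pen N W true), mc N J (pen N W false))) p1
      (fun m q => k ▸ k2 m q) N
    rw [newt, b]
    refine ⟨a, p2, Or.inl ⟨p2, k.symm, fun m q e => ?_⟩⟩
    obtain ⟨α, β, a1, b1⟩ := s2.2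
    have := b1 m q
    rw [e, ← k] at this
    exact_mod_cast le_of_mul_le_mul_left ((sub_le_sub_iff_right _).1 this) a1
  · obtain ⟨⟨a, b, c, d⟩, e⟩ := newt_iter
      (s := (mc N J (pen N W true), mc N J (pen N W false))) ⟨s1, s2, k1, k⟩ N
    have e := e.resolve_right (by omega)
    obtain ⟨C, hC⟩ := newt_lagr (W := W) _ (c.trans d.le)
    have f : MinC (fs N J.1) (fs N J.2.1) (er J.2.2.1) (cs (lagr N J W (newt N J W)))
        (gt (newt N J W).1) := ⟨a.1, fun m q => le_trans e ((mc_spec h _).2 m q)⟩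
    refine ⟨a.1, b.1, Or.inr ⟨c, d, f, b.1, fun m q => le_trans (le_of_eq ?_) (f.2 m q)⟩⟩
    refine Int.ofNat_inj.1 ((hC _ b.1).trans (Eq.trans ?_ (hC _ a.1).symm))
    ring

end Pool.Agent.Lib.MP_be0860_lc.Sx
end

-- part Pool.Agent.Lib.MP_be0860_lc.Sx.Diam
section

/-!
Short alternating paths in expanding bipartite graphs.
-/

set_option autoImplicit false

namespace Pool.Agent.Lib.MP_be0860_lc.Sx

open Pool.Agent.Shared.PolyTime Finset

theorem mem_nb_iff {B : Finset ℕ} {r : ℕ → ℕ → Prop} {X : Finset ℕ} {b : ℕ} :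
    b ∈ nb B r X ↔ b ∈ B ∧ ∃ a ∈ X, r a b := by
  unfold nb
  simp only [mem_filter]

/-- A sequence that grows by the factor `1 + 1 / P` doubles every `P` steps. -/
theorem grow_seq {P : ℕ} (hP : 0 < P) (b : ℕ → ℕ) (n : ℕ)
    (h : ∀ i < n, (P + 1) * b i ≤ P * b (i + 1)) :
    ∀ g, P * g ≤ n → 2 ^ g * b 0 ≤ b (P * g) := by
  have h1 : ∀ i t, i + t ≤ n → (P + t) * b i ≤ P * b (i + t) := by
    intro i t
    induction t with
    | zero => intro _; simp
    | succ t ih =>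
      intro ht
      have a1 := ih (by omega)
      have a2 := h (i + t) (by omega)
      have a3 : b i ≤ b (i + t) := by
        have a4 : P * b i ≤ P * b (i + t) :=
          le_trans (Nat.mul_le_mul_right _ (Nat.le_add_right P t)) a1
        exact Nat.le_of_mul_le_mul_left a4 hP
      have a5 : i + (t + 1) = i + t + 1 := by omega
      rw [a5]
      nlinarith
  intro g
  induction g with
  | zero => intro _; simp
  | succ g ih =>
    intro hg
    have e : P * (g + 1) = P * g + P := by ring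
    have a1 := ih (by omega)
    have a2 := h1 (P * g) P (by omega)
    have a3 : 2 * b (P * g) ≤ b (P * g + P) := by
      apply Nat.le_of_mul_le_mul_left _ hP
      nlinarith
    rw [e, pow_succ]
    nlinarith

/-- The balls around `a₀`. -/
noncomputable def dball (B : Finset ℕ) (r : ℕ → ℕ → Prop) (τ : ℕ → ℕ) (a₀ : ℕ) : ℕ → Finset ℕ
  | 0 => {a₀}
  | i + 1 => dball B r τ a₀ i ∪ (nb B r (dball B r τ a₀ i)).image τ

/-- A largest set of moderate size that does not expand. -/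
theorem exists_maxbad (A B : Finset ℕ) (r : ℕ → ℕ → Prop) (P : ℕ) :
    ∃ X ⊆ A, 3 * #X ≤ 2 * #A ∧ P * #(nb B r X) ≤ (P + 1) * #X ∧
      ∀ X' ⊆ A, 3 * #X' ≤ 2 * #A → #X < #X' → (P + 1) * #X' < P * #(nb B r X') := by
  classical
  have hne : (A.powerset.filter fun X => 3 * #X ≤ 2 * #A ∧
      P * #(nb B r X) ≤ (P + 1) * #X).Nonempty := by
    refine ⟨∅, ?_⟩
    have e : nb B r ∅ = ∅ := by
      ext b
      simp [mem_nb_iff]
    simp [e]
  obtain ⟨X, hX, hmax⟩ := exists_max_image _ (fun X : Finset ℕ => #X) hne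
  rw [mem_filter, mem_powerset] at hX
  refine ⟨X, hX.1, hX.2.1, hX.2.2, fun X' h1 h2 h3 => ?_⟩
  by_contra hc
  have h4 := hmax X' (by
    rw [mem_filter, mem_powerset]
    exact ⟨h1, h2, not_lt.mp hc⟩)
  omega

/-- Growth of balls on one side. -/
theorem grow1 {A B : Finset ℕ} {r : ℕ → ℕ → Prop} {P D lg : ℕ} (hP : 0 < P)
    (hE : Exp1 A B r P D) (hD : 6 * D ≤ #A) (hl : #A < 2 ^ lg) :
    ∃ X : Finset ℕ, #X < D ∧ ∀ (σ τ : ℕ → ℕ) (a₀ b₀ : ℕ) (Q : ℕ → ℕ → Prop), a₀ ∈ A → a₀ ∉ X →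
      (∀ b ∈ B, τ b ∈ A ∧ σ (τ b) = b) → (∀ a ∈ A, a ≠ a₀ → σ a ≠ b₀ → σ a ∈ B ∧ r a (σ a)) →
      Q 0 a₀ → (∀ i x, Q i x → Q (i + 1) x) →
      (∀ i x b, x ∈ A → b ∈ B → Q i x → r x b → Q (i + 1) (τ b)) →
      ∃ i < P * lg, (∃ x ∈ A, Q i x ∧ r x b₀) ∨
        ∃ S ⊆ A, (∀ x ∈ S, Q i x) ∧ #A + 3 ≤ 2 * #S := by
  classical
  obtain ⟨X, hXA, hX3, hXP, hmax⟩ := exists_maxbad A B r P
  have hXD : #X < D := by
    by_contra hc
    have := hE X hXA (not_lt.mp hc) hX3
    omega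
  refine ⟨X, hXD, fun σ τ a₀ b₀ Q ha₀ haX hτ hσ hQ0 hQ1 hQ2 => ?_⟩
  have hball : ∀ i, ∀ x ∈ dball B r τ a₀ i, x ∈ A ∧ Q i x := by
    intro i
    induction i with
    | zero =>
      intro x hx
      rw [dball, mem_singleton] at hx
      subst hx
      exact ⟨ha₀, hQ0⟩
    | succ i ih =>
      intro x hx
      rw [dball, mem_union] at hx
      rcases hx with hx | hx
      · exact ⟨(ih x hx).1, hQ1 i x (ih x hx).2⟩
      · obtain ⟨b, hb, rfl⟩ := mem_image.mp hx
        obtain ⟨hbB, a, ha, hr⟩ := mem_nb_iff.mp hb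
        exact ⟨(hτ b hbB).1, hQ2 i a b (ih a ha).1 hbB (ih a ha).2 hr⟩
  have h0 : ∀ i, a₀ ∈ dball B r τ a₀ i := by
    intro i
    induction i with
    | zero => simp [dball]
    | succ i ih =>
      rw [dball]
      exact mem_union_left _ ih
  by_contra hcon
  have hstep : ∀ i < P * lg, (P + 1) * #(dball B r τ a₀ i \ X) ≤
      P * #(dball B r τ a₀ (i + 1) \ X) := by
    intro i hi
    have hn1 : ∀ x ∈ dball B r τ a₀ i, ¬ r x b₀ := fun x hx hr =>
      hcon ⟨i, hi, Or.inl ⟨x, (hball i x hx).1, (hball i x hx).2, hr⟩⟩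
    have hn2 : 2 * #(dball B r τ a₀ i) < #A + 3 := by
      by_contra hc
      exact hcon ⟨i, hi, Or.inr ⟨_, fun x hx => (hball i x hx).1, fun x hx => (hball i x hx).2,
        not_lt.mp hc⟩⟩
    have e1 : #(dball B r τ a₀ i \ X) + #X = #(dball B r τ a₀ i ∪ X) :=
      card_sdiff_add_card _ _
    have e2 : #(dball B r τ a₀ i \ X) ≤ #(dball B r τ a₀ i) := card_le_card sdiff_subset
    have e3 : 0 < #(dball B r τ a₀ i \ X) := card_pos.mpr ⟨a₀, mem_sdiff.mpr ⟨h0 i, haX⟩⟩
    have e4 := hmax (dball B r τ a₀ i ∪ X)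
      (union_subset (fun x hx => (hball i x hx).1) hXA) (by omega) (by omega)
    have e5 : #(nb B r (dball B r τ a₀ i ∪ X)) ≤
        #(nb B r (dball B r τ a₀ i) \ nb B r X) + #(nb B r X) := by
      rw [card_sdiff_add_card]
      apply card_le_card
      intro b hb
      obtain ⟨hbB, a, ha, hr⟩ := mem_nb_iff.mp hb
      rcases mem_union.mp ha with ha | ha
      · exact mem_union_left _ (mem_nb_iff.mpr ⟨hbB, a, ha, hr⟩)
      · exact mem_union_right _ (mem_nb_iff.mpr ⟨hbB, a, ha, hr⟩)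
    have e6 : #(nb B r (dball B r τ a₀ i) \ nb B r X) ≤ #(dball B r τ a₀ (i + 1) \ X) := by
      apply card_le_card_of_injOn τ
      · intro b hb
        have hb' := mem_sdiff.mp (mem_coe.mp hb)
        obtain ⟨hbB, a, ha, hr⟩ := mem_nb_iff.mp hb'.1
        refine mem_coe.mpr (mem_sdiff.mpr ⟨?_, fun hx => hb'.2 ?_⟩)
        · rw [dball]
          exact mem_union_right _ (mem_image_of_mem τ hb'.1)
        · have q1 : τ b ≠ a₀ := fun e => haX (e ▸ hx)
          have q2 : σ (τ b) ≠ b₀ := by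
            rw [(hτ b hbB).2]
            intro e
            exact hn1 a ha (e ▸ hr)
          have q3 := (hσ (τ b) (hτ b hbB).1 q1 q2).2
          rw [(hτ b hbB).2] at q3
          exact mem_nb_iff.mpr ⟨hbB, τ b, hx, q3⟩
      · intro b hb b' hb' e
        have q1 := (mem_nb_iff.mp (mem_sdiff.mp (mem_coe.mp hb)).1).1
        have q2 := (mem_nb_iff.mp (mem_sdiff.mp (mem_coe.mp hb')).1).1
        rw [← (hτ b q1).2, ← (hτ b' q2).2, e]
    have e7 := Nat.mul_le_mul_left P (le_trans e5 (Nat.add_le_add_right e6 _))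
    rw [← e1] at e4
    nlinarith
  have hg := grow_seq hP (fun i => #(dball B r τ a₀ i \ X)) (P * lg) hstep lg le_rfl
  have e3 : 0 < #(dball B r τ a₀ 0 \ X) := card_pos.mpr ⟨a₀, mem_sdiff.mpr ⟨h0 0, haX⟩⟩
  have e4 : #(dball B r τ a₀ (P * lg) \ X) ≤ #A :=
    card_le_card fun x hx => (hball _ x (mem_sdiff.mp hx).1).1
  have e5 : 2 ^ lg ≤ 2 ^ lg * #(dball B r τ a₀ 0 \ X) := Nat.le_mul_of_pos_right _ e3
  omega

/-- Outside two small sets, all vertices are joined by short alternating paths. -/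
theorem diam {A B : Finset ℕ} {H : Er} {P D lg : ℕ} (hP : 0 < P) (hE : Exp A B H P D)
    (hAB : #A = #B) (hD : 6 * D ≤ #A) (hl : #A < 2 ^ lg) :
    ∃ X Y : Finset ℕ, #X < D ∧ #Y < D ∧ ∀ (m : Mt) (a₀ a₁ : ℕ),
      Set.BijOn (fun a => (m a).1) (A : Set ℕ) (B : Set ℕ) → a₀ ∈ A → a₁ ∈ A → a₀ ∉ X →
      (m a₁).1 ∉ Y → (∀ a ∈ A, a ≠ a₀ → a ≠ a₁ → H a (m a)) →
      ∃ l, Ch a₀ l a₁ ∧ l ≠ [] ∧ Wk A H m l ∧ l.length ≤ 2 * P * lg := by
  classical
  obtain ⟨X, hX, hgX⟩ := grow1 hP hE.1 hD hl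
  obtain ⟨Y, hY, hgY⟩ := grow1 hP hE.2 (hAB ▸ hD) (hAB ▸ hl)
  refine ⟨X, Y, hX, hY, fun m a₀ a₁ hb ha₀ ha₁ haX haY hH => ?_⟩
  obtain ⟨τ, hτ1, hτ2⟩ : ∃ τ : ℕ → ℕ, (∀ b ∈ B, τ b ∈ A ∧ (m (τ b)).1 = b) ∧
      ∀ a ∈ A, τ (m a).1 = a := by
    refine ⟨Function.invFunOn (fun a => (m a).1) (A : Set ℕ), fun b hbB => ?_, fun a ha => ?_⟩
    · exact Function.invFunOn_pos (hb.surjOn (mem_coe.mpr hbB))
    · exact hb.injOn.leftInvOn_invFunOn (mem_coe.mpr ha)
  have hmB : ∀ a ∈ A, (m a).1 ∈ B := fun a ha => mem_coe.mp (hb.mapsTo (mem_coe.mpr ha))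
  have hsnoc : ∀ {x y : ℕ} {l : Arcs} {c : Bool}, Ch a₀ l x → Wk A H m l → x ∈ A → y ∈ A →
      H x ((m y).1, c) → Ch a₀ (l ++ [(x, y, c)]) y ∧ Wk A H m (l ++ [(x, y, c)]) := by
    intro x y l c h1 h2 hx hy h3
    refine ⟨ch_append.mpr ⟨x, h1, by simp [Ch]⟩, fun p hp => ?_⟩
    rcases List.mem_append.mp hp with hp | hp
    · exact h2 p hp
    · rw [List.mem_singleton] at hp
      subst hp
      exact ⟨hx, hy, h3⟩
  have hcons : ∀ {x y : ℕ} {l : Arcs} {c : Bool}, Ch y l a₁ → Wk A H m l → x ∈ A → y ∈ A →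
      H x ((m y).1, c) → Ch x ((x, y, c) :: l) a₁ ∧ Wk A H m ((x, y, c) :: l) := by
    intro x y l c h1 h2 hx hy h3
    refine ⟨⟨rfl, h1⟩, fun p hp => ?_⟩
    rcases List.mem_cons.mp hp with hp | hp
    · subst hp
      exact ⟨hx, hy, h3⟩
    · exact h2 p hp
  have e2 : 2 * P * lg = P * lg + P * lg := by ring
  obtain ⟨i, hi, hA⟩ := hgX (fun a => (m a).1) τ a₀ (m a₁).1
    (fun i x => ∃ l, Ch a₀ l x ∧ Wk A H m l ∧ l.length ≤ i) ha₀ haX hτ1
    (fun a ha h1 h2 => ⟨hmB a ha, (m a).2, hH a ha h1 fun e => h2 (by rw [e])⟩)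
    ⟨[], by simp [Ch], fun p hp => by simp at hp, le_rfl⟩
    (fun i x ⟨l, h1, h2, h3⟩ => ⟨l, h1, h2, by omega⟩)
    (fun i x b hx hbB ⟨l, h1, h2, h3⟩ ⟨c, hc⟩ => by
      have := hsnoc (y := τ b) (c := c) h1 h2 hx (hτ1 b hbB).1 (by rw [(hτ1 b hbB).2]; exact hc)
      exact ⟨_, this.1, this.2, by simp; omega⟩)
  rcases hA with ⟨x, hx, ⟨l, h1, h2, h3⟩, c, hc⟩ | ⟨S, hS, hQS, hcS⟩
  · have := hsnoc h1 h2 hx ha₁ hc
    exact ⟨_, this.1, by simp, this.2, by simp; omega⟩
  obtain ⟨j, hj, hB⟩ := hgY τ (fun a => (m a).1) (m a₁).1 a₀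
    (fun j y => ∃ l, Ch (τ y) l a₁ ∧ Wk A H m l ∧ l.length ≤ j) (hmB a₁ ha₁) haY
    (fun a ha => ⟨hmB a ha, hτ2 a ha⟩)
    (fun b hbB h1 h2 => ⟨(hτ1 b hbB).1, (m (τ b)).2, by
      have := hH (τ b) (hτ1 b hbB).1 h2 fun e => h1 (by rw [← e, (hτ1 b hbB).2])
      rw [← (hτ1 b hbB).2, hτ2 _ (hτ1 b hbB).1]
      exact this⟩)
    ⟨[], by simp [Ch, hτ2 a₁ ha₁], fun p hp => by simp at hp, le_rfl⟩
    (fun i x ⟨l, h1, h2, h3⟩ => ⟨l, h1, h2, by omega⟩)
    (fun i y a hy ha ⟨l, h1, h2, h3⟩ ⟨c, hc⟩ => by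
      have := hcons (x := a) (c := c) h1 h2 ha (hτ1 y hy).1 (by rw [(hτ1 y hy).2]; exact hc)
      exact ⟨_, by rw [hτ2 a ha]; exact this.1, this.2, by simp; omega⟩)
  rcases hB with ⟨y, hy, ⟨l, h1, h2, h3⟩, c, hc⟩ | ⟨T, hT, hQT, hcT⟩
  · have := hcons (x := a₀) (c := c) h1 h2 ha₀ (hτ1 y hy).1 (by rw [(hτ1 y hy).2]; exact hc)
    exact ⟨_, this.1, by simp, this.2, by simp; omega⟩
  have hinj : #(S.image fun a => (m a).1) = #S :=
    card_image_of_injOn (hb.injOn.mono (coe_subset.mpr hS))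
  have hu : #((S.image fun a => (m a).1) ∪ T) ≤ #B := by
    apply card_le_card
    apply union_subset _ hT
    intro b hb'
    obtain ⟨a, ha, rfl⟩ := mem_image.mp hb'
    exact hmB a (hS ha)
  have hi2 := card_union_add_card_inter (S.image fun a => (m a).1) T
  obtain ⟨b, hb1, hb2⟩ : ∃ b ∈ (S.image fun a => (m a).1) ∩ T, b ≠ (m a₁).1 :=
    exists_mem_ne (by omega) _
  obtain ⟨hb3, hb4⟩ := mem_inter.mp hb1
  obtain ⟨x, hx, rfl⟩ := mem_image.mp hb3
  obtain ⟨l, h1, h2, h3⟩ := hQS x hx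
  obtain ⟨l', h4, h5, h6⟩ := hQT _ hb4
  rw [hτ2 x (hS hx)] at h4
  refine ⟨l ++ l', ch_append.mpr ⟨x, h1, h4⟩, fun e => ?_, fun p hp => ?_, by simp; omega⟩
  · have e' : l' = [] := (List.append_eq_nil_iff.mp e).2
    subst e'
    have e'' : x = a₁ := by simpa [Ch] using h4
    exact hb2 (by rw [e''])
  · rcases List.mem_append.mp hp with hp | hp
    · exact h2 p hp
    · exact h5 p hp

theorem exp1_del {A A' B V : Finset ℕ} {r : ℕ → ℕ → Prop} {P D w : ℕ} (hA : A' ⊆ A)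
    (hV : #V ≤ w) (hE : Exp1 A B r P D) (hD : 2 * P * w ≤ D) :
    Exp1 A' (B \ V) r (2 * P) D := by
  intro X hX h1 h2
  have e1 := card_le_card hA
  have e2 := hE X (hX.trans hA) h1 (by omega)
  have e3 : #(nb B r X) ≤ #(nb (B \ V) r X) + w := by
    refine le_trans (card_le_card ?_) (le_trans (card_union_le (nb (B \ V) r X) V) (by omega))
    intro b hb
    obtain ⟨hbB, a, ha, hr⟩ := mem_nb_iff.mp hb
    by_cases hv : b ∈ V
    · exact mem_union_right _ hv
    · exact mem_union_left _ (mem_nb_iff.mpr ⟨mem_sdiff.mpr ⟨hbB, hv⟩, a, ha, hr⟩)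
  have e4 := Nat.mul_le_mul_left P e3
  nlinarith

/-- Expansion survives the removal of a few matched pairs. -/
theorem exp_del {A B W : Finset ℕ} {H : Er} {m : Mt} {P D : ℕ} (hm : PM A B H m) (hW : W ⊆ A)
    (hE : Exp A B H P D) (hD : 2 * P * #W ≤ D) : Exp (A \ W) (B \ img m W) H (2 * P) D := by
  have _ := hm
  have _ := hW
  exact ⟨exp1_del sdiff_subset card_image_le hE.1 hD, exp1_del sdiff_subset le_rfl hE.2 hD⟩

end Pool.Agent.Lib.MP_be0860_lc.Sx
end

-- part Pool.Agent.Lib.MP_be0860_lc.Sx.Reg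
section

/-!
Mixtures of two perfect matchings.
-/

set_option autoImplicit false

namespace Pool.Agent.Lib.MP_be0860_lc.Sx

open Pool.Agent.Shared.PolyTime Finset

variable {A B : Finset ℕ} {H : Er} {m₁ m₂ : Mt} {σ : ℕ → ℕ}

theorem base_zero (a : ℕ) : base σ m₁ m₂ 0 0 0 a = m₁ a := by
  simp [base]

theorem base_top {N a : ℕ} (h : a < N) : base σ m₁ m₂ N 0 0 a = m₂ a := by
  exact if_pos (Or.inl ⟨0, h⟩)

theorem base_eq (j y len a : ℕ) :
    base σ m₁ m₂ j y len a = m₁ a ∨ base σ m₁ m₂ j y len a = m₂ a := by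
  unfold base
  split_ifs
  exacts [Or.inr rfl, Or.inl rfl]

/-- Every point of `A` is an iterate of each of its iterates. -/
theorem reg_back (hb : Set.BijOn σ (A : Set ℕ) (A : Set ℕ)) {a : ℕ} (ha : a ∈ A) (i : ℕ) :
    ∃ t, σ^[t] (σ^[i] a) = a := by
  obtain ⟨q, q0, hq⟩ := exists_period hb
  refine ⟨q * i - i, ?_⟩
  rw [← Function.iterate_add_apply, Nat.sub_add_cancel (Nat.le_mul_of_pos_left i q0),
    Function.iterate_mul]
  exact Function.iterate_fixed (hq a ha) i

theorem reg_inv (hb : Set.BijOn σ (A : Set ℕ) (A : Set ℕ)) {a : ℕ} (ha : a ∈ A) (t j : ℕ) :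
    (∃ i, σ^[i] (σ^[t] a) < j) ↔ ∃ i, σ^[i] a < j := by
  obtain ⟨u, hu⟩ := reg_back hb ha t
  exact ⟨fun ⟨i, h⟩ => ⟨i + t, by rwa [Function.iterate_add_apply]⟩,
    fun ⟨i, h⟩ => ⟨i + u, by rwa [Function.iterate_add_apply, hu]⟩⟩

open Classical in
/-- Moving along `σ` on a set that is closed except for one exit. -/
theorem reg_bij {m : Mt} (h₁ : PM A B H m₁) (hb : Set.BijOn σ (A : Set ℕ) (A : Set ℕ))
    {T : ℕ → Prop} {y a₀ : ℕ} (hy : a₀ ∈ A → y ∈ A) (h1 : ∀ a ∈ A, T a → T (σ a) ∨ σ a = a₀)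
    (h2 : ∀ a ∈ A, T a → ¬ T a₀ → σ a ≠ y) (h3 : T y ∨ y = a₀)
    (e : ∀ a ∈ A, (m a).1 = (m₁ (if T a then σ a else if a = a₀ then y else a)).1) :
    Set.BijOn (fun a => (m a).1) (A : Set ℕ) (B : Set ℕ) := by
  have k1 : Set.MapsTo (fun a => if T a then σ a else if a = a₀ then y else a) (A : Set ℕ)
      (A : Set ℕ) := fun a ha => by
    dsimp only
    split_ifs with p q
    exacts [hb.1 ha, hy (q ▸ ha), ha]
  have k2 : ∀ a ∈ A, ∀ b, T a → ¬ T b → σ a ≠ if b = a₀ then y else b := fun a ha b p q => by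
    split_ifs with r
    · exact h2 a ha p (r ▸ q)
    · exact fun k => (h1 a ha p).elim (fun u => q (k ▸ u)) fun u => r (k ▸ u)
  refine (h₁.2.comp ((A.finite_toSet.injOn_iff_bijOn_of_mapsTo k1).1 fun a ha b hb' k => ?_)).congr
    fun a ha => (e a ha).symm
  dsimp only at k
  by_cases p : T a <;> by_cases q : T b
  · rw [if_pos p, if_pos q] at k
    exact hb.2.1 ha hb' k
  · rw [if_pos p, if_neg q] at k
    exact absurd k (k2 a ha b p q)
  · rw [if_neg p, if_pos q] at k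
    exact absurd k.symm (k2 b hb' a q p)
  · rw [if_neg p, if_neg q] at k
    split_ifs at k with u v v
    · exact u.trans v.symm
    · exact h3.elim (fun w => absurd (k ▸ w) q) fun w => absurd (k ▸ w) v
    · exact h3.elim (fun w => absurd (k ▸ w) p) fun w => absurd (k ▸ w) u
    · exact k

/-- The label of a mixture. -/
theorem reg_lab (hb : Set.BijOn σ (A : Set ℕ) (A : Set ℕ)) {j y len : ℕ} (hy : y ∈ A)
    (h : ¬ ∃ i, σ^[i] y < j) (hi : Set.InjOn (fun i => σ^[i] y) (range len : Set ℕ)) :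
    (lab A (base σ m₁ m₂ j y len) : ℤ) = lab A (base σ m₁ m₂ j 0 0) +
      ∑ i ∈ range len, (((m₂ (σ^[i] y)).2.toNat : ℤ) - (m₁ (σ^[i] y)).2.toNat) := by
  rw [← sub_eq_iff_eq_add', lab, lab, val, val, Nat.cast_sum, Nat.cast_sum, ← sum_sub_distrib,
    ← sum_image (g := fun i => σ^[i] y)
      (f := fun a => ((m₂ a).2.toNat : ℤ) - (m₁ a).2.toNat) hi,
    ← sum_subset (s₁ := (range len).image fun i => σ^[i] y) (fun a ha => ?_) fun a _ ha => ?_]
  · refine sum_congr rfl fun a ha => ?_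
    obtain ⟨i, i1, rfl⟩ := mem_image.1 ha
    rw [base, base, if_pos (Or.inr ⟨i, mem_range.1 i1, rfl⟩), if_neg]
    · rfl
    · simpa only [Nat.not_lt_zero, false_and, exists_false, or_false, reg_inv hb hy] using h
  · obtain ⟨i, -, rfl⟩ := mem_image.1 ha
    exact hb.1.iterate i hy
  · have : ¬ ∃ i < len, σ^[i] y = a := fun ⟨i, i1, e⟩ => ha (mem_image.2 ⟨i, mem_range.2 i1, e⟩)
    have e : base σ m₁ m₂ j y len a = base σ m₁ m₂ j 0 0 a := by
      classical exact if_congr (or_congr_right (iff_of_false this (by simp))) rfl rfl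
    rw [e, sub_self]

theorem reg_edge (h₁ : PM A B H m₁) (h₂ : PM A B H m₂) (j y len : ℕ) {a : ℕ} (ha : a ∈ A) :
    H a (base σ m₁ m₂ j y len a) :=
  (base_eq j y len a).elim (fun e => e ▸ h₁.1 a ha) fun e => e ▸ h₂.1 a ha

theorem base_pm (h₁ : PM A B H m₁) (h₂ : PM A B H m₂)
    (hσ : ∀ a ∈ A, σ a ∈ A ∧ (m₁ (σ a)).1 = (m₂ a).1) (j : ℕ) :
    PM A B H (base σ m₁ m₂ j 0 0) := by
  have hb := link_bij h₁.2 h₂.2 hσ
  refine ⟨fun a => reg_edge h₁ h₂ j 0 0, reg_bij (T := fun a => ∃ i, σ^[i] a < j) (y := 0) (a₀ := 0)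
    h₁ hb id (fun a ha p => Or.inl ((reg_inv hb ha 1 j).2 p))
    (fun a ha p q k => q (k ▸ (reg_inv hb ha 1 j).2 p)) (Or.inr rfl) fun a ha => ?_⟩
  by_cases p : ∃ i, σ^[i] a < j
  · rw [base, if_pos (Or.inl p), if_pos p, (hσ a ha).2]
  · rw [base, if_neg (by simpa using p), if_neg p]
    split_ifs with q
    exacts [q ▸ rfl, rfl]

/-- The first moment at which the label exceeds `k`. -/
theorem exists_cross {N k : ℕ} (hA : A ⊆ range N) (h₁ : lab A m₁ ≤ k) (h₂ : k < lab A m₂) :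
    ∃ j < N, lab A (base σ m₁ m₂ j 0 0) ≤ k ∧ k < lab A (base σ m₁ m₂ (j + 1) 0 0) := by
  have hN : k < lab A (base σ m₁ m₂ N 0 0) :=
    h₂.trans_eq (val_congr lc fun a ha => base_top (mem_range.1 (hA ha))).symm
  have ex : ∃ j, k < lab A (base σ m₁ m₂ j 0 0) := ⟨N, hN⟩
  obtain ⟨j, hj⟩ := Nat.exists_eq_succ_of_ne_zero ((Nat.find_eq_zero ex).not.2
    (not_lt.2 ((val_congr lc fun a _ => base_zero a).trans_le h₁)))
  exact ⟨j, (Nat.succ_le_iff.1 hj.ge).trans_le (Nat.find_min' ex hN),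
    not_lt.1 (Nat.find_min ex (Nat.succ_le_iff.1 hj.ge)), by simpa [hj] using Nat.find_spec ex⟩

/-- If the jump is large, a piece of the orbit is closed up by a short path. -/
theorem reg_one {N k j P D lg : ℕ} (hA : A ⊆ range N) (h₁ : PM A B H m₁) (h₂ : PM A B H m₂)
    (hσ : ∀ a ∈ A, σ a ∈ A ∧ (m₁ (σ a)).1 = (m₂ a).1)
    (hj : lab A (base σ m₁ m₂ j 0 0) ≤ k) (hj' : k + 2 * D ≤ lab A (base σ m₁ m₂ (j + 1) 0 0))
    (hP : 0 < P) (hE : Exp A B H P D) (hD : 6 * D ≤ #A) (hl : #A < 2 ^ lg) :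
    ∃ y < N, ∃ len ≤ N, ∃ (M : Mt) (U : Finset ℕ), PM A B H M ∧ #U ≤ 2 * P * lg ∧
      (∀ a ∈ A, a ∉ U → M a = base σ m₁ m₂ j y len a) ∧
      lab A (base σ m₁ m₂ j y len) = k := by
  classical
  have hb := link_bij h₁.2 h₂.2 hσ
  obtain ⟨X, Y, hX, hY, hd⟩ := diam hP hE h₁.card_eq hD hl
  obtain ⟨jA, jS⟩ : j ∈ A ∧ ¬ ∃ i, σ^[i] j < j := by
    by_contra hc
    have : lab A (base σ m₁ m₂ (j + 1) 0 0) = lab A (base σ m₁ m₂ j 0 0) :=
      val_congr lc fun a ha => if_congr (or_congr_left ⟨fun ⟨i, p⟩ => by_contra fun q => hc (by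
        obtain rfl : σ^[i] a = j := le_antisymm (Nat.lt_succ_iff.1 p) (not_lt.1 fun r => q ⟨i, r⟩)
        exact ⟨hb.1.iterate i ha, (reg_inv hb ha i _).not.2 q⟩),
        fun ⟨i, p⟩ => ⟨i, p.trans j.lt_succ_self⟩⟩) rfl rfl
    omega
  obtain ⟨p, hp⟩ : ∃ p, p = Function.minimalPeriod σ j := ⟨_, rfl⟩
  have p0 : 0 < p := by
    obtain ⟨q, q0, hq⟩ := exists_period hb
    exact hp ▸ Function.IsPeriodicPt.minimalPeriod_pos q0 (hq j jA)
  have inj : ∀ a < p, ∀ b < p, σ^[a] j = σ^[b] j → a = b := fun a ha b hb' e =>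
    Function.iterate_injOn_Iio_minimalPeriod (f := σ) (x := j) (hp ▸ ha) (hp ▸ hb') e
  have mem : ∀ i, σ^[i] j ∈ A := fun i => hb.1.iterate i jA
  have e1 : lab A (base σ m₁ m₂ (j + 1) 0 0) = lab A (base σ m₁ m₂ j j p) :=
    val_congr lc fun a ha => if_congr ⟨fun h => ?_, fun h => Or.inl ?_⟩ rfl rfl
  rotate_left
  · obtain ⟨i, h⟩ | ⟨i, h, -⟩ := h
    · refine (Nat.lt_succ_iff_lt_or_eq.1 h).imp (fun r => ⟨i, r⟩) fun r => ?_
      obtain ⟨t, ht⟩ := reg_back hb ha i
      exact ⟨t % p, Nat.mod_lt _ p0, by rw [hp, Function.iterate_mod_minimalPeriod_eq, ← r, ht]⟩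
    · exact absurd h i.not_lt_zero
  · obtain ⟨i, h⟩ | ⟨i, -, rfl⟩ := h
    · exact ⟨i, h.trans j.lt_succ_self⟩
    · exact (reg_inv hb jA i _).2 ⟨0, j.lt_succ_self⟩
  have e2 := reg_lab (m₁ := m₁) (m₂ := m₂) (len := p) hb jA jS fun a ha b hb' =>
    inj a (by simpa using ha) b (by simpa using hb')
  obtain ⟨s, s', hs, hs', e3, sU, sV⟩ := first_pass (p := p) (D := D)
    (r := k - lab A (base σ m₁ m₂ j 0 0))
    (f := fun i => ∑ t ∈ range i, (((m₂ (σ^[t] j)).2.toNat : ℤ) - (m₁ (σ^[t] j)).2.toNat))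
    (U := (range p).filter fun i => (m₁ (σ^[i] j)).1 ∈ Y)
    (V := (range p).filter fun i => σ^[i] j ∈ X) rfl (fun i => by
      have := (m₂ (σ^[i] j)).2.toNat_le
      rw [sum_range_succ]
      omega) (by omega) (by omega)
    ((card_le_card_of_injOn (fun i => (m₁ (σ^[i] j)).1) (fun i hi => (mem_filter.1 hi).2)
      fun a ha b hb' e => inj a (mem_range.1 (mem_filter.1 ha).1) b
        (mem_range.1 (mem_filter.1 hb').1) (h₁.2.2.1 (mem a) (mem b) e)).trans_lt hY)
    ((card_le_card_of_injOn (fun i => σ^[i] j) (fun i hi => (mem_filter.1 hi).2)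
      fun a ha b hb' => inj a (mem_range.1 (mem_filter.1 ha).1) b
        (mem_range.1 (mem_filter.1 hb').1)).trans_lt hX)
  obtain ⟨len, rfl⟩ := Nat.exists_eq_add_of_le hs
  have it : ∀ i, σ^[i] (σ^[s] j) = σ^[s + i] j := fun i => by
    rw [add_comm, Function.iterate_add_apply]
  have nS : ∀ i, ¬ ∃ t, σ^[t] (σ^[i] j) < j := fun i => (reg_inv hb jA i j).not.2 jS
  have e4 := reg_lab (m₁ := m₁) (m₂ := m₂) (len := len) hb (mem s) (nS s) fun a ha b hb' e => by
    have h1 : a < len := by simpa using ha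
    have h2 : b < len := by simpa using hb'
    have := inj (s + a) (by omega) (s + b) (by omega) (by simpa only [it] using e)
    omega
  have pA : p ≤ #A := (card_range p).symm.trans_le (card_le_card_of_injOn (fun i => σ^[i] j)
    (fun i _ => mem i) fun a ha b hb' => inj a (by simpa using ha) b (by simpa using hb'))
  have AN : #A ≤ N := (card_le_card hA).trans_eq (card_range N)
  obtain ⟨T, hT⟩ : ∃ T : ℕ → Prop, T = fun a =>
    (∃ i, σ^[i] a < j) ∨ ∃ i < len, σ^[i] (σ^[s] j) = a := ⟨_, rfl⟩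
  have t0 : ¬ T (σ^[s + len] j) := by
    rw [hT]
    rintro (h | ⟨i, h, e⟩)
    · exact nS _ h
    · have := inj (s + i) (by omega) _ hs' (it i ▸ e)
      omega
  obtain ⟨m, hm⟩ : ∃ m : Mt, m = fun a =>
    ((m₁ (if T a then σ a else if a = σ^[s + len] j then σ^[s] j else a)).1,
      (base σ m₁ m₂ j (σ^[s] j) len a).2) := ⟨_, rfl⟩
  have m1 : ∀ a ∈ A, a ≠ σ^[s + len] j → m a = base σ m₁ m₂ j (σ^[s] j) len a := fun a ha h => by
    by_cases q : T a
    · simp only [hm, base, if_pos q, (hσ a ha).2, if_pos (hT ▸ q :)]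
    · simp only [hm, base, if_neg q, if_neg h, if_neg (hT ▸ q :)]
  have m2 : Set.BijOn (fun a => (m a).1) (A : Set ℕ) (B : Set ℕ) := by
    refine reg_bij (T := T) (y := σ^[s] j) (a₀ := σ^[s + len] j) h₁ hb (fun _ => mem s)
      (fun a ha q => ?_) (fun a ha q _ e => ?_) ?_ fun a _ => by rw [hm]
    · rw [hT] at q ⊢
      obtain h | ⟨i, h, rfl⟩ := q
      · exact Or.inl (Or.inl ((reg_inv hb ha 1 j).2 h))
      · rw [← Function.iterate_succ_apply' σ]
        exact (Nat.succ_le_iff.2 h).lt_or_eq.imp (fun r => Or.inr ⟨_, r, rfl⟩) fun r => by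
          rw [r, it]
    · rw [hT] at q
      obtain h | ⟨i, h, rfl⟩ := q
      · exact nS s (e ▸ (reg_inv hb ha 1 j).2 h)
      · rw [← Function.iterate_succ_apply' σ, it] at e
        have := inj _ (by omega) s (by omega) e
        omega
    · exact len.eq_zero_or_pos.symm.imp (fun r => hT ▸ Or.inr ⟨0, r, rfl⟩) fun r => by
        rw [r, add_zero]
  have m3 : ∀ a ∈ A, a ≠ σ^[s + len] j → H a (m a) := fun a ha h =>
    m1 a ha h ▸ reg_edge h₁ h₂ _ _ _ ha
  obtain ⟨l, l1, l2, l3, l4⟩ := hd m _ _ m2 (mem (s + len)) (mem (s + len))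
    (fun h => sV (mem_filter.2 ⟨mem_range.2 hs', h⟩))
    (fun h => sU (mem_filter.2 ⟨mem_range.2 (by omega), by
      simpa only [hm, if_neg t0, if_true] using h⟩)) fun a ha h _ => m3 a ha h
  obtain ⟨c, l', c1, c2, c3, c4⟩ := ch_simple _ l le_rfl l1 l2
  have c5 : ∀ a, a ∉ c.map Prod.fst → a ≠ σ^[s + len] j := fun a h e => h (by
    obtain ⟨x, c, rfl⟩ := List.exists_cons_of_ne_nil c2
    exact List.mem_cons.2 (Or.inl (e.trans c1.1.symm)))
  obtain ⟨M, r1, r2⟩ := exists_rot m c3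
  refine ⟨σ^[s] j, mem_range.1 (hA (mem s)), len, by omega, M, (c.map Prod.fst).toFinset,
    (rot_pm m2 (fun a ha h => m3 a ha (c5 a h)) c1 c3
      (fun x hx => l3 x (c4.mem_iff.2 (List.mem_append_right _ hx))) r1 fun a _ => r2 a).1,
    (List.toFinset_card_le _).trans ?_, fun a ha h => ?_, ?_⟩
  · have := c4.length_eq
    rw [List.length_append] at this
    rw [List.length_map]
    omega
  · rw [List.mem_toFinset] at h
    rw [r2 a h, m1 a ha (c5 a h)]
  · simp only [sum_range_add, it] at e3 e4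
    omega

end Pool.Agent.Lib.MP_be0860_lc.Sx
end

-- part Pool.Agent.Lib.MP_be0860_lc.Sx.Leaf
section

/-!
Leaves.
-/

set_option autoImplicit false

namespace Pool.Agent.Lib.MP_be0860_lc.Sx

open Pool.Agent.Shared.PolyTime Finset

variable {N pad E : ℕ} {W : Cs} {J : Jn}

theorem Solves.mono {L L' : ℕ} (h : Solves N W pad E J L) (hL : L ≤ L') :
    Solves N W pad E J L' := by
  obtain ⟨g, h1, h2, h3⟩ := h
  exact ⟨g, h1, h2.trans hL, h3⟩

theorem leaf_opt_congr {A B : Finset ℕ} {R : Er} {k : ℕ} {c : Co} {m m' : Mt}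
    (h : Opt A B R k c m) (e : ∀ a ∈ A, m' a = m a) : Opt A B R k c m' :=
  ⟨h.1.congr e, (val_congr lc e).trans h.2.1, fun m'' h1 h2 =>
    (val_congr c e).trans_le (h.2.2 m'' h1 h2)⟩

theorem leaf_gt_le (f : Mt) (a : ℕ) : (gt (mkT N f) a).1 ≤ N := by
  unfold gt mkT
  by_cases ha : a < N
  · simp [List.getD_eq_getElem?_getD, ha]
  · simp [List.getD_eq_getElem?_getD, ha]

/-- If the leaf command is optimal, then one command solves the instance. -/
theorem solves_of_leaf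
    (h : Opt (fs N J.1) (fs N J.2.1) (er J.2.2.1) J.2.2.2 (cs W) (gt (leaf N W pad E J))) :
    Solves N W pad E J 1 := by
  refine ⟨[0], by simp, by simp, 1, by simp, fun st acc g' => ?_⟩
  refine ⟨mkT N fun a => cond (vs J.1 a) (gt (leaf N W pad E J) a) (gt acc a), rfl, ?_, ?_⟩
  · refine leaf_opt_congr h fun a ha => ?_
    have ha' := mem_fs.1 ha
    have hb := (mem_fs.1 (h.1.mem ha)).1
    rw [gt_mkT ha'.1 (by simpa [ha'.2] using hb.le)]
    simp [ha'.2]
  · intro a ha hn hacc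
    have hv : vs J.1 a = false := by
      rcases hb : vs J.1 a with _ | _
      · rfl
      · exact (hn (mem_fs.2 ⟨ha, hb⟩)).elim
    rw [gt_mkT ha (by simpa [hv] using hacc)]
    simp [hv]

theorem leaf_encF_lt {m : Mt} {S : List ℕ} (h : ∀ a ∈ S, a < N ∧ (m a).1 < N) :
    ∀ x ∈ encF m S, x < N + 3 := by
  intro x hx
  simp only [encF, List.mem_flatMap] at hx
  obtain ⟨a, ha, hx⟩ := hx
  have := h a ha
  have h2 : (m a).2.toNat ≤ 1 := Bool.toNat_le _
  simp only [List.mem_cons, List.not_mem_nil, or_false] at hx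
  rcases hx with rfl | rfl | rfl <;> omega

/-- An optimal solution close to a mixture is found by one command. -/
theorem solves_leaf (hpad : (N + 3) ^ E ≤ pad) {m : Mt} {S : Finset ℕ} {j y len : ℕ}
    (hm : Opt (fs N J.1) (fs N J.2.1) (er J.2.2.1) J.2.2.2 (cs W) m) (hS : S ⊆ fs N J.1)
    (hE : 4 + 3 * #S ≤ E) (hj : j ≤ N) (hy : y ≤ N) (hl : len ≤ N)
    (h : ∀ a ∈ fs N J.1, a ∉ S → m a = base (fun x => (sig N J.1 (newt N J W)).getD x 0)
      (gt (newt N J W).1) (gt (newt N J W).2) j y len a) : Solves N W pad E J 1 := by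
  obtain ⟨h1, h2, -⟩ := newt_spec (W := W) hm.1 hm.2.1
  have hSN : #S ≤ N := (card_le_card hS).trans (card_fs_le _)
  have hlt : ∀ a ∈ S.toList, a < N ∧ (m a).1 < N := fun a ha =>
    ⟨(mem_fs.1 (hS (mem_toList.1 ha))).1, (mem_fs.1 (hm.1.mem (hS (mem_toList.1 ha)))).1⟩
  obtain ⟨i, hi, hd⟩ := dig_surj (b := N + 3) (E := E) (by omega)
    (g := [j, y, len, #S] ++ encF m S.toList) (by
      intro x hx
      rcases List.mem_append.1 hx with hx | hx
      · simp only [List.mem_cons, List.not_mem_nil, or_false] at hx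
        rcases hx with rfl | rfl | rfl | rfl <;> omega
      · exact leaf_encF_lt hlt x hx) (by
      rw [List.length_append, length_encF, length_toList]
      simpa using hE)
  apply solves_of_leaf
  refine best_opt (t := dcand N (sig N J.1 (newt N J W)) (newt N J W) (dig (N + 3) E i))
    (List.mem_map.2 ⟨i, List.mem_range.2 (hi.trans_le hpad), rfl⟩) ?_
  have e : dcand N (sig N J.1 (newt N J W)) (newt N J W) (dig (N + 3) E i) =
      ovw N (S.toList.map fun a => (a, m a))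
        (baseT N (sig N J.1 (newt N J W)) (newt N J W) j y len) := by
    rw [hd, ← edgesOf_encF m S.toList (List.replicate
      (E - ([j, y, len, #S] ++ encF m S.toList).length) 0), length_toList]
    rfl
  rw [e]
  refine leaf_opt_congr hm fun a ha => ?_
  have ha' := (mem_fs.1 ha).1
  by_cases hs : a ∈ S
  · exact (gt_ovw m _ _ ha').1 (mem_toList.2 hs) (hlt a (mem_toList.2 hs)).2.le
  · rw [(gt_ovw m _ (baseT N (sig N J.1 (newt N J W)) (newt N J W) j y len) ha').2
      (fun h' => hs (mem_toList.1 h')) (leaf_gt_le _ _), baseT_spec (fs_subset _) h1 h2 j y len a ha, h a ha hs]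

/-- Small instances. -/
theorem solves_small (hpad : (N + 3) ^ E ≤ pad) {m : Mt}
    (hm : PM (fs N J.1) (fs N J.2.1) (er J.2.2.1) m) (hk : lab (fs N J.1) m = J.2.2.2)
    (hE : 4 + 3 * #(fs N J.1) ≤ E) : Solves N W pad E J 1 := by
  obtain ⟨m', hm'⟩ := exists_opt (cs W) hm
  rw [hk] at hm'
  exact solves_leaf hpad (j := 0) (y := 0) (len := 0) hm' Subset.rfl hE (Nat.zero_le _)
    (Nat.zero_le _) (Nat.zero_le _) fun a ha hn => (hn ha).elim

/-- Instances in which all perfect matchings are feasible. -/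
theorem solves_flat (hpad : (N + 3) ^ E ≤ pad) (hE : 4 ≤ E) {m : Mt}
    (hm : PM (fs N J.1) (fs N J.2.1) (er J.2.2.1) m)
    (hk : ∀ m', PM (fs N J.1) (fs N J.2.1) (er J.2.2.1) m' → lab (fs N J.1) m' = J.2.2.2) :
    Solves N W pad E J 1 := by
  obtain ⟨-, h2, h3⟩ := newt_spec (W := W) hm (hk m hm)
  rcases h3 with h3 | ⟨-, h3, -⟩
  · exact solves_leaf hpad (S := ∅) (j := N) (y := 0) (len := 0) h3 (empty_subset _)
      (by simpa using hE) le_rfl (Nat.zero_le _) (Nat.zero_le _) fun a ha _ =>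
        (base_top (mem_fs.1 ha).1).symm
  · exact absurd (hk _ h2) h3.ne'

theorem solve_opt (hpad : (N + 3) ^ E ≤ pad) (h : Solves N W pad E J E) :
    Opt (fs N J.1) (fs N J.2.1) (er J.2.2.1) J.2.2.2 (cs W) (gt (solve N W pad E J)) := by
  obtain ⟨g, h1, h2, n, hn, h3⟩ := h
  obtain ⟨i, hi, hd⟩ := dig_surj (b := N + 3) (E := E) (by omega) h1 h2
  obtain ⟨acc, h4, h5, -⟩ := h3 [] [] (List.replicate (E - g.length) 0)
  refine best_opt (t := acc) (List.mem_map.2 ⟨i, List.mem_range.2 (hi.trans_le hpad), ?_⟩) h5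
  obtain ⟨d, rfl⟩ : ∃ d, E = d + n := ⟨E - n, by omega⟩
  rw [Function.iterate_add_apply, hd, h4, Function.iterate_fixed rfl]

end Pool.Agent.Lib.MP_be0860_lc.Sx
end
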