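import Pool.Agent.Lib.MP_be0860_lc.Sx.Lay

/-!
The running time.
-/

set_option autoImplicit false

namespace Pool.Agent.Lib.MP_be0860_lc.Sx

open Pool.Agent.Shared.PolyTime Finset

theorem size_le {N : ℕ} (h : 0 < N) : (N.size : ℝ) ≤ 2025 * (N : ℝ) ^ (1 / 1012 : ℝ) := by
  have n1 : (1 : ℝ) ≤ N := by exact_mod_cast h
  have y1 := Real.one_le_rpow n1 (show (0 : ℝ) ≤ 1 / 1012 by norm_num)
  obtain ⟨s, hs⟩ := Nat.exists_eq_add_one.2 (Nat.size_pos.2 h)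
  have h1 : (2 : ℝ) ^ s ≤ N := by exact_mod_cast Nat.lt_size.1 (show s < _ by omega)
  have h2 := Real.log_le_log (by positivity) h1
  have h3 := Real.log_le_rpow_div (x := N) (by positivity) (show (0 : ℝ) < 1 / 1012 by norm_num)
  have h4 := Real.log_two_gt_d9
  rw [Real.log_pow] at h2
  rw [hs]
  push_cast
  nlinarith [s.cast_nonneg (α := ℝ)]

theorem cnt_le (N : ℕ) : (((List.range N).countP fun x => Nat.blt (x ^ 22) N : ℕ) : ℝ) ≤
    ((N : ℝ) ^ (1 / 1012 : ℝ)) ^ 46 + 1 := by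
  have e : (((N : ℝ) ^ (1 / 1012 : ℝ)) ^ 46) ^ 22 = N := by
    rw [← pow_mul, ← Real.rpow_natCast, ← Real.rpow_mul N.cast_nonneg]
    norm_num
  have y0 : (0 : ℝ) ≤ ((N : ℝ) ^ (1 / 1012 : ℝ)) ^ 46 := by positivity
  generalize ((N : ℝ) ^ (1 / 1012 : ℝ)) ^ 46 = y at e y0
  have h := (List.subperm_of_subset (l₂ := List.range (⌊y⌋₊ + 1))
    ((List.nodup_range (n := N)).filter fun x => Nat.blt (x ^ 22) N) fun x hx => by
      have h1 : (x : ℝ) ^ 22 < y ^ 22 := by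
        rw [e]
        exact_mod_cast Nat.blt_eq.mp (List.mem_filter.1 hx).2
      exact List.mem_range.2 (Nat.lt_succ_of_le
        (Nat.le_floor (lt_of_pow_lt_pow_left₀ 22 y0 h1).le))).length_le
  rw [List.length_range, ← List.countP_eq_length_filter] at h
  refine (Nat.cast_le.2 h).trans ?_
  push_cast
  linarith [Nat.floor_le y0]

theorem pare_le : ∃ C : ℕ, ∀ N : ℕ, 0 < N → (pare N : ℝ) ≤ C * (N : ℝ) ^ (22 / 23 : ℝ) := by
  refine ⟨2 ^ 30 * 2026 * 2031 ^ 21 * 2027, fun N h => ?_⟩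
  have h1 := size_le h
  have h2 := cnt_le N
  have y1 := Real.one_le_rpow (show (1 : ℝ) ≤ N by exact_mod_cast h)
    (show (0 : ℝ) ≤ 1 / 1012 by norm_num)
  have h3 : ((N + 3).size : ℝ) ≤ N.size + 2 := by
    have := N.lt_size_self
    exact_mod_cast Nat.size_le.2 (by rw [pow_add]; omega)
  rw [show (N : ℝ) ^ (22 / 23 : ℝ) = ((N : ℝ) ^ (1 / 1012 : ℝ)) ^ 968 by
    rw [← Real.rpow_natCast, ← Real.rpow_mul N.cast_nonneg]
    norm_num]
  generalize (N : ℝ) ^ (1 / 1012 : ℝ) = y at h1 h2 y1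
  have y2 : y ≤ y ^ 46 := le_self_pow₀ y1 (by norm_num)
  have h4 : (parP N : ℝ) ≤ 2031 * y ^ 46 := by
    rw [parP]
    push_cast
    linarith
  rw [pare, parE, show ((2 ^ 30 * 2026 * 2031 ^ 21 * 2027 : ℕ) : ℝ) * y ^ 968 =
    2 ^ 30 * (2026 * y) * (2031 * y ^ 46) ^ 21 * (2027 * y) by push_cast; ring]
  push_cast
  gcongr <;> linarith

theorem poly_le (p : Polynomial ℕ) : ∃ c d : ℕ, ∀ x, p.eval x ≤ c * (x + 1) ^ d :=
  ⟨∑ i ∈ p.support, p.coeff i, p.natDegree, fun x => by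
    rw [Polynomial.eval_eq_sum, Polynomial.sum_def, sum_mul]
    exact sum_le_sum fun i hi => Nat.mul_le_mul_left _ ((Nat.pow_le_pow_left x.le_succ i).trans
      (Nat.pow_le_pow_right x.succ_pos (Polynomial.le_natDegree_of_mem_supp i hi)))⟩

theorem time_of (p : Polynomial ℕ) {f : ℕ → ℕ} {K : ℕ}
    (hK : ∀ N : ℕ, 0 < N → (f N : ℝ) ≤ K * (N : ℝ) ^ (22 / 23 : ℝ)) :
    ∃ C : ℕ, ∀ a n len : ℕ, a ≤ n → 0 < len → ((p.eval (2 ^ f a + len) : ℕ) : ℝ) ≤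
      2 ^ (C * (n : ℝ) ^ (22 / 23 : ℝ)) * ((len : ℝ) + 1) ^ C := by
  obtain ⟨c, d, hp⟩ := poly_le p
  refine ⟨K * d + (c + (f 0 + 2) * d), fun a n len ha hl => ?_⟩
  have z0 : (0 : ℝ) ≤ (n : ℝ) ^ (22 / 23 : ℝ) := by positivity
  obtain ⟨e, e1, e2⟩ : ∃ e : ℕ, f a ≤ e + f 0 ∧ (e : ℝ) ≤ K * (n : ℝ) ^ (22 / 23 : ℝ) := by
    rcases a.eq_zero_or_pos with rfl | h
    · exact ⟨0, by omega, by rw [Nat.cast_zero]; positivity⟩
    · exact ⟨_, Nat.le_add_right _ _, (hK a h).trans (by gcongr)⟩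
  generalize f a = u at e1
  generalize f 0 = v at e1
  have h1 : 2 ^ u + len + 1 ≤ 2 ^ e * (len + 1) ^ (v + 2) := by
    have a1 : 2 ^ u ≤ 2 ^ e * (len + 1) ^ v := (Nat.pow_le_pow_right two_pos e1).trans (by
      rw [pow_add]
      exact Nat.mul_le_mul_left _ (Nat.pow_le_pow_left (by omega) v))
    have a2 : 0 < 2 ^ e * (len + 1) ^ v := by positivity
    rw [pow_add, ← mul_assoc]
    generalize 2 ^ e * (len + 1) ^ v = t at a1 a2
    nlinarith [Nat.mul_le_mul_left t hl, Nat.mul_le_mul_right len a2, Nat.zero_le (t * len ^ 2)]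
  have h2 : p.eval (2 ^ u + len) ≤ 2 ^ (e * d) * (len + 1) ^ (K * d + (c + (v + 2) * d)) := by
    refine (hp _).trans ((Nat.mul_le_mul (c.lt_two_pow_self.le.trans
      (Nat.pow_le_pow_left (show 2 ≤ len + 1 by omega) c)) (Nat.pow_le_pow_left h1 d)).trans ?_)
    rw [mul_pow, ← pow_mul, ← pow_mul, mul_left_comm, ← pow_add]
    exact Nat.mul_le_mul_left _ (Nat.pow_le_pow_right (by omega) (by omega))
  refine (Nat.cast_le.2 h2).trans ?_
  push_cast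
  refine mul_le_mul_of_nonneg_right ?_ (by positivity)
  rw [← Real.rpow_natCast]
  refine Real.rpow_le_rpow_of_exponent_le one_le_two ?_
  push_cast
  have : (0 : ℝ) ≤ (c + (v + 2) * d) * (n : ℝ) ^ (22 / 23 : ℝ) := by positivity
  nlinarith [mul_le_mul_of_nonneg_right e2 (d.cast_nonneg (α := ℝ))]

theorem time_le (p : Polynomial ℕ) : ∃ C : ℕ, ∀ a n len : ℕ, a ≤ n → 0 < len →
    ((p.eval (2 ^ pare a + len) : ℕ) : ℝ) ≤
      2 ^ (C * (n : ℝ) ^ (22 / 23 : ℝ)) * ((len : ℝ) + 1) ^ C :=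
  pare_le.elim fun _ hK => time_of p hK

end Pool.Agent.Lib.MP_be0860_lc.Sx
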