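import Pool.Agent.Lib.MP_be0860_lc.Sx.Lay

-- part Pool.Agent.Lib.MP_be0860_lc.Sx.Pf
section

/-!
The subroutines run in polynomial time.
-/

set_option autoImplicit false

namespace Pool.Agent.Lib.MP_be0860_lc.Sx

open Pool.Agent.Shared.PolyTime Finset

open Enc

variable {α : Type} [Enc α]

theorem iter_le {β : Type} [Enc β] {k : α → ℕ} {i : α → β} {st : α → β → β} (B : α → ℕ)
    (hk : PF k) (hi : PF i) (hs : PF fun p : α × β => st p.1 p.2) (hB : PF B)
    (h : ∀ a j, j ≤ k a → (enc ((st a)^[j] (i a))).length ≤ B a) :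
    PF fun a => (st a)^[k a] (i a) := by
  obtain ⟨p, hp⟩ := hB.size
  exact PF.iterate hk hi hs ⟨p, fun a j hj => (h a j hj).trans (by simpa using hp a _ le_rfl)⟩

theorem fold_le {β γ : Type} [Enc β] [Enc γ] {l : α → List γ} {i : α → β} {st : α → β → γ → β}
    (B : α → ℕ) (hl : PF l) (hi : PF i) (hs : PF fun p : α × β × γ => st p.1 p.2.1 p.2.2)
    (hB : PF B) (h0 : ∀ a, (enc (i a)).length ≤ B a)
    (h : ∀ a b, ∀ c ∈ l a, (enc b).length ≤ B a → (enc (st a b c)).length ≤ B a) :
    PF fun a => (l a).foldl (st a) (i a) := by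
  obtain ⟨p, hp⟩ := hB.size
  refine PF.foldl hl hi hs ⟨p, fun a j => le_trans ?_ (by simpa using hp a _ le_rfl)⟩
  have key : ∀ (m : List γ) (b : β), (∀ c ∈ m, c ∈ l a) → (enc b).length ≤ B a →
      (enc (m.foldl (st a) b)).length ≤ B a := by
    intro m
    induction m with
    | nil => exact fun _ _ h => h
    | cons c m ih =>
      exact fun b hm hb => ih _ (fun c hc => hm c (by simp [hc])) (h a b c (hm c (by simp)) hb)
  exact key _ _ (fun c hc => List.mem_of_mem_take hc) (h0 a)

theorem pf_pick {β : Type} [Enc β] {p : α → β → β → Bool} {l : α → List β} {i : α → β}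
    (hp : PF fun x : α × β × β => p x.1 x.2.1 x.2.2) (hl : PF l) (hi : PF i) :
    PF fun a => pick (p a) (l a) (i a) := by
  have hp' : PF fun x : α × β × β => p x.1 x.2.2 x.2.1 :=
    hp.comp (g := fun x : α × β × β => (x.1, x.2.2, x.2.1)) (by fun_prop)
  refine fold_le (st := fun a b c => cond (p a c b) c b)
    (fun a => (enc (l a)).length + (enc (i a)).length) hl hi
    (PF.cond' hp' (by fun_prop) (by fun_prop)) (hl.encLen.add hi.encLen) (fun a => by omega) ?_
  intro a b c hc hb
  have := len_le_of_mem hc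
  cases p a c b
  · exact hb
  · exact this.trans (by omega)

theorem len_mkT (N : ℕ) (f : Mt) : (enc (mkT N f)).length ≤ N * (4 * N + 5) := by
  refine (len_le_mul _ (2 * N + 2) fun x hx => ?_).trans (by simp [mkT]; nlinarith)
  obtain ⟨a, -, rfl⟩ := List.mem_map.1 hx
  have := min_le_right (f a).1 N
  simp only [len_prod, len_nat, len_bool]
  omega

theorem len_mkV (N : ℕ) (f : ℕ → Bool) : (enc (mkV N f)).length ≤ N * 3 :=
  (len_le_mul _ 1 fun x _ => by simp).trans (by simp [mkV])

theorem len_mkE (N : ℕ) (f : ℕ → ℕ × Bool → Bool) :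
    (enc (mkE N f)).length ≤ N * (18 * N + 1) := by
  refine (len_le_mul _ (N * 9) fun x hx => ?_).trans (by simp [mkE]; nlinarith)
  obtain ⟨a, -, rfl⟩ := List.mem_map.1 hx
  exact (len_le_mul _ 4 fun y _ => by obtain ⟨y1, y2⟩ := y; simp).trans (by simp)

attribute [fun_prop] pb_sumBig

@[fun_prop] theorem pf_vs {A : α → Vs} {x : α → ℕ} (hA : PF A) (hx : PF x) :
    PF fun a => vs (A a) (x a) := by
  unfold vs; fun_prop

@[fun_prop] theorem pf_mkV {N : α → ℕ} {f : α → ℕ → Bool} (hN : PF N)
    (hf : PF fun p : α × ℕ => f p.1 p.2) : PF fun a => mkV (N a) (f a) := by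
  unfold mkV; fun_prop

@[fun_prop] theorem pf_ed {E : α → Es} {x : α → ℕ} {y : α → ℕ × Bool} (hE : PF E) (hx : PF x)
    (hy : PF y) : PF fun a => ed (E a) (x a) (y a) := by
  unfold ed; fun_prop

@[fun_prop] theorem pf_mkE {N : α → ℕ} {f : α → ℕ → ℕ × Bool → Bool} (hN : PF N)
    (hf : PF fun p : α × ℕ × ℕ × Bool => f p.1 p.2.1 p.2.2) : PF fun a => mkE (N a) (f a) := by
  unfold mkE
  refine PF.map (by fun_prop) (PF.map (by fun_prop) (PF.pair ?_ ?_))
  · exact hf.comp (g := fun p : (α × ℕ) × ℕ => (p.1.1, p.1.2, p.2, false)) (by fun_prop)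
  · exact hf.comp (g := fun p : (α × ℕ) × ℕ => (p.1.1, p.1.2, p.2, true)) (by fun_prop)

@[fun_prop] theorem pf_gt {t : α → Tb} {x : α → ℕ} (ht : PF t) (hx : PF x) :
    PF fun a => gt (t a) (x a) := by
  unfold gt; fun_prop

@[fun_prop] theorem pf_mkT {N : α → ℕ} {f : α → Mt} (hN : PF N)
    (hf : PF fun p : α × ℕ => f p.1 p.2) : PF fun a => mkT (N a) (f a) := by
  unfold mkT; fun_prop

@[fun_prop] theorem pb_cs {W : α → Cs} {x : α → ℕ} {y : α → ℕ × Bool} (hW : PF W) (hx : PF x)
    (hy : PF y) : PB fun a => cs (W a) (x a) (y a) := by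
  unfold cs; fun_prop

theorem pf_mkC {N : α → ℕ} {f : α → Co} (hN : PF N)
    (hf : PB fun p : α × ℕ × ℕ × Bool => f p.1 p.2.1 p.2.2) : PF fun a => mkC (N a) (f a) := by
  unfold mkC
  refine PF.map (by fun_prop) (PF.map (by fun_prop) (PF.pair ?_ ?_))
  · exact hf.comp (g := fun p : (α × ℕ) × ℕ => (p.1.1, p.1.2, p.2, false)) (by fun_prop)
  · exact hf.comp (g := fun p : (α × ℕ) × ℕ => (p.1.1, p.1.2, p.2, true)) (by fun_prop)

@[fun_prop] theorem pb_valT {N : α → ℕ} {W : α → Cs} {A : α → Vs} {t : α → Tb} (hN : PF N)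
    (hW : PF W) (hA : PF A) (ht : PF t) : PB fun a => valT (N a) (W a) (A a) (t a) := by
  unfold valT; fun_prop

@[fun_prop] theorem pf_labT {N : α → ℕ} {A : α → Vs} {t : α → Tb} (hN : PF N)
    (hA : PF A) (ht : PF t) : PF fun a => labT (N a) (A a) (t a) := by
  unfold labT; fun_prop

@[fun_prop] theorem pb_tot {N : α → ℕ} {W : α → Cs} (hN : PF N) (hW : PF W) :
    PB fun a => tot (N a) (W a) := by
  unfold tot; fun_prop

@[fun_prop] theorem pb_bigK {N : α → ℕ} {W : α → Cs} (hN : PF N) (hW : PF W) :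
    PB fun a => bigK (N a) (W a) := by
  unfold bigK
  exact ((PB.ofPF hN).mul (pb_tot hN hW)).add (PB.const 1)

@[fun_prop] theorem pb_wc {W : α → Cs} {K : α → ℕ} {t : α → Tb} {l : α → Arcs} (hW : PF W)
    (hK : PB K) (ht : PF t) (hl : PF l) : PB fun a => wc (W a) (K a) (t a) (l a) := by
  unfold wc
  refine pb_sumBig (PF.map hl (PB.mk (PB.sub (PB.add (by fun_prop) ?_) (by fun_prop))))
  exact hK.comp (by fun_prop)

@[fun_prop] theorem pf_wk {T : α → List (List Arcs)} {s v : α → ℕ} (hT : PF T) (hs : PF s)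
    (hv : PF v) : PF fun a => wk (T a) (s a) (v a) := by
  unfold wk; fun_prop

theorem pf_tab {β : Type} [Enc β] {N : α → ℕ} {f : α → ℕ → ℕ → β} (hN : PF N)
    (hf : PF fun p : (α × ℕ) × ℕ => f p.1.1 p.1.2 p.2) : PF fun a => tab (N a) (f a) := by
  unfold tab
  exact PF.map (by fun_prop) (PF.map (by fun_prop) hf)

section
variable {N : α → ℕ} {W : α → Cs} {K : α → ℕ} {t : α → Tb}

theorem pf_cmp {β : Type} [Enc β] (hW : PF W) (hK : PB K) (ht : PF t) {g : β → α} (hg : PF g) :
    PF fun x : β × Arcs × Arcs => bblt (wc (W (g x.1)) (K (g x.1)) (t (g x.1)) x.2.1)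
      (wc (W (g x.1)) (K (g x.1)) (t (g x.1)) x.2.2) := by
  have h : PF fun x : β × Arcs × Arcs => g x.1 := hg.comp (by fun_prop)
  exact PB.blt (pb_wc (hW.comp h) (hK.comp h) (ht.comp h) (by fun_prop))
    (pb_wc (hW.comp h) (hK.comp h) (ht.comp h) (by fun_prop))

theorem pf_lay1 (hN : PF N) (hW : PF W) (hK : PB K) (ht : PF t) :
    PF fun a => lay1 (N a) (W a) (K a) (t a) := by
  unfold lay1
  exact pf_tab hN (pf_pick (pf_cmp hW hK ht (g := fun p : (α × ℕ) × ℕ => p.1.1) (by fun_prop))
    (by fun_prop) (by fun_prop))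

theorem pf_layS {T : α → List (List Arcs)} (hN : PF N) (hW : PF W) (hK : PB K) (ht : PF t)
    (hT : PF T) : PF fun a => layS (N a) (W a) (K a) (t a) (T a) := by
  unfold layS
  exact pf_tab hN (pf_pick (pf_cmp hW hK ht (g := fun p : (α × ℕ) × ℕ => p.1.1) (by fun_prop))
    (by fun_prop) (by fun_prop))
end

theorem pick_mem' {β : Type} (p : β → β → Bool) (l : List β) (i : β) : pick p l i ∈ i :: l := by
  unfold pick
  induction l generalizing i with
  | nil => simp
  | cons c l ih =>
    have := ih (cond (p c i) c i)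
    rw [List.foldl_cons]
    rcases List.mem_cons.1 this with h | h
    · rw [h]; cases p c i <;> simp
    · simp [h]

/-- tables of short walks -/
def Sm (N j : ℕ) (T : List (List Arcs)) : Prop :=
  T.length ≤ N ∧ ∀ r ∈ T, r.length ≤ N ∧ ∀ l ∈ r, (enc l).length ≤ j * (8 * N + 7)

theorem Sm.wk {N j : ℕ} {T : List (List Arcs)} (h : Sm N j T) (s v : ℕ) :
    (enc (wk T s v)).length ≤ j * (8 * N + 7) := by
  unfold Sx.wk
  rw [List.getD_eq_getElem?_getD, List.getD_eq_getElem?_getD]
  rcases h1 : T[s]? with _ | r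
  · simp
  · rcases h2 : r[v]? with _ | l
    · simp [h2]
    · simpa [h2] using (h.2 r (List.mem_of_getElem? h1)).2 l (List.mem_of_getElem? h2)

theorem sm_tab {N j : ℕ} {f : ℕ → ℕ → Arcs}
    (h : ∀ s < N, ∀ v < N, (enc (f s v)).length ≤ j * (8 * N + 7)) : Sm N j (tab N f) := by
  refine ⟨by simp [tab], fun r hr => ?_⟩
  obtain ⟨s, hs, rfl⟩ := List.mem_map.1 hr
  refine ⟨by simp, fun l hl => ?_⟩
  obtain ⟨v, hv, rfl⟩ := List.mem_map.1 hl
  exact h s (List.mem_range.1 hs) v (List.mem_range.1 hv)

theorem sm_lay (N : ℕ) (W : Cs) (K : ℕ) (t : Tb) : ∀ i, Sm N (i + 1) (lay N W K t i)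
  | 0 => sm_tab fun s hs v hv => by
    have := pick_mem' (fun c b => bblt (wc W K t c) (wc W K t b)) [[(s, v, true)]] [(s, v, false)]
    simp only [List.mem_cons, List.not_mem_nil, or_false] at this
    rcases this with h | h <;> rw [h] <;> simp <;> omega
  | i + 1 => by
    have ih := sm_lay N W K t i
    unfold lay at ih ⊢
    rw [Function.iterate_succ_apply']
    refine sm_tab fun s hs v hv => ?_
    have key : ∀ u < N, ∀ c : Bool, (enc ((s, u, c) :: wk ((layS N W K t)^[i] (lay1 N W K t))
        u v)).length ≤ (i + 1 + 1) * (8 * N + 7) := by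
      intro u hu c
      have := ih.wk u v
      simp only [len_cons, len_prod, len_nat, len_bool]
      rw [Nat.add_mul (i + 1)]
      omega
    rcases List.mem_cons.1 (pick_mem' _ _ _) with h | h
    · rw [h]; exact key v hv _
    · obtain ⟨u, hu, h⟩ := List.mem_flatMap.1 h
      simp only [List.mem_cons, List.not_mem_nil, or_false] at h
      rcases h with h | h <;> rw [h] <;> exact key u (List.mem_range.1 hu) _

section
variable {N : α → ℕ} {W : α → Cs} {K : α → ℕ} {t : α → Tb}

theorem pf_lay {i : α → ℕ} (hN : PF N) (hW : PF W) (hK : PB K) (ht : PF t) (hi : PF i) :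
    PF fun a => lay (N a) (W a) (K a) (t a) (i a) := by
  refine iter_le (st := fun a T => layS (N a) (W a) (K a) (t a) T)
    (fun a => N a * (2 * (N a * (2 * ((i a + 1) * (8 * N a + 7)) + 1)) + 1)) hi
    (pf_lay1 hN hW hK ht) (pf_layS (by fun_prop) (by fun_prop) (hK.comp (by fun_prop))
      (by fun_prop) (by fun_prop)) (by fun_prop) fun a j hj => ?_
  have h := sm_lay (N a) (W a) (K a) (t a) j
  refine (len_le_mul _ _ fun r hr => ?_).trans (Nat.mul_le_mul_right _ h.1)
  refine (len_le_mul _ _ fun l hl => ?_).trans (Nat.mul_le_mul_right _ (h.2 r hr).1)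
  exact ((h.2 r hr).2 l hl).trans (Nat.mul_le_mul_right _ (by omega))

theorem pf_findC (hN : PF N) (hW : PF W) (hK : PB K) (ht : PF t) :
    PF fun a => findC (N a) (W a) (K a) (t a) := by
  unfold findC
  refine PF.headD (PF.filter (PF.flatMap (by fun_prop) (PF.map (by fun_prop)
    (pf_wk (pf_lay (by fun_prop) (by fun_prop) (hK.comp (by fun_prop)) (by fun_prop)
      (by fun_prop)) (by fun_prop) (by fun_prop)))) (PF.and' (PB.blt ?_ ?_) (by fun_prop)))
    (by fun_prop)
  · exact pb_wc (by fun_prop) (hK.comp (by fun_prop)) (by fun_prop) (by fun_prop)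
  · exact (PB.ofPF (by fun_prop)).mul (hK.comp (by fun_prop))

@[fun_prop] theorem pf_arcAt {l : α → Arcs} {x : α → ℕ} (ht : PF t) (hl : PF l) (hx : PF x) :
    PF fun a => arcAt (t a) (l a) (x a) := by
  unfold arcAt; fun_prop

@[fun_prop] theorem pf_rotT {l : α → Arcs} (hN : PF N) (ht : PF t) (hl : PF l) :
    PF fun a => rotT (N a) (t a) (l a) := by
  unfold rotT; fun_prop

@[fun_prop] theorem pf_improve (hN : PF N) (hW : PF W) (ht : PF t) :
    PF fun a => improve (N a) (W a) (t a) := by
  unfold improve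
  exact pf_rotT hN ht (pf_findC hN hW (pb_tot hN hW) ht)

@[fun_prop] theorem pf_scaleC {i : α → ℕ} (hN : PF N) (hW : PF W) (hi : PF i) :
    PF fun a => scaleC (N a) (W a) (i a) := by
  unfold scaleC
  exact pf_mkC hN (PB.div (by fun_prop) (PB.pow (PB.const 2) (by fun_prop)))
end

theorem pf_mcF' : PF fun x : ℕ × Cs => mcF x.1 x.2 := by
  unfold mcF
  exact fold_le (st := fun (x : ℕ × Cs) t i => improve x.1 (scaleC x.1 x.2 i) t)
    (fun x => x.1 * (4 * x.1 + 5)) (by fun_prop) (by fun_prop) (by fun_prop) (by fun_prop)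
    (fun x => len_mkT _ _) fun x _ _ _ _ => len_mkT _ _

section
variable {N : α → ℕ} {W : α → Cs} {J : α → Jn} {t : α → Tb}

@[fun_prop] theorem pf_mcF (hN : PF N) (hW : PF W) : PF fun a => mcF (N a) (W a) :=
  pf_mcF'.comp (g := fun a => (N a, W a)) (by fun_prop)

@[fun_prop] theorem pf_extC (hN : PF N) (hJ : PF J) (hW : PF W) :
    PF fun a => ext (N a) (J a) (W a) := by
  unfold ext
  exact pf_mkC hN (PB.cond' (by fun_prop) (PB.cond' (by fun_prop) (by fun_prop) (by fun_prop))
    (PB.cond' (by fun_prop) (by fun_prop) (PB.const 0)))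

@[fun_prop] theorem pf_mc (hN : PF N) (hJ : PF J) (hW : PF W) :
    PF fun a => mc (N a) (J a) (W a) := by
  unfold mc; fun_prop

@[fun_prop] theorem pb_pv {P : α → List Big} {b : α → ℕ} (hP : PF P) (hb : PF b) :
    PB fun a => pv (P a) (b a) := by
  unfold pv; fun_prop

theorem pf_priceS {P : α → List Big} (hN : PF N) (hW : PF W) (ht : PF t) (hP : PF P) :
    PF fun a => priceS (N a) (W a) (t a) (P a) := by
  unfold priceS
  refine PF.map (by fun_prop) (pf_pick (PB.blt (by fun_prop) (by fun_prop))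
    (PF.flatMap (by fun_prop) (PF.cons (PB.mk ?_) (PF.cons (PB.mk ?_) (by fun_prop))))
    (PB.mk (by fun_prop)))
  · exact PB.sub (PB.add (by fun_prop) (by fun_prop)) (by fun_prop)
  · exact PB.sub (PB.add (by fun_prop) (by fun_prop)) (by fun_prop)
end

theorem getD_len_le {β : Type} [Enc β] (l : List β) (i : ℕ) (d : β) :
    (enc (l.getD i d)).length ≤ (enc l).length + (enc d).length := by
  rw [List.getD_eq_getElem?_getD]
  rcases h : l[i]? with _ | x
  · simp
  · have := len_le_of_mem (List.mem_of_getElem? h)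
    simp only [Option.getD_some]
    omega

theorem cs_lt (W : Cs) (a : ℕ) (x : ℕ × Bool) : cs W a x < 2 ^ ((enc W).length + 1) := by
  have h1 := getD_len_le W a []
  have h2 := getD_len_le (W.getD a []) x.1 (⟨0⟩, ⟨0⟩)
  unfold cs
  generalize (W.getD a []).getD x.1 (⟨0⟩, ⟨0⟩) = y at h2
  obtain ⟨⟨y1⟩, ⟨y2⟩⟩ := y
  simp only [len_prod, len_big, len_nil, Nat.size_zero] at h1 h2
  rw [← Nat.size_le]
  cases x.2 <;> simp only [cond_false, cond_true] <;> omega

theorem pv_priceS_le (N : ℕ) (W : Cs) (t : Tb) : ∀ (i : ℕ),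
    ((priceS N W t)^[i] []).length ≤ N ∧
      ∀ x ∈ (priceS N W t)^[i] [], x.val ≤ i * 2 ^ ((enc W).length + 1)
  | 0 => by simp
  | i + 1 => by
    obtain ⟨-, ih⟩ := pv_priceS_le N W t i
    rw [Function.iterate_succ_apply']
    generalize (priceS N W t)^[i] [] = P at ih
    have hp : ∀ b, pv P b ≤ i * 2 ^ ((enc W).length + 1) := by
      intro b
      unfold pv
      rw [List.getD_eq_getElem?_getD]
      rcases h : P[b]? with _ | x
      · simp
      · exact ih x (List.mem_of_getElem? h)
    refine ⟨by simp [priceS], fun x hx => ?_⟩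
    obtain ⟨b, -, rfl⟩ := List.mem_map.1 hx
    rw [Nat.add_mul, one_mul]
    rcases List.mem_cons.1 (pick_mem' _ _ _) with h | h
    · rw [h]; exact (hp b).trans (Nat.le_add_right _ _)
    · obtain ⟨u, -, h⟩ := List.mem_flatMap.1 h
      have h1 := hp (gt t u).1
      have h2 := cs_lt W u (gt t u)
      simp only [List.mem_cons, List.not_mem_nil, or_false] at h
      rcases h with h | h <;> rw [h] <;> dsimp only <;> omega

section
variable {N : α → ℕ} {W : α → Cs} {J : α → Jn} {t : α → Tb}

@[fun_prop] theorem pf_price (hN : PF N) (hW : PF W) (ht : PF t) :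
    PF fun a => price (N a) (W a) (t a) := by
  refine iter_le (st := fun a P => priceS (N a) (W a) (t a) P)
    (fun a => N a * (2 * (N a + ((enc (W a)).length + 2)) + 1)) hN (by fun_prop)
    (pf_priceS (by fun_prop) (by fun_prop) (by fun_prop) (by fun_prop)) ?_ fun a j hj => ?_
  · have := hW.encLen
    fun_prop
  · obtain ⟨h1, h2⟩ := pv_priceS_le (N a) (W a) (t a) j
    refine (len_le_mul _ _ fun x hx => ?_).trans (Nat.mul_le_mul_right _ h1)
    obtain ⟨x⟩ := x
    have h3 := Nat.size_le_size (h2 _ hx)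
    have h4 := size_mul_le j (2 ^ ((enc (W a)).length + 1))
    have h5 := size_le_self j
    rw [Nat.size_pow] at h4
    rw [len_big]
    dsimp only at h3
    omega

@[fun_prop] theorem pf_redP {P : α → List Big} (hN : PF N) (hW : PF W) (ht : PF t) (hP : PF P) :
    PF fun a => redP (N a) (W a) (t a) (P a) := by
  unfold redP
  exact pf_mkC hN (PB.sub (PB.add (by fun_prop) (by fun_prop)) (PB.add (by fun_prop) (by fun_prop)))

@[fun_prop] theorem pf_redC (hN : PF N) (hJ : PF J) (hW : PF W) :
    PF fun a => redC (N a) (J a) (W a) := by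
  unfold redC; fun_prop

@[fun_prop] theorem pf_lagr {s : α → Tb × Tb} (hN : PF N) (hJ : PF J) (hW : PF W) (hs : PF s) :
    PF fun a => lagr (N a) (J a) (W a) (s a) := by
  unfold lagr
  exact pf_mkC hN (PB.add (PB.mul (PB.ofPF (by fun_prop)) (by fun_prop)) (PB.cond' (by fun_prop)
    (PB.sub (by fun_prop) (by fun_prop)) (PB.sub (by fun_prop) (by fun_prop))))

@[fun_prop] theorem pf_newtU {s : α → Tb × Tb} (hN : PF N) (hJ : PF J) (hW : PF W) (hs : PF s)
    (ht : PF t) : PF fun a => newtU (N a) (J a) (W a) (s a) (t a) := by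
  unfold newtU
  exact PF.cond' (PB.blt (by fun_prop) (by fun_prop)) (by fun_prop) hs

@[fun_prop] theorem pf_newtS {s : α → Tb × Tb} (hN : PF N) (hJ : PF J) (hW : PF W) (hs : PF s) :
    PF fun a => newtS (N a) (J a) (W a) (s a) := by
  unfold newtS; fun_prop

@[fun_prop] theorem pf_pen (c : Bool) (hN : PF N) (hW : PF W) :
    PF fun a => pen (N a) (W a) c := by
  unfold pen
  exact pf_mkC hN (PB.add (by fun_prop) (PB.cond' (by fun_prop) (by fun_prop) (PB.const 0)))
end

theorem len_mcF (N : ℕ) (W : Cs) : (enc (mcF N W)).length ≤ N * (4 * N + 5) := by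
  unfold mcF
  generalize List.flatMap _ _ = l
  rcases List.eq_nil_or_concat l with rfl | ⟨l, i, rfl⟩
  · exact len_mkT _ _
  · rw [List.concat_eq_append, List.foldl_append]
    exact len_mkT _ _

theorem pf_mc' : PF fun x : ℕ × Jn × Cs => mc x.1 x.2.1 x.2.2 := by
  fun_prop

theorem pf_redC' : PF fun x : ℕ × Jn × Cs => redC x.1 x.2.1 x.2.2 := by
  fun_prop

theorem pf_newt' : PF fun x : ℕ × Jn × Cs => newt x.1 x.2.1 x.2.2 := by
  refine iter_le (st := fun (x : ℕ × Jn × Cs) s => newtS x.1 x.2.1 x.2.2 s)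
    (fun x => 3 * (x.1 * (4 * x.1 + 5)) + 1) (by fun_prop) (by fun_prop) (by fun_prop)
    (by fun_prop) fun x j _ => ?_
  have key : ∀ j, (enc ((newtS x.1 x.2.1 x.2.2)^[j] (mc x.1 x.2.1 (pen x.1 x.2.2 true),
      mc x.1 x.2.1 (pen x.1 x.2.2 false))).1).length ≤ x.1 * (4 * x.1 + 5) ∧
      (enc ((newtS x.1 x.2.1 x.2.2)^[j] (mc x.1 x.2.1 (pen x.1 x.2.2 true),
      mc x.1 x.2.1 (pen x.1 x.2.2 false))).2).length ≤ x.1 * (4 * x.1 + 5) := by
    intro j
    induction j with
    | zero => exact ⟨len_mcF _ _, len_mcF _ _⟩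
    | succ j ih =>
      rw [Function.iterate_succ_apply']
      generalize (newtS x.1 x.2.1 x.2.2)^[j] _ = s at ih
      have h := len_mcF x.1 (ext x.1 x.2.1 (lagr x.1 x.2.1 x.2.2 s))
      unfold newtS newtU
      generalize bblt _ _ = c
      generalize Nat.ble _ _ = d
      cases c <;> cases d
      · exact ih
      · exact ih
      · exact ⟨ih.1, h⟩
      · exact ⟨h, ih.2⟩
  have := key j
  generalize (newtS x.1 x.2.1 x.2.2)^[j] _ = s at this
  obtain ⟨s1, s2⟩ := s
  rw [len_prod]
  dsimp only at this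
  omega

@[fun_prop] theorem pf_newt {N : α → ℕ} {W : α → Cs} {J : α → Jn} (hN : PF N) (hJ : PF J)
    (hW : PF W) : PF fun a => newt (N a) (J a) (W a) :=
  pf_newt'.comp (g := fun a => (N a, J a, W a)) (by fun_prop)

end Pool.Agent.Lib.MP_be0860_lc.Sx
end

-- part Pool.Agent.Lib.MP_be0860_lc.Sx.Pf2
section

/-!
The algorithm runs in time polynomial in the number of strings.
-/

set_option autoImplicit false

namespace Pool.Agent.Lib.MP_be0860_lc.Sx

open Pool.Agent.Shared.PolyTime Finset

open Enc

section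
variable {α : Type} [Enc α] {N : α → ℕ} {W : α → Cs} {J : α → Jn} {t : α → Tb} {A : α → Vs}

@[fun_prop] theorem pf_sig {s : α → Tb × Tb} (hN : PF N) (hA : PF A) (hs : PF s) :
    PF fun a => sig (N a) (A a) (s a) := by
  unfold sig; fun_prop

@[fun_prop] theorem pf_itS {g : α → List ℕ} {i x : α → ℕ} (hg : PF g) (hi : PF i) (hx : PF x) :
    PF fun a => itS (g a) (i a) (x a) := by
  refine iter_le (st := fun a y => (g a).getD y 0) (fun a => (enc (g a)).length + x a) hi hx
    (by fun_prop) (hg.encLen.add hx) fun a j _ => ?_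
  rcases j with _ | j
  · simp
  · rw [Function.iterate_succ_apply']
    exact (getD_len_le _ _ _).trans (by simp)

@[fun_prop] theorem pf_baseT {g : α → List ℕ} {s : α → Tb × Tb} {j y l : α → ℕ} (hN : PF N)
    (hg : PF g) (hs : PF s) (hj : PF j) (hy : PF y) (hl : PF l) :
    PF fun a => baseT (N a) (g a) (s a) (j a) (y a) (l a) := by
  unfold baseT; fun_prop

@[fun_prop] theorem pf_edgesOf {g : α → List ℕ} {n : α → ℕ} (hg : PF g) (hn : PF n) :
    PF fun a => edgesOf (g a) (n a) := by
  unfold edgesOf; fun_prop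

@[fun_prop] theorem pf_ovw {F : α → Arcs} (hN : PF N) (hF : PF F) (ht : PF t) :
    PF fun a => ovw (N a) (F a) (t a) := by
  unfold ovw; fun_prop

@[fun_prop] theorem pf_feas (hN : PF N) (hJ : PF J) (ht : PF t) :
    PF fun a => feas (N a) (J a) (t a) := by
  unfold feas; fun_prop

@[fun_prop] theorem pb_keyT (hN : PF N) (hW : PF W) (hJ : PF J) (ht : PF t) :
    PB fun a => keyT (N a) (W a) (J a) (t a) := by
  unfold keyT
  exact PB.cond' (by fun_prop) (by fun_prop) (by fun_prop)

@[fun_prop] theorem pf_best {l : α → List Tb} (hN : PF N) (hW : PF W) (hJ : PF J) (hl : PF l) :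
    PF fun a => best (N a) (W a) (J a) (l a) := by
  unfold best
  exact pf_pick (PB.blt (by fun_prop) (by fun_prop)) hl (by fun_prop)

theorem pf_divs {b i x : α → ℕ} (hb : PF b) (hi : PF i) (hx : PF x) :
    PF fun a => (fun y => y / b a)^[i a] (x a) := by
  refine iter_le (st := fun a y => y / b a) x hi hx (by fun_prop) hx fun a j h => ?_
  clear h
  rw [len_nat]
  induction j with
  | zero => exact le_rfl
  | succ j ih =>
    rw [Function.iterate_succ_apply']
    exact (Nat.div_le_self _ _).trans ih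

@[fun_prop] theorem pf_dig {b E i : α → ℕ} (hb : PF b) (hE : PF E) (hi : PF i) :
    PF fun a => dig (b a) (E a) (i a) := by
  unfold dig
  exact PF.map (by fun_prop) (PF.mod (pf_divs (by fun_prop) (by fun_prop) (by fun_prop))
    (by fun_prop))

@[fun_prop] theorem pf_dcand {g₀ g : α → List ℕ} {s : α → Tb × Tb} (hN : PF N) (h₀ : PF g₀)
    (hs : PF s) (hg : PF g) : PF fun a => dcand (N a) (g₀ a) (s a) (g a) := by
  unfold dcand; fun_prop

@[fun_prop] theorem pf_leaf {pad E : α → ℕ} (hN : PF N) (hW : PF W) (hp : PF pad) (hE : PF E)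
    (hJ : PF J) : PF fun a => leaf (N a) (W a) (pad a) (E a) (J a) := by
  unfold leaf; fun_prop

@[fun_prop] theorem pf_selC {s : α → ℕ} (hN : PF N) (hJ : PF J) (hW : PF W) (hs : PF s) :
    PF fun a => selC (N a) (J a) (W a) (s a) := by
  unfold selC
  exact PF.cond' (by fun_prop) (by fun_prop)
    (pf_mkC hN (PB.cond' (by fun_prop) (PB.const 1) (PB.const 0)))

@[fun_prop] theorem pf_thrT {E : α → Es} {x : α → ℕ} {y : α → ℕ × Bool} (hN : PF N) (hE : PF E)
    (hW : PF W) (hx : PF x) (hy : PF y) : PF fun a => thrT (N a) (E a) (W a) (x a) (y a) := by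
  unfold thrT
  exact pf_mkE hN (PF.and' (by fun_prop) (PB.ble (by fun_prop) (by fun_prop)))

@[fun_prop] theorem pf_arcT {H : α → Es} (hN : PF N) (hA : PF A) (hH : PF H) (ht : PF t) :
    PF fun a => arcT (N a) (A a) (H a) (t a) := by
  unfold arcT
  exact pf_tab hN (by fun_prop)

@[fun_prop] theorem pf_reachS {R : α → List (List Bool)} (hN : PF N) (hR : PF R) (hA : PF A) :
    PF fun a => reachS (N a) (R a) (A a) := by
  unfold reachS; fun_prop

@[fun_prop] theorem pf_reach {R : α → List (List Bool)} {x : α → ℕ} (hN : PF N) (hR : PF R)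
    (hx : PF x) : PF fun a => reach (N a) (R a) (x a) := by
  refine iter_le (st := fun a S => reachS (N a) (R a) S) (fun a => N a * 3) hN (by fun_prop)
    (by fun_prop) (by fun_prop) fun a j _ => ?_
  rcases j with _ | j
  · exact len_mkV _ _
  · rw [Function.iterate_succ_apply']
    exact len_mkV _ _

@[fun_prop] theorem pf_clT {R : α → List (List Bool)} {x : α → ℕ} (hN : PF N) (hA : PF A)
    (hR : PF R) (hx : PF x) : PF fun a => clT (N a) (A a) (R a) (x a) := by
  unfold clT; fun_prop

@[fun_prop] theorem pf_imgT (hN : PF N) (ht : PF t) (hA : PF A) :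
    PF fun a => imgT (N a) (t a) (A a) := by
  unfold imgT; fun_prop

@[fun_prop] theorem pf_parts {X Y : α → Vs} {E : α → Es} {F : α → Arcs} {k₁ k₂ : α → ℕ}
    (hN : PF N) (hJ : PF J) (hX : PF X) (hY : PF Y) (hE : PF E) (hF : PF F) (h₁ : PF k₁)
    (h₂ : PF k₂) : PF fun a => parts (N a) (J a) (X a) (Y a) (E a) (F a) (k₁ a) (k₂ a) := by
  unfold parts; fun_prop

@[fun_prop] theorem pf_cutX {H : α → Es} {Z : α → List ℕ} {θ : α → ℕ} (hN : PF N) (hA : PF A)
    (hH : PF H) (ht : PF t) (hZ : PF Z) (hθ : PF θ) :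
    PF fun a => cutX (N a) (A a) (H a) (t a) (Z a) (θ a) := by
  unfold cutX; fun_prop

@[fun_prop] theorem pf_cutH {H : α → Es} {c : α → Bool} {Z : α → List ℕ} {θ k₁ k₂ : α → ℕ}
    {F : α → Arcs} (hN : PF N) (hJ : PF J) (hH : PF H) (ht : PF t) (hc : PF c) (hZ : PF Z)
    (hθ : PF θ) (hF : PF F) (h₁ : PF k₁) (h₂ : PF k₂) :
    PF fun a => cutH (N a) (J a) (H a) (t a) (c a) (Z a) (θ a) (F a) (k₁ a) (k₂ a) := by
  unfold cutH; fun_prop

@[fun_prop] theorem pf_cmdF {g : α → List ℕ} (hg : PF g) : PF fun a => cmdF (g a) := by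
  unfold cmdF; fun_prop

@[fun_prop] theorem pf_cut {g : α → List ℕ} (hN : PF N) (hW : PF W) (hJ : PF J) (hg : PF g) :
    PF fun a => cut (N a) (W a) (J a) (g a) := by
  unfold cut; fun_prop

@[fun_prop] theorem pf_top {s : α → Sn} (hs : PF s) : PF fun a => top (s a) := by
  unfold top; fun_prop

@[fun_prop] theorem pf_step {pad E : α → ℕ} {s : α → Sn} (hN : PF N) (hW : PF W) (hp : PF pad)
    (hE : PF E) (hs : PF s) : PF fun a => step (N a) (W a) (pad a) (E a) (s a) := by
  unfold step; fun_prop
end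

theorem pf_leaf' : PF fun x : ℕ × Cs × ℕ × ℕ × Jn => leaf x.1 x.2.1 x.2.2.1 x.2.2.2.1 x.2.2.2.2 := by
  fun_prop

theorem pf_cut' : PF fun x : ℕ × Cs × Jn × List ℕ => cut x.1 x.2.1 x.2.2.1 x.2.2.2 := by
  fun_prop

theorem len_inst (N k : ℕ) (f g : ℕ → Bool) (e : ℕ → ℕ × Bool → Bool) :
    (enc ((mkV N f, mkV N g, mkE N e, min k N) : Jn)).length ≤ N * (36 * N + 15) + 3 := by
  have h1 := len_mkV N f
  have h2 := len_mkV N g
  have h3 := len_mkE N e
  have h4 := min_le_right k N
  simp only [len_prod, len_nat]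
  nlinarith

theorem len_step (N : ℕ) (W : Cs) (pad E : ℕ) (s : Sn) : (enc (step N W pad E s)).length ≤
    (enc s).length + (8 * (N * (36 * N + 15) + 3) + 4 + 2 * (N * (4 * N + 5))) := by
  obtain ⟨st, acc, g⟩ := s
  unfold step
  generalize List.isEmpty _ = c
  generalize (List.getD _ 0 0 == 0) = d
  have h1 := len_le_of_sublist (List.tail_sublist st)
  cases c
  · cases d
    · have h2 := len_le_of_sublist (List.drop_sublist (11 + g.getD 9 0 + 3 * g.getD 10 0) g)
      have h3 : (enc (cut N W (top (st, acc, g)) g).1).length ≤ _ := len_inst _ _ _ _ _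
      have h4 : (enc (cut N W (top (st, acc, g)) g).2).length ≤ _ := len_inst _ _ _ _ _
      have h5 : (enc (ovw N (cmdF g) acc)).length ≤ _ := len_mkT _ _
      simp only [cond_false, len_prod, len_cons]
      omega
    · have h2 := len_le_of_sublist (List.drop_sublist 1 g)
      have h5 := len_mkT N fun a => cond (vs (top (st, acc, g)).1 a)
        (gt (leaf N W pad E (top (st, acc, g))) a) (gt acc a)
      simp only [cond_false, cond_true, len_prod]
      omega
  · exact Nat.le_add_right _ _

theorem pf_run {α : Type} [Enc α] {N pad E : α → ℕ} {W : α → Cs} {s : α → Sn} (hN : PF N)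
    (hW : PF W) (hp : PF pad) (hE : PF E) (hs : PF s) :
    PF fun a => (step (N a) (W a) (pad a) (E a))^[E a] (s a) := by
  refine iter_le (st := fun a s => step (N a) (W a) (pad a) (E a) s)
    (fun a => (enc (s a)).length +
      E a * (8 * (N a * (36 * N a + 15) + 3) + 4 + 2 * (N a * (4 * N a + 5)))) hE hs
    (by fun_prop) (hs.encLen.add (by fun_prop)) fun a j hj => ?_
  refine le_trans ?_ (Nat.add_le_add_left (Nat.mul_le_mul_right _ hj) _)
  clear hj
  induction j with
  | zero => simp
  | succ j ih =>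
    rw [Function.iterate_succ_apply', Nat.add_mul j]
    exact (len_step _ _ _ _ _).trans (by omega)

theorem pf_solve' :
    PF fun x : ℕ × Cs × ℕ × ℕ × Jn => solve x.1 x.2.1 x.2.2.1 x.2.2.2.1 x.2.2.2.2 := by
  unfold solve
  exact pf_best (by fun_prop) (by fun_prop) (by fun_prop) (PF.map (by fun_prop)
    (pf_run (by fun_prop) (by fun_prop) (by fun_prop) (by fun_prop) (by fun_prop)).snd.fst)

section
variable {α : Type} [Enc α] {N : α → ℕ} {T : α → List (List Cell)}

theorem pb_prodBig {l : α → List Big} (hl : PF l) : PB fun a => prodBig (l a) := by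
  obtain ⟨p, hp⟩ := hl.size
  have h := PF.foldl_add (st := fun (_ : α) (acc : Big) (c : Big) => (⟨acc.val * c.val⟩ : Big)) hl
    (PF.const (⟨1⟩ : Big)) (by fun_prop) ⟨p, fun a b c hc => by
      have h1 := (len_le_of_mem hc).trans (hp a _ le_rfl)
      have h2 := size_mul_le b.val c.val
      have e1 : (enc b).length = Nat.size b.val := len_big _
      have e2 : (enc c).length = Nat.size c.val := len_big _
      rw [len_big]
      omega⟩
  refine h.of_eq fun a => ?_
  have key : ∀ (m : List Big) (x : ℕ), m.foldl (fun (acc : Big) (c : Big) =>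
      (⟨acc.val * c.val⟩ : Big)) ⟨x⟩ = ⟨x * prodBig m⟩ := by
    intro m
    induction m with
    | nil => simp [prodBig]
    | cons b m ih => intro x; simp [ih, prodBig, mul_assoc]
  simpa using key (l a) 1

@[fun_prop] theorem pb_denT (hN : PF N) (hT : PF T) : PB fun a => denT (N a) (T a) := by
  unfold denT
  exact pb_prodBig (by fun_prop)

@[fun_prop] theorem pb_absT {i j : α → ℕ} (hN : PF N) (hT : PF T) (hi : PF i) (hj : PF j) :
    PB fun a => absT (N a) (T a) (i a) (j a) := by
  unfold absT
  exact PB.mul (PB.val (by fun_prop)) (PB.div (by fun_prop) (PB.val (by fun_prop)))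

@[fun_prop] theorem pb_offT (hN : PF N) (hT : PF T) : PB fun a => offT (N a) (T a) := by
  unfold offT
  exact pb_sumBig (PF.flatMap (by fun_prop) (PF.map (by fun_prop) (PB.mk (by fun_prop))))

@[fun_prop] theorem pf_costT (hN : PF N) (hT : PF T) : PF fun a => costT (N a) (T a) := by
  unfold costT
  exact pf_mkC hN (PB.cond' (by fun_prop) (PB.cond' (by fun_prop)
    (PB.add (by fun_prop) (by fun_prop)) (PB.sub (by fun_prop) (by fun_prop))) (by fun_prop))

@[fun_prop] theorem pf_instT {x : α → Dat} (hx : PF x) : PF fun a => instT (x a) := by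
  unfold instT; fun_prop

@[fun_prop] theorem pf_outT {x : α → Dat} {t : α → Tb} (hx : PF x) (ht : PF t) :
    PF fun a => outT (x a) (t a) := by
  unfold outT; fun_prop

theorem pf_size (hN : PF N) : PF fun a => Nat.size (N a) := (PB.ofPF hN).size

theorem pf_parP (hN : PF N) : PF fun a => parP (N a) := by
  unfold parP
  exact (PF.add (by fun_prop) (pf_size hN)).add (PF.const 4)

theorem pf_parE (hN : PF N) : PF fun a => parE (N a) := by
  unfold parE
  exact ((PF.const (2 ^ 30)).mul ((pf_size hN).add (PF.const 1))).mul ((pf_parP hN).pow 21)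
end

theorem pf_algT : PF algT := by
  unfold algT
  refine pf_outT (by fun_prop) (pf_solve'.comp (g := fun y : ℕ × Dat =>
    (y.2.1, costT y.2.1 y.2.2.2.2, y.1, parE y.2.1, instT y.2)) ?_)
  have : PF fun y : ℕ × Dat => parE y.2.1 := pf_parE (by fun_prop)
  fun_prop

theorem pf_pare : PF pare := by
  unfold pare
  exact (pf_parE PF.id').mul (pf_size (by fun_prop))

end Pool.Agent.Lib.MP_be0860_lc.Sx
end

-- part Pool.Agent.Lib.MP_be0860_lc.Sx.Mach
section

/-!
Machines that first write an exponentially long padding.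
-/

set_option autoImplicit false

namespace Pool.Agent.Lib.MP_be0860_lc.Sx

open Pool.Agent.Shared.PolyTime Finset

open Enc Turing

open Function in
/-- A program with an arbitrary cost bound gives a TM2 machine with the same time bound. -/
theorem tm2_of_exec_time {α : Type} (ea eb : α → List Bool) (c : Cmd) (T : α → ℕ)
    (h : ∀ a, Exec c (update (fun _ => []) 0 (ea a)) (update (fun _ => []) 1 (eb a)) (T a)) :
    ∃ tm : TM2ComputableAux Bool Bool, ∀ a,
      Nonempty (TM2OutputsInTime tm.tm (List.map tm.inputAlphabet.invFun (ea a))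
        (some (List.map tm.outputAlphabet.invFun (eb a))) (T a + 1)) := by
  have hb : c.Bdd (c.top + 1) := Cmd.bdd_of_top_le (Nat.le_succ _)
  have key : ∀ a, ∃ m, m ≤ T a + 1 ∧
      (flip bind (machine c.top c).step)^[m] (some (initList (machine c.top c) (ea a))) =
        some (haltList (machine c.top c) (eb a)) := by
    intro a
    obtain ⟨v', m, hm, hs⟩ := simulate (N := c.top + 1) (machine c.top c).m (h a) hb some
      (.load (fun _ => none) .halt) (fun _ => rfl) none
    have h1 := Steps.one (N := c.top + 1) (machine c.top c).m none none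
      (tr _ (update (fun _ => []) 0 (ea a)))
    have h2 := h1.trans hs
    refine ⟨m + 1, by omega, ?_⟩
    have e1 : initList (machine c.top c) (ea a) =
        ⟨some none, none, tr _ (update (fun _ => []) 0 (ea a))⟩ := by
      unfold initList
      congr 1
      funext k
      by_cases hk : k = (machine c.top c).k₀
      · subst hk
        rw [dif_pos rfl]
        rfl
      · rw [dif_neg hk]
        have : (k : Fin (c.top + 2)).val ≠ 0 := fun e => hk (Fin.ext e)
        simp only [tr, update_of_ne this]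
        rfl
    have e2 : haltList (machine c.top c) (eb a) =
        ⟨none, none, tr _ (update (fun _ => []) 1 (eb a))⟩ := by
      unfold haltList
      congr 1
      funext k
      by_cases hk : k = (machine c.top c).k₁
      · subst hk
        rw [dif_pos rfl]
        rfl
      · rw [dif_neg hk]
        have : (k : Fin (c.top + 2)).val ≠ 1 := fun e => hk (Fin.ext e)
        simp only [tr, update_of_ne this]
        rfl
    rw [e1, e2]
    exact h2
  refine ⟨{ tm := machine c.top c
            inputAlphabet := Equiv.refl _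
            outputAlphabet := Equiv.refl _ }, fun a => ?_⟩
  obtain ⟨m, hm, hs⟩ := key a
  refine ⟨⟨⟨m, ?_⟩, hm⟩⟩
  have e1 : ∀ l : List Bool, List.map (Equiv.refl Bool).invFun l = l := fun l => List.map_id l
  rw [← e1 (ea a), ← e1 (eb a)] at hs
  exact hs

/-- Double stack 2 and pop stack 1. -/
def dbl : Cmd := .seq (mv2 2 3 4) (.seq (mv 3 2) (.seq (mv 4 2) (.pop 1)))

open Function in
theorem exec_dbl (s : ℕ → List Bool) (n : ℕ) (h2 : s 2 = List.replicate n true) (h3 : s 3 = [])
    (h4 : s 4 = []) :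
    Exec dbl s (update (update s 1 (s 1).tail) 2 (List.replicate (n * 2) true)) (13 * n + 4) := by
  have e1 := exec_mv2 (a := 2) (b := 3) (c := 4) (by omega) (by omega) (by omega) _ s h2
  have e2 := exec_mv (a := 3) (b := 2) (by omega) (List.replicate n true)
    (update (update (update s 2 []) 3 ((List.replicate n true).reverse ++ s 3)) 4
      ((List.replicate n true).reverse ++ s 4)) (by simp [h3])
  have e3 := fun t (ht : t 4 = List.replicate n true) =>
    exec_mv (a := 4) (b := 2) (by omega) (List.replicate n true) t ht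
  refine (e1.seq (e2.seq ((e3 _ (by simp [h4])).seq (Exec.pop 1 _)))).of_eq ?_ ?_
  · funext k
    by_cases a1 : k = 1
    · subst a1; simp
    by_cases a2 : k = 2
    · subst a2; simp [Nat.mul_two]
    by_cases a3 : k = 3
    · subst a3; simp [h3]
    by_cases a4 : k = 4
    · subst a4; simp [h4]
    · simp [update_of_ne a1, update_of_ne a2, update_of_ne a3, update_of_ne a4]
  · simp only [List.length_replicate]; omega

open Function in
theorem exec_pad : ∀ (l : List Bool) (s : ℕ → List Bool) (n : ℕ), 1 ≤ n → s 1 = l →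
    s 2 = List.replicate n true → s 3 = [] → s 4 = [] →
    ∃ m, m + 18 * n ≤ 18 * (n * 2 ^ l.length) + 1 ∧ Exec (.loop 1 dbl) s
      (update (update s 1 []) 2 (List.replicate (n * 2 ^ l.length) true)) m := by
  intro l
  induction l with
  | nil =>
    intro s n _ h1 h2 _ _
    refine ⟨1, by simp; omega, (Exec.loopE h1).of_eq ?_ le_rfl⟩
    funext k
    by_cases a2 : k = 2
    · subst a2; simp [h2]
    by_cases a1 : k = 1
    · subst a1; simp [h1]
    · simp [update_of_ne a1, update_of_ne a2]
  | cons b l ih =>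
    intro s n hn h1 h2 h3 h4
    have e1 := exec_dbl s n h2 h3 h4
    obtain ⟨m, hm, e2⟩ := ih (update (update s 1 (s 1).tail) 2 (List.replicate (n * 2) true))
      (n * 2) (by omega) (by simp [h1]) (by simp) (by simp [h3]) (by simp [h4])
    have hp : n * 2 * 2 ^ l.length = n * 2 ^ (b :: l).length := by
      rw [List.length_cons, pow_succ]; ring
    rw [hp] at hm e2
    refine ⟨13 * n + 4 + m + 1, by omega, (Exec.loopS (by simp [h1]) e1 e2).of_eq ?_ le_rfl⟩
    funext k
    by_cases a2 : k = 2
    · subst a2; simp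
    by_cases a1 : k = 1
    · subst a1; simp
    · simp [update_of_ne a1, update_of_ne a2]

open Function Polynomial in
theorem tm2_padded {α β : Type} [Enc α] [Enc β] {e : α → ℕ} {φ : ℕ × α → β} (he : PF e)
    (hφ : PF φ) : ∃ (tm : TM2ComputableAux Bool Bool) (p : Polynomial ℕ), ∀ a,
      Nonempty (TM2OutputsInTime tm.tm (List.map tm.inputAlphabet.invFun (enc a))
        (some (List.map tm.outputAlphabet.invFun (enc (φ (2 ^ e a, a)))))
        (p.eval (2 ^ e a + (enc a).length))) := by
  obtain ⟨E, hE, sE⟩ := he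
  obtain ⟨F, hF, sF⟩ := hφ
  have hG : PT 2 (fun v => F (encPair (v 0) (v 1))) :=
    PT.app1 hF (PT.pair_pt (PT.var 0) (PT.var 1))
  obtain ⟨c1, p1, h1⟩ := hE 1 (fun _ => 0) (fun _ => Nat.one_pos)
  obtain ⟨c2, p2, h2⟩ := hG 3 ![2, 0] (by intro i; fin_cases i <;> simp)
  obtain ⟨q, hq⟩ := hG.size
  obtain ⟨tm, htm⟩ := tm2_of_exec_time (fun a : α => enc a) (fun a => enc (φ (2 ^ e a, a)))
    (.seq c1 (.seq (.push 2 true) (.seq (.loop 1 dbl) (.seq c2 (.seq (clear 0) (.seq (clear 2)
      (assign 3 1)))))))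
    (fun a => (p1 + p2 + 8 * q + 22 * X + 7).eval (2 ^ e a + (enc a).length)) (by
      intro a
      set x : List Bool := enc a with hx
      set P : List Bool := List.replicate (2 ^ e a) true with hP
      set N : ℕ := 2 ^ e a + x.length with hN
      have hxN : x.length ≤ N := Nat.le_add_left _ _
      have hPN : 2 ^ e a ≤ N := Nat.le_add_right _ _
      have e1 := h1 (update (fun _ => []) 0 x) N
        (fun k hk => by rw [update_of_ne (by omega)]) (fun _ => by simpa using hxN)
      have hE' : E x = List.replicate (e a) true := sE a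
      simp only [update_self, hE'] at e1
      have e2 := Exec.push 2 true (update (update (fun _ => []) 0 x) 1 (List.replicate (e a) true))
      obtain ⟨m, hm, e3⟩ := exec_pad (List.replicate (e a) true)
        (update (update (update (fun _ => []) 0 x) 1 (List.replicate (e a) true)) 2
          (true :: update (update (fun _ => ([] : List Bool)) 0 x) 1
            (List.replicate (e a) true) 2)) 1 le_rfl
        (by simp) (by simp) (by simp) (by simp)
      simp only [List.length_replicate, one_mul] at hm e3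
      have t3 : update (update (update (update (update (fun _ => ([] : List Bool)) 0 x) 1
          (List.replicate (e a) true)) 2 (true :: update (update (fun _ => ([] : List Bool)) 0 x) 1
            (List.replicate (e a) true) 2)) 1 []) 2 (List.replicate (2 ^ e a) true) =
          update (update (fun _ => ([] : List Bool)) 0 x) 2 P := by
        funext k
        by_cases a2 : k = 2
        · subst a2; simp [hP]
        by_cases a1 : k = 1
        · subst a1; simp
        · simp [update_of_ne a1, update_of_ne a2]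
      rw [t3] at e3
      have hlen : ∀ i : Fin 2, ((update (update (fun _ => ([] : List Bool)) 0 x) 2 P)
          ((![2, 0] : Fin 2 → ℕ) i)).length ≤ N := by
        intro i
        fin_cases i
        · simpa [hP] using hPN
        · simpa using hxN
      have e4 := h2 (update (update (fun _ => ([] : List Bool)) 0 x) 2 P) N
        (fun k hk => by rw [update_of_ne (by omega), update_of_ne (by omega)]) hlen
      have hs := hq _ N hlen
      have hF' : F (encPair P x) = enc (φ (2 ^ e a, a)) := sF (2 ^ e a, a)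
      have r0 : (update (update (fun _ => ([] : List Bool)) 0 x) 2 P)
          ((![2, 0] : Fin 2 → ℕ) 0) = P := by simp
      have r1 : (update (update (fun _ => ([] : List Bool)) 0 x) 2 P)
          ((![2, 0] : Fin 2 → ℕ) 1) = x := by simp
      simp only [r0, r1, hF'] at e4 hs
      set y : List Bool := enc (φ (2 ^ e a, a)) with hy
      have e5 := exec_clear 0 x (update (update (update (fun _ => ([] : List Bool)) 0 x) 2 P) 3 y)
        (by simp)
      have e6 := exec_clear 2 P
        (update (update (update (update (fun _ => ([] : List Bool)) 0 x) 2 P) 3 y) 0 []) (by simp)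
      have e7 := exec_assign (a := 3) (b := 1) (by omega)
        (update (update (update (update (update (fun _ => ([] : List Bool)) 0 x) 2 P) 3 y) 0 [])
          2 []) (by simp)
      refine (e1.seq (e2.seq (e3.seq (e4.seq (e5.seq (e6.seq e7)))))).of_eq ?_ ?_
      · funext k
        by_cases a1 : k = 1
        · subst a1; simp
        by_cases a3 : k = 3
        · subst a3; simp
        by_cases a2 : k = 2
        · subst a2; simp
        by_cases a0 : k = 0
        · subst a0; simp
        · simp [update_of_ne a0, update_of_ne a1, update_of_ne a2, update_of_ne a3]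
      · have hPl : P.length = 2 ^ e a := by simp [hP]
        have u1 : (update (update (update (update (update (fun _ => ([] : List Bool)) 0 x) 2 P)
          3 y) 0 []) 2 [] 1).length = 0 := by simp
        have u3 : (update (update (update (update (update (fun _ => ([] : List Bool)) 0 x) 2 P)
          3 y) 0 []) 2 [] 3).length = y.length := by simp
        rw [u1, u3, hPl]
        simp only [eval_add, eval_mul, eval_X, eval_ofNat]
        generalize 2 ^ e a = w at hm hPN ⊢
        omega)
  refine ⟨tm, p1 + p2 + 8 * q + 22 * X + 7 + 1, fun a => ?_⟩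
  have := htm a
  rw [eval_add (q := 1), eval_one]
  exact this

end Pool.Agent.Lib.MP_be0860_lc.Sx
end
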