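import Pool.Agent.Lib.MP_be0860_lc.Sx.Leaf
import Pool.Agent.Lib.MP_be0860_lc.Sx.Sep
import Pool.Agent.Lib.MP_be0860_lc.Sx.Mach
import Pool.Agent.Lib.MP_be0860_lc.Sx.Asym

-- part Pool.Agent.Lib.MP_be0860_lc.Sx.Solve
section

/-!
Cuts.
-/

set_option autoImplicit false

namespace Pool.Agent.Lib.MP_be0860_lc.Sx

open Pool.Agent.Shared.PolyTime Finset

variable {N pad E : ℕ} {W : Cs} {J : Jn}

/-- The string of a cut. -/
noncomputable def cmd (kind sel a₀ : ℕ) (x₀ : ℕ × Bool) (θ₁ θ₂ k₁ k₂ : ℕ) (Z S : Finset ℕ)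
    (m : Mt) : List ℕ :=
  [kind, sel, a₀, x₀.1, x₀.2.toNat, θ₁, θ₂, k₁, k₂, #Z, #S] ++ Z.toList ++ encF m S.toList

theorem step_cmd {kind sel a₀ θ₁ θ₂ k₁ k₂ : ℕ} {x₀ : ℕ × Bool} {Z S : Finset ℕ} {m : Mt}
    (hk : kind ≠ 0) (st : List Jn) (acc : Tb) (g : List ℕ) {C : Jn × Jn}
    (hC : C = cutH N J (thrT N J.2.2.1 (redC N J (selC N J W sel)) a₀ x₀) (mc N J (selC N J W sel))
      (kind == 1) Z.toList (θ₁ * N + θ₂) (S.toList.map fun a => (a, m a)) k₁ k₂) :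
    step N W pad E (J :: st, acc, cmd kind sel a₀ x₀ θ₁ θ₂ k₁ k₂ Z S m ++ g) =
      (C.1 :: C.2 :: st, ovw N (S.toList.map fun a => (a, m a)) acc, g) := by
  have e0 : cmd kind sel a₀ x₀ θ₁ θ₂ k₁ k₂ Z S m ++ g =
      kind :: sel :: a₀ :: x₀.1 :: x₀.2.toNat :: θ₁ :: θ₂ :: k₁ :: k₂ :: #Z :: #S ::
        (Z.toList ++ (encF m S.toList ++ g)) := by
    simp only [cmd, List.cons_append, List.nil_append, List.append_assoc]
  have hk0 : (kind == 0) = false := by simpa using hk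
  have hx : (x₀.1, x₀.2.toNat == 1) = x₀ := by
    obtain ⟨b, c⟩ := x₀
    cases c <;> rfl
  have d1 : ∀ (l : List ℕ) (i : ℕ), (kind :: sel :: a₀ :: x₀.1 :: x₀.2.toNat :: θ₁ :: θ₂ :: k₁ ::
      k₂ :: #Z :: #S :: l).drop (11 + i) = l.drop i := by
    intro l i
    rw [← List.drop_drop]
    rfl
  have d2 : (Z.toList ++ (encF m S.toList ++ g)).drop (#Z) = encF m S.toList ++ g :=
    List.drop_left' (length_toList Z)
  have d3 : (Z.toList ++ (encF m S.toList ++ g)).take (#Z) = Z.toList :=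
    List.take_left' (length_toList Z)
  have d4 : (Z.toList ++ (encF m S.toList ++ g)).drop (#Z + 3 * #S) = g := by
    rw [← List.drop_drop, d2]
    exact List.drop_left' (by rw [length_encF, length_toList])
  have hF : cmdF (kind :: sel :: a₀ :: x₀.1 :: x₀.2.toNat :: θ₁ :: θ₂ :: k₁ :: k₂ :: #Z :: #S ::
      (Z.toList ++ (encF m S.toList ++ g))) = S.toList.map fun a => (a, m a) := by
    show edgesOf ((kind :: sel :: a₀ :: x₀.1 :: x₀.2.toNat :: θ₁ :: θ₂ :: k₁ :: k₂ :: #Z :: #S ::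
      (Z.toList ++ (encF m S.toList ++ g))).drop (11 + #Z)) (#S) = _
    rw [d1, d2, ← edgesOf_encF m S.toList g, length_toList]
  have hcut : cut N W J (kind :: sel :: a₀ :: x₀.1 :: x₀.2.toNat :: θ₁ :: θ₂ :: k₁ :: k₂ :: #Z ::
      #S :: (Z.toList ++ (encF m S.toList ++ g))) = C := by
    rw [hC, cut, hF]
    show cutH N J (thrT N J.2.2.1 (redC N J (selC N J W sel)) a₀ (x₀.1, x₀.2.toNat == 1))
      (mc N J (selC N J W sel)) (kind == 1) ((Z.toList ++ (encF m S.toList ++ g)).take (#Z))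
      (θ₁ * N + θ₂) (S.toList.map fun a => (a, m a)) k₁ k₂ = _
    rw [hx, d3]
  rw [e0]
  show cond (kind == 0) _ ((cut N W J _).1 :: (cut N W J _).2 :: st, ovw N (cmdF _) acc,
    (kind :: sel :: a₀ :: x₀.1 :: x₀.2.toNat :: θ₁ :: θ₂ :: k₁ :: k₂ :: #Z :: #S ::
      (Z.toList ++ (encF m S.toList ++ g))).drop (11 + #Z + 3 * #S)) = _
  rw [hk0, cond_false, hcut, hF, add_assoc, d1, d4]

theorem solve_val_three (c : Co) {A S X : Finset ℕ} (hS : S ⊆ A) (hX : X ⊆ A) (m : Mt) :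
    val c A m = val c S m + val c (X \ S) m + val c ((A \ X) \ S) m := by
  have h1 : X \ S ⊆ A \ S := sdiff_subset_sdiff hX Subset.rfl
  have h2 : (A \ S) \ (X \ S) = (A \ X) \ S := by
    ext a
    simp only [mem_sdiff]
    tauto
  rw [val_sdiff c hS, val_sdiff c h1, h2, add_assoc]

theorem solve_glue {A B S X Y : Finset ℕ} {R R₁ R₂ : Er} {k : ℕ} {c : Co} {m m₁ m₂ : Mt}
    (hS : S ⊆ A) (hX : X ⊆ A) (hm : Opt A B R k c m)
    (e7 : ∀ a x, R₁ a x → R a x) (e8 : ∀ a x, R₂ a x → R a x)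
    (p1 : PM (X \ S) ((B ∩ Y) \ img m S) R₁ m) (p2 : PM ((A \ X) \ S) ((B \ Y) \ img m S) R₂ m)
    (o1 : Opt (X \ S) ((B ∩ Y) \ img m S) R₁ (lab (X \ S) m) c m₁)
    (o2 : Opt ((A \ X) \ S) ((B \ Y) \ img m S) R₂ (lab ((A \ X) \ S) m) c m₂)
    (hs : ∀ a ∈ S, m₂ a = m a) (hx : ∀ a ∈ X \ S, m₂ a = m₁ a) : Opt A B R k c m₂ := by
  have o1' := leaf_opt_congr o1 hx
  have q0 : PM S (img m S) R m₂ := (hm.1.sub hS).congr hs
  have q1 : PM (X \ S) ((B ∩ Y) \ img m S) R m₂ := o1'.1.mono fun a _ x _ h => e7 a x h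
  have q2 : PM ((A \ X) \ S) ((B \ Y) \ img m S) R m₂ := o2.1.mono fun a _ x _ h => e8 a x h
  have hB : img m S ⊆ B := by
    intro b hb
    obtain ⟨a, ha, rfl⟩ := mem_image.1 hb
    exact hm.1.mem (hS ha)
  have q3 := q0.glue (q1.glue q2 (by
    rw [disjoint_left]
    intro b h1 h2
    simp only [mem_sdiff, mem_inter] at h1 h2
    tauto)) (by
    rw [disjoint_left]
    intro b h1 h2
    simp only [mem_sdiff, mem_inter, mem_union] at h2
    tauto)
  have eA : S ∪ (X \ S ∪ (A \ X) \ S) = A := by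
    ext a
    have h1 := @hS a
    have h2 := @hX a
    simp only [mem_sdiff, mem_union]
    tauto
  have eB : img m S ∪ ((B ∩ Y) \ img m S ∪ (B \ Y) \ img m S) = B := by
    ext b
    have h1 := @hB b
    simp only [mem_sdiff, mem_union, mem_inter]
    tauto
  rw [eA, eB] at q3
  refine ⟨q3, ?_, fun m' h1 h2 => le_trans ?_ (hm.2.2 m' h1 h2)⟩
  · have l0 : lab S m₂ = lab S m := val_congr lc hs
    have l1 : lab A m₂ = lab S m₂ + lab (X \ S) m₂ + lab ((A \ X) \ S) m₂ :=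
      solve_val_three lc hS hX m₂
    have l2 : lab A m = lab S m + lab (X \ S) m + lab ((A \ X) \ S) m :=
      solve_val_three lc hS hX m
    rw [l1, l0, o1'.2.1, o2.2.1, ← l2, hm.2.1]
  · rw [solve_val_three c hS hX m₂, solve_val_three c hS hX m, val_congr c hs]
    exact add_le_add (add_le_add le_rfl (o1'.2.2 m p1 rfl)) (o2.2.2 m p2 rfl)

/-- Solving both parts of a cut solves the instance. -/
theorem solves_cut {kind sel a₀ θ₁ θ₂ L₁ L₂ : ℕ} {x₀ : ℕ × Bool} {Z S X Y : Finset ℕ} {m : Mt}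
    {C : Jn × Jn} (hk : kind ≠ 0) (hk' : kind ≤ 2) (hsel : sel ≤ 2) (ha : a₀ ≤ N) (hx : x₀.1 ≤ N)
    (h1 : θ₁ ≤ N + 1) (h2 : θ₂ ≤ N) (hZ : Z ⊆ fs N J.1) (hS : S ⊆ fs N J.1) (hX : X ⊆ fs N J.1)
    (hm : Opt (fs N J.1) (fs N J.2.1) (er J.2.2.1) J.2.2.2 (cs W) m)
    (hC : C = cutH N J (thrT N J.2.2.1 (redC N J (selC N J W sel)) a₀ x₀) (mc N J (selC N J W sel))
      (kind == 1) Z.toList (θ₁ * N + θ₂) (S.toList.map fun a => (a, m a)) (lab (X \ S) m)
      (lab ((fs N J.1 \ X) \ S) m))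
    (e1 : fs N C.1.1 = X \ S) (e2 : fs N C.1.2.1 = (fs N J.2.1 ∩ Y) \ img m S)
    (e3 : fs N C.2.1 = (fs N J.1 \ X) \ S) (e4 : fs N C.2.2.1 = (fs N J.2.1 \ Y) \ img m S)
    (e5 : C.1.2.2.2 = lab (X \ S) m) (e6 : C.2.2.2.2 = lab ((fs N J.1 \ X) \ S) m)
    (e7 : ∀ a x, er C.1.2.2.1 a x → er J.2.2.1 a x) (e8 : ∀ a x, er C.2.2.2.1 a x → er J.2.2.1 a x)
    (p1 : PM (fs N C.1.1) (fs N C.1.2.1) (er C.1.2.2.1) m)
    (p2 : PM (fs N C.2.1) (fs N C.2.2.1) (er C.2.2.2.1) m)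
    (s1 : Solves N W pad E C.1 L₁) (s2 : Solves N W pad E C.2 L₂) :
    Solves N W pad E J (11 + #Z + 3 * #S + L₁ + L₂) := by
  obtain ⟨g₁, b1, l1, n₁, hn1, r1⟩ := s1
  obtain ⟨g₂, b2, l2, n₂, hn2, r2⟩ := s2
  have hN := card_fs_le (N := N) J.1
  have hlt : ∀ a ∈ S.toList, a < N ∧ (m a).1 < N := fun a ha =>
    ⟨(mem_fs.1 (hS (mem_toList.1 ha))).1, (mem_fs.1 (hm.1.mem (hS (mem_toList.1 ha)))).1⟩
  have hlen : (cmd kind sel a₀ x₀ θ₁ θ₂ (lab (X \ S) m) (lab ((fs N J.1 \ X) \ S) m) Z S m).length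
      = 11 + #Z + 3 * #S := by
    rw [cmd, List.length_append, List.length_append, length_encF, length_toList, length_toList]
    rfl
  refine ⟨cmd kind sel a₀ x₀ θ₁ θ₂ (lab (X \ S) m) (lab ((fs N J.1 \ X) \ S) m) Z S m ++
    (g₁ ++ g₂), ?_, ?_, n₂ + n₁ + 1, ?_, fun st acc g' => ?_⟩
  · intro x hx'
    rcases List.mem_append.1 hx' with hx' | hx'
    · rw [cmd] at hx'
      rcases List.mem_append.1 hx' with hx' | hx'
      · rcases List.mem_append.1 hx' with hx' | hx'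
        · have c1 : #Z ≤ N := (card_le_card hZ).trans hN
          have c2 : #S ≤ N := (card_le_card hS).trans hN
          have c3 : lab (X \ S) m ≤ N :=
            (lab_le _ _).trans ((card_le_card (sdiff_subset.trans hX)).trans hN)
          have c4 : lab ((fs N J.1 \ X) \ S) m ≤ N :=
            (lab_le _ _).trans ((card_le_card (sdiff_subset.trans sdiff_subset)).trans hN)
          have c5 : x₀.2.toNat ≤ 1 := Bool.toNat_le _
          simp only [List.mem_cons, List.not_mem_nil, or_false] at hx'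
          omega
        · have := (mem_fs.1 (hZ (mem_toList.1 hx'))).1
          omega
      · exact leaf_encF_lt hlt x hx'
    · rcases List.mem_append.1 hx' with hx' | hx'
      · exact b1 x hx'
      · exact b2 x hx'
  · rw [List.length_append, List.length_append, hlen]
    omega
  · rw [List.length_append, List.length_append, hlen]
    omega
  · obtain ⟨acc₁, t1, o1, k1⟩ :=
      r1 (C.2 :: st) (ovw N (S.toList.map fun a => (a, m a)) acc) (g₂ ++ g')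
    obtain ⟨acc₂, t2, o2, k2⟩ := r2 st acc₁ g'
    have hle : ∀ a, (gt (ovw N (S.toList.map fun a => (a, m a)) acc) a).1 ≤ N := fun a =>
      leaf_gt_le _ a
    rw [e1] at k1
    rw [e3] at k2
    refine ⟨acc₂, ?_, ?_, ?_⟩
    · rw [Function.iterate_succ_apply, List.append_assoc, step_cmd hk st acc _ hC,
        Function.iterate_add_apply, List.append_assoc, t1, t2]
    · have hlt1 : ∀ a ∈ X \ S, (gt acc₁ a).1 < N := fun a ha =>
        (mem_fs.1 (o1.1.mem (e1 ▸ ha))).1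
      rw [e1, e2] at p1
      rw [e3, e4] at p2
      rw [e1, e2, e5] at o1
      rw [e3, e4, e6] at o2
      refine solve_glue hS hX hm e7 e8 p1 p2 o1 o2 (fun a ha => ?_) fun a ha => ?_
      · have h3 := hlt a (mem_toList.2 ha)
        have h4 := (gt_ovw m S.toList acc h3.1).1 (mem_toList.2 ha) h3.2.le
        have h5 := (k1 a h3.1 (fun h => (mem_sdiff.1 h).2 ha) (hle a)).trans h4
        rw [k2 a h3.1 (fun h => (mem_sdiff.1 h).2 ha) (by rw [h5]; exact h3.2.le), h5]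
      · have h3 := mem_sdiff.1 ha
        exact k2 a (mem_fs.1 (hX h3.1)).1 (fun h => (mem_sdiff.1 (mem_sdiff.1 h).1).2 h3.1)
          (hlt1 a ha).le
    · intro a ha' hn hacc
      have h4 := (gt_ovw m S.toList acc ha').2 (fun h => hn (hS (mem_toList.1 h))) hacc
      have h5 := (k1 a ha' (fun h => hn (hX (mem_sdiff.1 h).1)) (hle a)).trans h4
      rw [k2 a ha' (fun h => hn (mem_sdiff.1 (mem_sdiff.1 h).1).1) (by rw [h5]; exact hacc), h5]

end Pool.Agent.Lib.MP_be0860_lc.Sx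
end

-- part Pool.Agent.Lib.MP_be0860_lc.Sx.Restr
section

/-!
Restrictions.
-/

set_option autoImplicit false

namespace Pool.Agent.Lib.MP_be0860_lc.Sx

open Pool.Agent.Shared.PolyTime Finset

variable {N pad E : ℕ} {W : Cs}

/-- Restriction to the edges of small reduced cost. -/
theorem solves_restrict (hpad : (N + 3) ^ E ≤ pad) (hE : 4 ≤ E) {J : Jn} {sel a₀ : ℕ}
    {x₀ : ℕ × Bool} {S : Finset ℕ} {m : Mt} (hsel : sel ≤ 2) (ha : a₀ ≤ N) (hx : x₀.1 ≤ N)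
    (hS : S ⊆ fs N J.1) (hm : Opt (fs N J.1) (fs N J.2.1) (er J.2.2.1) J.2.2.2 (cs W) m)
    (hp : PM (fs N J.1 \ S) (fs N J.2.1 \ img m S)
      (thr (er J.2.2.1) (cs (redC N J (selC N J W sel))) a₀ x₀) m) :
    ∃ J' : Jn, fs N J'.1 = fs N J.1 \ S ∧ fs N J'.2.1 = fs N J.2.1 \ img m S ∧
      J'.2.2.2 = lab (fs N J.1 \ S) m ∧
      (∀ m', PM (fs N J'.1) (fs N J'.2.1) (er J'.2.2.1) m' ↔
        PM (fs N J.1 \ S) (fs N J.2.1 \ img m S)
          (thr (er J.2.2.1) (cs (redC N J (selC N J W sel))) a₀ x₀) m') ∧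
      ∀ L, Solves N W pad E J' L → Solves N W pad E J (12 + 3 * #S + L) := by
  classical
  have hAr : fs N J.1 ⊆ range N := fs_subset _
  have hBr : fs N J.2.1 ⊆ range N := fs_subset _
  have hmc : PM (fs N J.1) (fs N J.2.1) (er J.2.2.1) (gt (mc N J (selC N J W sel))) :=
    (mc_spec hm.1 _).1
  have htN : ∀ a ∈ fs N J.1, (gt (mc N J (selC N J W sel)) a).1 < N :=
    fun a h => mem_range.1 (hBr (hmc.mem h))
  have hX : fs N J.1 = fs N (cutX N J.1 (thrT N J.2.2.1 (redC N J (selC N J W sel)) a₀ x₀)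
      (mc N J (selC N J W sel)) (∅ : Finset ℕ).toList ((N + 1) * N + 0)) := by
    rw [cutX_spec (H' := er (thrT N J.2.2.1 (redC N J (selC N J W sel)) a₀ x₀)) _ _
      (fun _ _ _ _ _ => Iff.rfl)]
    simp only [Finset.toList_toFinset, sdiff_empty]
    exact (cl_top hAr).symm
  have hk1 : lab (fs N J.1 \ S) m ≤ N :=
    (lab_le _ _).trans ((card_le_card sdiff_subset).trans (card_fs_le _))
  have hk2 : lab ((fs N J.1 \ fs N J.1) \ S) m ≤ N :=
    (lab_le _ _).trans ((card_le_card (sdiff_subset.trans sdiff_subset)).trans (card_fs_le _))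
  obtain ⟨C, hC⟩ : ∃ C : Jn × Jn, C = cutH N J (thrT N J.2.2.1 (redC N J (selC N J W sel)) a₀ x₀)
      (mc N J (selC N J W sel)) ((2 : ℕ) == 1) (∅ : Finset ℕ).toList ((N + 1) * N + 0)
      (S.toList.map fun a => (a, m a)) (lab (fs N J.1 \ S) m)
      (lab ((fs N J.1 \ fs N J.1) \ S) m) := ⟨_, rfl⟩
  obtain ⟨e1, e2, e3, e4, e5, e6, e7, e8⟩ := cutH_spec J _ _ _ ∅ S _ _ _ m (empty_subset _) htN
    hk1 hk2 hX Subset.rfl hC
  have hY : img (gt (mc N J (selC N J W sel))) (fs N J.1 ∪ ∅) = fs N J.2.1 := by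
    rw [union_empty]; exact hmc.img_eq
  have hlt : ∀ a x, er C.1.2.2.1 a x → a < N ∧ x.1 < N := by
    intro a x h
    have h' : er (mkE N fun a x => ed (cond ((2 : ℕ) == 1) J.2.2.1
        (thrT N J.2.2.1 (redC N J (selC N J W sel)) a₀ x₀)) a x) a x := by
      rw [hC] at h; exact h
    rw [er_mkE] at h'
    exact ⟨h'.1, h'.2.1⟩
  have hiff : ∀ a < N, ∀ x : ℕ × Bool, x.1 < N → (er C.1.2.2.1 a x ↔
      thr (er J.2.2.1) (cs (redC N J (selC N J W sel))) a₀ x₀ a x) := by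
    intro a h x h'
    rw [e8 a h x h']
    exact er_thrT _ _ _ _ h h'
  have hsub : ∀ a x, er C.1.2.2.1 a x → er J.2.2.1 a x := fun a x h =>
    ((hiff a (hlt a x h).1 x (hlt a x h).2).1 h).1
  have e2' : fs N C.1.2.1 = fs N J.2.1 \ img m S := by
    rw [e2, hY, inter_self]
  have hPM : ∀ m', PM (fs N C.1.1) (fs N C.1.2.1) (er C.1.2.2.1) m' ↔
      PM (fs N J.1 \ S) (fs N J.2.1 \ img m S)
        (thr (er J.2.2.1) (cs (redC N J (selC N J W sel))) a₀ x₀) m' := by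
    intro m'
    rw [e1, e2']
    constructor
    · intro h
      exact h.mono fun a h1 x h2 h3 =>
        (hiff a (mem_range.1 (hAr (sdiff_subset h1))) x (mem_range.1 (hBr (sdiff_subset h2)))).1 h3
    · intro h
      exact h.mono fun a h1 x h2 h3 =>
        (hiff a (mem_range.1 (hAr (sdiff_subset h1))) x (mem_range.1 (hBr (sdiff_subset h2)))).2 h3
  have e3' : fs N C.2.1 = ∅ := by rw [e3, Finset.sdiff_self, empty_sdiff]
  have e4' : fs N C.2.2.1 = ∅ := by rw [e4, hY, Finset.sdiff_self, empty_sdiff]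
  have p2 : PM (fs N C.2.1) (fs N C.2.2.1) (er C.2.2.2.1) m := by
    rw [e3', e4']
    refine ⟨fun a h => absurd h (notMem_empty a), ?_⟩
    simp
  have s2 : Solves N W pad E C.2 1 := by
    refine solves_flat hpad hE p2 fun m' _ => ?_
    rw [e6, e3', Finset.sdiff_self, empty_sdiff]
    simp [lab, val]
  refine ⟨C.1, e1, e2', e5, hPM, fun L hL => ?_⟩
  have := solves_cut (kind := 2) (θ₁ := N + 1) (θ₂ := 0) (Z := ∅) (X := fs N J.1)
    (Y := img (gt (mc N J (selC N J W sel))) (fs N J.1 ∪ ∅)) (by decide) le_rfl hsel ha hx le_rfl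
    (Nat.zero_le _) (empty_subset _) hS Subset.rfl hm hC e1 e2 e3 e4 e5 e6 hsub
    (fun a x h => hsub a x (by rw [← e7]; exact h)) ((hPM m).2 hp) p2 hL s2
  refine this.mono ?_
  rw [card_empty]
  omega

/-- Instances whose number of red edges is nearly extreme. -/
theorem solves_extreme (hpad : (N + 3) ^ E ≤ pad) (hE : 4 ≤ E) {J : Jn} {m : Mt} {κ : ℕ}
    (hm : PM (fs N J.1) (fs N J.2.1) (er J.2.2.1) m) (hk : lab (fs N J.1) m = J.2.2.2)
    (h : (∀ m', PM (fs N J.1) (fs N J.2.1) (er J.2.2.1) m' → J.2.2.2 ≤ lab (fs N J.1) m' + κ) ∨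
      ∀ m', PM (fs N J.1) (fs N J.2.1) (er J.2.2.1) m' → lab (fs N J.1) m' ≤ J.2.2.2 + κ) :
    Solves N W pad E J (13 + 3 * κ) := by
  classical
  have hAr : fs N J.1 ⊆ range N := fs_subset _
  have hBr : fs N J.2.1 ⊆ range N := fs_subset _
  rcases (fs N J.1).eq_empty_or_nonempty with h0 | ⟨a₀, ha₀⟩
  · refine (solves_flat hpad hE hm fun m' _ => ?_).mono (by omega)
    rw [← hk, h0]
    simp [lab, val]
  obtain ⟨ms, hms⟩ := exists_opt (cs W) hm
  rw [hk] at hms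
  have key : ∀ sel ≤ 2,
      (∀ m', PM (fs N J.1) (fs N J.2.1) (er J.2.2.1) m' →
        val (cs (selC N J W sel)) (fs N J.1) ms ≤ val (cs (selC N J W sel)) (fs N J.1) m' + κ) →
      (∀ m', PM (fs N J.1) (fs N J.2.1) (er J.2.2.1) m' →
        val (cs (selC N J W sel)) (fs N J.1) m' = val (cs (selC N J W sel)) (fs N J.1) ms →
        lab (fs N J.1) m' = lab (fs N J.1) ms) → Solves N W pad E J (13 + 3 * κ) := by
    intro sel hsel h1 h2
    have hmc := (mc_spec hms.1 (selC N J W sel)).1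
    obtain ⟨r1, r2⟩ := redC_spec hms.1 (selC N J W sel)
    have hκ : val (cs (redC N J (selC N J W sel))) (fs N J.1) ms ≤ κ := by
      have := h1 _ hmc
      omega
    obtain ⟨S, hSd⟩ : ∃ S : Finset ℕ, S = (fs N J.1).filter
      fun a => cs (redC N J (selC N J W sel)) a (ms a) ≠ 0 := ⟨_, rfl⟩
    have hS : S ⊆ fs N J.1 := by rw [hSd]; exact filter_subset _ _
    have hS0 : ∀ a ∈ fs N J.1 \ S, cs (redC N J (selC N J W sel)) a (ms a) = 0 := by
      intro a h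
      rw [mem_sdiff, hSd, mem_filter] at h
      by_contra h'
      exact h.2 ⟨h.1, h'⟩
    have hcard : #S ≤ κ := by
      refine le_trans ?_ hκ
      rw [val_sdiff _ hS]
      refine le_trans ?_ (Nat.le_add_right _ _)
      rw [card_eq_sum_ones]
      refine sum_le_sum fun a h => ?_
      rw [hSd, mem_filter] at h
      exact Nat.one_le_iff_ne_zero.2 h.2
    have hp : PM (fs N J.1 \ S) (fs N J.2.1 \ img ms S)
        (thr (er J.2.2.1) (cs (redC N J (selC N J W sel))) a₀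
          (gt (mc N J (selC N J W sel)) a₀)) ms := by
      have := hms.1.sdiff hS
      refine ⟨fun a h => ⟨this.1 a h, ?_⟩, this.2⟩
      rw [hS0 a h]
      exact Nat.zero_le _
    obtain ⟨J', f1, f2, f3, f4, f5⟩ := solves_restrict (W := W) hpad hE hsel
      (mem_range.1 (hAr ha₀)).le (mem_range.1 (hBr (hmc.mem ha₀))).le hS hms hp
    have s1 : Solves N W pad E J' 1 := by
      refine solves_flat hpad hE ((f4 ms).2 hp) fun m' hm' => ?_
      rw [f4] at hm'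
      have hext := hms.1.extend hS hm' fun a x h => h.1
      have z1 : val (cs (redC N J (selC N J W sel))) (fs N J.1 \ S) m' = 0 := by
        refine sum_eq_zero fun a h => ?_
        have := (hm'.1 a h).2
        rw [r1 a₀ ha₀] at this
        exact Nat.le_zero.1 this
      have z2 : val (cs (redC N J (selC N J W sel))) (fs N J.1 \ S) ms = 0 :=
        sum_eq_zero hS0
      have r3 := (redC_spec hext (selC N J W sel)).2
      have z3 := val_extend (cs (redC N J (selC N J W sel))) hS ms m'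
      have z4 := val_sdiff (cs (redC N J (selC N J W sel))) hS ms
      have z5 := h2 _ hext (by omega)
      have z6 := val_extend lc hS ms m'
      have z7 := val_sdiff lc hS ms
      rw [f1, f3]
      unfold lab at z5 ⊢
      omega
    exact (f5 1 s1).mono (by omega)
  rcases h with h | h
  · have hv : ∀ m', PM (fs N J.1) (fs N J.2.1) (er J.2.2.1) m' →
        val (cs (selC N J W 1)) (fs N J.1) m' = lab (fs N J.1) m' := by
      intro m' hm'
      have : selC N J W 1 = mkC N fun _ x => cond (x.2 == true) 1 0 := rfl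
      rw [this, val_mkC _ hAr hBr hm']
      refine sum_congr rfl fun a _ => ?_
      unfold lc
      beta_reduce
      cases (m' a).2 <;> rfl
    refine key 1 (by omega) (fun m' hm' => ?_) fun m' hm' e => ?_
    · rw [hv _ hm', hv _ hms.1, hms.2.1]
      exact h _ hm'
    · rwa [hv _ hm', hv _ hms.1] at e
  · have hv : ∀ m', PM (fs N J.1) (fs N J.2.1) (er J.2.2.1) m' →
        val (cs (selC N J W 2)) (fs N J.1) m' + lab (fs N J.1) m' = #(fs N J.1) := by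
      intro m' hm'
      have : selC N J W 2 = mkC N fun _ x => cond (x.2 == false) 1 0 := rfl
      rw [this, val_mkC _ hAr hBr hm', card_eq_sum_ones]
      unfold lab val
      rw [← sum_add_distrib]
      refine sum_congr rfl fun a _ => ?_
      unfold lc
      beta_reduce
      cases (m' a).2 <;> rfl
    refine key 2 le_rfl (fun m' hm' => ?_) fun m' hm' e => ?_
    · have a1 := hv _ hm'
      have a2 := hv _ hms.1
      have a3 := h _ hm'
      have a4 := hms.2.1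
      omega
    · have a1 := hv _ hm'
      have a2 := hv _ hms.1
      omega

end Pool.Agent.Lib.MP_be0860_lc.Sx
end

-- part Pool.Agent.Lib.MP_be0860_lc.Sx.State
section

/-!
The structure of an expanding graph around a perfect matching with nearly the right label.
-/

set_option autoImplicit false

namespace Pool.Agent.Lib.MP_be0860_lc.Sx

open Pool.Agent.Shared.PolyTime Finset

/-- The alternatives after forcing the edges of `Ms` at `S` and keeping the edges of `H`. -/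
def Alt (A B : Finset ℕ) (H : Er) (k q P X : ℕ) : Prop :=
  (∃ q', 2 * q ≤ q' ∧ Lev q' A B H k) ∨
    (∀ m, PM A B H m → P * k ≤ P * lab A m + X) ∨ ∀ m, PM A B H m → P * lab A m ≤ P * k + X

/-- The labels of short simple cycles that survive the removal of any small set. -/
def Rob (A : Finset ℕ) (H : Er) (M : Mt) (L N : ℕ) : Set ℤ :=
  {x | |x| ≤ L ∧ ∀ W : Finset ℕ, #W ≤ N → ∃ s l, Ch s l s ∧ (l.map Prod.fst).Nodup ∧
    Wk (A \ W) H M l ∧ l.length ≤ L ∧ gain lc M l = x}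

theorem exists_rob (A : Finset ℕ) (H : Er) (M : Mt) (L N : ℕ) :
    ∃ W ⊆ A, #W ≤ (2 * L + 1) * N ∧ ∀ G : AddSubmonoid ℤ, (∀ x ∈ Rob A H M L N, x ∈ G) →
      ∀ s l, Ch s l s → Wk (A \ W) H M l → l.length ≤ L → gain lc M l ∈ G := by
  have h1 : ∀ x : ℤ, ∃ W : Finset ℕ, #W ≤ N ∧ (|x| ≤ L → x ∉ Rob A H M L N →
      ¬ ∃ s l, Ch s l s ∧ (l.map Prod.fst).Nodup ∧
        Wk (A \ W) H M l ∧ l.length ≤ L ∧ gain lc M l = x) := by
    intro x
    by_cases hx : |x| ≤ L ∧ x ∉ Rob A H M L N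
    · obtain ⟨h1, h2⟩ := hx
      by_contra hc
      refine h2 ⟨h1, fun W hW => ?_⟩
      by_contra hd
      exact hc ⟨W, hW, fun _ _ => hd⟩
    · exact ⟨∅, by simp, fun h1 h2 => absurd ⟨h1, h2⟩ hx⟩
  choose f hf1 hf2 using h1
  refine ⟨((Icc (-(L : ℤ)) L).biUnion f) ∩ A, inter_subset_right, ?_, ?_⟩
  · refine (card_le_card inter_subset_left).trans
      ((card_biUnion_le_card_mul _ _ N fun x _ => hf1 x).trans (le_of_eq ?_))
    congr 1
    rw [Int.card_Icc]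
    omega
  · intro G hG s l hc hw hl
    refine closed_mem lc G L ?_ hc hw hl
    intro s l hc _ hn hw hl
    have ha : |gain lc M l| ≤ L := (abs_gain_lc_le M l).trans (by exact_mod_cast hl)
    refine hG _ ?_
    by_contra hx
    refine hf2 _ ha hx ⟨s, l, hc, hn, hw.mono ?_, hl, rfl⟩
    intro a ha'
    rw [mem_sdiff] at ha' ⊢
    refine ⟨ha'.1, fun h => ha'.2 (mem_inter.2 ⟨mem_biUnion.2 ⟨_, ?_, h⟩, ha'.1⟩)⟩
    exact mem_Icc.2 (abs_le.1 ha)

theorem card_pre_st {A B : Finset ℕ} {E : Er} {m : Mt} (h : PM A B E m) (Y : Finset ℕ) :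
    #(A.filter fun a => (m a).1 ∈ Y) ≤ #Y := by
  refine card_le_card_of_injOn (fun a => (m a).1) ?_ ?_
  · intro a ha
    exact (mem_filter.1 (mem_coe.1 ha)).2
  · intro a ha a' ha' e
    exact h.2.injOn (mem_filter.1 (mem_coe.1 ha)).1 (mem_filter.1 (mem_coe.1 ha')).1 e

/-- Short paths outside a small set. -/
theorem exists_core {A B W : Finset ℕ} {H : Er} {M : Mt} {P lg h ρ Δ : ℕ} (hM : PM A B H M)
    (hW : W ⊆ A) (hWc : #W ≤ ρ) (hE : Exp A B H P Δ) (hP : 0 < P) (hlg : #A < 2 ^ lg)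
    (hh : 4 * P * lg ≤ h) (hΔ : 2 * P * ρ ≤ Δ) (hA : 6 * Δ + ρ ≤ #A) :
    ∃ U : Finset ℕ, W ⊆ U ∧ #U ≤ ρ + 2 * Δ ∧ ∀ a ∈ A, ∀ a' ∈ A, a ∉ U → a' ∉ U →
      ∃ l, Ch a l a' ∧ Wk (A \ W) H M l ∧ l.length ≤ h := by
  have hM' := hM.sdiff hW
  have hE' := exp_del hM hW hE ((Nat.mul_le_mul_left _ hWc).trans hΔ)
  have hc : #(A \ W) = #A - #W := card_sdiff_of_subset hW
  obtain ⟨X, Y, hX, hY, hd⟩ := diam (lg := lg) (by omega) hE' hM'.card_eq (by omega) (by omega)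
  refine ⟨W ∪ X ∪ A.filter fun a => (M a).1 ∈ Y,
    subset_union_left.trans subset_union_left, ?_, ?_⟩
  · have h1 := card_union_le (W ∪ X) (A.filter fun a => (M a).1 ∈ Y)
    have h2 := card_union_le W X
    have h3 := card_pre_st hM Y
    omega
  · intro a ha a' ha' hn hn'
    simp only [mem_union, mem_filter, not_or, not_and] at hn hn'
    obtain ⟨l, h1, -, h2, h3⟩ := hd M a a' hM'.2 (mem_sdiff.2 ⟨ha, hn.1.1⟩)
      (mem_sdiff.2 ⟨ha', hn'.1.1⟩) hn.1.2 (hn'.2 ha') fun b hb _ _ => hM'.1 b hb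
    refine ⟨l, h1, h2, h3.trans (le_trans (le_of_eq ?_) hh)⟩
    ring

/-- The forced set. -/
theorem exists_forced {A B : Finset ℕ} {E : Er} {Ms : Mt} (hs : PM A B E Ms) (M : Mt)
    (T U : Finset ℕ) : ∃ S ⊆ A, #S ≤ #T + 2 * #U ∧ (∀ a ∈ A, a ∈ T → a ∈ S) ∧
      (∀ a ∈ A, a ∈ U → a ∈ S) ∧
      ∀ a ∈ A, ∀ a' ∈ A, a' ∈ U → (Ms a).1 = (M a').1 → a ∈ S := by
  refine ⟨(T ∪ U ∪ A.filter fun a => (Ms a).1 ∈ img M U) ∩ A, inter_subset_right, ?_, ?_, ?_, ?_⟩
  · have h0 := card_le_card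
      (inter_subset_left (s₁ := T ∪ U ∪ A.filter fun a => (Ms a).1 ∈ img M U) (s₂ := A))
    have h1 := card_union_le (T ∪ U) (A.filter fun a => (Ms a).1 ∈ img M U)
    have h2 := card_union_le T U
    have h3 := card_pre_st hs (img M U)
    have h4 : #(img M U) ≤ #U := card_image_le
    omega
  · intro a ha h
    exact mem_inter.2 ⟨mem_union_left _ (mem_union_left _ h), ha⟩
  · intro a ha h
    exact mem_inter.2 ⟨mem_union_left _ (mem_union_right _ h), ha⟩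
  · intro a ha a' _ h e
    exact mem_inter.2 ⟨mem_union_right _
      (mem_filter.2 ⟨ha, mem_image.2 ⟨a', h, e.symm⟩⟩), ha⟩

theorem two_mul_le_lcm {q d : ℕ} {r : ℤ} (hq : 0 < q) (hd : 0 < d) (h1 : (q : ℤ) ∣ r)
    (h2 : ¬ (d : ℤ) ∣ r) : 2 * q ≤ Nat.lcm q d := by
  obtain ⟨c, hc⟩ := Nat.dvd_lcm_left q d
  have hp : 0 < Nat.lcm q d := Nat.lcm_pos hq hd
  have h0 : c ≠ 0 := by
    rintro rfl
    omega
  have h3 : c ≠ 1 := by
    rintro rfl
    refine h2 (Dvd.dvd.trans ?_ h1)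
    have := Nat.dvd_lcm_right q d
    rw [hc, mul_one] at this
    exact_mod_cast this
  rw [hc, mul_comm]
  exact Nat.mul_le_mul_left _ (by omega)

theorem state {A B T : Finset ℕ} {E H : Er} {M Ms : Mt} {k q P lg h L D n ρ Δ : ℕ}
    (hH : ∀ a x, H a x → E a x) (hM : PM A B H M) (hs : PM A B E Ms) (hk : lab A Ms = k)
    (hT : ∀ a ∈ A, a ∉ T → H a (Ms a)) (hTc : #T ≤ ρ) (hD1 : lab A M ≤ k + D)
    (hD2 : k ≤ lab A M + D) (hq : 0 < q) (hlev : Lev q A B E k) (hE : Exp A B H P Δ)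
    (hP : 0 < P) (hlg : #A < 2 ^ lg) (hh : 4 * P * lg ≤ h) (h0 : 0 < h) (hL1 : 2 * h + 1 ≤ L)
    (hL2 : h + h * P ≤ L) (hn : D + 2 * L ≤ n) (hρ : (2 * L + 1) * (n * L) ≤ ρ)
    (hΔ : 2 * P * ρ ≤ Δ) (hA : 6 * Δ + ρ ≤ #A) :
    (∃ (m : Mt) (U : Finset ℕ), PM A B H m ∧ lab A m = k ∧ #U ≤ n * L ∧
      ∀ a, a ∉ U → m a = M a) ∨
    ∃ S ⊆ A, #S ≤ 3 * ρ + 4 * Δ ∧ PM (A \ S) (B \ img Ms S) H Ms ∧
      Alt (A \ S) (B \ img Ms S) H (lab (A \ S) Ms) q P
        (#A + P * (D + h * P * (3 * ρ + 4 * Δ))) := by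
  obtain ⟨W, hWA, hWc, hG⟩ := exists_rob A H M L (n * L)
  obtain ⟨U, hWU, hUc, hp⟩ := exists_core hM hWA (hWc.trans hρ) hE hP hlg hh hΔ hA
  obtain ⟨S, hS, hSc, hTS, hU, hU'⟩ := exists_forced hs M T U
  have hSc' : #S ≤ 3 * ρ + 4 * Δ := by omega
  have hMs : PM (A \ S) (B \ img Ms S) H Ms :=
    ⟨fun a ha => hT a (mem_sdiff.1 ha).1 fun h => (mem_sdiff.1 ha).2 (hTS a (mem_sdiff.1 ha).1 h),
      (hs.sdiff hS).2⟩
  have hk' : k = lab S Ms + lab (A \ S) Ms := hk ▸ val_sdiff lc hS Ms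
  have hX : (P : ℤ) * (h * P * #S) ≤ P * (h * P * (3 * ρ + 4 * Δ)) := by
    have : P * (h * P * #S) ≤ P * (h * P * (3 * ρ + 4 * Δ)) :=
      Nat.mul_le_mul_left _ (Nat.mul_le_mul_left _ hSc')
    exact_mod_cast this
  by_cases hneg : ∃ x ∈ Rob A H M L (n * L), x < 0
  swap
  · refine Or.inr ⟨S, hS, hSc', hMs, Or.inr (Or.inl fun m hm => ?_)⟩
    have h1 := core_sign 1 (Or.inl rfl) hM hs hWU hS hU hU' hp h0 hL2 (fun s l hc hw hl => by
      rw [one_mul]
      exact hG (AddSubmonoid.nonneg ℤ) (fun x hx => not_lt.1 fun h => hneg ⟨x, hx, h⟩)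
        s l hc hw hl) hm
    have h2 : (lab S Ms : ℤ) + lab (A \ S) Ms ≤ lab A M + D := by exact_mod_cast hk' ▸ hD2
    have h3 := mul_le_mul_of_nonneg_left h2 (Int.natCast_nonneg P)
    zify
    linarith
  by_cases hpos : ∃ x ∈ Rob A H M L (n * L), 0 < x
  swap
  · refine Or.inr ⟨S, hS, hSc', hMs, Or.inr (Or.inr fun m hm => ?_)⟩
    have h1 := core_sign (-1) (Or.inr rfl) hM hs hWU hS hU hU' hp h0 hL2 (fun s l hc hw hl => by
      have := hG ((AddSubmonoid.nonneg ℤ).comap (negAddMonoidHom : ℤ →+ ℤ))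
        (fun x hx => neg_nonneg.2 (not_lt.1 fun h => hpos ⟨x, hx, h⟩)) s l hc hw hl
      rw [neg_one_mul]
      exact this) hm
    have h2 : (lab A M : ℤ) ≤ lab S Ms + lab (A \ S) Ms + D := by exact_mod_cast hk' ▸ hD1
    have h3 := mul_le_mul_of_nonneg_left h2 (Int.natCast_nonneg P)
    zify
    linarith
  by_cases hr : (k : ℤ) - lab A M ∈ AddSubgroup.closure (Rob A H M L (n * L))
  · obtain ⟨xs, h1, h2, h3⟩ := num_short (fun x hx => hx.1) hpos hneg hr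
    have h4 : |(k : ℤ) - lab A M| ≤ D := abs_le.2 ⟨by omega, by omega⟩
    have h5 : xs.length ≤ n := by omega
    obtain ⟨m, V, hm, h6, h7, h8⟩ := pack hM xs h5 fun x hx => (h1 x hx).2
    exact Or.inl ⟨m, V, hm, by omega, h7.trans (Nat.mul_le_mul_right _ h5), h8⟩
  obtain ⟨d, hd⟩ := Int.subgroup_cyclic (AddSubgroup.closure (Rob A H M L (n * L)))
  have hmem : ∀ x : ℤ, x ∈ AddSubgroup.closure (Rob A H M L (n * L)) ↔ (d.natAbs : ℤ) ∣ x := by
    intro x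
    rw [hd, ← AddSubgroup.zmultiples_eq_closure, Int.mem_zmultiples_iff, Int.natAbs_dvd]
  have hd0 : 0 < d.natAbs := by
    obtain ⟨x, hx, h1⟩ := hpos
    have h2 := (hmem x).1 (AddSubgroup.subset_closure hx)
    refine Nat.pos_of_ne_zero fun h => ?_
    rw [h, Nat.cast_zero, zero_dvd_iff] at h2
    omega
  have hqr : (q : ℤ) ∣ (k : ℤ) - lab A M :=
    dvd_sub_comm.1 (hlev M (hM.mono fun a _ x _ h => hH a x h))
  refine Or.inr ⟨S, hS, hSc', hMs, Or.inl ⟨Nat.lcm q d.natAbs,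
    two_mul_le_lcm hq hd0 hqr fun h => hr ((hmem _).2 h), fun m hm => ?_⟩⟩
  have h1 := core_mod (d := d.natAbs) hM hs hWU hS hU hU' hp hL1 (fun s l hc hw hl =>
    (hmem _).1 (hG (AddSubgroup.closure (Rob A H M L (n * L))).toAddSubmonoid
      (fun x hx => AddSubgroup.subset_closure hx) s l hc hw hl)) hm hMs
  have h2 := hlev _ (hs.extend hS hm hH)
  have h3 : lab A (fun a => if a ∈ S then Ms a else m a) = lab S Ms + lab (A \ S) m :=
    val_extend lc hS Ms m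
  have h4 : (q : ℤ) ∣ (lab (A \ S) m : ℤ) - lab (A \ S) Ms := by
    have e : (lab (A \ S) m : ℤ) - lab (A \ S) Ms =
        (lab A (fun a => if a ∈ S then Ms a else m a) : ℤ) - k := by omega
    rw [e]
    exact h2
  rw [Int.natCast_dvd] at h1 h4 ⊢
  exact Nat.lcm_dvd h4 h1

end Pool.Agent.Lib.MP_be0860_lc.Sx
end

-- part Pool.Agent.Lib.MP_be0860_lc.Sx.Tri
section

/-!
The trichotomy: mixture, restriction or split.
-/

set_option autoImplicit false

namespace Pool.Agent.Lib.MP_be0860_lc.Sx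

open Pool.Agent.Shared.PolyTime Finset

theorem Alt.mono {A B : Finset ℕ} {H : Er} {k q P X X' : ℕ} (h : Alt A B H k q P X)
    (hX : X ≤ X') : Alt A B H k q P X' := by
  rcases h with h | h | h
  · exact Or.inl h
  · exact Or.inr (Or.inl fun m hm => (h m hm).trans (by omega))
  · exact Or.inr (Or.inr fun m hm => (h m hm).trans (by omega))

/-- The threshold that separates light and heavy edges. -/
theorem exists_thr {A B : Finset ℕ} {E : Er} {cb : Co} {m₀ : Mt} (h₀ : PM A B E m₀)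
    (z₀ : ∀ a ∈ A, cb a (m₀ a) = 0) (hA : A.Nonempty) (ρ g : ℕ) :
    ∃ a₀ ∈ A, ∃ x₀ : ℕ × Bool, x₀.1 ∈ B ∧ ρ * cb a₀ x₀ ≤ g ∧
      ∀ a ∈ A, ∀ x : ℕ × Bool, x.1 ∈ B → E a x → ρ * cb a x ≤ g → cb a x ≤ cb a₀ x₀ := by
  classical
  obtain ⟨a, ha⟩ := hA
  obtain ⟨e, he, hmax⟩ := exists_max_image
    ((A ×ˢ (B ×ˢ (univ : Finset Bool))).filter fun e => E e.1 e.2 ∧ ρ * cb e.1 e.2 ≤ g)
    (fun e => cb e.1 e.2) ⟨(a, m₀ a), by
      simp only [mem_filter, mem_product, mem_univ, and_true]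
      exact ⟨⟨ha, h₀.mem ha⟩, h₀.1 a ha, by rw [z₀ a ha]; simp⟩⟩
  simp only [mem_filter, mem_product, mem_univ, and_true] at he hmax
  exact ⟨e.1, he.1.1, e.2, he.1.2, he.2.2, fun a ha x hx h1 h2 => hmax (a, x) ⟨⟨ha, hx⟩, h1, h2⟩⟩

theorem card_heavy {A T : Finset ℕ} {cb : Co} {m : Mt} {ρ : ℕ} (hT : T ⊆ A)
    (h : ∀ a ∈ T, val cb A m < ρ * cb a (m a)) : #T ≤ ρ := by
  have h1 : #T * (val cb A m + 1) ≤ ∑ a ∈ T, ρ * cb a (m a) := by
    rw [← smul_eq_mul]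
    exact card_nsmul_le_sum _ _ _ h
  have h2 : ∑ a ∈ T, ρ * cb a (m a) ≤ ρ * val cb A m := by
    rw [← mul_sum]
    exact Nat.mul_le_mul_left _ (sum_le_sum_of_subset hT)
  exact Nat.le_of_mul_le_mul_right (h1.trans (h2.trans (Nat.mul_le_mul_left _ (Nat.le_succ _))))
    (Nat.succ_pos _)

theorem val_le_of_zero {A S : Finset ℕ} {cb : Co} {m : Mt} {τ : ℕ} (hS : S ⊆ A)
    (h : ∀ a ∈ A, cb a (m a) ≤ τ) (h0 : ∀ a ∈ A, a ∉ S → cb a (m a) = 0) :
    val cb A m ≤ #S * τ := by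
  rw [val_sdiff cb hS]
  have h1 : val cb (A \ S) m = 0 :=
    sum_eq_zero fun a ha => h0 a (mem_sdiff.1 ha).1 (mem_sdiff.1 ha).2
  rw [h1, add_zero, ← smul_eq_mul]
  exact sum_le_card_nsmul _ _ _ fun a ha => h a (hS ha)

theorem tri_aux {N P k q D n ρ Δ G X₀ : ℕ} {A B : Finset ℕ} {E : Er} {c cb : Co}
    {Ms m₀ m₁ m₂ : Mt} {σ : ℕ → ℕ}
    (hA : A ⊆ range N) (hB : B ⊆ range N) (hP : 4 ≤ P) (hN : N < 2 ^ P)
    (hs : Opt A B E k c Ms) (hq : 0 < q) (hlev : Lev q A B E k)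
    (h₀ : PM A B E m₀) (h₁ : PM A B E m₁) (h₂ : PM A B E m₂)
    (z₀ : ∀ a ∈ A, cb a (m₀ a) = 0) (z₁ : ∀ a ∈ A, cb a (m₁ a) = 0)
    (z₂ : ∀ a ∈ A, cb a (m₂ a) = 0)
    (hc : ∀ m, PM A B E m → lab A m = k → val cb A m ≤ val cb A Ms → val c A m ≤ val c A Ms)
    (hn : D + 2 * (8 * P ^ 3) ≤ n) (hρ : (2 * (8 * P ^ 3) + 1) * (n * (8 * P ^ 3)) ≤ ρ)
    (hρ' : 4 * P ^ 2 + n * (8 * P ^ 3) ≤ ρ) (hΔ : 2 * P * ρ ≤ Δ) (hbig : 6 * Δ + ρ ≤ #A)
    (hG : 3 * ρ + 4 * Δ ≤ G) (hX : D + 4 * P ^ 2 * P * (3 * ρ + 4 * Δ) ≤ X₀)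
    (hM : ∀ H : Er, PM A B H m₁ → PM A B H m₂ → Exp A B H P Δ →
      ∃ j ≤ N, ∃ y ≤ N, ∃ len ≤ N, ∃ (M : Mt) (U : Finset ℕ), PM A B H M ∧ #U ≤ 4 * P ^ 2 ∧
        (∀ a ∈ A, a ∉ U → M a = base σ m₁ m₂ j y len a) ∧ lab A M ≤ k + D ∧ k ≤ lab A M + D) :
    (∃ j ≤ N, ∃ y ≤ N, ∃ len ≤ N, ∃ S ⊆ A, ∃ m, Opt A B E k c m ∧ #S ≤ G ∧
      ∀ a ∈ A, a ∉ S → m a = base σ m₁ m₂ j y len a) ∨
    (∃ a₀ < N, ∃ x₀ : ℕ × Bool, x₀.1 < N ∧ ∃ S ⊆ A, #S ≤ G ∧
      PM (A \ S) (B \ img Ms S) (thr E cb a₀ x₀) Ms ∧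
      Alt (A \ S) (B \ img Ms S) (thr E cb a₀ x₀) (lab (A \ S) Ms) q P (#A + P * X₀)) ∨
    ∃ a₀ < N, ∃ x₀ : ℕ × Bool, x₀.1 < N ∧ ∃ Z ⊆ A, ∃ θ ≤ (N + 1) * N, ∃ S ⊆ A, ∃ X u,
      X = cl N (A \ Z) (arcR (A \ Z) (thr E cb a₀ x₀) m₀) θ ∧
      PM (X \ S) (img m₀ (X ∪ Z) \ img Ms S) E Ms ∧
      PM ((A \ X) \ S) ((B \ img m₀ (X ∪ Z)) \ img Ms S) E Ms ∧
      0 < u ∧ u ≤ #X ∧ #X + u ≤ #A ∧ P * (12 + #Z + 3 * #S) ≤ 152 * u := by
  classical
  have hP2 : 0 < P ^ 2 := by positivity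
  have hρ0 : 0 < ρ := by omega
  have hne : A.Nonempty := card_pos.1 (by omega)
  have hAN : #A ≤ N := (card_le_card hA).trans (by simp)
  obtain ⟨a₀, ha₀, x₀, hx₀, hτ, hmax⟩ := exists_thr h₀ z₀ hne ρ (val cb A Ms)
  have ha₀' := mem_range.1 (hA ha₀)
  have hx₀' := mem_range.1 (hB hx₀)
  set H := thr E cb a₀ x₀ with hH
  have hHE : ∀ a x, H a x → E a x := fun _ _ h => h.1
  have hz : ∀ m, PM A B E m → (∀ a ∈ A, cb a (m a) = 0) → PM A B H m := fun m h z =>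
    ⟨fun a ha => ⟨h.1 a ha, by rw [z a ha]; exact Nat.zero_le _⟩, h.2⟩
  set T := A.filter fun a => ¬ H a (Ms a) with hT
  have hT1 : ∀ a ∈ A, a ∉ T → H a (Ms a) := fun a ha h => by
    by_contra h'
    exact h (mem_filter.2 ⟨ha, h'⟩)
  have hT2 : #T ≤ ρ := card_heavy (cb := cb) (m := Ms) (filter_subset _ _) fun a ha => by
    obtain ⟨ha, h⟩ := mem_filter.1 ha
    by_contra h'
    exact h ⟨hs.1.1 a ha, hmax a ha _ (hs.1.mem ha) (hs.1.1 a ha) (not_lt.1 h')⟩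
  by_cases hE : Exp A B H P Δ
  · obtain ⟨j, hj, y, hy, len, hlen, M, U, hM1, hU, hMU, hD1, hD2⟩ :=
      hM H (hz _ h₁ z₁) (hz _ h₂ z₂) hE
    have hP3 : P ^ 3 = P ^ 2 * P := pow_succ P 2
    have hPP : P ^ 2 = P * P := sq P
    have h4 : P ^ 2 * 4 ≤ P ^ 2 * P := Nat.mul_le_mul_left _ hP
    rcases state (lg := P) (h := 4 * P ^ 2) (L := 8 * P ^ 3) hHE hM1 hs.1 hs.2.1 hT1 hT2 hD1 hD2 hq
      hlev hE (by omega) (hAN.trans_lt hN) (by rw [hPP, mul_assoc]) (by omega) (by omega)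
      (by rw [mul_assoc, ← hP3]; omega) hn hρ hΔ hbig with
      ⟨m, U', hm, hk, hU', hmU⟩ | ⟨S, hS, hSc, h1, h2⟩
    · have hc1 : #((U ∪ U') ∩ A) ≤ ρ :=
        (card_le_card inter_subset_left).trans ((card_union_le _ _).trans (by omega))
      have hb : ∀ a ∈ A, a ∉ (U ∪ U') ∩ A → m a = base σ m₁ m₂ j y len a := fun a ha h => by
        have h' : a ∉ U ∪ U' := fun h' => h (mem_inter.2 ⟨h', ha⟩)
        rw [mem_union, not_or] at h'
        rw [hmU a h'.2, hMU a ha h'.1]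
      have hmE : PM A B E m := hm.mono fun a _ x _ h => hHE a x h
      refine Or.inl ⟨j, hj, y, hy, len, hlen, _, inter_subset_right, m,
        ⟨hmE, hk, fun m' h1 h2 => (hc m hmE hk ?_).trans (hs.2.2 m' h1 h2)⟩, by omega, hb⟩
      refine (val_le_of_zero (τ := cb a₀ x₀) inter_subset_right (fun a ha => (hm.1 a ha).2)
        fun a ha h => ?_).trans ((Nat.mul_le_mul_right _ hc1).trans hτ)
      rw [hb a ha h]
      rcases base_eq (σ := σ) (m₁ := m₁) (m₂ := m₂) j y len a with e | e <;> rw [e]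
      · exact z₁ a ha
      · exact z₂ a ha
    · exact Or.inr (Or.inl ⟨a₀, ha₀', x₀, hx₀', S, hS, hSc.trans hG, h1,
        h2.mono (Nat.add_le_add_left (Nat.mul_le_mul_left _ hX) _)⟩)
  · obtain ⟨Z, hZ, X, hX', u, e1, e2, e3, e4, e5⟩ := exists_sep (hz _ h₀ z₀) hP hE
    obtain ⟨θ, hθ, f1, f2⟩ := exists_cl (N := N) (r := arcR (A \ Z) H m₀)
      (sdiff_subset.trans hA) (fun _ _ h => h.2.1) hX' e5 e3 e4
    obtain ⟨S, hS, g1, g2, g3⟩ := cross (θ := θ) hA (hz _ h₀ z₀) hs.1 hZ hT1 rfl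
    have g4 : #(A \ Z) ≤ #A := card_le_card sdiff_subset
    have g5 : P * 1 ≤ P * ρ := Nat.mul_le_mul_left _ hρ0
    have g6 : P * #T ≤ P * ρ := Nat.mul_le_mul_left _ hT2
    have g7 : P * #S ≤ P * (#Z + 2 * #T) := Nat.mul_le_mul_left _ g1
    rw [mul_assoc] at hΔ
    refine Or.inr (Or.inr ⟨a₀, ha₀', x₀, hx₀', Z, hZ, θ, hθ, S, hS, _, (u + 1) / 2, rfl, g2, g3,
      by omega, by rw [← hH]; omega, by rw [← hH]; omega, ?_⟩)
    rw [Nat.mul_add, Nat.mul_left_comm] at g7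
    rw [Nat.mul_add, Nat.mul_add, Nat.mul_left_comm P 3]
    omega

theorem tri {N P k q : ℕ} {A B : Finset ℕ} {E : Er} {c cb : Co} {Ms m₀ m₁ m₂ : Mt} {σ : ℕ → ℕ}
    (hA : A ⊆ range N) (hB : B ⊆ range N) (hP : 4 ≤ P) (hN : N < 2 ^ P)
    (hbig : 2 ^ 25 * P ^ 17 ≤ #A) (hs : Opt A B E k c Ms) (hq : 0 < q) (hlev : Lev q A B E k)
    (h₀ : PM A B E m₀) (h₁ : PM A B E m₁) (h₂ : PM A B E m₂)
    (z₀ : ∀ a ∈ A, cb a (m₀ a) = 0) (z₁ : ∀ a ∈ A, cb a (m₁ a) = 0)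
    (z₂ : ∀ a ∈ A, cb a (m₂ a) = 0)
    (hc : ∀ m, PM A B E m → lab A m = k → val cb A m ≤ val cb A Ms → val c A m ≤ val c A Ms)
    (l₁ : lab A m₁ ≤ k) (l₂ : k < lab A m₂)
    (hσ : ∀ a ∈ A, σ a ∈ A ∧ (m₁ (σ a)).1 = (m₂ a).1) :
    (∃ j ≤ N, ∃ y ≤ N, ∃ len ≤ N, ∃ S ⊆ A, ∃ m, Opt A B E k c m ∧ #S ≤ 2 ^ 25 * P ^ 17 ∧
      ∀ a ∈ A, a ∉ S → m a = base σ m₁ m₂ j y len a) ∨
    (∃ a₀ < N, ∃ x₀ : ℕ × Bool, x₀.1 < N ∧ ∃ S ⊆ A, #S ≤ 2 ^ 25 * P ^ 17 ∧
      PM (A \ S) (B \ img Ms S) (thr E cb a₀ x₀) Ms ∧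
      Alt (A \ S) (B \ img Ms S) (thr E cb a₀ x₀) (lab (A \ S) Ms) q P
        (#A + P * (2 ^ 27 * P ^ 20))) ∨
    ∃ a₀ < N, ∃ x₀ : ℕ × Bool, x₀.1 < N ∧ ∃ Z ⊆ A, ∃ θ ≤ (N + 1) * N, ∃ S ⊆ A, ∃ X u,
      X = cl N (A \ Z) (arcR (A \ Z) (thr E cb a₀ x₀) m₀) θ ∧
      PM (X \ S) (img m₀ (X ∪ Z) \ img Ms S) E Ms ∧
      PM ((A \ X) \ S) ((B \ img m₀ (X ∪ Z)) \ img Ms S) E Ms ∧
      0 < u ∧ u ≤ #X ∧ #X + u ≤ #A ∧ P * (12 + #Z + 3 * #S) ≤ 152 * u := by
  have hp : ∀ i, 4 * P ^ i ≤ P ^ (i + 1) := fun i => by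
    rw [pow_succ']; exact Nat.mul_le_mul_right _ hP
  have p0 : 1 ≤ P ^ 2 := Nat.one_le_pow _ _ (by omega)
  have p2 := hp 2
  have p3 := hp 3
  have p4 := hp 4
  have p5 := hp 5
  have p6 := hp 6
  have p7 := hp 7
  have p8 := hp 8
  have p9 := hp 9
  have p10 := hp 10
  have p11 := hp 11
  have p12 := hp 12
  have p13 := hp 13
  have p14 := hp 14
  have p15 := hp 15
  have p16 := hp 16
  have p17 := hp 17
  have p18 := hp 18
  have p19 := hp 19
  norm_num only at p2 p3 p4 p5 p6 p7 p8 p9 p10 p11 p12 p13 p14 p15 p16 p17 p18 p19 hbig ⊢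
  have hAN : #A ≤ N := (card_le_card hA).trans (by simp)
  obtain ⟨j, hj, hj1, hj2⟩ := exists_cross (σ := σ) hA l₁ l₂
  by_cases hreg : k + 2 * (4624 * P ^ 10) ≤ lab A (base σ m₁ m₂ (j + 1) 0 0)
  · refine tri_aux (D := 4 * P ^ 2) (n := 17 * P ^ 3) (ρ := 2312 * P ^ 9) (Δ := 4624 * P ^ 10)
      hA hB hP hN hs hq hlev h₀ h₁ h₂ z₀ z₁ z₂ hc (by omega) (by ring_nf; omega)
      (by ring_nf; omega) (by ring_nf; omega) (by omega) (by omega) (by ring_nf; omega)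
      fun H g₁ g₂ hE => ?_
    obtain ⟨y, hy, len, hlen, M, U, e1, e2, e3, e4⟩ := reg_one (lg := P) hA g₁ g₂ hσ hj1 hreg
      (by omega) hE (by omega) (hAN.trans_lt hN)
    have e5 : #U ≤ 4 * P ^ 2 := e2.trans (by ring_nf; omega)
    have e6 := lab_le_add e3
    have e7 := lab_le_add fun a ha h => (e3 a ha h).symm
    exact ⟨j, hj.le, y, hy.le, len, hlen, M, U, e1, e5, e3, by omega, by omega⟩
  · refine tri_aux (D := 9248 * P ^ 10) (n := 9249 * P ^ 10) (ρ := 1257864 * P ^ 16)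
      (Δ := 2515728 * P ^ 17)
      hA hB hP hN hs hq hlev h₀ h₁ h₂ z₀ z₁ z₂ hc (by omega) (by ring_nf; omega)
      (by ring_nf; omega) (by ring_nf; omega) (by omega) (by omega) (by ring_nf; omega)
      fun H g₁ g₂ _ => ⟨j + 1, hj, 0, Nat.zero_le _, 0, Nat.zero_le _, _, ∅,
        base_pm g₁ g₂ hσ (j + 1), by simp, fun _ _ _ => rfl, by omega, by omega⟩

end Pool.Agent.Lib.MP_be0860_lc.Sx
end

-- part Pool.Agent.Lib.MP_be0860_lc.Sx.Comp
section

/-!
Completeness: every feasible instance is solved by a short string.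
-/

set_option autoImplicit false

namespace Pool.Agent.Lib.MP_be0860_lc.Sx

open Pool.Agent.Shared.PolyTime Finset

theorem comp_lev {A B A' B' : Finset ℕ} {E H : Er} {M : Mt} {q : ℕ} (hM : PM A B E M)
    (hl : Lev q A B E (lab A M)) (hA : A' ⊆ A) (h : PM A' B' H M) (hH : ∀ a x, H a x → E a x) :
    Lev q A' B' H (lab A' M) := by
  intro m hm
  have e : A \ (A \ A') = A' := Finset.sdiff_sdiff_eq_self hA
  have h1 := hM.sdiff (S := A \ A') sdiff_subset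
  have h2 : B \ img M (A \ A') = B' := by rw [← h1.img_eq, e, h.img_eq]
  have h3 := hl _ (hM.extend (S := A \ A') sdiff_subset (by rw [e, h2]; exact hm) hH)
  unfold lab at h3 ⊢
  rw [val_extend lc sdiff_subset, val_sdiff lc (S := A \ A') sdiff_subset M, e] at h3
  simpa using h3

theorem comp_size {x y u x' y' : ℕ} (h0 : 0 < u) (h1 : u ≤ x) (h2 : u ≤ y) (h3 : x' ≤ x)
    (h4 : y' ≤ y) : x' * Nat.size x' + y' * Nat.size y' + u ≤ (x + y) * Nat.size (x + y) := by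
  have key : ∀ x y : ℕ, 0 < x → x ≤ y →
      x * Nat.size x + y * Nat.size y + x ≤ (x + y) * Nat.size (x + y) := fun x y a b => by
    have c1 : Nat.size x + 1 ≤ Nat.size (x + y) := by
      have : 0 < Nat.size x := Nat.size_pos.2 a
      have d := Nat.lt_size.1 (show Nat.size x - 1 < Nat.size x by omega)
      refine Nat.lt_size.2 ?_
      rw [show Nat.size x = Nat.size x - 1 + 1 by omega, pow_succ]
      omega
    have c2 := Nat.mul_le_mul_left x c1
    have c3 := Nat.mul_le_mul_left y (Nat.size_le_size (Nat.le_add_left y x))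
    rw [add_mul]
    rw [mul_add] at c2
    omega
  have a1 := Nat.mul_le_mul h3 (Nat.size_le_size h3)
  have a2 := Nat.mul_le_mul h4 (Nat.size_le_size h4)
  rcases le_total x y with h | h
  · have := key x y (by omega) h
    omega
  · have := key y x (by omega) h
    rw [add_comm y x] at this
    omega

theorem comp_div {P k l X a : ℕ} (hP : 0 < P) (h : P * k ≤ P * l + (a + P * X)) :
    k ≤ l + (a / P + X) := by
  have : k - (l + X) ≤ a / P := by
    rw [Nat.le_div_iff_mul_le hP, mul_comm, Nat.mul_sub, mul_add]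
    omega
  omega

variable {N pad E : ℕ} {W : Cs}

theorem complete {P s : ℕ} (hpad : (N + 3) ^ E ≤ pad) (hP : 4 ≤ P) (hN : N < 2 ^ P)
    (hs : 2 ^ 25 * P ^ 17 ≤ s) (hE : 4 + 3 * s ≤ E) (n : ℕ) : ∀ (j q : ℕ) (J : Jn) (m : Mt),
      #(fs N J.1) + j ≤ n → PM (fs N J.1) (fs N J.2.1) (er J.2.2.1) m →
      lab (fs N J.1) m = J.2.2.2 → 0 < q → N < q * 2 ^ j →
      Lev q (fs N J.1) (fs N J.2.1) (er J.2.2.1) J.2.2.2 →
      ∃ L, Solves N W pad E J L ∧ P * L ≤ 152 * (#(fs N J.1) * Nat.size #(fs N J.1)) +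
        P * ((j + 1) * (2 ^ 29 * P ^ 20) * (#(fs N J.1) / s)) + P := by
  induction n using Nat.strong_induction_on with
  | h n ih =>
  intro j q J m hn hm hk hq hj hlev
  have hA := fs_subset (N := N) J.1
  have hB := fs_subset (N := N) J.2.1
  have hAN := card_fs_le (N := N) J.1
  have one : Solves N W pad E J 1 → ∃ L, Solves N W pad E J L ∧
      P * L ≤ 152 * (#(fs N J.1) * Nat.size #(fs N J.1)) +
        P * ((j + 1) * (2 ^ 29 * P ^ 20) * (#(fs N J.1) / s)) + P := fun h => ⟨1, h, by omega⟩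
  rcases lt_or_ge #(fs N J.1) s with hsm | hbig
  · exact one (solves_small hpad hm hk (by omega))
  have p17 : 0 < P ^ 17 := by positivity
  have p20 : P ^ 17 ≤ P ^ 20 := Nat.pow_le_pow_right (by omega) (by omega)
  have hd : 1 ≤ #(fs N J.1) / s := (Nat.le_div_iff_mul_le (by omega)).2 (by omega)
  obtain _ | j := j
  · refine one (solves_flat hpad (by omega) hm fun m' hm' => ?_)
    have a1 := lab_le (fs N J.1) m
    have a2 := lab_le (fs N J.1) m'
    have := Int.eq_zero_of_abs_lt_dvd (hlev m' hm') (by rw [abs_lt]; omega)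
    omega
  obtain ⟨M, hM⟩ := exists_opt (cs W) hm
  rw [hk] at hM
  obtain ⟨p1, p2, ho | ⟨l1, l2, c1, c2⟩⟩ := newt_spec (W := W) hm hk
  · refine one (solves_leaf hpad (S := ∅) (j := N) (y := 0) (len := 0) ho (empty_subset _)
      (by simp; omega) le_rfl (Nat.zero_le _) (Nat.zero_le _) fun a ha _ => ?_)
    exact (if_pos (Or.inl ⟨0, mem_range.1 (hA ha)⟩)).symm
  have p0 := (mc_spec hm (selC N J W 0)).1
  have hz : ∀ m', MinC (fs N J.1) (fs N J.2.1) (er J.2.2.1) (cs (selC N J W 0)) m' →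
      ∀ a ∈ fs N J.1, cs (redC N J (selC N J W 0)) a (m' a) = 0 := fun m' h => by
    have a1 := (redC_spec h.1 (selC N J W 0)).2
    have a2 := h.2 _ p0
    exact Finset.sum_eq_zero_iff.1
      (show val (cs (redC N J (selC N J W 0))) (fs N J.1) m' = 0 by omega)
  have hc : ∀ m', PM (fs N J.1) (fs N J.2.1) (er J.2.2.1) m' → lab (fs N J.1) m' = J.2.2.2 →
      val (cs (redC N J (selC N J W 0))) (fs N J.1) m' ≤
        val (cs (redC N J (selC N J W 0))) (fs N J.1) M →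
      val (cs W) (fs N J.1) m' ≤ val (cs W) (fs N J.1) M := fun m' h e le => by
    have a1 := (redC_spec h (selC N J W 0)).2
    have a2 := (redC_spec hM.1 (selC N J W 0)).2
    have a3 : val (cs (selC N J W 0)) _ _ = _ := val_lagr (W := W) (newt N J W) h
    have a4 : val (cs (selC N J W 0)) _ _ = _ := val_lagr (W := W) (newt N J W) hM.1
    rw [e] at a3
    rw [hM.2.1] at a4
    exact Nat.le_of_mul_le_mul_left (c := lab (fs N J.1) (gt (newt N J W).2) -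
      lab (fs N J.1) (gt (newt N J W).1)) (by omega) (by omega)
  obtain ⟨i, hi, y, hy, len, hl, S, hS, m', o', hc', hb⟩ | ⟨a₀, ha₀, x₀, hx₀, S, hS, hc', hp, alt⟩ |
      ⟨a₀, ha₀, x₀, hx₀, Z, hZ, θ, hθ, S, hS, X, u, hX, q1, q2, u0, u1, u2, u3⟩ :=
    tri hA hB hP hN (hs.trans hbig) hM hq hlev p0 p1 p2 (redC_spec hm _).1 (hz _ c1) (hz _ c2) hc
      l1 l2 (sig_spec p1 p2)
  · exact one (solves_leaf hpad o' hS (by omega) hi hy hl hb)
  · obtain ⟨J', e1, e2, e3, e4, e5⟩ := solves_restrict hpad (by omega) (sel := 0) (by omega)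
      ha₀.le hx₀.le hS hM hp
    have hM' := (e4 M).2 hp
    have hk' : lab (fs N J'.1) M = J'.2.2.2 := by rw [e1, e3]
    have hle : #(fs N J'.1) ≤ #(fs N J.1) := e1 ▸ card_le_card sdiff_subset
    have b1 := Nat.mul_le_mul_left (2 ^ 29 * P ^ 20) hd
    have ext : ((∀ m', PM (fs N J'.1) (fs N J'.2.1) (er J'.2.2.1) m' → J'.2.2.2 ≤
        lab (fs N J'.1) m' + (#(fs N J.1) / P + 2 ^ 27 * P ^ 20)) ∨
        ∀ m', PM (fs N J'.1) (fs N J'.2.1) (er J'.2.2.1) m' → lab (fs N J'.1) m' ≤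
          J'.2.2.2 + (#(fs N J.1) / P + 2 ^ 27 * P ^ 20)) → ∃ L, Solves N W pad E J L ∧
        P * L ≤ 152 * (#(fs N J.1) * Nat.size #(fs N J.1)) +
          P * ((j + 1 + 1) * (2 ^ 29 * P ^ 20) * (#(fs N J.1) / s)) + P := fun h => by
      refine ⟨_, e5 _ (solves_extreme hpad (by omega) hM' hk' h), ?_⟩
      have b2 := Nat.mul_div_le #(fs N J.1) P
      have b3 := Nat.mul_le_mul_left #(fs N J.1)
        (Nat.size_pos.2 (show 0 < #(fs N J.1) by omega))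
      have b4 : 25 + 3 * #S + 3 * (2 ^ 27 * P ^ 20) ≤
          (j + 1 + 1) * (2 ^ 29 * P ^ 20) * (#(fs N J.1) / s) := by
        rw [mul_assoc, add_mul, one_mul]
        omega
      have b5 := Nat.mul_le_mul_left P b4
      rw [show P * (12 + 3 * #S + (13 + 3 * (#(fs N J.1) / P + 2 ^ 27 * P ^ 20))) =
        P * (25 + 3 * #S + 3 * (2 ^ 27 * P ^ 20)) + 3 * (P * (#(fs N J.1) / P)) by ring]
      omega
    obtain ⟨q', h1, h2⟩ | h | h := alt
    · obtain ⟨L, s1, s2⟩ := ih (#(fs N J'.1) + j) (by omega) j q' J' M le_rfl hM' hk' (by omega)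
        (hj.trans_le (by rw [pow_succ', ← mul_assoc, mul_comm q]; exact Nat.mul_le_mul_right _ h1))
        (fun m' h => by rw [e1, e3]; exact h2 m' ((e4 m').1 h))
      refine ⟨_, e5 _ s1, ?_⟩
      have b2 := Nat.mul_le_mul hle (Nat.size_le_size hle)
      have b3 := Nat.mul_le_mul_left ((j + 1) * (2 ^ 29 * P ^ 20)) (Nat.div_le_div_right (c := s) hle)
      have b4 : 12 + 3 * #S + (j + 1) * (2 ^ 29 * P ^ 20) * (#(fs N J'.1) / s) ≤
          (j + 1 + 1) * (2 ^ 29 * P ^ 20) * (#(fs N J.1) / s) := by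
        rw [add_mul (j + 1), one_mul, add_mul ((j + 1) * _)]
        omega
      have b5 := Nat.mul_le_mul_left P b4
      rw [mul_add] at b5 ⊢
      omega
    · exact ext (Or.inl fun m' h' => by
        rw [e1, e3]; exact comp_div (by omega) (h m' ((e4 m').1 h')))
    · exact ext (Or.inr fun m' h' => by
        rw [e1, e3]; exact comp_div (by omega) (h m' ((e4 m').1 h')))
  · have hXA : X ⊆ fs N J.1 := hX ▸ cl_subset.trans sdiff_subset
    have ht : ∀ a ∈ fs N J.1, (gt (mc N J (selC N J W 0)) a).1 < N := fun a ha =>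
      mem_range.1 (hB (p0.mem ha))
    have hY : img (gt (mc N J (selC N J W 0))) (X ∪ Z) ⊆ fs N J.2.1 := fun b hb => by
      obtain ⟨a, ha, rfl⟩ := mem_image.1 hb
      exact p0.mem (union_subset hXA hZ ha)
    have hX' : X = fs N (cutX N J.1 (thrT N J.2.2.1 (redC N J (selC N J W 0)) a₀ x₀)
        (mc N J (selC N J W 0)) Z.toList (θ / N * N + θ % N)) := by
      rw [Nat.div_add_mod', cutX_spec Z.toList θ fun u hu v hv c =>
        er_thrT _ _ a₀ x₀ (mem_range.1 (hA hu)) (ht v hv), toList_toFinset, hX]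
    have s1 : X \ S ⊆ fs N J.1 := sdiff_subset.trans hXA
    have s2 : (fs N J.1 \ X) \ S ⊆ fs N J.1 := sdiff_subset.trans sdiff_subset
    obtain ⟨C, hC⟩ : ∃ C, C = cutH N J (thrT N J.2.2.1 (redC N J (selC N J W 0)) a₀ x₀)
      (mc N J (selC N J W 0)) (1 == 1) Z.toList (θ / N * N + θ % N)
      (S.toList.map fun a => (a, M a)) (lab (X \ S) M) (lab ((fs N J.1 \ X) \ S) M) := ⟨_, rfl⟩
    obtain ⟨e1, e2, e3, e4, e5, e6, e7, e8⟩ := cutH_spec J _ _ _ Z S _ _ _ M hZ ht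
      ((lab_le _ _).trans ((card_le_card s1).trans hAN))
      ((lab_le _ _).trans ((card_le_card s2).trans hAN)) hX' hXA hC
    have f1 : ∀ a x, er C.1.2.2.1 a x → er J.2.2.1 a x := fun a x h => by
      rw [hC] at h
      exact ((er_mkE _ a x).1 h).2.2
    have r1 : PM (fs N C.1.1) (fs N C.1.2.1) (er C.1.2.2.1) M := by
      rw [e1, e2, inter_eq_right.2 hY]
      exact q1.mono fun a ha x hx h => (e8 a (mem_range.1 (hA (s1 ha))) x
        (mem_range.1 (hB (hY (sdiff_subset hx))))).2 h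
    have r2 : PM (fs N C.2.1) (fs N C.2.2.1) (er C.2.2.2.1) M := by
      rw [e3, e4, e7]
      exact q2.mono fun a ha x hx h => (e8 a (mem_range.1 (hA (s2 ha))) x
        (mem_range.1 (hB (sdiff_subset (sdiff_subset hx))))).2 h
    have k1 : lab (fs N C.1.1) M = C.1.2.2.2 := by rw [e1, e5]
    have k2 : lab (fs N C.2.1) M = C.2.2.2.2 := by rw [e3, e6]
    have n1 : #(fs N C.1.1) ≤ #X := e1 ▸ card_le_card sdiff_subset
    have n2 : #(fs N C.2.1) ≤ #(fs N J.1) - #X := by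
      rw [e3, ← card_sdiff_of_subset hXA]
      exact card_le_card sdiff_subset
    rw [← hM.2.1] at hlev
    obtain ⟨L₁, t1, t2⟩ := ih (#(fs N C.1.1) + (j + 1)) (by omega) (j + 1) q C.1 M le_rfl r1 k1 hq
      hj (k1 ▸ comp_lev hM.1 hlev (e1 ▸ s1) r1 f1)
    obtain ⟨L₂, t3, t4⟩ := ih (#(fs N C.2.1) + (j + 1)) (by omega) (j + 1) q C.2 M le_rfl r2 k2 hq
      hj (k2 ▸ comp_lev hM.1 hlev (e3 ▸ s2) r2 (e7 ▸ f1))
    refine ⟨_, solves_cut one_ne_zero (by omega) (by omega) ha₀.le hx₀.le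
      (Nat.div_le_of_le_mul (by rw [mul_comm]; exact hθ)) (Nat.mod_lt _ (by omega)).le hZ hS hXA hM
      hC e1 e2 e3 e4 e5 e6 f1 (e7 ▸ f1) r1 r2 t1 t3, ?_⟩
    have b1 := comp_size u0 u1 (show u ≤ #(fs N J.1) - #X by omega) n1 n2
    rw [show #X + (#(fs N J.1) - #X) = #(fs N J.1) by omega] at b1
    have b2 : #(fs N C.1.1) / s + #(fs N C.2.1) / s ≤ #(fs N J.1) / s :=
      Nat.div_add_div_le_add_div.trans (Nat.div_le_div_right (by omega))
    have b3 := Nat.mul_le_mul_left P (Nat.mul_le_mul_left ((j + 1 + 1) * (2 ^ 29 * P ^ 20)) b2)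
    rw [mul_add, mul_add] at b3
    rw [show P * (12 + #Z + 3 * #S) = P * (11 + #Z + 3 * #S) + P by ring] at u3
    rw [mul_add, mul_add]
    omega

theorem solve_spec {J : Jn} {m : Mt} (hm : PM (fs N J.1) (fs N J.2.1) (er J.2.2.1) m)
    (hk : lab (fs N J.1) m = J.2.2.2) :
    Opt (fs N J.1) (fs N J.2.1) (er J.2.2.1) J.2.2.2 (cs W)
      (gt (solve N W (2 ^ pare N) (parE N) J)) := by
  obtain ⟨P, hP⟩ : ∃ P, P = parP N := ⟨_, rfl⟩
  have h4 : Nat.size N + 4 ≤ P := by rw [hP, parP]; omega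
  have hN : N ≤ P ^ 22 := by
    by_contra h
    push Not at h
    have a1 : P + 1 ≤ N := (Nat.le_self_pow (by omega) P).trans_lt h
    have a2 := (List.range_sublist.2 a1).countP_le (p := fun x => Nat.blt (x ^ 22) N)
    rw [List.countP_eq_length.2 fun x hx => Nat.blt_eq.mpr
      ((Nat.pow_le_pow_left (Nat.lt_succ_iff.1 (List.mem_range.1 hx)) 22).trans_lt h),
      List.length_range] at a2
    rw [parP] at hP
    omega
  have hpad : (N + 3) ^ parE N ≤ 2 ^ pare N := by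
    rw [pare, mul_comm, pow_mul]
    exact Nat.pow_le_pow_left (Nat.lt_size_self _).le _
  have p21 : 0 < P ^ 21 := pow_pos (by omega) _
  have hE : parE N = 2 ^ 30 * (Nat.size N * P ^ 21) + 2 ^ 30 * P ^ 21 := by rw [parE, ← hP]; ring
  obtain ⟨L, h1, h2⟩ := complete (W := W) (P := P) (s := 2 ^ 25 * P ^ 21) hpad (by omega)
    ((Nat.lt_size_self N).trans_le (Nat.pow_le_pow_right (by omega) (by omega)))
    (Nat.mul_le_mul_left _ (Nat.pow_le_pow_right (by omega) (by omega))) (by omega) _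
    (Nat.size N) 1 J m le_rfl hm hk one_pos (by rw [one_mul]; exact Nat.lt_size_self N)
    fun _ _ => one_dvd _
  refine solve_opt hpad (h1.mono (Nat.le_of_mul_le_mul_left (h2.trans ?_) (by omega : 0 < P)))
  have hA := card_fs_le (N := N) J.1
  have b1 := Nat.mul_le_mul (hA.trans hN) (Nat.size_le_size hA)
  have b2 : #(fs N J.1) / (2 ^ 25 * P ^ 21) ≤ P := Nat.div_le_of_le_mul (by
    rw [show 2 ^ 25 * P ^ 21 * P = 2 ^ 25 * P ^ 22 by ring]
    omega)
  have b3 := Nat.mul_le_mul_left P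
    (Nat.mul_le_mul_left ((Nat.size N + 1) * (2 ^ 29 * P ^ 20)) b2)
  have b4 := Nat.mul_le_mul_left P p21
  rw [show P * ((Nat.size N + 1) * (2 ^ 29 * P ^ 20) * P) =
    2 ^ 29 * (P ^ 22 * Nat.size N) + 2 ^ 29 * (P * P ^ 21) by ring] at b3
  rw [hE, show P * (2 ^ 30 * (Nat.size N * P ^ 21) + 2 ^ 30 * P ^ 21) =
    2 ^ 30 * (P ^ 22 * Nat.size N) + 2 ^ 30 * (P * P ^ 21) by ring]
  omega

end Pool.Agent.Lib.MP_be0860_lc.Sx
end

-- part Pool.Agent.Lib.MP_be0860_lc.Sx.Top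
section

/-!
Correctness of the algorithm on instances of the problem.
-/

set_option autoImplicit false

namespace Pool.Agent.Lib.MP_be0860_lc.Sx

open Pool.Agent.Shared.PolyTime Finset

theorem top_fs (n : ℕ) : fs n (mkV n fun _ => true) = range n :=
  Finset.ext fun a => by rw [mem_fs_mkV, mem_range, and_iff_left rfl]

theorem top_mem {β : Type} {n i j : ℕ} (hi : i < n) (hj : j < n) (f : ℕ → ℕ → β) :
    f i j ∈ (List.range n).flatMap fun i => (List.range n).map fun j => f i j :=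
  List.mem_flatMap.2 ⟨i, List.mem_range.2 hi, List.mem_map.2 ⟨j, List.mem_range.2 hj, rfl⟩⟩

theorem top_den (I : QInst) (n : ℕ) : 0 < denT n I.dat.2.2.2 := by
  refine List.prod_pos fun x hx => ?_
  simp only [List.mem_map, List.mem_flatMap, cell_dat] at hx
  obtain ⟨_, ⟨i, -, j, -, rfl⟩, rfl⟩ := hx
  exact Rat.den_pos _

theorem top_cost (I : QInst) {n a : ℕ} {x : ℕ × Bool} (ha : a < n) (hx : x.1 < n) :
    (cs (costT n I.dat.2.2.2) a x : ℚ) = offT n I.dat.2.2.2 -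
      if x.2 = true then denT n I.dat.2.2.2 * I.om a x.1 else 0 := by
  have h1 : absT n I.dat.2.2.2 a x.1 ≤ offT n I.dat.2.2.2 :=
    List.le_sum_of_mem (List.mem_map.2
      ⟨_, top_mem ha hx fun i j => (⟨absT n I.dat.2.2.2 i j⟩ : Big), rfl⟩)
  have h2 : (I.om a x.1).den ∣ denT n I.dat.2.2.2 := List.dvd_prod (List.mem_map.2
    ⟨_, top_mem ha hx fun i j => (cell I.dat.2.2.2 i j).2.2.2, by rw [cell_dat]; rfl⟩)
  have h3 : (absT n I.dat.2.2.2 a x.1 : ℚ) = denT n I.dat.2.2.2 * |I.om a x.1| := by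
    rw [absT, cell_dat]
    change (((I.om a x.1).num.natAbs * (_ / (I.om a x.1).den) : ℕ) : ℚ) = _
    rw [Nat.cast_mul, Nat.cast_div h2 (Nat.cast_ne_zero.2 (Rat.den_nz _)), Nat.cast_natAbs,
      Int.cast_abs, ← Rat.mul_den_eq_num, abs_mul, Nat.abs_cast]
    field_simp
  rw [costT, cs_mkC _ ha hx, cell_dat]
  rcases hc : x.2 with _ | _
  · simp
  by_cases hq : I.om a x.1 < 0
  · simp only [MP_be0860_lc.tri, hq, decide_true, cond_true, Nat.cast_add, h3, abs_of_neg hq, if_true]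
    ring
  · simp only [MP_be0860_lc.tri, hq, decide_false, cond_true, cond_false, Nat.cast_sub h1, h3,
      abs_of_nonneg (not_lt.1 hq), if_true]

/-- the matching `m` is given by the permutation `s` and the set `R` of red edges -/
def Rp {n : ℕ} (m : Mt) (s : Fin n ≃ Fin n) (R : Finset (Fin n)) : Prop :=
  ∀ x : Fin n, m x = ((s x : ℕ), decide (x ∈ R))

theorem top_ex {n : ℕ} (s : Fin n ≃ Fin n) (R : Finset (Fin n)) : ∃ m, Rp m s R :=
  ⟨fun a => if h : a < n then (s ⟨a, h⟩, decide (⟨a, h⟩ ∈ R)) else (0, false),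
    fun x => dif_pos x.2⟩

theorem top_of {n : ℕ} {E : Er} {m : Mt} (h : PM (range n) (range n) E m) : ∃ s R, @Rp n m s R := by
  have hl : ∀ x : Fin n, (m x).1 < n := fun x => mem_range.1 (h.mem (mem_range.2 x.2))
  have inj : Function.Injective fun x : Fin n => (⟨(m x).1, hl x⟩ : Fin n) := fun x y e =>
    Fin.ext (h.2.injOn (by simp) (by simp) (congrArg Fin.val e))
  refine ⟨Equiv.ofBijective _ inj.bijective_of_finite, univ.filter fun x => (m x).2 = true,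
    fun x => Prod.ext rfl (by simp)⟩

theorem Rp.bij {n : ℕ} {m : Mt} {s : Fin n ≃ Fin n} {R : Finset (Fin n)} (h : Rp m s R) :
    Set.BijOn (fun a => (m a).1) (range n : Finset ℕ) (range n : Finset ℕ) := by
  have e : ∀ a (ha : a < n), (m a).1 = s ⟨a, ha⟩ := fun a ha => congrArg Prod.fst (h ⟨a, ha⟩)
  simp only [coe_range]
  refine ⟨fun a ha => ?_, fun a ha b hb hab => ?_, fun b hb => ?_⟩
  · exact (e a ha).trans_lt (Fin.is_lt _)
  · exact congrArg Fin.val (s.injective (Fin.ext ((e a ha).symm.trans (hab.trans (e b hb)))))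
  · exact ⟨s.symm ⟨b, hb⟩, Fin.is_lt _, (e _ (Fin.is_lt _)).trans (by simp)⟩

theorem Rp.lab {n : ℕ} {m : Mt} {s : Fin n ≃ Fin n} {R : Finset (Fin n)} (h : Rp m s R) :
    lab (range n) m = R.card := by
  rw [Sx.lab, val, sum_range, card_eq_sum_ones, ← Finset.sum_ite_mem_eq R]
  refine sum_congr rfl fun x _ => ?_
  rw [h x, lc]
  by_cases hx : x ∈ R <;> simp [hx]

theorem outT_correct (I : QInst) (t : Tb)
    (h : ∀ m, PM (fs I.a (instT I.dat).1) (fs I.a (instT I.dat).2.1) (er (instT I.dat).2.2.1) m →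
      lab (fs I.a (instT I.dat).1) m = I.k →
      Opt (fs I.a (instT I.dat).1) (fs I.a (instT I.dat).2.1) (er (instT I.dat).2.2.1) I.k
        (cs (costT I.a I.dat.2.2.2)) (gt t)) : I.Correct (outT I.dat t) := by
  by_cases hab : I.a = I.b
  swap
  · have : (outT I.dat t).1 = false := by simp [outT, QInst.dat, hab]
    unfold QInst.Correct
    rw [this]
    refine ⟨⟨fun h => absurd h (by simp), fun ⟨P, hP⟩ => ?_⟩, fun h => absurd h (by simp)⟩
    obtain ⟨s, -⟩ := qperfect_perm hP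
    exact absurd (by simpa using Fintype.card_congr s) hab
  obtain ⟨n, b, adj, w, k, hk⟩ := I
  obtain rfl : n = b := hab
  set I : QInst := ⟨n, n, adj, w, k, hk⟩ with hI
  set E : Er := er (instT I.dat).2.2.1 with hE
  have fl : (outT I.dat t).1 = true ↔
      PM (range n) (range n) E (gt t) ∧ lab (range n) (gt t) = k := by
    rw [← top_fs n]
    exact Iff.trans (by simp [outT, hI, QInst.dat]) (feas_iff (N := n) (instT I.dat) t)
  replace h : ∀ m, PM (range n) (range n) E m → lab (range n) m = k →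
      Opt (range n) (range n) E k (cs (costT n I.dat.2.2.2)) (gt t) := by
    rw [← top_fs n]
    exact h
  have pm : ∀ {m s R}, @Rp n m s R → (PM (range n) (range n) E m ↔ ∀ x, adj x (s x) = true) := by
    intro m s R r
    have e : ∀ x : Fin n, E x (m x) ↔ adj x (s x) = true := fun x => by
      refine (er_mkE (N := n) (fun a y => (cell I.dat.2.2.2 a y.1).1) _ _).trans ?_
      rw [cell_dat, r x]
      simp [QInst.A, hI]
      rfl
    exact ⟨fun p x => (e x).1 (p.1 x (mem_range.2 x.2)),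
      fun p => ⟨fun a ha => (e ⟨a, mem_range.1 ha⟩).2 (p _), r.bij⟩⟩
  have vl : ∀ {m s R}, @Rp n m s R → (val (cs (costT n I.dat.2.2.2)) (range n) m : ℚ) =
      n * offT n I.dat.2.2.2 - denT n I.dat.2.2.2 * ∑ x ∈ R, w x (s x) := by
    intro m s R r
    rw [val, sum_range, Nat.cast_sum, sum_congr rfl fun x _ =>
      top_cost I x.2 (by rw [r x]; exact Fin.is_lt _), sum_sub_distrib, mul_sum,
      ← Finset.sum_ite_mem_eq R]
    congr 1
    · simp
    · exact sum_congr rfl fun x _ => by simp [r x, QInst.om, hI]; rfl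
  refine ⟨fl.trans ⟨fun p => ?_, fun ⟨P, hP⟩ => ?_⟩, fun f => ?_⟩
  · obtain ⟨s, R, r⟩ := top_of p.1
    exact ⟨_, qperm_perfect (I := I) s ((pm r).1 p.1)⟩
  · obtain ⟨s, hs⟩ := qperfect_perm hP
    obtain ⟨R, -, hR⟩ := exists_subset_card_eq (s := (univ : Finset (Fin n))) (n := k)
      (by simp; omega)
    obtain ⟨m, r⟩ := top_ex s R
    have := h m ((pm r).2 fun x => hP.1 (x, s x) ((hs _).2 rfl)) (r.lab.trans hR)
    exact ⟨this.1, this.2.1⟩
  obtain ⟨p, l⟩ := fl.1 f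
  obtain ⟨s, R, r⟩ := top_of p
  refine ⟨R.image fun x => (x, s x), (feasible_iff (I := I)).2
    ⟨s, R, (pm r).1 p, r.lab.symm.trans l, rfl⟩, ?_, fun M' hM' => ?_⟩
  · ext ⟨a, b⟩
    change _ ∈ (((List.range n).filter fun a => (gt t a).2).map fun a => (a, (gt t a).1)).toFinset
      ↔ _
    simp only [List.mem_toFinset, List.mem_map, List.mem_filter, List.mem_range, image_image,
      mem_image, Function.comp_apply]
    constructor
    · rintro ⟨c, ⟨hc, h2⟩, e⟩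
      have := r ⟨c, hc⟩
      rw [this] at h2 e
      exact ⟨⟨c, hc⟩, of_decide_eq_true h2, e⟩
    · rintro ⟨x, hx, e⟩
      exact ⟨x, ⟨x.2, by rw [r x]; exact decide_eq_true hx⟩, by rw [r x]; exact e⟩
  obtain ⟨s', R', h1, h2, rfl⟩ := (feasible_iff (I := I)).1 hM'
  obtain ⟨m', r'⟩ := top_ex s' R'
  have le : (val (cs (costT n I.dat.2.2.2)) (range n) (gt t) : ℚ) ≤
      val (cs (costT n I.dat.2.2.2)) (range n) m' :=
    Nat.cast_le.2 ((h _ p l).2.2 m' ((pm r').2 h1) (r'.lab.trans h2))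
  rw [vl r, vl r', sub_le_sub_iff_left] at le
  rw [weight_image, weight_image (I := I)]
  exact le_of_mul_le_mul_left le (Nat.cast_pos.2 (top_den I n))

theorem algT_correct (I : QInst) : I.Correct (algT (2 ^ pare I.a, I.dat)) :=
  outT_correct I _ fun _ hm hk => solve_spec (J := instT I.dat) hm hk

end Pool.Agent.Lib.MP_be0860_lc.Sx
end

-- part Pool.Agent.Lib.MP_be0860_lc.Sx.Final
section

/-!
The subexponential algorithm.
-/

set_option autoImplicit false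

namespace Pool.Agent.Lib.MP_be0860_lc.Sx

open Pool.Agent.Shared.PolyTime Turing Enc

theorem subexp : ∃ (f : QInst → Bool × List (ℕ × ℕ)) (tm : TM2ComputableAux Bool Bool) (C : ℕ),
    ∀ I : QInst, I.Correct (f I) ∧ ∃ t : ℕ,
      (t : ℝ) ≤ 2 ^ (C * ((I.a + I.b : ℕ) : ℝ) ^ (22 / 23 : ℝ)) * ((I.code.length : ℝ) + 1) ^ C ∧
      Nonempty (TM2OutputsInTime tm.tm (List.map tm.inputAlphabet.invFun I.code)
        (some (List.map tm.outputAlphabet.invFun (qOutCode (f I)))) t) := by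
  obtain ⟨tm, p, h⟩ := tm2_padded (e := fun x : Dat => pare x.1) (pf_pare.comp (by fun_prop))
    pf_algT
  obtain ⟨C, hC⟩ := time_le p
  refine ⟨fun I => algT (2 ^ pare I.a, I.dat), tm, C, fun I => ⟨algT_correct I,
    p.eval (2 ^ pare I.a + I.code.length), ?_, ?_⟩⟩
  · exact hC I.a (I.a + I.b) I.code.length (Nat.le_add_right _ _) (by simp [QInst.code, encPair])
  · rw [qcode_eq]
    exact h I.dat

end Pool.Agent.Lib.MP_be0860_lc.Sx
end
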