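import Pool.Agent.Lib.MP_be0860_lc.QAlg

-- part Pool.Agent.Lib.MP_be0860_lc.Sx.Defs
section

/-!
A subexponential exact algorithm for labelled perfect matchings of minimum cost: definitions.
-/

set_option autoImplicit false

namespace Pool.Agent.Lib.MP_be0860_lc.Sx

open Pool.Agent.Shared.PolyTime Finset

/-! Matchings as functions -/

/-- A choice of a partner and of a colour for each vertex. -/
abbrev Mt : Type := ℕ → ℕ × Bool

/-- Sets of coloured edges. -/
abbrev Er : Type := ℕ → ℕ × Bool → Prop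

/-- Costs of coloured edges. -/
abbrev Co : Type := ℕ → ℕ × Bool → ℕ

/-- `m` is a perfect matching between `A` and `B` with edges in `E`. -/
def PM (A B : Finset ℕ) (E : Er) (m : Mt) : Prop :=
  (∀ a ∈ A, E a (m a)) ∧ Set.BijOn (fun a => (m a).1) (A : Set ℕ) (B : Set ℕ)

/-- The total cost. -/
def val (c : Co) (A : Finset ℕ) (m : Mt) : ℕ := ∑ a ∈ A, c a (m a)

/-- The cost that counts red edges. -/
def lc : Co := fun _ x => x.2.toNat

/-- The number of red edges. -/
def lab (A : Finset ℕ) (m : Mt) : ℕ := val lc A m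

/-- A perfect matching of minimum cost. -/
def MinC (A B : Finset ℕ) (E : Er) (c : Co) (m : Mt) : Prop :=
  PM A B E m ∧ ∀ m', PM A B E m' → val c A m ≤ val c A m'

/-- A perfect matching with `k` red edges of minimum cost. -/
def Opt (A B : Finset ℕ) (E : Er) (k : ℕ) (c : Co) (m : Mt) : Prop :=
  PM A B E m ∧ lab A m = k ∧ ∀ m', PM A B E m' → lab A m' = k → val c A m ≤ val c A m'

/-- All perfect matchings have `k` red edges modulo `q`. -/
def Lev (q : ℕ) (A B : Finset ℕ) (E : Er) (k : ℕ) : Prop :=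
  ∀ m, PM A B E m → (q : ℤ) ∣ (lab A m : ℤ) - k

/-- The arcs of `l` are arcs of the exchange digraph of `m` on `A`. -/
def Wk (A : Finset ℕ) (E : Er) (m : Mt) (l : Arcs) : Prop :=
  ∀ p ∈ l, p.1 ∈ A ∧ p.2.1 ∈ A ∧ E p.1 ((m p.2.1).1, p.2.2)

/-- The change of cost along a list of arcs. -/
def gain (c : Co) (m : Mt) (l : Arcs) : ℤ :=
  (l.map fun p => (c p.1 ((m p.2.1).1, p.2.2) : ℤ) - c p.1 (m p.1)).sum

/-- The partners of a set of vertices. -/
def img (m : Mt) (S : Finset ℕ) : Finset ℕ := S.image fun a => (m a).1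

/-- Adjacency, forgetting colours. -/
def adj (E : Er) (a b : ℕ) : Prop := ∃ c, E a (b, c)

open Classical in
/-- Neighbours in `B` of a set `X`. -/
noncomputable def nb (B : Finset ℕ) (r : ℕ → ℕ → Prop) (X : Finset ℕ) : Finset ℕ :=
  B.filter fun b => ∃ a ∈ X, r a b

/-- Sets of moderate size expand by the factor `1 + 1 / P`. -/
def Exp1 (A B : Finset ℕ) (r : ℕ → ℕ → Prop) (P D : ℕ) : Prop :=
  ∀ X ⊆ A, D ≤ #X → 3 * #X ≤ 2 * #A → (P + 1) * #X < P * #(nb B r X)

/-- Expansion on both sides. -/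
def Exp (A B : Finset ℕ) (E : Er) (P D : ℕ) : Prop :=
  Exp1 A B (adj E) P D ∧ Exp1 B A (fun b a => adj E a b) P D

open Classical in
/-- A mixture of two matchings: `m₂` on the orbits of `σ` that meet `[0, j)` and on the first
`len` points of the orbit of `y`, and `m₁` elsewhere. -/
noncomputable def base (σ : ℕ → ℕ) (m₁ m₂ : Mt) (j y len : ℕ) : Mt := fun a =>
  if (∃ i, σ^[i] a < j) ∨ ∃ i < len, σ^[i] y = a then m₂ a else m₁ a

/-- Arcs of the exchange digraph of `m` on `A`. -/
def arcR (A : Finset ℕ) (E : Er) (m : Mt) (u v : ℕ) : Prop := u ∈ A ∧ v ∈ A ∧ adj E u (m v).1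

open Classical in
/-- The vertices reachable from `a`. -/
noncomputable def rch (N : ℕ) (r : ℕ → ℕ → Prop) (a : ℕ) : Finset ℕ :=
  (range N).filter fun v => Relation.ReflTransGen r a v

open Classical in
/-- A chain of closed sets. -/
noncomputable def cl (N : ℕ) (A : Finset ℕ) (r : ℕ → ℕ → Prop) (θ : ℕ) : Finset ℕ :=
  (range N).filter fun x => ∃ a ∈ A, #(rch N r a) * N + a < θ ∧ x ∈ rch N r a

/-- The edges of `E` that cost at most as much as a given one. -/
def thr (E : Er) (cb : Co) (a₀ : ℕ) (x₀ : ℕ × Bool) : Er := fun a x => E a x ∧ cb a x ≤ cb a₀ x₀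

/-! Tables -/

/-- vertex sets -/
abbrev Vs : Type := List Bool

/-- edge sets -/
abbrev Es : Type := List (List (Bool × Bool))

/-- matchings -/
abbrev Tb : Type := List (ℕ × Bool)

/-- costs -/
abbrev Cs : Type := List (List (Big × Big))

/-- instances -/
abbrev Jn : Type := Vs × Vs × Es × ℕ

/-- membership -/
def vs (A : Vs) (a : ℕ) : Bool := A.getD a false

/-- table of a vertex set -/
def mkV (N : ℕ) (f : ℕ → Bool) : Vs := (List.range N).map f

/-- membership of an edge -/
def ed (E : Es) (a : ℕ) (x : ℕ × Bool) : Bool :=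
  cond x.2 ((E.getD a []).getD x.1 (false, false)).2 ((E.getD a []).getD x.1 (false, false)).1

/-- table of an edge set -/
def mkE (N : ℕ) (f : ℕ → ℕ × Bool → Bool) : Es :=
  (List.range N).map fun a => (List.range N).map fun b => (f a (b, false), f a (b, true))

/-- lookup in a matching -/
def gt (t : Tb) (a : ℕ) : ℕ × Bool := t.getD a (0, false)

/-- table of a matching -/
def mkT (N : ℕ) (f : Mt) : Tb := (List.range N).map fun a => (min (f a).1 N, (f a).2)

/-- lookup of a cost -/
def cs (W : Cs) (a : ℕ) (x : ℕ × Bool) : ℕ :=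
  cond x.2 ((W.getD a []).getD x.1 (⟨0⟩, ⟨0⟩)).2.val ((W.getD a []).getD x.1 (⟨0⟩, ⟨0⟩)).1.val

/-- table of costs -/
def mkC (N : ℕ) (f : Co) : Cs :=
  (List.range N).map fun a => (List.range N).map fun b => (⟨f a (b, false)⟩, ⟨f a (b, true)⟩)

/-- the set given by a table -/
def fs (N : ℕ) (A : Vs) : Finset ℕ := (range N).filter fun a => vs A a = true

/-- the edge set given by a table -/
def er (E : Es) : Er := fun a x => ed E a x = true

/-- the cost of a matching -/
def valT (N : ℕ) (W : Cs) (A : Vs) (t : Tb) : ℕ :=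
  sumBig ((List.range N).map fun a => ⟨cond (vs A a) (cs W a (gt t a)) 0⟩)

/-- the number of red edges of a matching -/
def labT (N : ℕ) (A : Vs) (t : Tb) : ℕ := (List.range N).countP fun a => vs A a && (gt t a).2

/-- the sum of all costs -/
def tot (N : ℕ) (W : Cs) : ℕ :=
  sumBig ((List.range N).flatMap fun a => (List.range N).map fun b =>
    ⟨cs W a (b, false) + cs W a (b, true)⟩)

/-- a number larger than the cost of every matching -/
def bigK (N : ℕ) (W : Cs) : ℕ := N * tot N W + 1

/-- Scan a list and keep the better element. -/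
def pick {β : Type} (p : β → β → Bool) (l : List β) (i : β) : β :=
  l.foldl (fun b c => cond (p c b) c b) i

/-! Minimum cost perfect matchings -/

/-- shifted cost of a walk -/
def wc (W : Cs) (K : ℕ) (t : Tb) (l : Arcs) : ℕ :=
  sumBig (l.map fun p => ⟨cs W p.1 ((gt t p.2.1).1, p.2.2) + K - cs W p.1 (gt t p.1)⟩)

/-- lookup of a walk -/
def wk (T : List (List Arcs)) (s v : ℕ) : Arcs := (T.getD s []).getD v []

/-- cheapest walks with one arc -/
def lay1 (N : ℕ) (W : Cs) (K : ℕ) (t : Tb) : List (List Arcs) :=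
  tab N fun s v => pick (fun c b => bblt (wc W K t c) (wc W K t b)) [[(s, v, true)]] [(s, v, false)]

/-- cheapest walks with one more arc -/
def layS (N : ℕ) (W : Cs) (K : ℕ) (t : Tb) (T : List (List Arcs)) : List (List Arcs) :=
  tab N fun s v => pick (fun c b => bblt (wc W K t c) (wc W K t b))
    ((List.range N).flatMap fun u => [(s, u, false) :: wk T u v, (s, u, true) :: wk T u v])
    ((s, v, false) :: wk T v v)

/-- cheapest walks with `i + 1` arcs -/
def lay (N : ℕ) (W : Cs) (K : ℕ) (t : Tb) (i : ℕ) : List (List Arcs) :=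
  (layS N W K t)^[i] (lay1 N W K t)

/-- a simple closed walk of negative cost, if there is one -/
def findC (N : ℕ) (W : Cs) (K : ℕ) (t : Tb) : Arcs :=
  (((List.range N).flatMap fun i => (List.range N).map fun s => wk (lay N W K t i) s s).filter
    fun l => bblt (wc W K t l) (l.length * K) && simple l).headD []

/-- the arc of a walk leaving `a` -/
def arcAt (t : Tb) (l : Arcs) (a : ℕ) : ℕ × ℕ × Bool :=
  (l.filter fun p => p.1 == a).headD (a, a, (gt t a).2)

/-- exchange along a closed walk -/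
def rotT (N : ℕ) (t : Tb) (l : Arcs) : Tb :=
  mkT N fun a => ((gt t (arcAt t l a).2.1).1, (arcAt t l a).2.2)

/-- one improvement -/
def improve (N : ℕ) (W : Cs) (t : Tb) : Tb := rotT N t (findC N W (tot N W) t)

/-- costs with the last `i` bits removed -/
def scaleC (N : ℕ) (W : Cs) (i : ℕ) : Cs := mkC N fun a x => cs W a x / 2 ^ i

/-- minimum cost perfect matching of the complete graph, by scaling -/
def mcF (N : ℕ) (W : Cs) : Tb :=
  ((List.range (Nat.size (tot N W))).reverse.flatMap fun i => List.replicate N i).foldl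
    (fun t i => improve N (scaleC N W i) t) (mkT N fun a => (a, false))

/-- costs on the complete graph -/
def ext (N : ℕ) (J : Jn) (W : Cs) : Cs := mkC N fun a x =>
  cond (vs J.1 a) (cond (vs J.2.1 x.1 && ed J.2.2.1 a x) (cs W a x) (bigK N W))
    (cond (vs J.2.1 x.1) (bigK N W) 0)

/-- minimum cost perfect matching of an instance -/
def mc (N : ℕ) (J : Jn) (W : Cs) : Tb := mcF N (ext N J W)

/-- lookup of a price -/
def pv (P : List Big) (b : ℕ) : ℕ := (P.getD b ⟨0⟩).val

/-- one round of raising prices -/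
def priceS (N : ℕ) (W : Cs) (t : Tb) (P : List Big) : List Big :=
  (List.range N).map fun b => pick (fun c d : Big => bblt d.val c.val)
    ((List.range N).flatMap fun u =>
      [⟨pv P (gt t u).1 + cs W u (gt t u) - cs W u (b, false)⟩,
        ⟨pv P (gt t u).1 + cs W u (gt t u) - cs W u (b, true)⟩]) ⟨pv P b⟩

/-- dual prices -/
def price (N : ℕ) (W : Cs) (t : Tb) : List Big := (priceS N W t)^[N] []

/-- reduced costs for given prices -/
def redP (N : ℕ) (W : Cs) (t : Tb) (P : List Big) : Cs := mkC N fun a x =>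
  cs W a x + pv P x.1 - (cs W a (gt t a) + pv P (gt t a).1)

/-- reduced costs of an instance -/
def redC (N : ℕ) (J : Jn) (W : Cs) : Cs :=
  redP N (ext N J W) (mc N J W) (price N (ext N J W) (mc N J W))

/-! The Lagrangian relaxation -/

/-- costs with the slope given by two matchings -/
def lagr (N : ℕ) (J : Jn) (W : Cs) (s : Tb × Tb) : Cs := mkC N fun a x =>
  (labT N J.1 s.2 - labT N J.1 s.1) * cs W a x +
    cond x.2 (valT N W J.1 s.1 - valT N W J.1 s.2) (valT N W J.1 s.2 - valT N W J.1 s.1)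

/-- replace one of two matchings by a better one -/
def newtU (N : ℕ) (J : Jn) (W' : Cs) (s : Tb × Tb) (t : Tb) : Tb × Tb :=
  cond (bblt (valT N W' J.1 t) (valT N W' J.1 s.1))
    (cond (Nat.ble (labT N J.1 t) J.2.2.2) (t, s.2) (s.1, t)) s

/-- one step of the search for the slope -/
def newtS (N : ℕ) (J : Jn) (W : Cs) (s : Tb × Tb) : Tb × Tb :=
  newtU N J (lagr N J W s) s (mc N J (lagr N J W s))

/-- costs with a large penalty on one colour -/
def pen (N : ℕ) (W : Cs) (c : Bool) : Cs :=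
  mkC N fun a x => cs W a x + cond (x.2 == c) (bigK N W) 0

/-- the two matchings at the optimal slope -/
def newt (N : ℕ) (J : Jn) (W : Cs) : Tb × Tb :=
  (newtS N J W)^[N] (mc N J (pen N W true), mc N J (pen N W false))

/-- the permutation comparing two matchings -/
def sig (N : ℕ) (A : Vs) (s : Tb × Tb) : List ℕ := (List.range N).map fun a =>
  ((List.range N).filter fun a' => vs A a' && (gt s.1 a').1 == (gt s.2 a).1).headD 0

/-- iterates of a tabulated map -/
def itS (g : List ℕ) (i a : ℕ) : ℕ := (fun x => g.getD x 0)^[i] a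

/-- the mixture of two matchings -/
def baseT (N : ℕ) (g : List ℕ) (s : Tb × Tb) (j y len : ℕ) : Tb := mkT N fun a =>
  cond (((List.range N).any fun i => Nat.blt (itS g i a) j) ||
    (List.range len).any fun i => itS g i y == a) (gt s.2 a) (gt s.1 a)

/-! Guessing -/

/-- a list of `n` edges read from a string -/
def edgesOf (g : List ℕ) (n : ℕ) : Arcs :=
  (List.range n).map fun i => (g.getD (3 * i) 0, g.getD (3 * i + 1) 0, g.getD (3 * i + 2) 0 == 1)

/-- overwrite a matching by a list of edges -/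
def ovw (N : ℕ) (F : Arcs) (t : Tb) : Tb :=
  mkT N fun a => ((F.filter fun p => p.1 == a).headD (a, gt t a)).2

/-- feasibility test -/
def feas (N : ℕ) (J : Jn) (t : Tb) : Bool :=
  ((List.range N).all fun a => !vs J.1 a ||
    (ed J.2.2.1 a (gt t a) && Nat.blt (gt t a).1 N && vs J.2.1 (gt t a).1 &&
      (List.range N).all fun a' => !vs J.1 a' || !((gt t a').1 == (gt t a).1) || a' == a)) &&
  ((List.range N).all fun b => !vs J.2.1 b ||
    (List.range N).any fun a => vs J.1 a && (gt t a).1 == b) &&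
  labT N J.1 t == J.2.2.2

/-- cost of a candidate -/
def keyT (N : ℕ) (W : Cs) (J : Jn) (t : Tb) : ℕ := cond (feas N J t) (valT N W J.1 t) (bigK N W)

/-- the best of a list of candidates -/
def best (N : ℕ) (W : Cs) (J : Jn) (l : List Tb) : Tb :=
  pick (fun c b => bblt (keyT N W J c) (keyT N W J b)) l []

/-- the first `E` digits of `i` in base `b` -/
def dig (b E i : ℕ) : List ℕ := (List.range E).map fun t => (fun x => x / b)^[t] i % b

/-- a candidate close to a mixture -/
def dcand (N : ℕ) (g₀ : List ℕ) (s : Tb × Tb) (g : List ℕ) : Tb :=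
  ovw N (edgesOf (g.drop 4) (g.getD 3 0)) (baseT N g₀ s (g.getD 0 0) (g.getD 1 0) (g.getD 2 0))

/-- the best candidate close to a mixture -/
def leaf (N : ℕ) (W : Cs) (pad E : ℕ) (J : Jn) : Tb :=
  best N W J ((List.range pad).map fun i =>
    dcand N (sig N J.1 (newt N J W)) (newt N J W) (dig (N + 3) E i))

/-- the cost function used for a cut -/
def selC (N : ℕ) (J : Jn) (W : Cs) (sel : ℕ) : Cs :=
  cond (sel == 0) (lagr N J W (newt N J W)) (mkC N fun _ x => cond (x.2 == (sel == 1)) 1 0)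

/-- edges of small reduced cost -/
def thrT (N : ℕ) (E : Es) (R : Cs) (a₀ : ℕ) (x₀ : ℕ × Bool) : Es :=
  mkE N fun a x => ed E a x && bble (cs R a x) (cs R a₀ x₀)

/-- arcs of the exchange digraph -/
def arcT (N : ℕ) (A : Vs) (H : Es) (t : Tb) : List (List Bool) := tab N fun u v =>
  vs A u && vs A v && (ed H u ((gt t v).1, false) || ed H u ((gt t v).1, true))

/-- one round of a search -/
def reachS (N : ℕ) (R : List (List Bool)) (S : Vs) : Vs :=
  mkV N fun v => vs S v || (List.range N).any fun u => vs S u && entry R u v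

/-- reachable vertices -/
def reach (N : ℕ) (R : List (List Bool)) (a : ℕ) : Vs := (reachS N R)^[N] (mkV N fun v => v == a)

/-- a member of the chain of closed sets -/
def clT (N : ℕ) (A : Vs) (R : List (List Bool)) (θ : ℕ) : Vs := mkV N fun x =>
  (List.range N).any fun a => vs A a &&
    Nat.blt ((List.range N).countP (fun v => vs (reach N R a) v) * N + a) θ && vs (reach N R a) x

/-- the partners of a set -/
def imgT (N : ℕ) (t : Tb) (S : Vs) : Vs :=
  mkV N fun b => (List.range N).any fun a => vs S a && (gt t a).1 == b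

/-- the two parts of an instance -/
def parts (N : ℕ) (J : Jn) (X Y : Vs) (E : Es) (F : Arcs) (k₁ k₂ : ℕ) : Jn × Jn :=
  ((mkV N fun a => vs J.1 a && vs X a && !F.any fun p => p.1 == a,
    mkV N fun b => vs J.2.1 b && vs Y b && !F.any fun p => p.2.1 == b,
    mkE N fun a x => ed E a x, min k₁ N),
   (mkV N fun a => vs J.1 a && !vs X a && !F.any fun p => p.1 == a,
    mkV N fun b => vs J.2.1 b && !vs Y b && !F.any fun p => p.2.1 == b,
    mkE N fun a x => ed E a x, min k₂ N))

/-- the first part on the left side -/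
def cutX (N : ℕ) (A : Vs) (H : Es) (t : Tb) (Z : List ℕ) (θ : ℕ) : Vs :=
  clT N (mkV N fun a => vs A a && !Z.contains a)
    (arcT N (mkV N fun a => vs A a && !Z.contains a) H t) θ

/-- a cut for given cheap edges `H` and matching `t` -/
def cutH (N : ℕ) (J : Jn) (H : Es) (t : Tb) (keep : Bool) (Z : List ℕ) (θ : ℕ) (F : Arcs)
    (k₁ k₂ : ℕ) : Jn × Jn :=
  parts N J (cutX N J.1 H t Z θ)
    (imgT N t (mkV N fun a => vs (cutX N J.1 H t Z θ) a || (vs J.1 a && Z.contains a)))
    (cond keep J.2.2.1 H) F k₁ k₂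

/-- the forced edges of a command -/
def cmdF (g : List ℕ) : Arcs := edgesOf (g.drop (11 + g.getD 9 0)) (g.getD 10 0)

/-- a cut read from a string -/
def cut (N : ℕ) (W : Cs) (J : Jn) (g : List ℕ) : Jn × Jn :=
  cutH N J (thrT N J.2.2.1 (redC N J (selC N J W (g.getD 1 0))) (g.getD 2 0)
      (g.getD 3 0, g.getD 4 0 == 1))
    (mc N J (selC N J W (g.getD 1 0))) (g.getD 0 0 == 1) ((g.drop 11).take (g.getD 9 0))
    (g.getD 5 0 * N + g.getD 6 0) (cmdF g) (g.getD 7 0) (g.getD 8 0)

/-- states: a stack of instances, the matching built so far, the rest of the string -/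
abbrev Sn : Type := List Jn × Tb × List ℕ

/-- the top of the stack -/
def top (s : Sn) : Jn := s.1.headD ([], [], [], 0)

/-- one command -/
def step (N : ℕ) (W : Cs) (pad E : ℕ) (s : Sn) : Sn :=
  cond s.1.isEmpty s (cond (s.2.2.getD 0 0 == 0)
    (s.1.tail, mkT N fun a => cond (vs (top s).1 a) (gt (leaf N W pad E (top s)) a) (gt s.2.1 a),
      s.2.2.drop 1)
    ((cut N W (top s) s.2.2).1 :: (cut N W (top s) s.2.2).2 :: s.1.tail,
      ovw N (cmdF s.2.2) s.2.1, s.2.2.drop (11 + s.2.2.getD 9 0 + 3 * s.2.2.getD 10 0)))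

/-- the algorithm -/
def solve (N : ℕ) (W : Cs) (pad E : ℕ) (J : Jn) : Tb :=
  best N W J ((List.range pad).map fun i =>
    ((step N W pad E)^[E] ([J], [], dig (N + 3) E i)).2.1)

/-- An instance is solved by a string of length at most `L`. -/
def Solves (N : ℕ) (W : Cs) (pad E : ℕ) (J : Jn) (L : ℕ) : Prop :=
  ∃ g : List ℕ, (∀ x ∈ g, x < N + 3) ∧ g.length ≤ L ∧ ∃ n ≤ g.length,
    ∀ (st : List Jn) (acc : Tb) (g' : List ℕ), ∃ acc' : Tb,
      (step N W pad E)^[n] (J :: st, acc, g ++ g') = (st, acc', g') ∧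
      Opt (fs N J.1) (fs N J.2.1) (er J.2.2.1) J.2.2.2 (cs W) (gt acc') ∧
      ∀ a < N, a ∉ fs N J.1 → (gt acc a).1 ≤ N → gt acc' a = gt acc a

/-! The input -/

/-- product of binary numbers -/
def prodBig (l : List Big) : ℕ := (l.map Big.val).prod

/-- a common denominator -/
def denT (N : ℕ) (T : List (List Cell)) : ℕ :=
  prodBig ((List.range N).flatMap fun i => (List.range N).map fun j => (cell T i j).2.2.2)

/-- absolute values of the scaled weights -/
def absT (N : ℕ) (T : List (List Cell)) (i j : ℕ) : ℕ :=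
  (cell T i j).2.2.1.val * (denT N T / (cell T i j).2.2.2.val)

/-- a bound for the scaled weights -/
def offT (N : ℕ) (T : List (List Cell)) : ℕ :=
  sumBig ((List.range N).flatMap fun i => (List.range N).map fun j => ⟨absT N T i j⟩)

/-- the costs: a red edge is counted, a blue edge is not -/
def costT (N : ℕ) (T : List (List Cell)) : Cs := mkC N fun a x =>
  cond x.2 (cond (cell T a x.1).2.1 (offT N T + absT N T a x.1) (offT N T - absT N T a x.1))
    (offT N T)

/-- the labelled instance -/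
def instT (x : Dat) : Jn :=
  (mkV x.1 fun _ => true, mkV x.1 fun _ => true, mkE x.1 fun a y => (cell x.2.2.2 a y.1).1, x.2.2.1)

/-- the output -/
def outT (x : Dat) (t : Tb) : Bool × List (ℕ × ℕ) :=
  (x.1 == x.2.1 && feas x.1 (instT x) t,
    ((List.range x.1).filter fun a => (gt t a).2).map fun a => (a, (gt t a).1))

/-- the scale parameter -/
def parP (N : ℕ) : ℕ := ((List.range N).countP fun x => Nat.blt (x ^ 22) N) + Nat.size N + 4

/-- the length of the strings -/
def parE (N : ℕ) : ℕ := 2 ^ 30 * (Nat.size N + 1) * parP N ^ 21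

/-- the logarithm of the number of strings -/
def pare (N : ℕ) : ℕ := parE N * Nat.size (N + 3)

/-- the algorithm on typed data, with the number of strings given -/
def algT (y : ℕ × Dat) : Bool × List (ℕ × ℕ) :=
  outT y.2 (solve y.2.1 (costT y.2.1 y.2.2.2.2) y.1 (parE y.2.1) (instT y.2))

end Pool.Agent.Lib.MP_be0860_lc.Sx
end

-- part Pool.Agent.Lib.MP_be0860_lc.Sx.Basic
section

/-!
Perfect matchings as functions: restriction, gluing, exchange along closed walks.
-/

set_option autoImplicit false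

namespace Pool.Agent.Lib.MP_be0860_lc.Sx

open Pool.Agent.Shared.PolyTime Finset

variable {A B : Finset ℕ} {E : Er} {m m' : Mt}

theorem PM.congr (h : PM A B E m) (e : ∀ a ∈ A, m' a = m a) : PM A B E m' := by
  refine ⟨fun a ha => by rw [e a ha]; exact h.1 a ha, h.2.congr fun a ha => ?_⟩
  show (m a).1 = (m' a).1
  rw [e a (Finset.mem_coe.1 ha)]

theorem PM.mono {E' : Er} (h : PM A B E m) (e : ∀ a ∈ A, ∀ x, x.1 ∈ B → E a x → E' a x) :
    PM A B E' m :=
  ⟨fun a ha => e a ha _ (Finset.mem_coe.1 (h.2.mapsTo (Finset.mem_coe.2 ha))) (h.1 a ha), h.2⟩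

theorem PM.mem (h : PM A B E m) {a : ℕ} (ha : a ∈ A) : (m a).1 ∈ B :=
  Finset.mem_coe.1 (h.2.mapsTo (Finset.mem_coe.2 ha))

theorem PM.img_eq (h : PM A B E m) : img m A = B := by
  apply Finset.coe_injective
  unfold img
  rw [Finset.coe_image]
  exact h.2.image_eq

theorem PM.card_img (h : PM A B E m) {S : Finset ℕ} (hS : S ⊆ A) : #(img m S) = #S :=
  Finset.card_image_of_injOn (h.2.injOn.mono (Finset.coe_subset.2 hS))

theorem PM.card_eq (h : PM A B E m) : #A = #B := by
  rw [← h.img_eq, h.card_img (Finset.Subset.refl A)]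

theorem PM.sub (h : PM A B E m) {S : Finset ℕ} (hS : S ⊆ A) : PM S (img m S) E m := by
  refine ⟨fun a ha => h.1 a (hS ha), ?_⟩
  unfold img
  rw [Finset.coe_image]
  exact (h.2.injOn.mono (Finset.coe_subset.2 hS)).bijOn_image

theorem PM.img_sdiff (h : PM A B E m) {S : Finset ℕ} (hS : S ⊆ A) :
    img m (A \ S) = B \ img m S := by
  ext b
  simp only [img, Finset.mem_image, Finset.mem_sdiff, not_exists, not_and]
  constructor
  · rintro ⟨a, ⟨ha, haS⟩, rfl⟩
    refine ⟨h.mem ha, fun x hx e => haS ?_⟩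
    have : x = a := h.2.injOn (Finset.mem_coe.2 (hS hx)) (Finset.mem_coe.2 ha) e
    exact this ▸ hx
  · rintro ⟨hb, hn⟩
    obtain ⟨a, ha, e⟩ := h.2.surjOn (Finset.mem_coe.2 hb)
    exact ⟨a, ⟨Finset.mem_coe.1 ha, fun haS => hn a haS e⟩, e⟩

theorem PM.sdiff (h : PM A B E m) {S : Finset ℕ} (hS : S ⊆ A) :
    PM (A \ S) (B \ img m S) E m := by
  rw [← h.img_sdiff hS]
  exact h.sub Finset.sdiff_subset

theorem PM.glue {A' B' : Finset ℕ} (h : PM A B E m) (h' : PM A' B' E m) (hB : Disjoint B B') :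
    PM (A ∪ A') (B ∪ B') E m := by
  refine ⟨fun a ha => (Finset.mem_union.1 ha).elim (h.1 a) (h'.1 a), ?_⟩
  rw [Finset.coe_union, Finset.coe_union]
  refine h.2.union h'.2 ?_
  rintro a (ha | ha) b (hb | hb) e
  · exact h.2.injOn ha hb e
  · have h1 := h.mem (Finset.mem_coe.1 ha)
    have h2 := h'.mem (Finset.mem_coe.1 hb)
    have e' : (m a).1 = (m b).1 := e
    rw [e'] at h1
    exact absurd h2 (Finset.disjoint_left.1 hB h1)
  · have h1 := h'.mem (Finset.mem_coe.1 ha)
    have h2 := h.mem (Finset.mem_coe.1 hb)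
    have e' : (m a).1 = (m b).1 := e
    rw [e'] at h1
    exact absurd h1 (Finset.disjoint_left.1 hB h2)
  · exact h'.2.injOn ha hb e

/-- Extending a matching of a restricted instance by the forced edges. -/
theorem PM.extend {S : Finset ℕ} {H : Er} (h : PM A B E m) (hS : S ⊆ A)
    (h' : PM (A \ S) (B \ img m S) H m') (hH : ∀ a x, H a x → E a x) :
    PM A B E fun a => if a ∈ S then m a else m' a := by
  have h1 : PM S (img m S) E fun a => if a ∈ S then m a else m' a :=
    (h.sub hS).congr fun a ha => if_pos ha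
  have h2 : PM (A \ S) (B \ img m S) E fun a => if a ∈ S then m a else m' a :=
    (h'.mono fun a _ x _ hx => hH a x hx).congr fun a ha => if_neg (Finset.mem_sdiff.1 ha).2
  have hsub : img m S ⊆ B := by
    rw [← h.img_eq]
    exact Finset.image_subset_image hS
  have h3 := h1.glue h2 Finset.disjoint_sdiff
  rwa [Finset.union_sdiff_of_subset hS, Finset.union_sdiff_of_subset hsub] at h3

theorem val_congr (c : Co) (e : ∀ a ∈ A, m' a = m a) : val c A m' = val c A m :=
  Finset.sum_congr rfl fun a ha => by rw [e a ha]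

theorem val_sdiff (c : Co) {S : Finset ℕ} (hS : S ⊆ A) (m : Mt) :
    val c A m = val c S m + val c (A \ S) m := by
  unfold val
  rw [← Finset.sum_sdiff hS, add_comm]

theorem val_extend (c : Co) {S : Finset ℕ} (hS : S ⊆ A) (m m' : Mt) :
    val c A (fun a => if a ∈ S then m a else m' a) = val c S m + val c (A \ S) m' := by
  rw [val_sdiff c hS]
  congr 1
  · exact val_congr c fun a ha => if_pos ha
  · exact val_congr c fun a ha => if_neg (Finset.mem_sdiff.1 ha).2

theorem lc_le_one (a : ℕ) (x : ℕ × Bool) : lc a x ≤ 1 := Bool.toNat_le x.2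

theorem lab_le (A : Finset ℕ) (m : Mt) : lab A m ≤ #A := by
  unfold lab val
  calc ∑ a ∈ A, lc a (m a) ≤ ∑ _a ∈ A, 1 := Finset.sum_le_sum fun a _ => lc_le_one a _
    _ = #A := by simp

theorem lab_le_add {U : Finset ℕ} (e : ∀ a ∈ A, a ∉ U → m' a = m a) :
    lab A m' ≤ lab A m + #U := by
  have hS : A ∩ U ⊆ A := Finset.inter_subset_left
  have h1 : lab A m' = lab (A ∩ U) m' + lab (A \ (A ∩ U)) m' := val_sdiff lc hS m'
  have h2 : lab A m = lab (A ∩ U) m + lab (A \ (A ∩ U)) m := val_sdiff lc hS m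
  have h3 : lab (A \ (A ∩ U)) m' = lab (A \ (A ∩ U)) m :=
    val_congr lc fun a ha => e a (Finset.mem_sdiff.1 ha).1 fun hU =>
      (Finset.mem_sdiff.1 ha).2 (Finset.mem_inter.2 ⟨(Finset.mem_sdiff.1 ha).1, hU⟩)
  have h4 := lab_le (A ∩ U) m'
  have h5 : #(A ∩ U) ≤ #U := Finset.card_le_card Finset.inter_subset_right
  omega

/-- The sum of a function of the partner does not depend on the matching. -/
theorem PM.sum_head {M : Type} [AddCommMonoid M] (h : PM A B E m) (f : ℕ → M) :
    ∑ a ∈ A, f (m a).1 = ∑ b ∈ B, f b := by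
  rw [← h.img_eq]
  unfold img
  rw [Finset.sum_image fun a ha b hb e => h.2.injOn ha hb e]

theorem exists_opt (c : Co) (h : PM A B E m) : ∃ m', Opt A B E (lab A m) c m' := by
  classical
  have hex : ∃ n, ∃ m', PM A B E m' ∧ lab A m' = lab A m ∧ val c A m' = n := ⟨_, m, h, rfl, rfl⟩
  obtain ⟨m₀, h0, hl, hv⟩ := Nat.find_spec hex
  refine ⟨m₀, h0, hl, fun m' h' hl' => ?_⟩
  rw [hv]
  exact Nat.find_min' hex ⟨m', h', hl', rfl⟩

end Pool.Agent.Lib.MP_be0860_lc.Sx
end

-- part Pool.Agent.Lib.MP_be0860_lc.Sx.Tab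
section

/-!
Tables and what they stand for.
-/

set_option autoImplicit false

namespace Pool.Agent.Lib.MP_be0860_lc.Sx

open Pool.Agent.Shared.PolyTime Finset

variable {N : ℕ}

theorem vs_mkV (f : ℕ → Bool) (a : ℕ) : vs (mkV N f) a = true ↔ a < N ∧ f a = true := by
  by_cases ha : a < N <;> simp [vs, mkV, List.getD_eq_getElem?_getD, ha]

theorem mem_fs {A : Vs} {a : ℕ} : a ∈ fs N A ↔ a < N ∧ vs A a = true := by
  simp [fs]

theorem fs_subset (A : Vs) : fs N A ⊆ range N := by
  exact filter_subset _ _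

theorem card_fs_le (A : Vs) : #(fs N A) ≤ N := by
  simpa using card_le_card (fs_subset (N := N) A)

theorem mem_fs_mkV {f : ℕ → Bool} {a : ℕ} : a ∈ fs N (mkV N f) ↔ a < N ∧ f a = true := by
  rw [mem_fs, vs_mkV]
  tauto

theorem er_mkE (f : ℕ → ℕ × Bool → Bool) (a : ℕ) (x : ℕ × Bool) :
    er (mkE N f) a x ↔ a < N ∧ x.1 < N ∧ f a x = true := by
  obtain ⟨b, c⟩ := x
  by_cases ha : a < N <;> by_cases hb : b < N <;> cases c <;>
    simp [er, ed, mkE, List.getD_eq_getElem?_getD, ha, hb]

theorem gt_mkT {f : Mt} {a : ℕ} (ha : a < N) (h : (f a).1 ≤ N) : gt (mkT N f) a = f a := by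
  simp [gt, mkT, List.getD_eq_getElem?_getD, ha, min_eq_left h]

theorem cs_mkC (f : Co) {a : ℕ} {x : ℕ × Bool} (ha : a < N) (hx : x.1 < N) :
    cs (mkC N f) a x = f a x := by
  obtain ⟨b, c⟩ := x
  have hb : b < N := hx
  cases c <;> simp [cs, mkC, List.getD_eq_getElem?_getD, ha, hb]

theorem val_mkC (f : Co) {A B : Finset ℕ} {E : Er} {m : Mt} (hA : A ⊆ range N) (hB : B ⊆ range N)
    (h : PM A B E m) : val (cs (mkC N f)) A m = val f A m := by
  refine sum_congr rfl fun a ha => cs_mkC f (mem_range.1 (hA ha)) (mem_range.1 (hB ?_))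
  exact mem_coe.1 (h.2.mapsTo (mem_coe.2 ha))

theorem sum_range_list (f : ℕ → ℕ) (n : ℕ) :
    ((List.range n).map f).sum = ∑ a ∈ range n, f a := by
  induction n with
  | zero => simp
  | succ n ih => rw [List.range_succ, List.map_append, List.sum_append, ih, sum_range_succ]; simp

theorem valT_eq (W : Cs) (A : Vs) (t : Tb) : valT N W A t = val (cs W) (fs N A) (gt t) := by
  rw [valT, sumBig, List.map_map, val, fs, sum_filter, ← sum_range_list]
  refine congrArg List.sum (List.map_congr_left fun a _ => ?_)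
  cases h : vs A a <;> simp [h]

theorem labT_eq (A : Vs) (t : Tb) : labT N A t = lab (fs N A) (gt t) := by
  rw [labT, lab, val, fs, sum_filter, ← sum_range_list]
  induction List.range N with
  | nil => simp
  | cons a l ih =>
    rw [List.countP_cons, ih, List.map_cons, List.sum_cons, add_comm]
    congr 1
    cases h : vs A a <;> cases h' : (gt t a).2 <;> simp [lc, h']

theorem cs_le_tot (W : Cs) {a : ℕ} {x : ℕ × Bool} (ha : a < N) (hx : x.1 < N) :
    cs W a x ≤ tot N W := by
  obtain ⟨b, c⟩ := x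
  have hb : b < N := hx
  have h : cs W a (b, false) + cs W a (b, true) ≤ tot N W := by
    refine List.single_le_sum (fun _ _ => Nat.zero_le _) _ ?_
    refine List.mem_map.2 ⟨⟨cs W a (b, false) + cs W a (b, true)⟩, ?_, rfl⟩
    exact List.mem_flatMap.2 ⟨a, List.mem_range.2 ha,
      List.mem_map.2 ⟨b, List.mem_range.2 hb, rfl⟩⟩
  cases c <;> omega

theorem val_lt_bigK (W : Cs) {A B : Finset ℕ} {E : Er} {m : Mt} (hA : A ⊆ range N)
    (hB : B ⊆ range N) (h : PM A B E m) : val (cs W) A m < bigK N W := by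
  have h1 : val (cs W) A m ≤ #A • tot N W :=
    sum_le_card_nsmul _ _ _ fun a ha => cs_le_tot W (mem_range.1 (hA ha))
      (mem_range.1 (hB (mem_coe.1 (h.2.mapsTo (mem_coe.2 ha)))))
  have h2 : #A ≤ N := by simpa using card_le_card hA
  have h3 : #A * tot N W ≤ N * tot N W := Nat.mul_le_mul_right _ h2
  rw [smul_eq_mul] at h1
  rw [bigK]
  omega

theorem pick_cons {β : Type} (p : β → β → Bool) (c : β) (l : List β) (i : β) :
    pick p (c :: l) i = pick p l (cond (p c i) c i) := rfl

theorem pick_mem {β : Type} (p : β → β → Bool) (l : List β) (i : β) : pick p l i ∈ i :: l := by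
  induction l generalizing i with
  | nil => simp [pick]
  | cons c l ih =>
    rw [pick_cons]
    rcases List.mem_cons.1 (ih (cond (p c i) c i)) with h | h
    · rw [h]
      cases p c i <;> simp
    · simp [h]

theorem pick_min {β : Type} (f : β → ℕ) (l : List β) (i : β) :
    ∀ x ∈ i :: l, f (pick (fun c b => bblt (f c) (f b)) l i) ≤ f x := by
  induction l generalizing i with
  | nil => simp [pick]
  | cons c l ih =>
    rw [pick_cons]
    have h0 := ih (cond (bblt (f c) (f i)) c i) _ List.mem_cons_self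
    have h1 : f (cond (bblt (f c) (f i)) c i) ≤ f i ∧ f (cond (bblt (f c) (f i)) c i) ≤ f c := by
      cases h : bblt (f c) (f i)
      · have h' : ¬ f c < f i := fun e => by rw [(bblt_eq _ _).2 e] at h; cases h
        exact ⟨le_rfl, not_lt.1 h'⟩
      · exact ⟨((bblt_eq _ _).1 h).le, le_rfl⟩
    intro x hx
    rcases List.mem_cons.1 hx with rfl | hx
    · exact h0.trans h1.1
    rcases List.mem_cons.1 hx with rfl | hx
    · exact h0.trans h1.2
    · exact ih _ x (List.mem_cons_of_mem _ hx)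

theorem pick_max {β : Type} (f : β → ℕ) (l : List β) (i : β) :
    ∀ x ∈ i :: l, f x ≤ f (pick (fun c b => bblt (f b) (f c)) l i) := by
  induction l generalizing i with
  | nil => simp [pick]
  | cons c l ih =>
    rw [pick_cons]
    have h0 := ih (cond (bblt (f i) (f c)) c i) _ List.mem_cons_self
    have h1 : f i ≤ f (cond (bblt (f i) (f c)) c i) ∧ f c ≤ f (cond (bblt (f i) (f c)) c i) := by
      cases h : bblt (f i) (f c)
      · have h' : ¬ f i < f c := fun e => by rw [(bblt_eq _ _).2 e] at h; cases h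
        exact ⟨le_rfl, not_lt.1 h'⟩
      · exact ⟨((bblt_eq _ _).1 h).le, le_rfl⟩
    intro x hx
    rcases List.mem_cons.1 hx with rfl | hx
    · exact h1.1.trans h0
    rcases List.mem_cons.1 hx with rfl | hx
    · exact h1.2.trans h0
    · exact ih _ x (List.mem_cons_of_mem _ hx)

theorem feas_iff (J : Jn) (t : Tb) : feas N J t = true ↔
    PM (fs N J.1) (fs N J.2.1) (er J.2.2.1) (gt t) ∧ lab (fs N J.1) (gt t) = J.2.2.2 := by
  rw [feas, Bool.and_eq_true, Bool.and_eq_true, beq_iff_eq, labT_eq]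
  refine and_congr_left fun _ => ?_
  simp only [List.all_eq_true, List.mem_range, Bool.or_eq_true, Bool.and_eq_true,
    Bool.not_eq_true', List.any_eq_true, beq_iff_eq, Nat.blt_eq, beq_eq_false_iff_ne]
  constructor
  · rintro ⟨h1, h2⟩
    have h3 : ∀ a ∈ fs N J.1, ((ed J.2.2.1 a (gt t a) = true ∧ (gt t a).1 < N) ∧
        vs J.2.1 (gt t a).1 = true) ∧
        ∀ a' < N, (vs J.1 a' = false ∨ (gt t a').1 ≠ (gt t a).1) ∨ a' = a := by
      intro a ha
      obtain ⟨ha1, ha2⟩ := mem_fs.1 ha
      rcases h1 a ha1 with h | h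
      · rw [ha2] at h; cases h
      · exact h
    refine ⟨fun a ha => (h3 a ha).1.1.1, fun a ha => ?_, fun a ha a' ha' e => ?_, fun b hb => ?_⟩
    · exact mem_coe.2 (mem_fs.2 ⟨(h3 a ha).1.1.2, (h3 a ha).1.2⟩)
    · obtain ⟨ha1, ha2⟩ := mem_fs.1 (mem_coe.1 ha)
      rcases (h3 a' ha').2 a ha1 with (h | h) | h
      · rw [ha2] at h; cases h
      · exact absurd e h
      · exact h
    · obtain ⟨hb1, hb2⟩ := mem_fs.1 (mem_coe.1 hb)
      rcases h2 b hb1 with h | ⟨a, ha1, ha2, ha3⟩
      · rw [hb2] at h; cases h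
      · exact ⟨a, mem_coe.2 (mem_fs.2 ⟨ha1, ha2⟩), ha3⟩
  · rintro ⟨h1, h2⟩
    refine ⟨fun a ha => ?_, fun b hb => ?_⟩
    · cases hv : vs J.1 a
      · exact Or.inl rfl
      have haA : a ∈ fs N J.1 := mem_fs.2 ⟨ha, hv⟩
      obtain ⟨hb1, hb2⟩ := mem_fs.1 (mem_coe.1 (h2.mapsTo (mem_coe.2 haA)))
      refine Or.inr ⟨⟨⟨h1 a haA, hb1⟩, hb2⟩, fun a' ha' => ?_⟩
      cases hv' : vs J.1 a'
      · exact Or.inl (Or.inl rfl)
      by_cases e : (gt t a').1 = (gt t a).1
      · exact Or.inr (h2.injOn (mem_coe.2 (mem_fs.2 ⟨ha', hv'⟩)) (mem_coe.2 haA) e)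
      · exact Or.inl (Or.inr e)
    · cases hv : vs J.2.1 b
      · exact Or.inl rfl
      obtain ⟨a, ha, e⟩ := h2.surjOn (mem_coe.2 (mem_fs.2 ⟨hb, hv⟩))
      obtain ⟨ha1, ha2⟩ := mem_fs.1 (mem_coe.1 ha)
      exact Or.inr ⟨a, ha1, ha2, e⟩

theorem best_opt {W : Cs} {J : Jn} {l : List Tb} {t : Tb} (ht : t ∈ l)
    (h : Opt (fs N J.1) (fs N J.2.1) (er J.2.2.1) J.2.2.2 (cs W) (gt t)) :
    Opt (fs N J.1) (fs N J.2.1) (er J.2.2.1) J.2.2.2 (cs W) (gt (best N W J l)) := by
  have hf : feas N J t = true := (feas_iff J t).2 ⟨h.1, h.2.1⟩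
  have h1 : keyT N W J (best N W J l) ≤ keyT N W J t :=
    pick_min (keyT N W J) l [] t (List.mem_cons_of_mem _ ht)
  have h2 : keyT N W J t = val (cs W) (fs N J.1) (gt t) := by
    rw [keyT, hf, cond_true, valT_eq]
  have h3 := val_lt_bigK W (fs_subset J.1) (fs_subset J.2.1) h.1
  cases hb : feas N J (best N W J l)
  · have h4 : keyT N W J (best N W J l) = bigK N W := by rw [keyT, hb, cond_false]
    omega
  · have h4 : keyT N W J (best N W J l) = val (cs W) (fs N J.1) (gt (best N W J l)) := by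
      rw [keyT, hb, cond_true, valT_eq]
    obtain ⟨h5, h6⟩ := (feas_iff J _).1 hb
    refine ⟨h5, h6, fun m' hm hk => ?_⟩
    have h7 := h.2.2 m' hm hk
    omega

theorem dig_succ {b x : ℕ} (hb : 0 < b) (hx : x < b) (E i : ℕ) :
    dig b (E + 1) (x + b * i) = x :: dig b E i := by
  have h1 : (x + b * i) / b = i := by
    rw [Nat.add_mul_div_left _ _ hb, Nat.div_eq_of_lt hx, zero_add]
  have h2 : (x + b * i) % b = x := by
    rw [Nat.add_mul_mod_self_left, Nat.mod_eq_of_lt hx]
  rw [dig, List.range_succ_eq_map, List.map_cons, List.map_map, dig]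
  congr 1
  refine List.map_congr_left fun t _ => ?_
  simp only [Function.comp, Nat.succ_eq_add_one, Function.iterate_succ_apply, h1]

theorem dig_surj {b E : ℕ} (hb : 0 < b) {g : List ℕ} (hg : ∀ x ∈ g, x < b) (hl : g.length ≤ E) :
    ∃ i < b ^ E, dig b E i = g ++ List.replicate (E - g.length) 0 := by
  induction E generalizing g with
  | zero =>
    obtain rfl : g = [] := List.length_eq_zero_iff.1 (Nat.le_zero.1 hl)
    exact ⟨0, by simp, by simp [dig]⟩
  | succ E ih =>
    cases g with
    | nil =>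
      obtain ⟨i, hi, e⟩ := ih (g := []) (by simp) (by simp)
      refine ⟨0 + b * i, ?_, ?_⟩
      · rw [pow_succ]; nlinarith
      · rw [dig_succ hb hb, e]
        simp [List.replicate_succ]
    | cons x g =>
      have hx : x < b := hg x List.mem_cons_self
      obtain ⟨i, hi, e⟩ := ih (g := g) (fun y hy => hg y (List.mem_cons_of_mem _ hy))
        (by simpa using hl)
      refine ⟨x + b * i, ?_, ?_⟩
      · rw [pow_succ]; nlinarith
      · rw [dig_succ hb hx, e]
        simp

/-- The string that lists the edges of `m` at the vertices of `S`. -/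
def encF (m : Mt) (S : List ℕ) : List ℕ := S.flatMap fun a => [a, (m a).1, (m a).2.toNat]

theorem encF_cons (m : Mt) (a : ℕ) (S : List ℕ) :
    encF m (a :: S) = a :: (m a).1 :: (m a).2.toNat :: encF m S := rfl

theorem length_encF (m : Mt) (S : List ℕ) : (encF m S).length = 3 * S.length := by
  induction S with
  | nil => simp [encF]
  | cons a S ih =>
    rw [encF_cons]
    simp only [List.length_cons, ih]
    omega

theorem edgesOf_succ (x y z : ℕ) (g : List ℕ) (n : ℕ) :
    edgesOf (x :: y :: z :: g) (n + 1) = (x, y, z == 1) :: edgesOf g n := by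
  rw [edgesOf, List.range_succ_eq_map, List.map_cons, List.map_map, edgesOf]
  rfl

theorem edgesOf_encF (m : Mt) (S g : List ℕ) :
    edgesOf (encF m S ++ g) S.length = S.map fun a => (a, m a) := by
  induction S with
  | nil => simp [edgesOf]
  | cons a S ih =>
    rw [encF_cons, List.length_cons, List.cons_append, List.cons_append, List.cons_append,
      edgesOf_succ, ih, List.map_cons]
    congr 1
    rcases h : m a with ⟨b, c⟩
    cases c <;> simp

theorem headD_filter (m : Mt) (S : List ℕ) (a : ℕ) (x : ℕ × Bool) (h : a ∈ S) :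
    (((S.map fun a => (a, m a)).filter fun p => p.1 == a).headD (a, x)).2 = m a := by
  induction S with
  | nil => cases h
  | cons c S ih =>
    by_cases e : c = a
    · subst e
      simp
    · rw [List.map_cons, List.filter_cons_of_neg (by simpa using e)]
      exact ih ((List.mem_cons.1 h).resolve_left fun e' => e e'.symm)

theorem gt_ovw (m : Mt) (S : List ℕ) (t : Tb) {a : ℕ} (ha : a < N) :
    (a ∈ S → (m a).1 ≤ N → gt (ovw N (S.map fun a => (a, m a)) t) a = m a) ∧
      (a ∉ S → (gt t a).1 ≤ N → gt (ovw N (S.map fun a => (a, m a)) t) a = gt t a) := by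
  constructor
  · intro h1 h2
    have e := headD_filter m S a (gt t a) h1
    rw [ovw, gt_mkT ha (by rw [e]; exact h2), e]
  · intro h1 h2
    have e : ((S.map fun a => (a, m a)).filter fun p => p.1 == a) = [] := by
      refine List.filter_eq_nil_iff.2 fun p hp => ?_
      obtain ⟨x, hx, rfl⟩ := List.mem_map.1 hp
      intro e
      exact h1 (beq_iff_eq.1 e ▸ hx)
    rw [ovw, gt_mkT ha (by rw [e]; exact h2), e]
    rfl

end Pool.Agent.Lib.MP_be0860_lc.Sx
end

-- part Pool.Agent.Lib.MP_be0860_lc.Sx.Walk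
section

/-!
Exchange along closed walks.
-/

set_option autoImplicit false

namespace Pool.Agent.Lib.MP_be0860_lc.Sx

open Pool.Agent.Shared.PolyTime Finset

variable {A B : Finset ℕ} {E : Er} {m m' : Mt}

theorem gain_append (c : Co) (m : Mt) (l l' : Arcs) :
    gain c m (l ++ l') = gain c m l + gain c m l' := by
  simp [gain]

theorem gain_perm (c : Co) (m : Mt) {l l' : Arcs} (h : l.Perm l') : gain c m l = gain c m l' := by
  exact (h.map _).sum_eq

theorem abs_gain_lc_le (m : Mt) (l : Arcs) : |gain lc m l| ≤ l.length := by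
  induction l with
  | nil => simp [gain]
  | cons p l ih =>
    have e : gain lc m (p :: l) =
        (((p.2.2).toNat : ℤ) - ((m p.1).2.toNat : ℤ)) + gain lc m l := by
      simp [gain, lc]
    have h1 : |((p.2.2).toNat : ℤ) - ((m p.1).2.toNat : ℤ)| ≤ 1 := by
      cases p.2.2 <;> cases (m p.1).2 <;> simp
    rw [e, List.length_cons]
    push_cast
    have h2 := abs_add_le (((p.2.2).toNat : ℤ) - ((m p.1).2.toNat : ℤ)) (gain lc m l)
    linarith

theorem Wk.mono {A' : Finset ℕ} {l : Arcs} (h : Wk A E m l) (hA : A ⊆ A') : Wk A' E m l := by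
  exact fun p hp => ⟨hA (h p hp).1, hA (h p hp).2.1, (h p hp).2.2⟩

theorem Wk.append {l l' : Arcs} (h : Wk A E m l) (h' : Wk A E m l') : Wk A E m (l ++ l') := by
  intro p hp
  rcases List.mem_append.1 hp with hp | hp
  · exact h p hp
  · exact h' p hp

theorem Wk.length_le {l : Arcs} (h : Wk A E m l) (hn : (l.map Prod.fst).Nodup) :
    l.length ≤ #A := by
  have h1 : (l.map Prod.fst).toFinset ⊆ A := by
    intro a ha
    obtain ⟨p, hp, rfl⟩ := List.mem_map.1 (List.mem_toFinset.1 ha)
    exact (h p hp).1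
  have h2 := Finset.card_le_card h1
  rwa [List.toFinset_card_of_nodup hn, List.length_map] at h2

/-- Exchange along a simple closed walk. -/
theorem rot_pm {l : Arcs} {s : ℕ} (hb : Set.BijOn (fun a => (m a).1) (A : Set ℕ) (B : Set ℕ))
    (hE : ∀ a ∈ A, a ∉ l.map Prod.fst → E a (m a)) (hc : Ch s l s)
    (hn : (l.map Prod.fst).Nodup) (hw : Wk A E m l)
    (h1 : ∀ p ∈ l, m' p.1 = ((m p.2.1).1, p.2.2))
    (h2 : ∀ a ∈ A, a ∉ l.map Prod.fst → m' a = m a) :
    PM A B E m' ∧ ∀ c : Co, (val c A m' : ℤ) = val c A m + gain c m l := by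
  obtain ⟨π, hp1, hp2⟩ := exists_move (1 : Equiv.Perm ℕ) hc hn
  simp only [Equiv.Perm.coe_one, id] at hp1 hp2
  have hmap : Set.MapsTo π (A : Set ℕ) (A : Set ℕ) := by
    intro a ha
    by_cases hl : a ∈ l.map Prod.fst
    · obtain ⟨p, hp, rfl⟩ := List.mem_map.1 hl
      rw [hp1 p hp]
      exact (hw p hp).2.1
    · rw [hp2 a hl]
      exact ha
  have hbij : Set.BijOn π (A : Set ℕ) (A : Set ℕ) :=
    (A.finite_toSet.injOn_iff_bijOn_of_mapsTo hmap).1 π.injective.injOn
  have hhead : ∀ a ∈ A, (m' a).1 = (m (π a)).1 := by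
    intro a ha
    by_cases hl : a ∈ l.map Prod.fst
    · obtain ⟨p, hp, rfl⟩ := List.mem_map.1 hl
      rw [hp1 p hp, h1 p hp]
    · rw [hp2 a hl, h2 a ha hl]
  refine ⟨⟨fun a ha => ?_, ?_⟩, fun c => ?_⟩
  · by_cases hl : a ∈ l.map Prod.fst
    · obtain ⟨p, hp, rfl⟩ := List.mem_map.1 hl
      rw [h1 p hp]
      exact (hw p hp).2.2
    · rw [h2 a ha hl]
      exact hE a ha hl
  · exact (hb.comp hbij).congr fun a ha => (hhead a ha).symm
  · have hsub : (l.map Prod.fst).toFinset ⊆ A := by
      intro a ha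
      obtain ⟨p, hp, rfl⟩ := List.mem_map.1 (List.mem_toFinset.1 ha)
      exact (hw p hp).1
    have e1 : ∑ a ∈ A, ((c a (m' a) : ℤ) - c a (m a)) =
        ∑ a ∈ (l.map Prod.fst).toFinset, ((c a (m' a) : ℤ) - c a (m a)) := by
      refine (Finset.sum_subset hsub fun a ha hna => ?_).symm
      rw [h2 a ha fun h => hna (List.mem_toFinset.2 h), sub_self]
    rw [List.sum_toFinset _ hn, List.map_map, Finset.sum_sub_distrib] at e1
    have e2 : gain c m l =
        (l.map ((fun a => (c a (m' a) : ℤ) - c a (m a)) ∘ Prod.fst)).sum := by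
      unfold gain
      congr 1
      refine List.map_congr_left fun p hp => ?_
      simp only [Function.comp]
      rw [h1 p hp]
    rw [e2, ← e1]
    unfold val
    push_cast
    ring

theorem exists_rot (m : Mt) {l : Arcs} (hn : (l.map Prod.fst).Nodup) : ∃ m' : Mt,
    (∀ p ∈ l, m' p.1 = ((m p.2.1).1, p.2.2)) ∧ ∀ a, a ∉ l.map Prod.fst → m' a = m a := by
  induction l with
  | nil => exact ⟨m, by simp, fun _ _ => rfl⟩
  | cons q l ih =>
    rw [List.map_cons, List.nodup_cons] at hn
    obtain ⟨m₁, h1, h2⟩ := ih hn.2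
    refine ⟨Function.update m₁ q.1 ((m q.2.1).1, q.2.2), fun p hp => ?_, fun a ha => ?_⟩
    · rcases List.mem_cons.1 hp with rfl | hp
      · simp
      · have hne : p.1 ≠ q.1 := fun e => hn.1 (e ▸ List.mem_map_of_mem hp)
        rw [Function.update_of_ne hne, h1 p hp]
    · rw [List.map_cons, List.mem_cons, not_or] at ha
      rw [Function.update_of_ne ha.1, h2 a ha.2]

/-- A property of the gain passes from simple closed walks to closed walks. -/
theorem closed_mem (c : Co) (G : AddSubmonoid ℤ) (L : ℕ)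
    (h : ∀ s l, Ch s l s → l ≠ [] → (l.map Prod.fst).Nodup → Wk A E m l → l.length ≤ L →
      gain c m l ∈ G) {s : ℕ} {l : Arcs} (hc : Ch s l s) (hw : Wk A E m l) (hl : l.length ≤ L) :
    gain c m l ∈ G := by
  have key : ∀ (n : ℕ) (s : ℕ) (l : Arcs), l.length ≤ n → Ch s l s → Wk A E m l →
      l.length ≤ L → gain c m l ∈ G := by
    intro n
    induction n with
    | zero =>
      intro s l h0 _ _ _
      have : l = [] := List.length_eq_zero_iff.1 (by omega)
      subst this
      simp [gain]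
    | succ n ih =>
      intro s l h0 hc hw hl
      by_cases hne : l = []
      · subst hne
        simp [gain]
      by_cases hn : (l.map Prod.fst).Nodup
      · exact h s l hc hne hn hw hl
      obtain ⟨X, Y, u, h1, h2, h3, h4, h5⟩ := ch_split hc hn
      have h6 := h5.length_eq
      have h7 := List.length_pos_iff.2 h3
      have h8 := List.length_pos_iff.2 h4
      rw [List.length_append] at h6
      rw [gain_perm c m h5, gain_append]
      refine G.add_mem (ih u X (by omega) h1 (fun p hp => hw p ?_) (by omega))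
        (ih s Y (by omega) h2 (fun p hp => hw p ?_) (by omega))
      · exact h5.mem_iff.2 (List.mem_append_left _ hp)
      · exact h5.mem_iff.2 (List.mem_append_right _ hp)
  exact key l.length s l le_rfl hc hw hl

theorem exists_period {f : ℕ → ℕ} (h : Set.BijOn f (A : Set ℕ) (A : Set ℕ)) :
    ∃ p, 0 < p ∧ ∀ a ∈ A, f^[p] a = a := by
  let e : Equiv.Perm (A : Set ℕ) := h.equiv f
  have he : ∀ (i : ℕ) (x : (A : Set ℕ)), ((e ^ i) x : ℕ) = f^[i] x := by
    intro i
    induction i with
    | zero => intro x; rfl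
    | succ i ih =>
      intro x
      rw [pow_succ', Equiv.Perm.mul_apply, Function.iterate_succ_apply', ← ih]
      rfl
  refine ⟨orderOf e, orderOf_pos e, fun a ha => ?_⟩
  have := he (orderOf e) ⟨a, ha⟩
  rw [pow_orderOf_eq_one] at this
  exact this.symm

theorem sum_iterate {f : ℕ → ℕ} (h : Set.BijOn f (A : Set ℕ) (A : Set ℕ)) (g : ℕ → ℤ) (S : ℕ) :
    ∑ a ∈ A, ∑ i ∈ range S, g (f^[i] a) = S * ∑ a ∈ A, g a := by
  rw [Finset.sum_comm]
  have h1 : ∀ i, ∑ a ∈ A, g (f^[i] a) = ∑ a ∈ A, g a := fun i =>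
    Finset.sum_nbij (f^[i]) (h.iterate i).mapsTo (h.iterate i).injOn (h.iterate i).surjOn
      fun _ _ => rfl
  simp [h1]

theorem link_bij' {π : ℕ → ℕ} (hb' : Set.BijOn (fun a => (m' a).1) (A : Set ℕ) (B : Set ℕ))
    (h : ∀ a ∈ A, π a ∈ A ∧ (m (π a)).1 = (m' a).1) : Set.BijOn π (A : Set ℕ) (A : Set ℕ) := by
  refine (A.finite_toSet.injOn_iff_bijOn_of_mapsTo fun a ha => (h a ha).1).1 ?_
  intro a ha a' ha' e
  refine hb'.injOn ha ha' ?_
  show (m' a).1 = (m' a').1
  rw [← (h a ha).2, ← (h a' ha').2, e]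

/-- The permutation comparing two matchings. -/
theorem exists_link (hb : Set.BijOn (fun a => (m a).1) (A : Set ℕ) (B : Set ℕ))
    (hb' : Set.BijOn (fun a => (m' a).1) (A : Set ℕ) (B : Set ℕ)) :
    ∃ π : ℕ → ℕ, Set.BijOn π (A : Set ℕ) (A : Set ℕ) ∧ ∀ a ∈ A, (m (π a)).1 = (m' a).1 := by
  have h1 : ∀ a, ∃ b, a ∈ A → b ∈ A ∧ (m b).1 = (m' a).1 := by
    intro a
    by_cases ha : a ∈ A
    · obtain ⟨b, hb1, hb2⟩ := hb.surjOn (hb'.mapsTo ha)
      exact ⟨b, fun _ => ⟨hb1, hb2⟩⟩
    · exact ⟨a, fun h => absurd h ha⟩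
  choose π hπ using h1
  exact ⟨π, link_bij' hb' hπ, fun a ha => (hπ a ha).2⟩

theorem link_bij {π : ℕ → ℕ} (hb : Set.BijOn (fun a => (m a).1) (A : Set ℕ) (B : Set ℕ))
    (hb' : Set.BijOn (fun a => (m' a).1) (A : Set ℕ) (B : Set ℕ))
    (h : ∀ a ∈ A, π a ∈ A ∧ (m (π a)).1 = (m' a).1) : Set.BijOn π (A : Set ℕ) (A : Set ℕ) := by
  have _ := hb
  exact link_bij' hb' h

theorem gain_orb {π : ℕ → ℕ} (c : Co) (a n : ℕ)
    (h : ∀ i < n, (m (π (π^[i] a))).1 = (m' (π^[i] a)).1) :
    gain c m (orb π (fun x => (m' x).2) a n) =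
      ∑ i ∈ range n, ((c (π^[i] a) (m' (π^[i] a)) : ℤ) - c (π^[i] a) (m (π^[i] a))) := by
  induction n with
  | zero => simp [gain, orb]
  | succ n ih =>
    have e : orb π (fun x => (m' x).2) a (n + 1) = orb π (fun x => (m' x).2) a n ++
        [(π^[n] a, π^[n + 1] a, (m' (π^[n] a)).2)] := by
      simp [orb, List.range_succ]
    rw [e, gain_append, ih fun i hi => h i (by omega), Finset.sum_range_succ]
    congr 1
    simp only [gain, List.map_cons, List.map_nil, List.sum_cons, List.sum_nil, add_zero]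
    rw [Function.iterate_succ_apply', h n (by omega)]

theorem wk_orb {π : ℕ → ℕ} (a n : ℕ) (hA : ∀ i ≤ n, π^[i] a ∈ A)
    (h : ∀ i < n, (m (π (π^[i] a))).1 = (m' (π^[i] a)).1 ∧ E (π^[i] a) (m' (π^[i] a))) :
    Wk A E m (orb π (fun x => (m' x).2) a n) := by
  intro p hp
  obtain ⟨i, hi, rfl⟩ := List.mem_map.1 hp
  have hi' := List.mem_range.1 hi
  refine ⟨hA i hi'.le, hA (i + 1) hi', ?_⟩
  show E (π^[i] a) ((m (π^[i + 1] a)).1, (m' (π^[i] a)).2)
  rw [Function.iterate_succ_apply', (h i hi').1]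
  exact (h i hi').2

/-- A matching that is not of minimum cost has a simple closed walk of negative gain. -/
theorem exists_neg (c : Co) (h : PM A B E m) (h' : PM A B E m') (hlt : val c A m' < val c A m) :
    ∃ s l, Ch s l s ∧ l ≠ [] ∧ (l.map Prod.fst).Nodup ∧ Wk A E m l ∧ gain c m l < 0 := by
  by_contra hno
  push Not at hno
  obtain ⟨π, hπ, hlink⟩ := exists_link h.2 h'.2
  obtain ⟨p, hp0, hp⟩ := exists_period hπ
  have hmem : ∀ a ∈ A, ∀ i, π^[i] a ∈ A := fun a ha i => (hπ.iterate i).mapsTo ha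
  have h1 : ∀ a ∈ A, 0 ≤ ∑ i ∈ range p,
      ((c (π^[i] a) (m' (π^[i] a)) : ℤ) - c (π^[i] a) (m (π^[i] a))) := by
    intro a ha
    rw [← gain_orb c a p fun i _ => hlink _ (hmem a ha i)]
    have hc := ch_orb π (fun x => (m' x).2) a p
    rw [hp a ha] at hc
    exact closed_mem c (AddSubmonoid.nonneg ℤ) _
      (fun s l h1 h2 h3 h4 _ => hno s l h1 h2 h3 h4) hc
      (wk_orb a p (fun i _ => hmem a ha i)
        fun i _ => ⟨hlink _ (hmem a ha i), h'.1 _ (hmem a ha i)⟩) le_rfl
  have h2 := Finset.sum_nonneg h1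
  rw [sum_iterate hπ (fun x => (c x (m' x) : ℤ) - c x (m x)) p, Finset.sum_sub_distrib] at h2
  have h3 : (∑ a ∈ A, (c a (m' a) : ℤ)) < ∑ a ∈ A, (c a (m a) : ℤ) := by
    unfold val at hlt
    exact_mod_cast hlt
  have h4 : (0 : ℤ) < p := by exact_mod_cast hp0
  nlinarith

/-- Closed walks of a matching of minimum cost have nonnegative gain. -/
theorem MinC.gain_nonneg {c : Co} (h : MinC A B E c m) {s : ℕ} {l : Arcs} (hc : Ch s l s)
    (hw : Wk A E m l) : 0 ≤ gain c m l := by
  refine closed_mem c (AddSubmonoid.nonneg ℤ) _ (fun s l h1 _ h3 h4 _ => ?_) hc hw le_rfl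
  obtain ⟨m', e1, e2⟩ := exists_rot m h3
  obtain ⟨k1, k2⟩ := rot_pm h.1.2 (fun a ha _ => h.1.1 a ha) h1 h3 h4 e1 fun a _ ha => e2 a ha
  have k3 := h.2 m' k1
  have k4 := k2 c
  show 0 ≤ gain c m l
  omega

end Pool.Agent.Lib.MP_be0860_lc.Sx
end

-- part Pool.Agent.Lib.MP_be0860_lc.Sx.Lay
section

/-!
Finding closed walks of negative cost.
-/

set_option autoImplicit false

namespace Pool.Agent.Lib.MP_be0860_lc.Sx

open Pool.Agent.Shared.PolyTime Finset

variable {N : ℕ} {W : Cs} {t : Tb}

theorem wc_cons (K : ℕ) (p : ℕ × ℕ × Bool) (l : Arcs) :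
    wc W K t (p :: l) =
      (cs W p.1 ((gt t p.2.1).1, p.2.2) + K - cs W p.1 (gt t p.1)) + wc W K t l := by
  simp [wc, sumBig]

theorem gain_cons (c : Co) (m : Mt) (p : ℕ × ℕ × Bool) (l : Arcs) :
    gain c m (p :: l) = ((c p.1 ((m p.2.1).1, p.2.2) : ℤ) - c p.1 (m p.1)) + gain c m l := by
  simp [gain]

theorem wc_eq {K : ℕ} (hK : ∀ a < N, cs W a (gt t a) ≤ K) {l : Arcs} (hl : ∀ p ∈ l, p.1 < N) :
    (wc W K t l : ℤ) = gain (cs W) (gt t) l + l.length * K := by
  induction l with
  | nil => simp [wc, sumBig, gain]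
  | cons p l ih =>
    have h1 := hK p.1 (hl p (by simp))
    have h2 := ih fun q hq => hl q (by simp [hq])
    rw [wc_cons, gain_cons, Nat.cast_add, h2, Nat.cast_sub (by omega), List.length_cons]
    push_cast
    ring

theorem lay_succ (K i : ℕ) : lay N W K t (i + 1) = layS N W K t (lay N W K t i) :=
  Function.iterate_succ_apply' _ _ _

theorem wk_lay1 (K : ℕ) {s v : ℕ} (hs : s < N) (hv : v < N) :
    wk (lay1 N W K t) s v =
      pick (fun c b => bblt (wc W K t c) (wc W K t b)) [[(s, v, true)]] [(s, v, false)] := by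
  rw [wk, lay1, getD_tab, if_pos ⟨hs, hv⟩]

theorem wk_layS (K : ℕ) (T : List (List Arcs)) {s v : ℕ} (hs : s < N) (hv : v < N) :
    wk (layS N W K t T) s v = pick (fun c b => bblt (wc W K t c) (wc W K t b))
      ((List.range N).flatMap fun u => [(s, u, false) :: wk T u v, (s, u, true) :: wk T u v])
      ((s, v, false) :: wk T v v) := by
  rw [wk, layS, getD_tab, if_pos ⟨hs, hv⟩]

theorem lay_sound (K i : ℕ) {s v : ℕ} (hs : s < N) (hv : v < N) :
    Ch s (wk (lay N W K t i) s v) v ∧ (wk (lay N W K t i) s v).length = i + 1 ∧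
      ∀ p ∈ wk (lay N W K t i) s v, p.1 < N ∧ p.2.1 < N := by
  induction i generalizing s with
  | zero =>
    have e : lay N W K t 0 = lay1 N W K t := rfl
    rw [e, wk_lay1 K hs hv]
    have h := pick_mem (fun c b => bblt (wc W K t c) (wc W K t b)) [[(s, v, true)]]
      [(s, v, false)]
    generalize pick (fun c b => bblt (wc W K t c) (wc W K t b)) [[(s, v, true)]]
      [(s, v, false)] = w at h
    simp only [List.mem_cons, List.not_mem_nil, or_false] at h
    rcases h with rfl | rfl
    · exact ⟨⟨rfl, rfl⟩, rfl, fun p hp => by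
        rw [List.mem_singleton.1 hp]; exact ⟨hs, hv⟩⟩
    · exact ⟨⟨rfl, rfl⟩, rfl, fun p hp => by
        rw [List.mem_singleton.1 hp]; exact ⟨hs, hv⟩⟩
  | succ i ih =>
    rw [lay_succ, wk_layS K _ hs hv]
    have key : ∀ u < N, ∀ c : Bool, Ch s ((s, u, c) :: wk (lay N W K t i) u v) v ∧
        ((s, u, c) :: wk (lay N W K t i) u v).length = i + 1 + 1 ∧
        ∀ p ∈ (s, u, c) :: wk (lay N W K t i) u v, p.1 < N ∧ p.2.1 < N := by
      intro u hu c
      obtain ⟨h1, h2, h3⟩ := ih hu
      refine ⟨⟨rfl, h1⟩, by rw [List.length_cons, h2], fun p hp => ?_⟩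
      rcases List.mem_cons.1 hp with rfl | hp
      · exact ⟨hs, hu⟩
      · exact h3 p hp
    have h := pick_mem (fun c b => bblt (wc W K t c) (wc W K t b))
      ((List.range N).flatMap fun u => [(s, u, false) :: wk (lay N W K t i) u v,
        (s, u, true) :: wk (lay N W K t i) u v]) ((s, v, false) :: wk (lay N W K t i) v v)
    generalize pick (fun c b => bblt (wc W K t c) (wc W K t b))
      ((List.range N).flatMap fun u => [(s, u, false) :: wk (lay N W K t i) u v,
        (s, u, true) :: wk (lay N W K t i) u v]) ((s, v, false) :: wk (lay N W K t i) v v) = w at h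
    rcases List.mem_cons.1 h with rfl | h
    · exact key v hv false
    · obtain ⟨u, hu, h⟩ := List.mem_flatMap.1 h
      simp only [List.mem_cons, List.not_mem_nil, or_false] at h
      rcases h with rfl | rfl
      · exact key u (List.mem_range.1 hu) false
      · exact key u (List.mem_range.1 hu) true

theorem lay_min (K i : ℕ) {s v : ℕ} (hv : v < N) {l : Arcs} (hc : Ch s l v)
    (hl : l.length = i + 1) (hp : ∀ p ∈ l, p.1 < N ∧ p.2.1 < N) :
    wc W K t (wk (lay N W K t i) s v) ≤ wc W K t l := by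
  induction i generalizing s l with
  | zero =>
    obtain ⟨⟨a, u, c⟩, rfl⟩ := List.length_eq_one_iff.1 hl
    obtain rfl : a = s := hc.1
    obtain rfl : u = v := hc.2
    have hs : a < N := (hp (a, u, c) (by simp)).1
    have e : lay N W K t 0 = lay1 N W K t := rfl
    rw [e, wk_lay1 K hs hv]
    refine pick_min (wc W K t) _ _ _ ?_
    cases c <;> simp
  | succ i ih =>
    rcases l with _ | ⟨⟨a, u, c⟩, l⟩
    · simp at hl
    obtain rfl : a = s := hc.1
    have h0 := hp (a, u, c) (by simp)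
    have h1 := ih (s := u) (l := l) hc.2 (by simpa using hl) fun p hq => hp p (by simp [hq])
    rw [lay_succ, wk_layS K _ h0.1 hv]
    refine le_trans (pick_min (wc W K t) _ _ ((a, u, c) :: wk (lay N W K t i) u v) ?_) ?_
    · refine List.mem_cons_of_mem _ (List.mem_flatMap.2 ⟨u, List.mem_range.2 h0.2, ?_⟩)
      cases c <;> simp
    · rw [wc_cons, wc_cons]
      exact Nat.add_le_add_left h1 _

/-- The candidates among which a closed walk is chosen. -/
def cands (N : ℕ) (W : Cs) (K : ℕ) (t : Tb) : List Arcs :=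
  ((List.range N).flatMap fun i => (List.range N).map fun s => wk (lay N W K t i) s s).filter
    fun l => bblt (wc W K t l) (l.length * K) && simple l

theorem findC_eq (K : ℕ) : findC N W K t = (cands N W K t).headD [] := rfl

theorem cands_sound {K : ℕ} (hK : ∀ a < N, cs W a (gt t a) ≤ K) {l : Arcs}
    (h : l ∈ cands N W K t) : (∃ s, Ch s l s) ∧ (l.map Prod.fst).Nodup ∧
      (∀ p ∈ l, p.1 < N ∧ p.2.1 < N) ∧ gain (cs W) (gt t) l < 0 := by
  rw [cands, List.mem_filter, List.mem_flatMap] at h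
  obtain ⟨⟨i, -, h⟩, h2⟩ := h
  obtain ⟨s, hs, rfl⟩ := List.mem_map.1 h
  obtain ⟨h3, -, h4⟩ := lay_sound (W := W) (t := t) K i (List.mem_range.1 hs) (List.mem_range.1 hs)
  rw [Bool.and_eq_true, bblt_eq, simple_iff] at h2
  refine ⟨⟨s, h3⟩, h2.2, h4, ?_⟩
  have h5 := wc_eq hK fun p hp => (h4 p hp).1
  have h6 : (wc W K t (wk (lay N W K t i) s s) : ℤ) <
      ((wk (lay N W K t i) s s).length : ℤ) * K := by exact_mod_cast h2.1
  linarith

theorem cands_complete {K : ℕ} (hK : ∀ a < N, cs W a (gt t a) ≤ K) : ∀ (n : ℕ) (s : ℕ) (l : Arcs),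
    l.length ≤ n → n ≤ N → Ch s l s → (∀ p ∈ l, p.1 < N ∧ p.2.1 < N) →
      gain (cs W) (gt t) l < 0 → cands N W K t ≠ [] := by
  intro n
  induction n with
  | zero =>
    intro s l hl _ _ _ h
    rw [List.length_eq_zero_iff.1 (Nat.le_zero.1 hl)] at h
    simp [gain] at h
  | succ n ih =>
    intro s l hl hn hc hp h
    rcases l with _ | ⟨p, l⟩
    · simp [gain] at h
    have hs : s < N := hc.1 ▸ (hp p (by simp)).1
    rw [List.length_cons] at hl
    obtain ⟨h1, h2, h3⟩ := lay_sound (W := W) (t := t) K l.length hs hs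
    have h4 := lay_min (W := W) (t := t) K l.length hs hc rfl hp
    have h5 := wc_eq hK fun q hq => (h3 q hq).1
    have h6 := wc_eq hK fun q hq => (hp q hq).1
    have h7 : (wc W K t (wk (lay N W K t l.length) s s) : ℤ) ≤ wc W K t (p :: l) := by
      exact_mod_cast h4
    rw [List.length_cons, ← h2] at h6
    have h8 : gain (cs W) (gt t) (wk (lay N W K t l.length) s s) < 0 := by linarith
    by_cases hd : ((wk (lay N W K t l.length) s s).map Prod.fst).Nodup
    · refine List.ne_nil_of_mem (a := wk (lay N W K t l.length) s s) ?_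
      rw [cands, List.mem_filter, List.mem_flatMap]
      refine ⟨⟨l.length, List.mem_range.2 (by omega), List.mem_map.2
        ⟨s, List.mem_range.2 hs, rfl⟩⟩, ?_⟩
      rw [Bool.and_eq_true, bblt_eq, simple_iff]
      refine ⟨?_, hd⟩
      have h9 : (wc W K t (wk (lay N W K t l.length) s s) : ℤ) <
          ((wk (lay N W K t l.length) s s).length : ℤ) * K := by linarith
      exact_mod_cast h9
    · obtain ⟨A, B, u, hA, hB, hA0, hB0, hperm⟩ := ch_split h1 hd
      have hlen := hperm.length_eq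
      rw [List.length_append, h2] at hlen
      have hA1 := List.length_pos_iff.2 hA0
      have hB1 := List.length_pos_iff.2 hB0
      rw [gain_perm _ _ hperm, gain_append] at h8
      by_cases hg : gain (cs W) (gt t) A < 0
      · exact ih u A (by omega) (by omega) hA
          (fun q hq => h3 q (hperm.symm.subset (List.mem_append_left _ hq))) hg
      · exact ih s B (by omega) (by omega) hB
          (fun q hq => h3 q (hperm.symm.subset (List.mem_append_right _ hq))) (by linarith)

theorem rotT_spec (h : PM (range N) (range N) (fun _ _ => True) (gt t)) {l : Arcs} {s : ℕ}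
    (hc : Ch s l s) (hn : (l.map Prod.fst).Nodup) (hp : ∀ p ∈ l, p.1 < N ∧ p.2.1 < N) :
    PM (range N) (range N) (fun _ _ => True) (gt (rotT N t l)) ∧
      ∀ c : Co, (val c (range N) (gt (rotT N t l)) : ℤ) =
        val c (range N) (gt t) + gain c (gt t) l := by
  have hm : ∀ a < N, (gt t a).1 ≤ N := fun a ha =>
    (Finset.mem_range.1 (h.mem (Finset.mem_range.2 ha))).le
  refine rot_pm h.2 (fun _ _ _ => trivial) hc hn
    (fun p hq => ⟨Finset.mem_range.2 (hp p hq).1, Finset.mem_range.2 (hp p hq).2, trivial⟩)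
    (fun p hq => ?_) (fun a ha hq => ?_)
  · have e : arcAt t l p.1 = p := look_mem hn p hq _
    rw [rotT, gt_mkT (hp p hq).1]
    · simp only [e]
    · simp only [e]
      exact hm _ (hp p hq).2
  · have e : arcAt t l a = (a, a, (gt t a).2) := look_not_mem hq _
    rw [rotT, gt_mkT (Finset.mem_range.1 ha)]
    · simp only [e]
    · simp only [e]
      exact hm _ (Finset.mem_range.1 ha)

theorem improve_spec (h : PM (range N) (range N) (fun _ _ => True) (gt t)) :
    PM (range N) (range N) (fun _ _ => True) (gt (improve N W t)) ∧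
      val (cs W) (range N) (gt (improve N W t)) ≤ val (cs W) (range N) (gt t) ∧
      (MinC (range N) (range N) (fun _ _ => True) (cs W) (gt t) ∨
        val (cs W) (range N) (gt (improve N W t)) < val (cs W) (range N) (gt t)) := by
  have hK : ∀ a < N, cs W a (gt t a) ≤ tot N W := fun a ha =>
    cs_le_tot W ha (Finset.mem_range.1 (h.mem (Finset.mem_range.2 ha)))
  rw [improve, findC_eq]
  rcases hF : cands N W (tot N W) t with _ | ⟨l, F⟩
  · obtain ⟨h1, h2⟩ := rotT_spec (l := []) (s := 0) h rfl List.nodup_nil (by simp)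
    have h3 := h2 (cs W)
    rw [show gain (cs W) (gt t) [] = 0 from rfl, add_zero] at h3
    refine ⟨h1, le_of_eq (by exact_mod_cast h3), Or.inl ⟨h, fun m' hm' => ?_⟩⟩
    by_contra hlt
    obtain ⟨s, l, hc, -, hn, hw, hg⟩ := exists_neg (cs W) h hm' (not_le.1 hlt)
    have hl := hw.length_le hn
    rw [Finset.card_range] at hl
    exact cands_complete hK N s l hl le_rfl hc
      (fun p hp => ⟨Finset.mem_range.1 (hw p hp).1, Finset.mem_range.1 (hw p hp).2.1⟩) hg hF
  · obtain ⟨⟨s, hc⟩, hn, hp, hg⟩ := cands_sound hK (l := l) (by rw [hF]; simp)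
    obtain ⟨h1, h2⟩ := rotT_spec h hc hn hp
    have h3 := h2 (cs W)
    have h4 : val (cs W) (range N) (gt (rotT N t l)) < val (cs W) (range N) (gt t) := by
      have h5 : (val (cs W) (range N) (gt (rotT N t l)) : ℤ) < val (cs W) (range N) (gt t) := by
        linarith
      exact_mod_cast h5
    exact ⟨h1, h4.le, Or.inr h4⟩

end Pool.Agent.Lib.MP_be0860_lc.Sx
end
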